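import Pool.Agent.H6.LP.DOT

/-!
# BACK: back substitution

`post_iterF` with the invariant (after `k` steps): the registers `x j` with `j ≥ n - k` have their final values,
the others contain `0`, and for the rows `i ≥ n - k`:
`‖∑_j R i j x_j - Y i‖ ≤ 4 n u ∑_j ‖R i j‖ ‖x_j‖ + 3 u ‖R i i‖ ‖x_i‖`.
-/

set_option autoImplicit false

open Complex Matrix

namespace H6LP

/-- the error of one row -/
theorem BACK_row {u : ℝ} (hu0 : 0 ≤ u) (hu1 : u ≤ 1 / 1000) {y e w : ℂ}
    (he : Rel u y e) (hw : Rel u e w) : ‖w - y‖ ≤ 3 * u * ‖w‖ := by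
  unfold Rel at he hw
  have h1 : ‖y‖ ≤ ‖e‖ + u * ‖y‖ := by
    have : y = e - (e - y) := by ring
    calc ‖y‖ = ‖e - (e - y)‖ := by rw [← this]
      _ ≤ ‖e‖ + ‖e - y‖ := norm_sub_le _ _
      _ ≤ _ := by linarith
  have h2 : ‖e‖ ≤ ‖w‖ + u * ‖e‖ := by
    have : e = w - (w - e) := by ring
    calc ‖e‖ = ‖w - (w - e)‖ := by rw [← this]
      _ ≤ ‖w‖ + ‖w - e‖ := norm_sub_le _ _
      _ ≤ _ := by linarith
  have hy := norm_nonneg y
  have he0 := norm_nonneg e
  have hw0 := norm_nonneg w
  have h3 : ‖e‖ ≤ (1001 / 1000 + 1 / 100000) * ‖w‖ := by nlinarith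
  have h4 : ‖y‖ ≤ (1001 / 1000 + 1 / 100000) * ‖e‖ := by nlinarith
  have h5 : ‖y‖ ≤ 3 / 2 * ‖w‖ := by nlinarith
  have h6 : ‖e‖ ≤ 3 / 2 * ‖w‖ := by nlinarith
  have h7 : w - y = (w - e) + (e - y) := by ring
  rw [h7]
  refine (norm_add_le _ _).trans ?_
  nlinarith [mul_le_mul_of_nonneg_left h5 hu0, mul_le_mul_of_nonneg_left h6 hu0]

/-- the invariant -/
def BInv {n : ℕ} (u : ℝ) (R : Matrix (Fin n) (Fin n) ℂ) (Y : Fin n → ℂ) (k : ℕ) (x : RVec n)
    (env : Env) : Prop :=
  ∃ X : Fin n → ℂ, HasV env x X ∧ (∀ j : Fin n, (j : ℕ) + k < n → X j = 0) ∧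
    ∀ i : Fin n, n ≤ (i : ℕ) + k →
      ‖∑ j, R i j * X j - Y i‖ ≤ 4 * n * u * ∑ j, ‖R i j‖ * ‖X j‖ + 3 * u * (‖R i i‖ * ‖X i‖)

theorem BACK_fin {n : ℕ} (hn : 1 ≤ n) {u : ℝ} (hu0 : 0 ≤ u) {R : Matrix (Fin n) (Fin n) ℂ}
    {Y X : Fin n → ℂ}
    (h : ∀ i : Fin n, ‖∑ j, R i j * X j - Y i‖ ≤
      4 * n * u * ∑ j, ‖R i j‖ * ‖X j‖ + 3 * u * (‖R i i‖ * ‖X i‖)) :
    nv (R *ᵥ X - Y) ≤ 10 * n * u * fro R * nv X := by
  have hn1 : (1 : ℝ) ≤ n := by exact_mod_cast hn
  have hX := nv_nonneg X
  have hrow : ∀ i, ‖(R *ᵥ X - Y) i‖ ≤ 10 * n * u * nv X * nv (R i) := by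
    intro i
    have h1 := h i
    have h2 : ∑ j, ‖R i j‖ * ‖X j‖ ≤ nv (R i) * nv X := sum_norm_mul_le (R i) X
    have h3 : ‖R i i‖ * ‖X i‖ ≤ nv (R i) * nv X :=
      mul_le_mul (norm_le_nv (R i) i) (norm_le_nv X i) (norm_nonneg _) (nv_nonneg _)
    have h4 : (R *ᵥ X - Y) i = ∑ j, R i j * X j - Y i := by
      simp [Matrix.mulVec, dotProduct]
    rw [h4]
    refine h1.trans ?_
    have h5 : 0 ≤ nv (R i) * nv X := mul_nonneg (nv_nonneg _) hX
    have h6 : 4 * n * u * ∑ j, ‖R i j‖ * ‖X j‖ ≤ 4 * n * u * (nv (R i) * nv X) :=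
      mul_le_mul_of_nonneg_left h2 (by positivity)
    have h7 : 3 * u * (‖R i i‖ * ‖X i‖) ≤ 3 * n * u * (nv (R i) * nv X) := by
      refine mul_le_mul ?_ h3 (by positivity) (by positivity)
      nlinarith
    nlinarith [mul_nonneg (mul_nonneg (by linarith : (0 : ℝ) ≤ n) hu0) h5]
  have hc : 0 ≤ 10 * n * u * nv X := by positivity
  apply NB_sq_le (by have := fro_nonneg R; positivity)
  rw [nv_sq]
  calc ∑ i, ‖(R *ᵥ X - Y) i‖ ^ 2 ≤ ∑ i, (10 * n * u * nv X * nv (R i)) ^ 2 :=
        Finset.sum_le_sum (fun i _ => pow_le_pow_left₀ (norm_nonneg _) (hrow i) 2)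
    _ = (10 * n * u * nv X) ^ 2 * ∑ i, nv (R i) ^ 2 := by
        rw [Finset.mul_sum]
        exact Finset.sum_congr rfl (fun i _ => by ring)
    _ = (10 * n * u * fro R * nv X) ^ 2 := by
        rw [← fro_sq_rows]; ring

theorem post_back {ad : Adv} {u : ℝ} (hu : ad.Le u) {n : ℕ} (hn : 1 ≤ n) (hnu : n * u ≤ 1 / 1000)
    {env : Env} {r : RMat n n} {y : RVec n} {R : Matrix (Fin n) (Fin n) ℂ} {Y : Fin n → ℂ}
    (hr : HasM env r R) (hy : HasV env y Y) (hu' : UT R) (hd : ∀ i, R i i ≠ 0) :
    Post ad (backP r y) env (fun x env' => ∃ X : Fin n → ℂ, HasV env' x X ∧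
      nv (R *ᵥ X - Y) ≤ 10 * n * u * fro R * nv X) := by
  have hu0 : 0 ≤ u := hu.nonneg
  have hn1 : (1 : ℝ) ≤ n := by exact_mod_cast hn
  have hu1 : u ≤ 1 / 1000 := by nlinarith
  unfold backP
  refine Post.bind (post_cst hu env 0 0) ?_
  rintro z env1 h01 ⟨Z, hZ, hZr⟩
  have hZ0 : Z = 0 := by
    unfold Rel at hZr
    have h1 : ((0 : ℚ) : ℂ) + ((0 : ℚ) : ℂ) * I = 0 := by simp
    rw [h1, norm_zero, mul_zero, sub_zero] at hZr
    exact norm_le_zero_iff.mp hZr
  subst hZ0
  refine Post.weaken (Q := BInv u R Y n) (post_iterF n _ _ env1 (BInv u R Y) ?_ ?_) ?_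
  · refine ⟨fun _ => 0, fun i => hZ, fun _ _ => rfl, ?_⟩
    intro i hi
    have := i.2
    omega
  · rintro k x env2 h12 ⟨X, hX, hX0, hXi⟩
    set p : Fin n := Fin.rev k with hp
    have hpv : (p : ℕ) + k + 1 = n := by
      have := k.2
      simp only [hp, Fin.val_rev]
      omega
    have h02 := h01.trans h12
    have hR2 := hr.mono h02
    have hY2 := hy.mono h02
    refine Post.bind (post_dot hu hn (by linarith) (fun j => hR2 p j) hX) ?_
    rintro d env3 h23 ⟨D, hD, hDe⟩
    refine Post.bind (post_sub hu ((hY2 p).mono h23) hD) ?_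
    rintro e env4 h34 ⟨E, hE, hEe⟩
    refine Post.bind (post_div hu hE (((hR2 p p).mono h23).mono h34) (hd p)) ?_
    rintro q env5 h45 ⟨Q, hQ, hQe⟩
    refine Post.pure ?_
    have hXp : X p = 0 := hX0 p (by omega)
    refine ⟨Function.update X p Q, ?_, ?_, ?_⟩
    · intro j
      by_cases hj : j = p
      · subst hj
        simp only [Function.update_self]
        exact hQ
      · simp only [Function.update_of_ne hj]
        exact ((hX j).mono h23).mono (h34.trans h45)
    · intro j hj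
      have hjp : j ≠ p := by
        intro h
        rw [h] at hj
        omega
      rw [Function.update_of_ne hjp]
      exact hX0 j (by omega)
    · intro i hi
      by_cases hip : i = p
      · subst hip
        -- the new row
        have hs1 : ∑ j, R p j * Function.update X p Q j = R p p * Q + ∑ j, R p j * X j := by
          have e1 : ∀ j, R p j * Function.update X p Q j =
              (if j = p then R p p * Q else 0) + R p j * X j := by
            intro j
            by_cases hj : j = p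
            · subst hj
              rw [Function.update_self, if_pos rfl, hXp]
              ring
            · rw [Function.update_of_ne hj, if_neg hj, zero_add]
          rw [Finset.sum_congr rfl (fun j _ => e1 j), Finset.sum_add_distrib]
          simp
        have hs2 : ∑ j, ‖R p j‖ * ‖X j‖ ≤ ∑ j, ‖R p j‖ * ‖Function.update X p Q j‖ := by
          refine Finset.sum_le_sum (fun j _ => ?_)
          by_cases hj : j = p
          · subst hj
            rw [hXp, norm_zero, mul_zero]
            positivity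
          · rw [Function.update_of_ne hj]
        have hRQ : Rel u E (R p p * Q) := by
          unfold Rel at hQe ⊢
          have hne : ‖R p p‖ ≠ 0 := norm_ne_zero_iff.mpr (hd p)
          have e2 : R p p * Q - E = R p p * (Q - E / R p p) := by
            have := hd p
            field_simp
          rw [e2, norm_mul]
          calc ‖R p p‖ * ‖Q - E / R p p‖ ≤ ‖R p p‖ * (u * ‖E / R p p‖) :=
                mul_le_mul_of_nonneg_left hQe (norm_nonneg _)
            _ = u * ‖E‖ := by
                rw [norm_div]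
                field_simp
        have hrow := BACK_row hu0 hu1 hEe hRQ
        rw [norm_mul] at hrow
        have e3 : ∑ j, R p j * Function.update X p Q j - Y p =
            (R p p * Q - (Y p - D)) - (D - ∑ j, R p j * X j) := by
          rw [hs1]; ring
        rw [e3]
        refine (norm_sub_le _ _).trans ?_
        rw [Function.update_self]
        have h6 : 4 * n * u * ∑ j, ‖R p j‖ * ‖X j‖ ≤
            4 * n * u * ∑ j, ‖R p j‖ * ‖Function.update X p Q j‖ :=
          mul_le_mul_of_nonneg_left hs2 (by positivity)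
        linarith
      · -- an old row
        have hpi : (p : ℕ) < i := by
          have h1 : (i : ℕ) ≠ p := fun h => hip (Fin.ext h)
          omega
        have hRip : R i p = 0 := hu' i p hpi
        have hs1 : ∑ j, R i j * Function.update X p Q j = ∑ j, R i j * X j := by
          refine Finset.sum_congr rfl (fun j _ => ?_)
          by_cases hj : j = p
          · subst hj; rw [hRip]; ring
          · rw [Function.update_of_ne hj]
        have hs2 : ∑ j, ‖R i j‖ * ‖Function.update X p Q j‖ = ∑ j, ‖R i j‖ * ‖X j‖ := by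
          refine Finset.sum_congr rfl (fun j _ => ?_)
          by_cases hj : j = p
          · subst hj; rw [hRip]; simp
          · rw [Function.update_of_ne hj]
        rw [hs1, hs2, Function.update_of_ne hip]
        exact hXi i (by omega)
  · rintro x env2 _ ⟨X, hX, _, hXi⟩
    exact ⟨X, hX, BACK_fin hn hu0 (fun i => hXi i (by omega))⟩

end H6LP
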