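import Pool.Agent.H6.LP.NB

/-!
# NODEP: products over the nodes (pure)

`omg e` is a primitive `2^e`-th root of unity (`Complex.isPrimitiveRoot_exp`), `∏_j (y - x ω^j) = y^N - x^N`
(`IsPrimitiveRoot.pow_sub_pow_eq_prod_sub_mul` or similar).
κ-lemma: wlog `‖y‖ ≤ ‖x‖ = 1`-scaling, `w = y/x`, `‖w‖ ≤ 1`, `‖w - ω^j‖ ≥ κ` for all `j`.  The logarithmic
derivative: `N w^(N-1)/(w^N - 1) = ∑_j 1/(w - ω^j)`, so `‖w^N - 1‖ ≥ κ ‖w‖^(N-1)`; also
`‖w^N - 1‖ ≥ 1 - ‖w‖^(N-1)`; the maximum of `κ a` and `1 - a` is at least `κ/(1+κ) ≥ κ/2`.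
-/

set_option autoImplicit false

open Complex Matrix

namespace H6LP

theorem omg_norm (e : ℕ) : ‖omg e‖ = 1 := by
  unfold omg
  have h : (2 * Real.pi * I / 2 ^ e : ℂ) = ((2 * Real.pi / 2 ^ e : ℝ) : ℂ) * I := by
    push_cast
    ring
  rw [h]
  exact Complex.norm_exp_ofReal_mul_I _

theorem nodep_prim (e : ℕ) : IsPrimitiveRoot (omg e) (2 ^ e) := by
  have h := Complex.isPrimitiveRoot_exp (2 ^ e) (by positivity)
  unfold omg
  push_cast at h
  exact h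

theorem omg_pow (e : ℕ) : omg e ^ (2 ^ e) = 1 := (nodep_prim e).pow_eq_one

theorem nodep_roots (e : ℕ) :
    Polynomial.nthRootsFinset (2 ^ e) (1 : ℂ) =
      (Finset.range (2 ^ e)).image (fun j => omg e ^ j) := by
  classical
  symm
  apply Finset.eq_of_subset_of_card_le
  · intro z hz
    obtain ⟨j, _, rfl⟩ := Finset.mem_image.1 hz
    rw [Polynomial.mem_nthRootsFinset (by positivity)]
    rw [← pow_mul, mul_comm, pow_mul, omg_pow, one_pow]
  · rw [(nodep_prim e).card_nthRootsFinset, Finset.card_image_of_injOn, Finset.card_range]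
    intro i hi j hj hij
    exact (nodep_prim e).pow_inj (Finset.mem_range.1 (Finset.mem_coe.1 hi))
      (Finset.mem_range.1 (Finset.mem_coe.1 hj)) hij

theorem nodep_prod_roots (e : ℕ) {R : Type} [CommMonoid R] (f : ℂ → R) :
    ∏ z ∈ Polynomial.nthRootsFinset (2 ^ e) (1 : ℂ), f z =
      ∏ j ∈ Finset.range (2 ^ e), f (omg e ^ j) := by
  classical
  rw [nodep_roots, Finset.prod_image]
  intro i hi j hj hij
  exact (nodep_prim e).pow_inj (Finset.mem_range.1 (Finset.mem_coe.1 hi))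
    (Finset.mem_range.1 (Finset.mem_coe.1 hj)) hij

theorem prod_nodes (e : ℕ) (x y : ℂ) :
    ∏ j ∈ Finset.range (2 ^ e), ‖x * omg e ^ j - y‖ = ‖x ^ (2 ^ e) - y ^ (2 ^ e)‖ := by
  have h := (nodep_prim e).pow_sub_pow_eq_prod_sub_mul y x (by positivity)
  rw [nodep_prod_roots e (fun z => y - z * x)] at h
  rw [norm_sub_rev, h, norm_prod]
  refine Finset.prod_congr rfl fun j _ => ?_
  rw [norm_sub_rev, mul_comm]

/-- the kappa lemma for `‖w‖ ≤ 1` -/
theorem nodep_core (e : ℕ) (w : ℂ) (hw : ‖w‖ ≤ 1) {κ : ℝ} (hκ : 0 < κ) (hκ1 : κ ≤ 1)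
    (h : ∀ j < 2 ^ e, κ ≤ ‖w - omg e ^ j‖) : κ / 2 ≤ ‖w ^ (2 ^ e) - 1‖ := by
  classical
  have hN : 0 < 2 ^ e := by positivity
  have hprod : ∏ j ∈ Finset.range (2 ^ e), ‖w - omg e ^ j‖ = ‖w ^ (2 ^ e) - 1‖ := by
    have h1 := prod_nodes e 1 w
    rw [one_pow, norm_sub_rev] at h1
    rw [← h1]
    refine Finset.prod_congr rfl fun j _ => ?_
    rw [one_mul, norm_sub_rev]
  have hder : ((2 ^ e : ℕ) : ℂ) * w ^ (2 ^ e - 1) =
      ∑ j ∈ Finset.range (2 ^ e), ∏ i ∈ (Finset.range (2 ^ e)).erase j, (w - omg e ^ i) := by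
    have h1 := Polynomial.X_pow_sub_one_eq_prod (R := ℂ) hN (nodep_prim e)
    rw [nodep_prod_roots e (fun z => Polynomial.X - Polynomial.C z)] at h1
    have h2 := congrArg Polynomial.derivative h1
    rw [Polynomial.derivative_prod_finset] at h2
    have h3 := congrArg (Polynomial.eval w) h2
    rw [Polynomial.eval_finsetSum] at h3
    simp only [Polynomial.derivative_sub, Polynomial.derivative_X_pow, Polynomial.derivative_one,
      Polynomial.derivative_X, Polynomial.derivative_C, sub_zero, mul_one, Polynomial.eval_prod,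
      Polynomial.eval_sub, Polynomial.eval_X, Polynomial.eval_C, Polynomial.eval_mul,
      Polynomial.eval_pow] at h3
    simpa using h3
  have h4 : κ * ‖w‖ ^ (2 ^ e - 1) ≤ ‖w ^ (2 ^ e) - 1‖ := by
    have h5 : ((2 ^ e : ℕ) : ℝ) * ‖w‖ ^ (2 ^ e - 1) ≤
        ∑ j ∈ Finset.range (2 ^ e), ∏ i ∈ (Finset.range (2 ^ e)).erase j, ‖w - omg e ^ i‖ := by
      have h6 := congrArg (fun z : ℂ => ‖z‖) hder
      simp only [norm_mul, norm_pow] at h6
      rw [Complex.norm_natCast] at h6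
      rw [h6]
      refine (norm_sum_le _ _).trans (Finset.sum_le_sum fun j _ => ?_)
      rw [norm_prod]
    have h7 : ∀ j ∈ Finset.range (2 ^ e),
        κ * ∏ i ∈ (Finset.range (2 ^ e)).erase j, ‖w - omg e ^ i‖ ≤ ‖w ^ (2 ^ e) - 1‖ := by
      intro j hj
      rw [← hprod, ← Finset.mul_prod_erase _ _ hj]
      refine mul_le_mul_of_nonneg_right (h j (Finset.mem_range.1 hj)) ?_
      exact Finset.prod_nonneg fun i _ => norm_nonneg _
    have h8 : κ * (((2 ^ e : ℕ) : ℝ) * ‖w‖ ^ (2 ^ e - 1)) ≤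
        ((2 ^ e : ℕ) : ℝ) * ‖w ^ (2 ^ e) - 1‖ := by
      calc κ * (((2 ^ e : ℕ) : ℝ) * ‖w‖ ^ (2 ^ e - 1))
          ≤ κ * ∑ j ∈ Finset.range (2 ^ e),
              ∏ i ∈ (Finset.range (2 ^ e)).erase j, ‖w - omg e ^ i‖ :=
            mul_le_mul_of_nonneg_left h5 hκ.le
        _ = ∑ j ∈ Finset.range (2 ^ e),
              κ * ∏ i ∈ (Finset.range (2 ^ e)).erase j, ‖w - omg e ^ i‖ := Finset.mul_sum _ _ _
        _ ≤ ∑ _j ∈ Finset.range (2 ^ e), ‖w ^ (2 ^ e) - 1‖ := Finset.sum_le_sum h7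
        _ = ((2 ^ e : ℕ) : ℝ) * ‖w ^ (2 ^ e) - 1‖ := by
            rw [Finset.sum_const, Finset.card_range, nsmul_eq_mul]
    have h9 : (0 : ℝ) < ((2 ^ e : ℕ) : ℝ) := by exact_mod_cast hN
    refine le_of_mul_le_mul_left ?_ h9
    calc ((2 ^ e : ℕ) : ℝ) * (κ * ‖w‖ ^ (2 ^ e - 1))
        = κ * (((2 ^ e : ℕ) : ℝ) * ‖w‖ ^ (2 ^ e - 1)) := by ring
      _ ≤ _ := h8
  rcases le_or_gt (1 / 2) (‖w‖ ^ (2 ^ e - 1)) with h5 | h5
  · calc κ / 2 = κ * (1 / 2) := by ring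
      _ ≤ κ * ‖w‖ ^ (2 ^ e - 1) := mul_le_mul_of_nonneg_left h5 hκ.le
      _ ≤ _ := h4
  · have h6 : ‖w‖ ^ (2 ^ e) ≤ ‖w‖ ^ (2 ^ e - 1) :=
      pow_le_pow_of_le_one (norm_nonneg _) hw (Nat.sub_le _ _)
    have h7 : 1 - ‖w‖ ^ (2 ^ e) ≤ ‖w ^ (2 ^ e) - 1‖ := by
      have h8 := norm_sub_norm_le (1 : ℂ) (w ^ (2 ^ e))
      rw [norm_one, norm_pow, norm_sub_rev] at h8
      exact h8
    linarith

theorem node_kappa (e : ℕ) (x y : ℂ) {κ : ℝ} (hκ : 0 < κ) (hκ1 : κ ≤ 1)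
    (h : ∀ j < 2 ^ e, κ * max ‖x‖ ‖y‖ ≤ ‖x * omg e ^ j - y‖) :
    κ / 2 * (max ‖x‖ ‖y‖) ^ (2 ^ e) ≤ ‖x ^ (2 ^ e) - y ^ (2 ^ e)‖ := by
  have hN : 0 < 2 ^ e := by positivity
  rcases le_total ‖y‖ ‖x‖ with hxy | hxy
  · rw [max_eq_left hxy] at h ⊢
    rcases eq_or_ne x 0 with hx | hx
    · rw [hx, norm_zero, zero_pow hN.ne', mul_zero]
      exact norm_nonneg _
    · have hx' : 0 < ‖x‖ := norm_pos_iff.2 hx
      have h1 : ∀ j < 2 ^ e, κ ≤ ‖y / x - omg e ^ j‖ := by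
        intro j hj
        have h2 := h j hj
        have h3 : x * omg e ^ j - y = -(x * (y / x - omg e ^ j)) := by
          field_simp
          ring
        rw [h3, norm_neg, norm_mul, mul_comm κ] at h2
        exact le_of_mul_le_mul_left h2 hx'
      have h4 := nodep_core e (y / x) (by
        rw [norm_div]
        exact div_le_one_of_le₀ hxy (norm_nonneg _)) hκ hκ1 h1
      have h5 : x ^ (2 ^ e) - y ^ (2 ^ e) = -(x ^ (2 ^ e) * ((y / x) ^ (2 ^ e) - 1)) := by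
        rw [div_pow]
        field_simp
        ring
      rw [h5, norm_neg, norm_mul, norm_pow, mul_comm (κ / 2)]
      exact mul_le_mul_of_nonneg_left h4 (by positivity)
  · rw [max_eq_right hxy] at h ⊢
    rcases eq_or_ne y 0 with hy | hy
    · rw [hy, norm_zero, zero_pow hN.ne', mul_zero]
      exact norm_nonneg _
    · have hy' : 0 < ‖y‖ := norm_pos_iff.2 hy
      have hinv : ∀ i < 2 ^ e, ∃ j < 2 ^ e, omg e ^ i * omg e ^ j = 1 := by
        intro i hi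
        rcases Nat.eq_zero_or_pos i with rfl | hi0
        · exact ⟨0, hN, by simp⟩
        · refine ⟨2 ^ e - i, by omega, ?_⟩
          rw [← pow_add, Nat.add_sub_cancel' hi.le, omg_pow]
      have h1 : ∀ i < 2 ^ e, κ ≤ ‖x / y - omg e ^ i‖ := by
        intro i hi
        obtain ⟨j, hj, hij⟩ := hinv i hi
        have h2 := h j hj
        have h3 : x * omg e ^ j - y = y * omg e ^ j * (x / y - omg e ^ i) := by
          have h6 : y * omg e ^ j * (x / y - omg e ^ i) =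
              y * (x / y) * omg e ^ j - y * (omg e ^ i * omg e ^ j) := by ring
          rw [h6, hij, mul_div_cancel₀ x hy, mul_one]
        rw [h3, norm_mul, norm_mul, norm_pow, omg_norm, one_pow, mul_one, mul_comm κ] at h2
        exact le_of_mul_le_mul_left h2 hy'
      have h4 := nodep_core e (x / y) (by
        rw [norm_div]
        exact div_le_one_of_le₀ hxy (norm_nonneg _)) hκ hκ1 h1
      have h5 : x ^ (2 ^ e) - y ^ (2 ^ e) = y ^ (2 ^ e) * ((x / y) ^ (2 ^ e) - 1) := by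
        rw [div_pow]
        field_simp
      rw [h5, norm_mul, norm_pow, mul_comm (κ / 2)]
      exact mul_le_mul_of_nonneg_left h4 (by positivity)

end H6LP
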