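import Pool.Agent.H6.LP.DOT
import Pool.Agent.H6.LP.NODEP

/-!
# PHI: the computed root of unity and the computed direction

`omegaP`: `ω_2 = i`, `ω_{e+1} = √ω_e` (principal root, the argument is halved: `omg (e+1) = (omg e)^(1/2)` for
`e ≥ 2`); if `‖x̃ - x‖ ≤ ε` with `‖x‖ = 1`, `arg x ∈ [0, π/2]`, `ε` small then
`‖√x̃ - √x‖ = ‖x̃ - x‖ / ‖√x̃ + √x‖ ≤ ε` (the real parts of both roots are `≥ 1/2`), plus the relative error `u`.
-/

set_option autoImplicit false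

open Complex Matrix

namespace H6LP

theorem PHI_normSq_add (t : ℝ) : ‖(1 : ℂ) + t * I‖ ^ 2 = 1 + t ^ 2 := by
  rw [← Complex.normSq_eq_norm_sq, Complex.normSq_apply]
  simp
  ring

theorem PHI_normSq_sub (t : ℝ) : ‖(1 : ℂ) - t * I‖ ^ 2 = 1 + t ^ 2 := by
  rw [← Complex.normSq_eq_norm_sq, Complex.normSq_apply]
  simp
  ring

theorem PHI_one_le (t : ℝ) : 1 ≤ ‖(1 : ℂ) - t * I‖ := by
  have h1 := PHI_normSq_sub t
  have h2 := norm_nonneg ((1 : ℂ) - t * I)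
  nlinarith [sq_nonneg t]

theorem PHI_norm_eq (t : ℝ) : ‖(1 : ℂ) + t * I‖ = ‖(1 : ℂ) - t * I‖ := by
  have h1 := PHI_normSq_sub t
  have h2 := PHI_normSq_add t
  have h3 := norm_nonneg ((1 : ℂ) - t * I)
  have h4 := norm_nonneg ((1 : ℂ) + t * I)
  nlinarith

theorem PHI_le {t : ℝ} (ht : t ∈ Set.Icc (0 : ℝ) 1) : ‖(1 : ℂ) - t * I‖ ^ 2 ≤ 2 := by
  rw [PHI_normSq_sub]
  have := ht.1
  have := ht.2
  nlinarith

theorem PHI_ne (t : ℝ) : (1 : ℂ) - t * I ≠ 0 := by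
  intro h
  have := PHI_one_le t
  rw [h, norm_zero] at this
  linarith

theorem dir_norm (t : ℝ) : ‖dir t‖ = 1 := by
  unfold dir
  rw [norm_div, PHI_norm_eq]
  exact div_self (norm_ne_zero_iff.2 (PHI_ne t))

/-- `t ↦ dir t` does not contract distances on `[0,1]` -/
theorem dir_sub (t t' : ℝ) (ht : t ∈ Set.Icc (0 : ℝ) 1) (ht' : t' ∈ Set.Icc (0 : ℝ) 1) :
    |t - t'| ≤ ‖dir t - dir t'‖ := by
  have h1 := PHI_ne t
  have h2 := PHI_ne t'
  have h3 : dir t - dir t' = (2 * ((t - t' : ℝ) : ℂ) * I) / (((1 : ℂ) - t * I) * ((1 : ℂ) - t' * I)) := by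
    unfold dir
    rw [div_sub_div _ _ h1 h2]
    congr 1
    push_cast
    ring
  rw [h3, norm_div, norm_mul, norm_mul, norm_mul, Complex.norm_I, mul_one, Complex.norm_real,
    Real.norm_eq_abs, Complex.norm_ofNat]
  have h4 := PHI_one_le t
  have h5 := PHI_one_le t'
  have h6 := PHI_le ht
  have h7 := PHI_le ht'
  rw [le_div_iff₀ (by positivity), mul_comm]
  gcongr
  nlinarith [sq_nonneg (‖(1 : ℂ) - t * I‖ - ‖(1 : ℂ) - t' * I‖)]

/-! ### the principal root -/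

theorem PHI_sqrt_sq (z : ℂ) : z ^ (1 / 2 : ℂ) * z ^ (1 / 2 : ℂ) = z := by
  have h := Complex.cpow_ofNat_inv_pow z 2
  rw [← sq, one_div]
  exact h

theorem PHI_sqrt_re (z : ℂ) : 0 ≤ (z ^ (1 / 2 : ℂ)).re := by
  by_cases hz : z = 0
  · subst hz
    rw [Complex.zero_cpow (by norm_num)]
    simp
  · rw [Complex.cpow_def_of_ne_zero hz, Complex.exp_re]
    refine mul_nonneg (Real.exp_pos _).le ?_
    have h1 : (Complex.log z * (1 / 2)).im = Complex.arg z / 2 := by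
      rw [Complex.mul_im, Complex.log_im]
      norm_num
      ring
    rw [h1]
    apply Real.cos_nonneg_of_neg_pi_div_two_le_of_le
    · have := Complex.neg_pi_lt_arg z
      linarith
    · have := Complex.arg_le_pi z
      linarith

theorem PHI_sqrt_re_ge {z : ℂ} {ε : ℝ} (h1 : 1 - ε ≤ ‖z‖) (h2 : -ε ≤ z.re) (hε : ε ≤ 1 / 4) :
    1 / 2 ≤ (z ^ (1 / 2 : ℂ)).re := by
  set s := z ^ (1 / 2 : ℂ) with hs
  have h3 : s * s = z := PHI_sqrt_sq z
  have h4 : 0 ≤ s.re := PHI_sqrt_re z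
  have h5 : ‖z‖ = s.re * s.re + s.im * s.im := by
    rw [← h3, norm_mul, ← sq, ← Complex.normSq_eq_norm_sq, Complex.normSq_apply]
  have h6 : z.re = s.re * s.re - s.im * s.im := by
    rw [← h3, Complex.mul_re]
  by_contra hlt
  push Not at hlt
  have h7 : s.re * s.re < 1 / 4 := by nlinarith
  linarith

theorem PHI_omg_re (e : ℕ) : (omg e).re = Real.cos (2 * Real.pi / 2 ^ e) := by
  unfold omg
  have h1 : 2 * (Real.pi : ℂ) * I / 2 ^ e = ((2 * Real.pi / 2 ^ e : ℝ) : ℂ) * I := by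
    push_cast
    ring
  rw [h1, Complex.exp_ofReal_mul_I_re]

theorem PHI_omg_succ (e : ℕ) : omg (e + 1) * omg (e + 1) = omg e := by
  unfold omg
  rw [← Complex.exp_add]
  congr 1
  rw [pow_succ]
  have : (2 : ℂ) ^ e ≠ 0 := pow_ne_zero _ (by norm_num)
  field_simp
  ring

theorem PHI_omg2 : omg 2 = I := by
  unfold omg
  have h1 : 2 * (Real.pi : ℂ) * I / 2 ^ 2 = (Real.pi : ℂ) / 2 * I := by ring
  rw [h1, Complex.exp_pi_div_two_mul_I]

theorem PHI_omg_re_nonneg (k : ℕ) : 0 ≤ (omg (k + 2)).re := by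
  rw [PHI_omg_re]
  have hpi := Real.pi_pos
  have h1 : (1 : ℝ) ≤ 2 ^ k := one_le_pow₀ (by norm_num)
  apply Real.cos_nonneg_of_neg_pi_div_two_le_of_le
  · have : 0 ≤ 2 * Real.pi / 2 ^ (k + 2) := by positivity
    linarith
  · rw [div_le_iff₀ (by positivity), pow_add]
    nlinarith

theorem PHI_omg_re_half (k : ℕ) : 1 / 2 ≤ (omg (k + 3)).re := by
  have h1 := PHI_omg_re_nonneg k
  have h2 := PHI_omg_re_nonneg (k + 1)
  have h3 := PHI_omg_succ (k + 2)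
  have h4 : (omg (k + 2)).re = (omg (k + 3)).re * (omg (k + 3)).re - (omg (k + 3)).im * (omg (k + 3)).im := by
    rw [← h3, Complex.mul_re]
  have h5 : (omg (k + 3)).re * (omg (k + 3)).re + (omg (k + 3)).im * (omg (k + 3)).im = 1 := by
    have := omg_norm (k + 3)
    have h6 : ‖omg (k + 3)‖ ^ 2 = 1 := by rw [this]; norm_num
    rw [← Complex.normSq_eq_norm_sq, Complex.normSq_apply] at h6
    exact h6
  have h2' : 0 ≤ (omg (k + 3)).re := h2
  nlinarith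

/-- one root -/
theorem PHI_step {k : ℕ} {z : ℂ} {ε : ℝ} (h : ‖z - omg (k + 2)‖ ≤ ε) (hε : ε ≤ 1 / 4) :
    ‖z ^ (1 / 2 : ℂ) - omg (k + 3)‖ ≤ ε := by
  have h1 : 1 - ε ≤ ‖z‖ := by
    have h2 := norm_sub_norm_le (omg (k + 2)) z
    rw [omg_norm, norm_sub_rev] at h2
    linarith
  have h2 : -ε ≤ z.re := by
    have h3 := Complex.abs_re_le_norm (z - omg (k + 2))
    rw [Complex.sub_re] at h3
    have h4 := (abs_le.1 (h3.trans h)).1
    have h5 := PHI_omg_re_nonneg k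
    linarith
  have h3 := PHI_sqrt_re_ge h1 h2 hε
  have h4 := PHI_omg_re_half k
  set s := z ^ (1 / 2 : ℂ) with hs
  have h5 : (s - omg (k + 3)) * (s + omg (k + 3)) = z - omg (k + 2) := by
    have h6 : s * s = z := PHI_sqrt_sq z
    have h7 : omg (k + 3) * omg (k + 3) = omg (k + 2) := PHI_omg_succ (k + 2)
    calc (s - omg (k + 3)) * (s + omg (k + 3)) = s * s - omg (k + 3) * omg (k + 3) := by ring
      _ = z - omg (k + 2) := by rw [h6, h7]
  have h6 : 1 ≤ ‖s + omg (k + 3)‖ := by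
    have h7 := Complex.abs_re_le_norm (s + omg (k + 3))
    rw [Complex.add_re] at h7
    have h8 := le_abs_self (s.re + (omg (k + 3)).re)
    linarith
  have h7 : ‖s - omg (k + 3)‖ * ‖s + omg (k + 3)‖ ≤ ε := by
    rw [← norm_mul, h5]
    exact h
  have h8 := norm_nonneg (s - omg (k + 3))
  nlinarith

theorem post_omega {ad : Adv} {u : ℝ} (hu : ad.Le u) {env : Env} (e : ℕ) (he : 2 ≤ e)
    (heu : e * u ≤ 1 / 1000) :
    Post ad (omegaP e) env (fun r env' => ∃ z, Has env' r z ∧ ‖z - omg e‖ ≤ 4 * e * u) := by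
  have hu0 : 0 ≤ u := hu.nonneg
  obtain ⟨m, rfl⟩ : ∃ m, e = m + 2 := ⟨e - 2, by omega⟩
  unfold omegaP
  refine Post.bind (post_cst hu env _ _) ?_
  rintro i env1 h1 ⟨z0, hz0, hz0r⟩
  have hz : ‖z0 - omg 2‖ ≤ u := by
    rw [PHI_omg2]
    unfold Rel at hz0r
    have h2 : (((0 : ℚ) : ℂ) + ((1 : ℚ) : ℂ) * I) = I := by push_cast; ring
    rw [h2, Complex.norm_I, mul_one] at hz0r
    exact hz0r
  have hm : m + 2 - 2 = m := by omega
  rw [hm]
  refine (post_iterP m (fun _ w => sqrtP w) i env1 (fun k r env' => ∃ z, Has env' r z ∧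
      ‖z - omg (k + 2)‖ ≤ (2 * k + 1) * u) ⟨z0, hz0, by simpa using hz⟩ ?_).weaken ?_
  · rintro k hk r env' henv ⟨z, hzr, hzb⟩
    refine (post_sqrt hu hzr).weaken ?_
    rintro r2 env2 he2 ⟨z2, hz2, hz2r⟩
    refine ⟨z2, hz2, ?_⟩
    have hkm : ((k : ℝ)) + 1 ≤ m := by exact_mod_cast hk
    have hsm : (2 * k + 1) * u ≤ 1 / 4 := by
      push_cast at heu
      nlinarith
    have h3 := PHI_step hzb hsm
    have h4 : ‖z ^ (1 / 2 : ℂ)‖ ≤ 2 := by
      have h5 := norm_sub_norm_le (z ^ (1 / 2 : ℂ)) (omg (k + 3))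
      rw [omg_norm] at h5
      linarith
    unfold Rel at hz2r
    have h5 : z2 - omg (k + 1 + 2) = (z2 - z ^ (1 / 2 : ℂ)) + (z ^ (1 / 2 : ℂ) - omg (k + 3)) := by ring
    rw [h5]
    refine (norm_add_le _ _).trans ?_
    have h6 : u * ‖z ^ (1 / 2 : ℂ)‖ ≤ u * 2 := by gcongr
    push_cast
    linarith
  · rintro r env' henv ⟨z, hzr, hzb⟩
    refine ⟨z, hzr, hzb.trans ?_⟩
    push_cast
    gcongr
    linarith [Nat.cast_nonneg (α := ℝ) m]

/-- arithmetic of the sum -/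
theorem PHI_sum {u t : ℝ} {a b a' b' z : ℂ} (hu0 : 0 ≤ u) (hu1 : u ≤ 1 / 1000) (hab : ‖a + b‖ ≤ 3 / 2)
    (ha : ‖a' - a‖ ≤ u) (hb : ‖b' - b‖ ≤ 4 * u) (hz : Rel u (a' + b') z) (ht : t = 7 * u) :
    ‖z - (a + b)‖ ≤ t := by
  unfold Rel at hz
  have h1 : ‖(a' + b') - (a + b)‖ ≤ 5 * u := by
    have : (a' + b') - (a + b) = (a' - a) + (b' - b) := by ring
    rw [this]
    refine (norm_add_le _ _).trans ?_
    linarith
  have h2 : ‖a' + b'‖ ≤ 3 / 2 + 5 * u := by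
    have := norm_sub_norm_le (a' + b') (a + b)
    linarith
  have h3 : z - (a + b) = (z - (a' + b')) + ((a' + b') - (a + b)) := by ring
  rw [h3, ht]
  refine (norm_add_le _ _).trans ?_
  nlinarith

theorem post_phi {ad : Adv} {u : ℝ} (hu : ad.Le u) (hu1 : u ≤ 1 / 1000) {env : Env} {r : ℕ} {t : ℝ}
    {T : ℂ} (ht : t ∈ Set.Icc (0 : ℝ) 1) (hT : ‖T - t‖ ≤ u * t) (hr : Has env r T) :
    Post ad (phiP r) env (fun r env' => ∃ z, Has env' r z ∧ ‖z - dir t‖ ≤ 40 * u) := by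
  have hu0 : 0 ≤ u := hu.nonneg
  have ht0 := ht.1
  have ht1 := ht.2
  unfold phiP
  refine Post.bind (post_cst hu env _ _) ?_
  rintro i env1 h1 ⟨J, hJ, hJr⟩
  have hJ' : ‖J - I‖ ≤ u := by
    unfold Rel at hJr
    have h2 : (((0 : ℚ) : ℂ) + ((1 : ℚ) : ℂ) * I) = I := by push_cast; ring
    rw [h2, Complex.norm_I, mul_one] at hJr
    exact hJr
  refine Post.bind (post_cst hu env1 _ _) ?_
  rintro o env2 h2 ⟨O, hO, hOr⟩
  have hO' : ‖O - 1‖ ≤ u := by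
    unfold Rel at hOr
    have h2 : (((1 : ℚ) : ℂ) + ((0 : ℚ) : ℂ) * I) = 1 := by push_cast; ring
    rw [h2, norm_one, mul_one] at hOr
    exact hOr
  refine Post.bind (post_mul hu (hJ.mono h2) (hr.mono (h1.trans h2))) ?_
  rintro it env3 h3 ⟨K, hK, hKr⟩
  have hTn : ‖T‖ ≤ 1 + u := by
    have h4 := norm_sub_norm_le T t
    rw [Complex.norm_real, Real.norm_eq_abs, abs_of_nonneg ht0] at h4
    nlinarith
  have hJn : ‖J‖ ≤ 1 + u := by
    have h4 := norm_sub_norm_le J I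
    rw [Complex.norm_I] at h4
    linarith
  have hK' : ‖K - t * I‖ ≤ 4 * u := by
    unfold Rel at hKr
    have h4 : K - t * I = (K - J * T) + ((J - I) * T + I * (T - t)) := by ring
    rw [h4]
    refine (norm_add_le _ _).trans ?_
    have h5 : ‖(J - I) * T + I * (T - t)‖ ≤ u * (1 + u) + u := by
      refine (norm_add_le _ _).trans ?_
      rw [norm_mul, norm_mul, Complex.norm_I, one_mul]
      have h6 : ‖J - I‖ * ‖T‖ ≤ u * (1 + u) := by gcongr
      nlinarith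
    rw [norm_mul] at hKr
    have h7 : u * (‖J‖ * ‖T‖) ≤ u * ((1 + u) * (1 + u)) := by gcongr
    have h8 : u * ((1 + u) * (1 + u)) ≤ u * 1.01 := by
      gcongr
      nlinarith
    have h9 : u * (1 + u) ≤ u * 1.01 := by
      gcongr
      linarith
    linarith
  have hKm : ‖(-K) - (-(t * I))‖ ≤ 4 * u := by
    have h4 : (-K) - (-(t * I)) = -(K - t * I) := by ring
    rw [h4, norm_neg]
    exact hK'
  have hnm : ‖(1 : ℂ) - t * I‖ ≤ 3 / 2 := by
    have h4 := PHI_le ht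
    have h5 := norm_nonneg ((1 : ℂ) - t * I)
    nlinarith
  have hnp : ‖(1 : ℂ) + t * I‖ ≤ 3 / 2 := by rw [PHI_norm_eq]; exact hnm
  refine Post.bind (post_add hu (hO.mono h3) hK) ?_
  rintro a env4 h4 ⟨A, hA, hAr⟩
  have hA' := PHI_sum hu0 hu1 hnp hO' hK' hAr rfl
  refine Post.bind (post_sub hu (hO.mono (h3.trans h4)) (hK.mono h4)) ?_
  rintro b env5 h5 ⟨B, hB, hBr⟩
  have hB' : ‖B - (1 - t * I)‖ ≤ 7 * u := by
    have h6 := PHI_sum (a := 1) (b := -(t * I)) (a' := O) (b' := -K) (z := B) hu0 hu1 (by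
      rw [← sub_eq_add_neg]; exact hnm) hO' hKm (by rw [← sub_eq_add_neg]; exact hBr) rfl
    rw [← sub_eq_add_neg] at h6
    exact h6
  have hb1 := PHI_one_le t
  have hBn : 0.99 ≤ ‖B‖ := by
    have h6 := norm_sub_norm_le (1 - t * I : ℂ) B
    rw [norm_sub_rev (1 - t * I : ℂ) B] at h6
    linarith
  have hB0 : B ≠ 0 := by
    intro h6
    rw [h6, norm_zero] at hBn
    norm_num at hBn
  refine (post_div hu (hA.mono h5) hB hB0).weaken ?_
  rintro r' env6 h6 ⟨z, hz, hzr⟩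
  refine ⟨z, hz, ?_⟩
  have hq : ‖A / B - dir t‖ ≤ 15 * u := by
    unfold dir
    rw [div_sub_div _ _ hB0 (PHI_ne t), norm_div, norm_mul, div_le_iff₀ (by positivity)]
    have h7 : A * (1 - t * I) - B * (1 + t * I) =
        (A - (1 + t * I)) * (1 - t * I) - (B - (1 - t * I)) * (1 + t * I) := by ring
    rw [h7]
    refine (norm_sub_le _ _).trans ?_
    rw [norm_mul, norm_mul, PHI_norm_eq]
    have h8 : ‖A - (1 + t * I)‖ * ‖(1 : ℂ) - t * I‖ ≤ 7 * u * ‖(1 : ℂ) - t * I‖ := by gcongr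
    have h9 : ‖B - (1 - t * I)‖ * ‖(1 : ℂ) - t * I‖ ≤ 7 * u * ‖(1 : ℂ) - t * I‖ := by gcongr
    have h10 : 15 * u * (0.99 * ‖(1 : ℂ) - t * I‖) ≤ 15 * u * (‖B‖ * ‖(1 : ℂ) - t * I‖) := by gcongr
    have h11 : 0 ≤ u * ‖(1 : ℂ) - t * I‖ := by positivity
    nlinarith
  unfold Rel at hzr
  have hqn : ‖A / B‖ ≤ 2 := by
    have h7 := norm_sub_norm_le (A / B) (dir t)
    rw [dir_norm] at h7
    linarith
  have h8 : z - dir t = (z - A / B) + (A / B - dir t) := by ring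
  rw [h8]
  refine (norm_add_le _ _).trans ?_
  have h9 : u * ‖A / B‖ ≤ u * 2 := by gcongr
  linarith

end H6LP
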