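import Pool.Agent.H6.LP.DET
import Pool.Agent.H6.LP.PHI

/-!
# CIRC: the computed product over the nodes of a circle

`post_iterP` over `j < N = 2^e` with the invariant: the first register is `p̃_j` with
`‖p̃_j - ρ φ ω^j‖ ≤ ρ ((1 + 50 e u)^(j+1) - 1)·(…) ≤ ρ 200 e N u` and the second register is a real number in
`[0.994^j (1-u) Π_j, 1.006^j (1+u) Π_j]`, `Π_j = ∏_{i<j} |det (z_i - X)|` (`post_det` + `post_fmul`:
`0.995 (1-u) ≥ 0.994…`).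
-/

set_option autoImplicit false

open Complex Matrix

namespace H6LP

/-- one step of the recursion of the nodes (numbers) -/
theorem CIRC_arith {u v g E w : ℝ} (hu0 : 0 ≤ u) (hE : 1 ≤ E) (hv : v = 50 * E * u) (hg : 1 ≤ g)
    (hw : w ≤ 4 * E * u) (hw0 : 0 ≤ w) (hEu : E * u ≤ 1 / 8) :
    u * g * (1 + w) + (g - 1) * (1 + w) + w ≤ (1 + v) * g - 1 := by
  have h0 : 0 ≤ E * u := by positivity
  have h1 : u ≤ E * u := le_mul_of_one_le_left hu0 hE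
  have h2 : u * (1 + w) ≤ 2 * (E * u) := by nlinarith
  have h3 : u * (1 + w) + w ≤ v := by rw [hv]; nlinarith
  have h4 : (u * (1 + w) + w) * g ≤ v * g := by gcongr
  nlinarith

/-- one step of the recursion of the nodes -/
theorem CIRC_step {u v g E rho : ℝ} {x q W om p' : ℂ} (hu0 : 0 ≤ u) (hE : 1 ≤ E) (hv : v = 50 * E * u)
    (hg : 1 ≤ g) (hEu : E * u ≤ 1 / 8) (hrho : 0 ≤ rho) (hx : ‖x‖ = rho) (hom : ‖om‖ = 1)
    (hW : ‖W - om‖ ≤ 4 * E * u) (hq : ‖q - x‖ ≤ rho * (g - 1)) (hp : Rel u (q * W) p') :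
    ‖p' - x * om‖ ≤ rho * ((1 + v) * g - 1) := by
  unfold Rel at hp
  have hWn : ‖W‖ ≤ 1 + ‖W - om‖ := by
    have h1 : W = om + (W - om) := by ring
    calc ‖W‖ = ‖om + (W - om)‖ := by rw [← h1]
      _ ≤ ‖om‖ + ‖W - om‖ := norm_add_le _ _
      _ = 1 + ‖W - om‖ := by rw [hom]
  have hqn : ‖q‖ ≤ rho * g := by
    have h1 : q = x + (q - x) := by ring
    calc ‖q‖ = ‖x + (q - x)‖ := by rw [← h1]
      _ ≤ ‖x‖ + ‖q - x‖ := norm_add_le _ _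
      _ ≤ rho + rho * (g - 1) := by rw [hx]; gcongr
      _ = rho * g := by ring
  set w := ‖W - om‖ with hw
  have hw0 : 0 ≤ w := norm_nonneg _
  have h1 : p' - x * om = (p' - q * W) + ((q - x) * W + x * (W - om)) := by ring
  have h2 : ‖p' - x * om‖ ≤ u * (‖q‖ * ‖W‖) + (‖q - x‖ * ‖W‖ + ‖x‖ * w) := by
    rw [h1]
    refine (norm_add_le _ _).trans (add_le_add ?_ ((norm_add_le _ _).trans ?_))
    · rw [← norm_mul]; exact hp
    · rw [norm_mul, norm_mul]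
  refine h2.trans ?_
  have h3 := CIRC_arith hu0 hE hv hg hW hw0 hEu
  have hg0 : 0 ≤ g - 1 := by linarith
  calc u * (‖q‖ * ‖W‖) + (‖q - x‖ * ‖W‖ + ‖x‖ * w)
      ≤ u * ((rho * g) * (1 + w)) + ((rho * (g - 1)) * (1 + w) + rho * w) := by
        rw [hx]
        gcongr
    _ = rho * (u * g * (1 + w) + (g - 1) * (1 + w) + w) := by ring
    _ ≤ rho * ((1 + v) * g - 1) := by gcongr

/-- the starting point -/
theorem CIRC_start {u v E rho : ℝ} {phi Phi rr p' : ℂ} (hu0 : 0 ≤ u) (hu1 : u ≤ 1 / 100) (hE : 2 ≤ E)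
    (hv : v = 50 * E * u) (hrho : 0 ≤ rho) (hphi : ‖phi‖ = 1) (hPhi : ‖Phi - phi‖ ≤ 40 * u)
    (hr : Rel u (rho : ℂ) rr) (hp : Rel u (rr * Phi) p') :
    ‖p' - rho * phi‖ ≤ rho * ((1 + v) - 1) := by
  unfold Rel at hr hp
  have hrn0 : ‖(rho : ℂ)‖ = rho := by rw [Complex.norm_real, Real.norm_eq_abs, abs_of_nonneg hrho]
  rw [hrn0] at hr
  have hPn : ‖Phi‖ ≤ 1 + 40 * u := by
    have h1 : Phi = phi + (Phi - phi) := by ring
    calc ‖Phi‖ = ‖phi + (Phi - phi)‖ := by rw [← h1]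
      _ ≤ ‖phi‖ + ‖Phi - phi‖ := norm_add_le _ _
      _ ≤ 1 + 40 * u := by rw [hphi]; gcongr
  have hrn : ‖rr‖ ≤ rho * (1 + u) := by
    have h1 : rr = (rho : ℂ) + (rr - (rho : ℂ)) := by ring
    calc ‖rr‖ = ‖(rho : ℂ) + (rr - (rho : ℂ))‖ := by rw [← h1]
      _ ≤ ‖(rho : ℂ)‖ + ‖rr - (rho : ℂ)‖ := norm_add_le _ _
      _ ≤ rho + u * rho := by rw [hrn0]; gcongr
      _ = rho * (1 + u) := by ring
  have h1 : p' - rho * phi = (p' - rr * Phi) + ((rr - rho) * Phi + rho * (Phi - phi)) := by ring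
  have h2 : ‖p' - rho * phi‖ ≤ u * (‖rr‖ * ‖Phi‖) + (‖rr - rho‖ * ‖Phi‖ + ‖(rho : ℂ)‖ * ‖Phi - phi‖) := by
    rw [h1]
    refine (norm_add_le _ _).trans (add_le_add ?_ ((norm_add_le _ _).trans ?_))
    · rw [← norm_mul]; exact hp
    · rw [norm_mul, norm_mul]
  refine h2.trans ?_
  rw [hrn0]
  calc u * (‖rr‖ * ‖Phi‖) + (‖rr - rho‖ * ‖Phi‖ + rho * ‖Phi - phi‖)
      ≤ u * ((rho * (1 + u)) * (1 + 40 * u)) + ((u * rho) * (1 + 40 * u) + rho * (40 * u)) := by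
        gcongr
    _ = rho * (u * ((1 + u) * (1 + 40 * u) + (1 + 40 * u) + 40)) := by ring
    _ ≤ rho * (u * 100) := by
        gcongr
        nlinarith
    _ ≤ rho * ((1 + v) - 1) := by
        gcongr
        rw [hv]
        nlinarith

/-- the distance of the computed node -/
theorem CIRC_dist {u g rho : ℝ} {x q C c Z : ℂ} (hu0 : 0 ≤ u) (hu1 : u ≤ 1 / 100) (hrho : 0 ≤ rho)
    (hx : ‖x‖ = rho) (hq : ‖q - x‖ ≤ rho * (g - 1)) (hg : g ≤ 2) (hC : ‖C - c‖ ≤ u * ‖c‖)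
    (hZ : Rel u (C + q) Z) :
    ‖Z - (c + x)‖ ≤ u * (4 * ‖c‖ + 2 * rho) + rho * (g - 1) := by
  unfold Rel at hZ
  have hCn : ‖C‖ ≤ ‖c‖ + u * ‖c‖ := by
    have h1 : C = c + (C - c) := by ring
    calc ‖C‖ = ‖c + (C - c)‖ := by rw [← h1]
      _ ≤ ‖c‖ + ‖C - c‖ := norm_add_le _ _
      _ ≤ ‖c‖ + u * ‖c‖ := by gcongr
  have hqn : ‖q‖ ≤ 2 * rho := by
    have h1 : q = x + (q - x) := by ring
    calc ‖q‖ = ‖x + (q - x)‖ := by rw [← h1]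
      _ ≤ ‖x‖ + ‖q - x‖ := norm_add_le _ _
      _ ≤ rho + rho * (g - 1) := by rw [hx]; gcongr
      _ ≤ 2 * rho := by nlinarith
  have h1 : Z - (c + x) = (Z - (C + q)) + ((C - c) + (q - x)) := by ring
  have h2 : ‖Z - (c + x)‖ ≤ u * (‖C‖ + ‖q‖) + (u * ‖c‖ + rho * (g - 1)) := by
    rw [h1]
    refine (norm_add_le _ _).trans (add_le_add ?_ ((norm_add_le _ _).trans (add_le_add hC hq)))
    refine hZ.trans ?_
    gcongr
    exact norm_add_le _ _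
  refine h2.trans ?_
  have h3 : u * (‖C‖ + ‖q‖) ≤ u * ((‖c‖ + u * ‖c‖) + 2 * rho) := by gcongr
  have h4 : u * (u * ‖c‖) ≤ u * (1 * ‖c‖) := by gcongr; linarith
  have h5 : 0 ≤ u * ‖c‖ := by positivity
  nlinarith

/-- the accumulated product -/
theorem CIRC_acc {u a d D lo hi acc pr : ℝ} (hu0 : 0 ≤ u) (hu1 : u ≤ 1 / 10000) (hD : 0 < D) (hpr : 0 < pr)
    (hlo : 0 < lo) (hhi : 0 < hi)
    (hd : |d - D| ≤ 0.005 * D) (h1 : lo * pr ≤ acc) (h2 : acc ≤ hi * pr)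
    (ha : |a - acc * d| ≤ u * |acc * d|) :
    (lo * 0.994) * (pr * D) ≤ a ∧ a ≤ (hi * 1.006) * (pr * D) := by
  have hd' := abs_le.1 hd
  have hd0 : 0 < d := by nlinarith
  have hacc : 0 < acc := lt_of_lt_of_le (by positivity) h1
  rw [abs_of_pos (mul_pos hacc hd0)] at ha
  have ha' := abs_le.1 ha
  have h3 : acc * d ≤ (hi * pr) * (1.005 * D) := by
    gcongr
    linarith
  have h4 : (lo * pr) * (0.995 * D) ≤ acc * d := by
    gcongr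
    linarith
  have h5 : 0 < acc * d := mul_pos hacc hd0
  have h6 : u * (acc * d) ≤ 1 / 10000 * (acc * d) := by gcongr
  have h7 : 0 < lo * pr * D := by positivity
  have h8 : 0 < hi * pr * D := by positivity
  constructor <;> nlinarith

theorem CIRC_fin1 {u : ℝ} (hu0 : 0 ≤ u) (hu1 : u ≤ 1 / 10000) {N : ℕ} (hN : 1 ≤ N) :
    (0.99 : ℝ) ^ N ≤ (1 - u) * 0.994 ^ N := by
  obtain ⟨m, rfl⟩ : ∃ m, N = m + 1 := ⟨N - 1, by omega⟩
  have h1 : (0.99 : ℝ) ^ m ≤ 0.994 ^ m := by gcongr; norm_num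
  have h2 : (0 : ℝ) < 0.994 ^ m := by positivity
  rw [pow_succ, pow_succ]
  nlinarith

theorem CIRC_fin2 {u : ℝ} (hu0 : 0 ≤ u) (hu1 : u ≤ 1 / 10000) {N : ℕ} (hN : 1 ≤ N) :
    (1 + u) * (1.006 : ℝ) ^ N ≤ 1.01 ^ N := by
  obtain ⟨m, rfl⟩ : ∃ m, N = m + 1 := ⟨N - 1, by omega⟩
  have h1 : (1.006 : ℝ) ^ m ≤ 1.01 ^ m := by gcongr; norm_num
  have h2 : (0 : ℝ) < 1.006 ^ m := by positivity
  rw [pow_succ, pow_succ]
  nlinarith

theorem post_circ {ad : Adv} {u : ℝ} (hu : ad.Le u) {n : ℕ} (hn : 1 ≤ n)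
    {env : Env} {x : RMat n n} {cr φr wr : ℕ} {X : Matrix (Fin n) (Fin n) ℂ} {C c Φ φ W : ℂ} {t : ℝ}
    {rho : ℚ} {e : ℕ} (he : 2 ≤ e)
    (hx : HasM env x X) (hc : Has env cr C) (hφ : Has env φr Φ) (hw : Has env wr W)
    (hh : Hess X) (hb : ∀ k (hk : k + 1 < n), X ⟨k + 1, hk⟩ ⟨k, by omega⟩ ≠ 0)
    (hrho : 0 < rho) (hC : ‖C - c‖ ≤ u * ‖c‖) (hφ1 : ‖φ‖ = 1) (hΦ : ‖Φ - φ‖ ≤ 40 * u)
    (hW : ‖W - omg e‖ ≤ 4 * e * u)
    (ht : 0 < t) (ht1 : t ≤ 1) (hcol : ∀ j < 2 ^ e, ColAt X (nodeZ c rho φ e j) t)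
    (hnu : 10 ^ 8 * n ^ 3 * (2 ^ e) ^ 2 * u * (fro X + ‖c‖ + rho + 1) ≤ t) :
    Post ad (circP x cr rho φr wr e) env (fun r env' => ∃ P : ℝ, Has env' r (P : ℂ) ∧
      (0.99 : ℝ) ^ (2 ^ e) * ∏ j ∈ Finset.range (2 ^ e),
        ‖(nodeZ c rho φ e j • (1 : Matrix (Fin n) (Fin n) ℂ) - X).det‖ ≤ P ∧
      P ≤ (1.01 : ℝ) ^ (2 ^ e) * ∏ j ∈ Finset.range (2 ^ e),
        ‖(nodeZ c rho φ e j • (1 : Matrix (Fin n) (Fin n) ℂ) - X).det‖ ∧
      0 < ∏ j ∈ Finset.range (2 ^ e),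
        ‖(nodeZ c rho φ e j • (1 : Matrix (Fin n) (Fin n) ℂ) - X).det‖) := by
  have hu0 : 0 ≤ u := hu.nonneg
  have hn1 : (1 : ℝ) ≤ n := by exact_mod_cast hn
  have hfro0 : 0 ≤ fro X := fro_nonneg X
  have hrho0 : (0 : ℝ) < rho := by exact_mod_cast hrho
  have hN1 : (1 : ℝ) ≤ (2 : ℝ) ^ e := one_le_pow₀ (by norm_num)
  have heN : (e : ℝ) ≤ (2 : ℝ) ^ e := by exact_mod_cast (Nat.lt_two_pow_self (n := e)).le
  have he2 : (2 : ℝ) ≤ e := by exact_mod_cast he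
  set N : ℝ := (2 : ℝ) ^ e with hN
  set v : ℝ := 50 * e * u with hv
  -- smallness
  have hB : 10 ^ 8 * (N ^ 2 * u) * (fro X + ‖c‖ + rho + 1) ≤ t := by
    refine le_trans ?_ hnu
    have h1 : (1 : ℝ) ≤ (n : ℝ) ^ 3 := one_le_pow₀ hn1
    have h2 : (0 : ℝ) ≤ fro X + ‖c‖ + rho + 1 := by positivity
    calc 10 ^ 8 * (N ^ 2 * u) * (fro X + ‖c‖ + rho + 1)
        = 10 ^ 8 * 1 * N ^ 2 * u * (fro X + ‖c‖ + rho + 1) := by ring
      _ ≤ 10 ^ 8 * n ^ 3 * N ^ 2 * u * (fro X + ‖c‖ + rho + 1) := by gcongr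
  have hNu : 10 ^ 8 * (N ^ 2 * u) ≤ 1 := by
    have h1 : 10 ^ 8 * (N ^ 2 * u) * 1 ≤ 10 ^ 8 * (N ^ 2 * u) * (fro X + ‖c‖ + rho + 1) := by
      gcongr
      have := norm_nonneg c
      linarith
    linarith
  have huN : u ≤ N ^ 2 * u := le_mul_of_one_le_left hu0 (one_le_pow₀ hN1)
  have hu1 : u ≤ 1 / 10000 := by norm_num at hNu; linarith
  have heu : (e : ℝ) * u ≤ N ^ 2 * u := by
    gcongr
    nlinarith
  have hev : (e : ℝ) * u ≤ 1 / 8 := by norm_num at hNu; linarith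
  have hv0 : 0 ≤ v := by positivity
  have hg : ∀ j : ℕ, j < 2 ^ e → 1 ≤ (1 + v) ^ (j + 1) ∧ (1 + v) ^ (j + 1) - 1 ≤ 100 * (N ^ 2 * u) := by
    intro j hj
    refine ⟨one_le_pow₀ (by linarith), ?_⟩
    have hjN : ((j + 1 : ℕ) : ℝ) ≤ N := by
      rw [hN]
      exact_mod_cast hj
    have h1 : ((j + 1 : ℕ) : ℝ) * v ≤ 50 * (N ^ 2 * u) := by
      calc ((j + 1 : ℕ) : ℝ) * v ≤ N * (50 * N * u) := by
            rw [hv]
            gcongr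
        _ = 50 * (N ^ 2 * u) := by ring
    have h2 := one_add_pow_sub_one_le hv0 (k := j + 1) (by norm_num at hNu; linarith)
    linarith
  unfold circP
  refine Post.bind (post_cst hu env _ _) ?_
  rintro rr env1 h1 ⟨RR, hRR, hRRrel⟩
  have hRRrel' : Rel u ((rho : ℝ) : ℂ) RR := by
    have h5 : ((rho : ℂ) + ((0 : ℚ) : ℂ) * I) = ((rho : ℝ) : ℂ) := by push_cast; ring
    rw [h5] at hRRrel
    exact hRRrel
  refine Post.bind (post_mul hu hRR (hφ.mono h1)) ?_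
  rintro p env2 h2 ⟨P0, hP0, hP0rel⟩
  have hstart := CIRC_start hu0 (by linarith) he2 hv hrho0.le hφ1 hΦ hRRrel' hP0rel
  refine Post.bind (post_cst hu env2 _ _) ?_
  rintro o env3 h3 ⟨O, hO, hOrel⟩
  refine Post.bind (post_re hO) ?_
  rintro one env4 h4 hone
  have hOre : |O.re - 1| ≤ u := by
    unfold Rel at hOrel
    have h7 := Complex.abs_re_le_norm (O - (((1 : ℚ) : ℂ) + ((0 : ℚ) : ℂ) * I))
    have h8 : (O - (((1 : ℚ) : ℂ) + ((0 : ℚ) : ℂ) * I)).re = O.re - 1 := by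
      push_cast
      norm_num
    have h9 : ‖(((1 : ℚ) : ℂ) + ((0 : ℚ) : ℂ) * I)‖ = 1 := by
      push_cast
      norm_num
    rw [h8] at h7
    rw [h9] at hOrel
    linarith
  have hOre' := abs_le.1 hOre
  refine Post.bind (post_iterP (2 ^ e) _ (p, one) env4 (fun k S env' => ∃ (q : ℂ) (acc : ℝ),
    Has env' S.1 q ∧ Has env' S.2 (acc : ℂ) ∧
    ‖q - rho * φ * omg e ^ k‖ ≤ rho * ((1 + v) ^ (k + 1) - 1) ∧
    ((1 - u) * 0.994 ^ k) * ∏ j ∈ Finset.range k,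
        ‖(nodeZ c rho φ e j • (1 : Matrix (Fin n) (Fin n) ℂ) - X).det‖ ≤ acc ∧
    acc ≤ ((1 + u) * 1.006 ^ k) * ∏ j ∈ Finset.range k,
        ‖(nodeZ c rho φ e j • (1 : Matrix (Fin n) (Fin n) ℂ) - X).det‖ ∧
    0 < ∏ j ∈ Finset.range k,
        ‖(nodeZ c rho φ e j • (1 : Matrix (Fin n) (Fin n) ℂ) - X).det‖) ?_ ?_) ?_
  · refine ⟨P0, O.re, hP0.mono (h3.trans h4), hone, ?_, ?_, ?_, ?_⟩
    · simpa using hstart
    · simp only [pow_zero, mul_one, Finset.range_zero, Finset.prod_empty]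
      linarith
    · simp only [pow_zero, mul_one, Finset.range_zero, Finset.prod_empty]
      linarith
    · simp
  · rintro k hk ⟨s1, s2⟩ env5 h5 ⟨q, acc, hq, hacc, hqd, hlo, hhi, hpos⟩
    simp only at hq hacc ⊢
    obtain ⟨hg1, hg2⟩ := hg k hk
    have hxn : ‖(rho : ℂ) * φ * omg e ^ k‖ = rho := by
      rw [norm_mul, norm_mul, norm_pow, omg_norm, hφ1, one_pow, mul_one, mul_one]
      have : ((rho : ℂ)) = ((rho : ℝ) : ℂ) := by push_cast; rfl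
      rw [this, Complex.norm_real, Real.norm_eq_abs, abs_of_pos hrho0]
    refine Post.bind (post_add hu (hc.mono (((h1.trans h2).trans (h3.trans h4)).trans h5)) hq) ?_
    rintro z env6 h6 ⟨Z, hZ, hZrel⟩
    have hdist := CIRC_dist hu0 (by linarith) hrho0.le hxn hqd (by norm_num at hNu; linarith) hC hZrel
    have hnodez : nodeZ c rho φ e k = c + (rho : ℂ) * φ * omg e ^ k := by
      unfold nodeZ
      push_cast
      rfl
    rw [← hnodez] at hdist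
    have hζn : ‖nodeZ c rho φ e k‖ ≤ ‖c‖ + rho := by
      rw [hnodez]
      refine (norm_add_le _ _).trans ?_
      rw [hxn]
    have hd1 : 10 ^ 4 * (n : ℝ) ^ 2 * ‖Z - nodeZ c rho φ e k‖ ≤ t := by
      have h7 : ‖Z - nodeZ c rho φ e k‖ ≤ 104 * (N ^ 2 * u) * (fro X + ‖c‖ + rho + 1) := by
        refine hdist.trans ?_
        have h8 : u * (4 * ‖c‖ + 2 * rho) ≤ (N ^ 2 * u) * (4 * ‖c‖ + 2 * rho) := by gcongr
        have h9 : rho * ((1 + v) ^ (k + 1) - 1) ≤ rho * (100 * (N ^ 2 * u)) := by gcongr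
        have h10 : 0 ≤ N ^ 2 * u := by positivity
        have h11 : 0 ≤ N ^ 2 * u * ‖c‖ := by positivity
        have h12 : 0 ≤ N ^ 2 * u * rho := by positivity
        have h13 : 0 ≤ N ^ 2 * u * fro X := by positivity
        nlinarith
      have h14 : (n : ℝ) ^ 2 ≤ (n : ℝ) ^ 3 := pow_le_pow_right₀ hn1 (by norm_num)
      have h15 : 0 ≤ fro X + ‖c‖ + rho + 1 := by positivity
      calc 10 ^ 4 * (n : ℝ) ^ 2 * ‖Z - nodeZ c rho φ e k‖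
          ≤ 10 ^ 4 * (n : ℝ) ^ 3 * (104 * (N ^ 2 * u) * (fro X + ‖c‖ + rho + 1)) := by gcongr
        _ = 1040000 * ((n : ℝ) ^ 3 * N ^ 2 * u * (fro X + ‖c‖ + rho + 1)) := by ring
        _ ≤ 10 ^ 8 * ((n : ℝ) ^ 3 * N ^ 2 * u * (fro X + ‖c‖ + rho + 1)) := by gcongr; norm_num
        _ = 10 ^ 8 * n ^ 3 * N ^ 2 * u * (fro X + ‖c‖ + rho + 1) := by ring
        _ ≤ t := hnu
    have hd2 : 10 ^ 6 * (n : ℝ) ^ 3 * u * (fro X + ‖nodeZ c rho φ e k‖ + 1) ≤ t := by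
      have h15 : 0 ≤ fro X + ‖c‖ + rho + 1 := by positivity
      calc 10 ^ 6 * (n : ℝ) ^ 3 * u * (fro X + ‖nodeZ c rho φ e k‖ + 1)
          ≤ 10 ^ 6 * (n : ℝ) ^ 3 * u * (fro X + (‖c‖ + rho) + 1) := by gcongr
        _ = 10 ^ 6 * (n : ℝ) ^ 3 * u * (fro X + ‖c‖ + rho + 1) := by ring
        _ ≤ 10 ^ 8 * (n : ℝ) ^ 3 * (N ^ 2 * u) * (fro X + ‖c‖ + rho + 1) := by
            gcongr
            · norm_num
            · norm_num
        _ = 10 ^ 8 * n ^ 3 * N ^ 2 * u * (fro X + ‖c‖ + rho + 1) := by ring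
        _ ≤ t := hnu
    refine Post.bind (post_det hu hn (hx.mono ((((h1.trans h2).trans (h3.trans h4)).trans h5).trans h6)) hZ
      hh hb ht ht1 (hcol k hk) hd1 hd2) ?_
    rintro d env7 h7 ⟨D, hD, hDpos, hDb⟩
    refine Post.bind (post_fmul hu (hacc.mono (h6.trans h7)) hD) ?_
    rintro a env8 h8 ⟨A, hA, hAb⟩
    refine Post.bind (post_mul hu (hq.mono ((h6.trans h7).trans h8))
      (hw.mono (((((h1.trans h2).trans (h3.trans h4)).trans h5).trans h6).trans (h7.trans h8)))) ?_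
    rintro p' env9 h9 ⟨P', hP', hP'rel⟩
    refine Post.pure ⟨P', A, hP', hA.mono h9, ?_, ?_⟩
    · have h10 := CIRC_step hu0 (by linarith) hv hg1 hev hrho0.le hxn (omg_norm e) hW hqd hP'rel
      have h11 : (rho : ℂ) * φ * omg e ^ (k + 1) = (rho : ℂ) * φ * omg e ^ k * omg e := by
        rw [pow_succ]; ring
      have h12 : (1 + v) ^ (k + 1 + 1) - 1 = (1 + v) * (1 + v) ^ (k + 1) - 1 := by rw [pow_succ]; ring
      rw [h11, h12]
      exact h10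
    · have h1u : 0 < 1 - u := by linarith
      have h10 := CIRC_acc hu0 hu1 hDpos hpos (mul_pos h1u (by positivity)) (by positivity) hDb hlo hhi hAb
      rw [Finset.prod_range_succ]
      have h11 : (1 - u) * 0.994 ^ k * 0.994 = (1 - u) * (0.994 : ℝ) ^ (k + 1) := by rw [pow_succ]; ring
      have h12 : (1 + u) * 1.006 ^ k * 1.006 = (1 + u) * (1.006 : ℝ) ^ (k + 1) := by rw [pow_succ]; ring
      rw [h11, h12] at h10
      exact ⟨h10.1, h10.2, mul_pos hpos hDpos⟩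
  · rintro ⟨s1, s2⟩ env5 h5 ⟨q, acc, hq, hacc, hqd, hlo, hhi, hpos⟩
    refine Post.pure ⟨acc, hacc, le_trans ?_ hlo, le_trans hhi ?_, hpos⟩
    · gcongr
      exact CIRC_fin1 hu0 hu1 Nat.one_le_two_pow
    · gcongr
      exact CIRC_fin2 hu0 hu1 Nat.one_le_two_pow

end H6LP
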