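import Pool.Agent.H6.LP.Defs

/-!
# COST1: operation counts of the linear algebra programs

`Bdd p c d`: at most `c` operations (comparisons included) and at most `d` comparisons on every path.
Method: unfold the program, `Bdd.bind` with the lemmas of `Core.lean` (`bdd_cst`, `bdd_vecM`, `bdd_iterF`, …), at the
end `Bdd.mono`.
-/

set_option autoImplicit false

namespace H6LP

variable {n m : ℕ}

theorem bdd_dot (x y : RVec n) : Bdd (dotP x y) (2 * n + 1) 0 := by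
  unfold dotP
  refine (Bdd.bind (bdd_cst _ _) (fun z => bdd_iterF n _ z (1 + 1) (0 + 0) (fun i acc =>
    Bdd.bind (bdd_mul _ _) (fun p => bdd_add _ _)))).mono ?_ ?_ <;> omega

theorem bdd_sq (x : RVec n) : Bdd (sqP x) (4 * n + 1) 0 := by
  unfold sqP
  refine (Bdd.bind (bdd_cst _ _) (fun z => bdd_iterF n _ z (1 + (1 + (1 + 1))) (0 + (0 + (0 + 0)))
    (fun i acc => Bdd.bind (bdd_conj _) (fun c => Bdd.bind (bdd_mul _ _) (fun p =>
      Bdd.bind (bdd_add _ _) (fun s => bdd_re _)))))).mono ?_ ?_ <;> omega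

theorem bdd_norm (x : RVec n) : Bdd (normP x) (4 * n + 3) 0 := by
  unfold normP
  exact (Bdd.bind (bdd_sq x) (fun s => Bdd.bind (bdd_sqrt _) (fun r => bdd_re _))).mono
    (by omega) (by omega)

theorem bdd_fmul (i j : ℕ) : Bdd (fmulP i j) 2 0 := by
  unfold fmulP
  exact (Bdd.bind (bdd_mul _ _) (fun m => bdd_re _)).mono (by omega) (by omega)

theorem bdd_hvec (x : RVec n) (p : Fin n) : Bdd (hvecP x p) (5 * n + 10) 1 := by
  unfold hvecP
  exact (Bdd.bind (bdd_cst _ _) (fun z => Bdd.bind (bdd_norm x) (fun nr =>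
    Bdd.bind (bdd_vecM n _ 1 0 (fun i => bdd_div _ _)) (fun y =>
    Bdd.bind (bdd_le _ _) (fun b => Bdd.bind (bdd_cst _ _) (fun be =>
    Bdd.bind (bdd_sub _ _) (fun vp => Bdd.bind (bdd_sub _ _) (fun m =>
    Bdd.bind (bdd_div _ _) (fun t => Bdd.bind (bdd_mul _ _) (fun a =>
    Bdd.pure _ 0 0)))))))))).mono (by omega) (by omega)

theorem bdd_lmul (v : RVec n) (t : ℕ) (X : RMat n m) : Bdd (lmulP v t X) (4 * n * m + 2 * n + m) 0 := by
  unfold lmulP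
  exact (Bdd.bind (bdd_vecM n _ 1 0 (fun i => bdd_conj _)) (fun vc =>
    Bdd.bind (bdd_vecM n _ 1 0 (fun i => bdd_mul _ _)) (fun tv =>
    Bdd.bind (bdd_vecM m _ (2 * n + 1) 0 (fun j => bdd_dot _ _)) (fun w =>
    bdd_matM n m _ (1 + 1) (0 + 0) (fun i j => Bdd.bind (bdd_mul _ _) (fun g => bdd_sub _ _)))))).mono
    (le_of_eq (by ring)) (le_of_eq (by ring))

theorem bdd_rmul (v : RVec n) (t : ℕ) (X : RMat m n) :
    Bdd (rmulP v t X) (4 * m * n + n + 2 * m + 1) 0 := by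
  unfold rmulP
  exact (Bdd.bind (bdd_vecM n _ 1 0 (fun i => bdd_conj _)) (fun vc =>
    Bdd.bind (bdd_conj _) (fun tc =>
    Bdd.bind (bdd_vecM m _ (2 * n + 1) 0 (fun j => bdd_dot _ _)) (fun w =>
    Bdd.bind (bdd_vecM m _ 1 0 (fun i => bdd_mul _ _)) (fun tw =>
    bdd_matM m n _ (1 + 1) (0 + 0) (fun i j =>
      Bdd.bind (bdd_mul _ _) (fun g => bdd_sub _ _))))))).mono
    (le_of_eq (by ring)) (le_of_eq (by ring))

theorem bdd_hstep (k : ℕ) (hk : k + 1 < n) (S : RMat n n × RMat n n) :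
    Bdd (hstepP k hk S) (12 * n ^ 2 + 14 * n + 13) 1 := by
  unfold hstepP
  exact (Bdd.bind (bdd_cst _ _) (fun z => Bdd.bind (bdd_hvec _ _) (fun h =>
    Bdd.bind (bdd_lmul _ _ _) (fun X => Bdd.bind (bdd_rmul _ _ _) (fun Y =>
    Bdd.bind (bdd_rmul _ _ _) (fun Q => Bdd.pure _ 0 0)))))).mono
    (le_of_eq (by ring)) (le_of_eq (by ring))

theorem bdd_hess (hn : 1 ≤ n) (X : RMat n n) : Bdd (hessP X) (40 * n ^ 3) n := by
  unfold hessP
  refine (Bdd.bind (bdd_cst _ _) (fun z => Bdd.bind (bdd_cst _ _) (fun one =>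
    bdd_iterP (n - 1) _ _ (12 * n ^ 2 + 14 * n + 13) 1 (fun k S => ?_)))).mono ?_ ?_
  · split_ifs with hk
    · exact bdd_hstep k hk S
    · exact Bdd.pure _ _ _
  · obtain ⟨k, rfl⟩ : ∃ k, n = k + 1 := ⟨n - 1, by omega⟩
    rw [Nat.add_sub_cancel]
    nlinarith [sq_nonneg k, Nat.zero_le (k ^ 3), Nat.zero_le (k ^ 2), Nat.zero_le k]
  · omega

theorem bdd_giv (k : ℕ) (hk : k + 1 < n) (S : RMat n n × RVec n) : Bdd (givP k hk S) (6 * n + 22) 0 := by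
  unfold givP combP combsP
  exact (Bdd.bind (bdd_cst _ _) (fun z => Bdd.bind (bdd_norm _) (fun rho =>
    Bdd.bind (bdd_div _ _) (fun al => Bdd.bind (bdd_div _ _) (fun be =>
    Bdd.bind (bdd_conj _) (fun alc => Bdd.bind (bdd_conj _) (fun bec =>
    Bdd.bind (bdd_vecM n _ (1 + (1 + 1)) (0 + (0 + 0)) (fun j => Bdd.bind (bdd_mul _ _) (fun p =>
      Bdd.bind (bdd_mul _ _) (fun q => bdd_add _ _)))) (fun r0 =>
    Bdd.bind (bdd_vecM n _ (1 + (1 + 1)) (0 + (0 + 0)) (fun j => Bdd.bind (bdd_mul _ _) (fun p =>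
      Bdd.bind (bdd_mul _ _) (fun q => bdd_sub _ _)))) (fun r1 =>
    Bdd.bind (Bdd.bind (bdd_mul _ _) (fun p => Bdd.bind (bdd_mul _ _) (fun q => bdd_add _ _))) (fun y0 =>
    Bdd.bind (Bdd.bind (bdd_mul _ _) (fun p => Bdd.bind (bdd_mul _ _) (fun q => bdd_sub _ _))) (fun y1 =>
    Bdd.pure _ 0 0))))))))))).mono (by omega) (by omega)

theorem bdd_qr (S : RMat n n × RVec n) : Bdd (qrP S) (28 * n ^ 2) 0 := by
  unfold qrP
  refine (bdd_iterP (n - 1) _ _ (6 * n + 22) 0 (fun k S => ?_)).mono ?_ ?_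
  · split_ifs with hk
    · exact bdd_giv k hk S
    · exact Bdd.pure _ _ _
  · rcases Nat.eq_zero_or_pos n with h | h
    · subst h; simp
    · obtain ⟨k, rfl⟩ : ∃ k, n = k + 1 := ⟨n - 1, by omega⟩
      rw [Nat.add_sub_cancel]
      nlinarith [sq_nonneg k, Nat.zero_le (k ^ 2), Nat.zero_le k]
  · omega

theorem bdd_shift (H : RMat n n) (z : ℕ) : Bdd (shiftP H z) n 0 := by
  unfold shiftP
  exact (Bdd.bind (bdd_vecM n _ 1 0 (fun i => bdd_sub _ _)) (fun d => Bdd.pure _ 0 0)).mono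
    (by omega) (by omega)

theorem bdd_det (hn : 1 ≤ n) (H : RMat n n) (z : ℕ) : Bdd (detP H z) (41 * n ^ 2) 0 := by
  unfold detP
  refine (Bdd.bind (bdd_shift _ _) (fun T => Bdd.bind (bdd_cst _ _) (fun zz =>
    Bdd.bind (bdd_qr _) (fun S => Bdd.bind (bdd_cst _ _) (fun o => Bdd.bind (bdd_re _) (fun one =>
    bdd_iterF n _ one (4 * 1 + 3 + 2) (0 + 0) (fun i acc => Bdd.bind (bdd_norm _) (fun a =>
      bdd_fmul _ _)))))))).mono ?_ ?_
  · nlinarith [Nat.mul_le_mul hn hn, Nat.mul_le_mul hn (le_refl n)]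
  · omega

theorem bdd_back (hn : 1 ≤ n) (R : RMat n n) (y : RVec n) : Bdd (backP R y) (6 * n ^ 2) 0 := by
  unfold backP
  refine (Bdd.bind (bdd_cst _ _) (fun z => bdd_iterF n _ _ (2 * n + 1 + (1 + (1 + 0))) (0 + (0 + (0 + 0)))
    (fun i x => Bdd.bind (bdd_dot _ _) (fun d => Bdd.bind (bdd_sub _ _) (fun e =>
      Bdd.bind (bdd_div _ _) (fun q => Bdd.pure _ 0 0)))))).mono ?_ ?_
  · nlinarith [Nat.mul_le_mul hn hn, Nat.mul_le_mul hn (le_refl n)]
  · omega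

theorem bdd_solve (hn : 1 ≤ n) (H : RMat n n) (z : ℕ) : Bdd (solveP H z) (45 * n ^ 2) 0 := by
  unfold solveP
  refine (Bdd.bind (bdd_shift _ _) (fun T => Bdd.bind (bdd_cst _ _) (fun zz =>
    Bdd.bind (bdd_cst _ _) (fun one => Bdd.bind (bdd_qr _) (fun S =>
    Bdd.bind (bdd_back hn _ _) (fun x => Bdd.bind (bdd_norm _) (fun nr =>
    bdd_vecM n _ 1 0 (fun i => bdd_div _ _)))))))).mono ?_ ?_
  · nlinarith [Nat.mul_le_mul hn hn, Nat.mul_le_mul hn (le_refl n)]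
  · omega

theorem bdd_eig (hn : 1 ≤ n) (l : ℕ) (H Q : RMat n n) (pos : ℤ × ℤ) :
    Bdd (eigP l H Q pos) (49 * n ^ 2) 0 := by
  unfold eigP
  refine (Bdd.bind (bdd_cst _ _) (fun z => Bdd.bind (bdd_solve hn _ _) (fun x =>
    bdd_vecM n _ (2 * n + 1) 0 (fun i => bdd_dot _ _)))).mono ?_ ?_
  · nlinarith [Nat.mul_le_mul hn hn, Nat.mul_le_mul hn (le_refl n)]
  · omega

theorem bdd_pert (hn : 1 ≤ n) (b : ℕ) : Bdd (pertP n b) (6 * n ^ 2) 0 := by
  unfold pertP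
  refine (Bdd.bind (bdd_cst _ _) (fun gR => Bdd.bind (bdd_cst _ _) (fun gI =>
    bdd_matM n n _ (1 + (1 + (1 + 1))) (0 + (0 + (0 + 0))) (fun i j =>
      Bdd.bind (bdd_mul _ _) (fun x => Bdd.bind (bdd_mul _ _) (fun y =>
      Bdd.bind (bdd_add _ _) (fun c => bdd_add _ _))))))).mono ?_ ?_
  · nlinarith [Nat.mul_le_mul hn hn, Nat.mul_le_mul hn (le_refl n)]
  · simp

end H6LP
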