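import Pool.Agent.H6.LP.COST1

/-!
# COST2: operation counts of the counting programs and of the main program
-/

set_option autoImplicit false

namespace H6LP

variable {n : ℕ}

theorem bdd_omega (e : ℕ) : Bdd (omegaP e) (e + 1) 0 := by
  unfold omegaP
  refine (Bdd.bind (bdd_cst _ _) (fun i => bdd_iterP (e - 2) _ i 1 0
    (fun k s => bdd_sqrt s))).mono ?_ ?_
  · omega
  · simp

theorem bdd_phi (t : ℕ) : Bdd (phiP t) 6 0 := by
  unfold phiP
  exact (Bdd.bind (bdd_cst _ _) (fun i => Bdd.bind (bdd_cst _ _) (fun one =>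
    Bdd.bind (bdd_mul i t) (fun it => Bdd.bind (bdd_add one it) (fun a =>
      Bdd.bind (bdd_sub one it) (fun b => bdd_div a b)))))).mono (by norm_num) (by norm_num)

theorem bdd_circ (hn : 1 ≤ n) (H : RMat n n) (c : ℕ) (rho : ℚ) (φ w e : ℕ) :
    Bdd (circP H c rho φ w e) (49 * 2 ^ e * n ^ 2) 0 := by
  unfold circP
  have hstep : ∀ (k : ℕ) (S : ℕ × ℕ), Bdd (do
      let z ← addP c S.1
      let d ← detP H z
      let acc ← fmulP S.2 d
      let p' ← mulP S.1 w
      pure (p', acc) : Prog (ℕ × ℕ)) (41 * n ^ 2 + 4) 0 := by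
    intro k S
    exact (Bdd.bind (bdd_add c S.1) (fun z => Bdd.bind (bdd_det hn H z) (fun d =>
      Bdd.bind (bdd_fmul S.2 d) (fun acc => Bdd.bind (bdd_mul S.1 w) (fun p' =>
        Bdd.pure _ 0 0))))).mono (by omega) (by norm_num)
  refine (Bdd.bind (bdd_cst _ _) (fun rr => Bdd.bind (bdd_mul rr φ) (fun p =>
    Bdd.bind (bdd_cst _ _) (fun o => Bdd.bind (bdd_re o) (fun one =>
      Bdd.bind (bdd_iterP (2 ^ e) _ (p, one) (41 * n ^ 2 + 4) 0 hstep) (fun S =>
        Bdd.pure _ 0 0)))))).mono ?_ ?_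
  · have h1 : 1 ≤ 2 ^ e := Nat.one_le_two_pow
    have h2 : 1 ≤ n ^ 2 := Nat.one_le_pow _ _ hn
    nlinarith [Nat.mul_le_mul h1 h2, Nat.mul_le_mul (le_refl (2 ^ e)) h2]
  · simp

theorem bdd_search (P1 P2 m T k : ℕ) : Bdd (searchP P1 P2 m T k) (5 * m) m := by
  induction m generalizing T k with
  | zero => exact Bdd.pure _ _ _
  | succ m ih =>
    unfold searchP
    refine (Bdd.bind (bdd_fmul P1 T) (fun x => Bdd.bind (bdd_le x P2) (fun b => ?_))).mono
      (c := 2 + (1 + (2 + 5 * m))) (d := 0 + (1 + (0 + m))) (by omega) (by omega)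
    cases b with
    | false =>
      simp only [Bool.false_eq_true, if_false]
      exact Bdd.pure _ _ _
    | true =>
      simp only [if_true]
      exact Bdd.bind (bdd_fmul T T) (fun T' => ih T' (2 * k))

theorem cost2_nodeE (l kh : ℕ) (hl : 1 ≤ l) : 2 ^ nodeE l kh ≤ 2000 * (kh + 1) * l := by
  unfold nodeE
  have h0 : 1 < 1000 * (kh + 1) * l := by nlinarith
  have h1 := Nat.pow_pred_clog_lt_self (b := 2) (by norm_num) h0
  have h2 : 1 ≤ Nat.clog 2 (1000 * (kh + 1) * l) := Nat.clog_pos (by norm_num) h0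
  obtain ⟨k, hk⟩ : ∃ k, Nat.clog 2 (1000 * (kh + 1) * l) = k + 1 := ⟨_, (Nat.sub_add_cancel h2).symm⟩
  rw [hk] at h1 ⊢
  simp only [Nat.pred_succ] at h1
  rw [pow_succ]
  nlinarith

theorem cost2_clog : Nat.clog 2 n ≤ n := by
  rw [Nat.clog_le_iff_le_pow (by norm_num)]
  exact Nat.lt_two_pow_self.le

/-- `2^nodeE ≤ 2000 (kh+1) l` (`Nat.clog`), `e ≤ 2^e`, `clog n ≤ n` -/
theorem bdd_test (hn : 1 ≤ n) (l : ℕ) (hl : 1 ≤ l) (H : RMat n n) (φ : ℕ) (r : ℚ) (a b : ℤ) (kh : ℕ) :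
    Bdd (testP l H φ r a b kh) (260000 * (kh + 1) * l * n ^ 2) (Nat.clog 2 n + 3) := by
  unfold testP
  refine (Bdd.bind (bdd_cst _ _) (fun c => Bdd.bind (bdd_omega (nodeE l kh)) (fun w =>
    Bdd.bind (bdd_circ hn H c (2 * r) φ w (nodeE l kh)) (fun P1 =>
      Bdd.bind (bdd_circ hn H c (3 * r) φ w (nodeE l kh)) (fun P2 =>
        Bdd.bind (bdd_cst _ _) (fun base => Bdd.bind (bdd_re base) (fun rbase =>
          Bdd.bind (bdd_iterP (nodeE l kh - 1) _ rbase 2 0 (fun k s => bdd_fmul s s)) (fun T =>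
            Bdd.bind (bdd_fmul P1 T) (fun x => Bdd.bind (bdd_le x P2) (fun b0 =>
              ?_)))))))))).mono (c := 1 + ((nodeE l kh + 1) + (49 * 2 ^ nodeE l kh * n ^ 2 +
                (49 * 2 ^ nodeE l kh * n ^ 2 + (1 + (1 + ((nodeE l kh - 1) * 2 + (2 + (1 +
                  (2 + 5 * (Nat.clog 2 n + 2)))))))))))
                  (d := 0 + (0 + (0 + (0 + (0 + (0 + ((nodeE l kh - 1) * 0 + (0 + (1 +
                    (0 + (Nat.clog 2 n + 2))))))))))) ?_ ?_
  · cases b0 with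
    | false =>
      simp only [Bool.false_eq_true, if_false]
      exact Bdd.pure _ _ _
    | true =>
      simp only [if_true]
      exact Bdd.bind (bdd_fmul T T) (fun T0 => bdd_search P1 P2 _ T0 1)
  · have h1 := cost2_nodeE l kh hl
    have h2 := cost2_clog (n := n)
    have h3 : nodeE l kh ≤ 2 ^ nodeE l kh := Nat.lt_two_pow_self.le
    have h4 : n ≤ n ^ 2 := by nlinarith
    have h5 : 1 ≤ n ^ 2 := Nat.one_le_pow _ _ hn
    have h6 : 1 ≤ (kh + 1) * l := by nlinarith
    generalize nodeE l kh = e at *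
    have h7 : 98 * 2 ^ e * n ^ 2 ≤ 98 * (2000 * ((kh + 1) * l)) * n ^ 2 := by
      apply Nat.mul_le_mul_right
      apply Nat.mul_le_mul_left
      calc 2 ^ e ≤ _ := h1
        _ = _ := by ring
    have h8 : e ≤ 2000 * ((kh + 1) * l) * n ^ 2 := by
      calc e ≤ 2 ^ e := h3
        _ ≤ 2000 * (kh + 1) * l := h1
        _ = 2000 * ((kh + 1) * l) * 1 := by ring
        _ ≤ _ := Nat.mul_le_mul_left _ h5
    have h9 : n ^ 2 ≤ ((kh + 1) * l) * n ^ 2 := Nat.le_mul_of_pos_left _ h6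
    have h10 : 260000 * (kh + 1) * l * n ^ 2 = 260000 * (((kh + 1) * l) * n ^ 2) := by ring
    have h11 : 98 * (2000 * ((kh + 1) * l)) * n ^ 2 = 196000 * (((kh + 1) * l) * n ^ 2) := by ring
    have h12 : 2000 * ((kh + 1) * l) * n ^ 2 = 2000 * (((kh + 1) * l) * n ^ 2) := by ring
    have h13 : 49 * 2 ^ e * n ^ 2 + 49 * 2 ^ e * n ^ 2 = 98 * 2 ^ e * n ^ 2 := by ring
    rw [h10]
    rw [h11] at h7
    rw [h12] at h8
    omega
  · simp
    omega

theorem bdd_listM {α β : Type} (L : List α) (f : α → Prog β) (c d : α → ℕ)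
    (h : ∀ a ∈ L, Bdd (f a) (c a) (d a)) : Bdd (listM L f) (L.map c).sum (L.map d).sum := by
  induction L with
  | nil => exact Bdd.pure _ _ _
  | cons a L ih =>
    unfold listM
    rw [List.map_cons, List.map_cons, List.sum_cons, List.sum_cons]
    refine (Bdd.bind (h a List.mem_cons_self) (fun b => Bdd.bind (ih (fun a' ha' =>
      h a' (List.mem_cons_of_mem _ ha'))) (fun t => Bdd.pure _ 0 0))).mono (by omega) (by omega)

theorem cost2_children_sum (S : DList) :
    ((children S).map (fun c => c.2.2 + 1)).sum = 4 * (S.map (fun p => khat S p.1 p.2.1 + 1)).sum := by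
  unfold children
  have : ∀ T : DList, ((T.flatMap (fun p => [(2 * p.1, 2 * p.2.1, khat S p.1 p.2.1),
      (2 * p.1 + 1, 2 * p.2.1, khat S p.1 p.2.1), (2 * p.1, 2 * p.2.1 + 1, khat S p.1 p.2.1),
      (2 * p.1 + 1, 2 * p.2.1 + 1, khat S p.1 p.2.1)])).map
      (fun c : ℤ × ℤ × ℕ => c.2.2 + 1)).sum = 4 * (T.map (fun p => khat S p.1 p.2.1 + 1)).sum := by
    intro T
    induction T with
    | nil => rfl
    | cons p T ih =>
      rw [List.flatMap_cons, List.map_append, List.sum_append, ih, List.map_cons, List.sum_cons]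
      simp only [List.map_cons, List.map_nil, List.sum_cons, List.sum_nil]
      ring
  exact this S

theorem cost2_children_length (S : DList) : (children S).length = 4 * S.length := by
  unfold children
  rw [List.length_flatMap]
  simp
  ring

/-- by `capOK`: `∑_children (kh + 1) = 4 ∑_p (khat + 1) ≤ 4 · 4900 n`, number of children `≤ 4 · 98 n` -/
theorem bdd_lvl (hn : 1 ≤ n) (l : ℕ) (hl : 1 ≤ l) (H : RMat n n) (φ : ℕ) (r : ℚ) (S : DList) :
    Bdd (lvlP l H φ r S) (5096000000 * l * n ^ 3) (392 * n * (Nat.clog 2 n + 3)) := by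
  unfold lvlP
  by_cases hc : capOK n S = true
  · rw [if_pos hc]
    unfold capOK at hc
    simp only [Bool.and_eq_true, decide_eq_true_eq] at hc
    obtain ⟨⟨-, hc2⟩, hc3⟩ := hc
    have h := bdd_listM (children S) (fun c => (do
      let k ← testP l H φ r c.1 c.2.1 c.2.2
      pure (c.1, c.2.1, k) : Prog (ℤ × ℤ × ℕ)))
      (fun c => (260000 * l * n ^ 2) * (c.2.2 + 1)) (fun _ => Nat.clog 2 n + 3) (fun c _ =>
        (Bdd.bind (bdd_test hn l hl H φ r c.1 c.2.1 c.2.2) (fun k => Bdd.pure _ 0 0)).mono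
          (le_of_eq (by ring)) (by omega))
    refine (Bdd.bind h (fun L => Bdd.pure _ 0 0)).mono ?_ ?_
    · rw [List.sum_map_mul_left, cost2_children_sum]
      calc 260000 * l * n ^ 2 * (4 * (S.map (fun p => khat S p.1 p.2.1 + 1)).sum) + 0
          ≤ 260000 * l * n ^ 2 * (4 * (4900 * n)) + 0 := by
            apply Nat.add_le_add_right
            apply Nat.mul_le_mul_left
            exact Nat.mul_le_mul_left _ hc3
        _ = 5096000000 * l * n ^ 3 := by ring
    · rw [List.map_const', List.sum_replicate, cost2_children_length, smul_eq_mul]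
      calc 4 * S.length * (Nat.clog 2 n + 3) + 0 ≤ 4 * (98 * n) * (Nat.clog 2 n + 3) + 0 := by
            apply Nat.add_le_add_right
            apply Nat.mul_le_mul_right
            exact Nat.mul_le_mul_left _ hc2
        _ = _ := by ring
  · rw [if_neg hc]
    exact Bdd.pure _ _ _

theorem bdd_tree (hn : 1 ≤ n) (l : ℕ) (hl : 1 ≤ l) (H : RMat n n) (φ : ℕ) :
    Bdd (treeP l H φ) ((l + 2) * (5096000000 * l * n ^ 3)) ((l + 2) * (392 * n * (Nat.clog 2 n + 3))) := by
  unfold treeP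
  exact bdd_iterP (l + 2) _ _ _ _ (fun k S => bdd_lvl hn l hl H φ _ S)

/-- the total cost, `q = b + clog₂ n` -/
theorem bdd_main (hn : 1 ≤ n) (b : ℕ) :
    Bdd (mainP n b) (10 ^ 14 * n ^ 3 * (parQ n b + 1) ^ 2) (10 ^ 6 * n * (parQ n b + 1) ^ 2) := by
  have hl : 1 ≤ parL n b := by unfold parL; omega
  unfold mainP
  refine (Bdd.bind (bdd_pert hn b) (fun M => Bdd.bind (bdd_phi (3 * n ^ 2)) (fun φ =>
    Bdd.bind (bdd_hess hn M) (fun HQ => Bdd.bind (bdd_tree hn (parL n b) hl HQ.1 φ) (fun S =>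
      Bdd.bind (bdd_vecM n _ (49 * n ^ 2) 0 (fun j => bdd_eig hn _ _ _ _)) (fun V =>
        Bdd.bind (bdd_vecM n _ 1 0 (fun j => bdd_cst _ _)) (fun D =>
          Bdd.pure _ 0 0))))))).mono ?_ ?_
  · have h1 : parL n b ≤ 100 * (parQ n b + 1) := by unfold parL; omega
    have h2 : parL n b + 2 ≤ 102 * (parQ n b + 1) := by unfold parL; omega
    have h3 : 1 ≤ (parQ n b + 1) ^ 2 := Nat.one_le_pow _ _ (by omega)
    have h4 : (parL n b + 2) * (5096000000 * parL n b * n ^ 3) ≤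
        51979200000000 * (n ^ 3 * (parQ n b + 1) ^ 2) := by
      calc (parL n b + 2) * (5096000000 * parL n b * n ^ 3)
          ≤ (102 * (parQ n b + 1)) * (5096000000 * (100 * (parQ n b + 1)) * n ^ 3) := by
            apply Nat.mul_le_mul h2
            apply Nat.mul_le_mul_right
            exact Nat.mul_le_mul_left _ h1
        _ = _ := by ring
    have h5 : n ^ 3 ≤ n ^ 3 * (parQ n b + 1) ^ 2 := Nat.le_mul_of_pos_right _ h3
    have h6 : 1 ≤ n ^ 3 := Nat.one_le_pow _ _ hn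
    have h7 : n ^ 2 ≤ n ^ 3 := Nat.pow_le_pow_right hn (by norm_num)
    have h8 : n ≤ n ^ 3 := by
      calc n = n ^ 1 := (pow_one n).symm
        _ ≤ n ^ 3 := Nat.pow_le_pow_right hn (by norm_num)
    have h9 : n * (49 * n ^ 2) = 49 * n ^ 3 := by ring
    have h10 : 10 ^ 14 * n ^ 3 * (parQ n b + 1) ^ 2 = 10 ^ 14 * (n ^ 3 * (parQ n b + 1) ^ 2) := by
      ring
    rw [h9, h10]
    norm_num
    omega
  · have h1 : parL n b + 2 ≤ 102 * (parQ n b + 1) := by unfold parL; omega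
    have h2 : Nat.clog 2 n + 3 ≤ 3 * (parQ n b + 1) := by unfold parQ; omega
    have h3 : 1 ≤ (parQ n b + 1) ^ 2 := Nat.one_le_pow _ _ (by omega)
    have h4 : (parL n b + 2) * (392 * n * (Nat.clog 2 n + 3)) ≤
        119952 * (n * (parQ n b + 1) ^ 2) := by
      calc (parL n b + 2) * (392 * n * (Nat.clog 2 n + 3))
          ≤ (102 * (parQ n b + 1)) * (392 * n * (3 * (parQ n b + 1))) := by
            apply Nat.mul_le_mul h1
            exact Nat.mul_le_mul_left _ h2
        _ = _ := by ring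
    have h5 : n ≤ n * (parQ n b + 1) ^ 2 := Nat.le_mul_of_pos_right _ h3
    have h10 : 10 ^ 6 * n * (parQ n b + 1) ^ 2 = 10 ^ 6 * (n * (parQ n b + 1) ^ 2) := by
      ring
    rw [h10]
    norm_num
    omega

end H6LP
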