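import Pool.Agent.H6.LP.NB

/-!
# DETP: perturbation of determinants (pure)

`det (1 + X) = ∏ ν` over the roots `ν` of the characteristic polynomial of `1 + X`
(`Matrix.det_eq_prod_roots_charpoly`), each root has an eigenvector, so `|ν - 1| ≤ ‖X‖ ≤ x`; then
`|∏ ν - 1| ≤ ∏ (1 + |ν - 1|) - 1 ≤ (1+x)^n - 1`.
-/

set_option autoImplicit false

open Complex Matrix

namespace H6LP

theorem DETP_multiset (s : Multiset ℂ) {x : ℝ} (hx : 0 ≤ x) (h : ∀ ν ∈ s, ‖ν - 1‖ ≤ x) :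
    ‖s.prod - 1‖ ≤ (1 + x) ^ s.card - 1 := by
  induction s using Multiset.induction_on with
  | empty => simp
  | cons a s ih =>
    have h1 := ih (fun ν hν => h ν (Multiset.mem_cons_of_mem hν))
    have h2 := h a (Multiset.mem_cons_self a s)
    rw [Multiset.prod_cons, Multiset.card_cons]
    have h3 : a * s.prod - 1 = a * (s.prod - 1) + (a - 1) := by ring
    have h4 : ‖a‖ ≤ 1 + x := by
      have : a = 1 + (a - 1) := by ring
      rw [this]
      exact (norm_add_le _ _).trans (by rw [norm_one]; linarith)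
    have h5 : 0 ≤ (1 + x) ^ s.card - 1 := le_trans (norm_nonneg _) h1
    calc ‖a * s.prod - 1‖ = ‖a * (s.prod - 1) + (a - 1)‖ := by rw [h3]
      _ ≤ ‖a‖ * ‖s.prod - 1‖ + ‖a - 1‖ := (norm_add_le _ _).trans (by rw [norm_mul])
      _ ≤ (1 + x) * ((1 + x) ^ s.card - 1) + x :=
          add_le_add (mul_le_mul h4 h1 (norm_nonneg _) (by linarith)) h2
      _ = (1 + x) ^ (s.card + 1) - 1 := by ring

theorem DETP_root {n : ℕ} {A : Matrix (Fin n) (Fin n) ℂ} {ν : ℂ} (h : ν ∈ A.charpoly.roots) :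
    ∃ v : Fin n → ℂ, v ≠ 0 ∧ A *ᵥ v = ν • v := by
  have h1 : A.charpoly.eval ν = 0 := Polynomial.isRoot_of_mem_roots h
  rw [Matrix.eval_charpoly] at h1
  obtain ⟨v, hv, hv'⟩ := Matrix.exists_mulVec_eq_zero_iff.mpr h1
  refine ⟨v, hv, ?_⟩
  rw [Matrix.sub_mulVec, sub_eq_zero] at hv'
  rw [← hv']
  simp

theorem norm_det_one_add_sub_one_le {n : ℕ} {X : Matrix (Fin n) (Fin n) ℂ} {x : ℝ} (hx : fro X ≤ x) :
    ‖(1 + X).det - 1‖ ≤ (1 + x) ^ n - 1 := by
  have hx0 : 0 ≤ x := (fro_nonneg X).trans hx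
  rw [Matrix.det_eq_prod_roots_charpoly]
  have h1 : ∀ ν ∈ (1 + X).charpoly.roots, ‖ν - 1‖ ≤ x := by
    intro ν hν
    obtain ⟨v, hv, he⟩ := DETP_root hν
    have h2 : X *ᵥ v = (ν - 1) • v := by
      rw [Matrix.add_mulVec, Matrix.one_mulVec] at he
      rw [sub_smul, one_smul, ← he]
      simp
    have h3 := nv_mulVec_le X v
    rw [h2, nv_smul] at h3
    have h4 := nv_pos hv
    exact (le_of_mul_le_mul_right h3 h4).trans hx
  refine (DETP_multiset _ hx0 h1).trans ?_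
  have h2 : Multiset.card (1 + X).charpoly.roots ≤ n := by
    refine (Polynomial.card_roots' _).trans ?_
    rw [Matrix.charpoly_natDegree_eq_dim, Fintype.card_fin]
  have h3 : (1 + x) ^ Multiset.card (1 + X).charpoly.roots ≤ (1 + x) ^ n :=
    pow_le_pow_right₀ (by linarith) h2
  linarith

/-- `T` with `t ‖x‖ ≤ ‖T x‖` and a small perturbation `E` -/
theorem norm_det_add_bound {n : ℕ} (hn : 1 ≤ n) {T E : Matrix (Fin n) (Fin n) ℂ} {t : ℝ} (ht : 0 < t)
    (hT : ∀ x : Fin n → ℂ, t * nv x ≤ nv (T *ᵥ x)) (hE : 300 * n * fro E ≤ t) :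
    T.det ≠ 0 ∧ |‖(T + E).det‖ - ‖T.det‖| ≤ 0.004 * ‖T.det‖ := by
  have hdet : T.det ≠ 0 := by
    intro h0
    obtain ⟨v, hv, hv'⟩ := Matrix.exists_mulVec_eq_zero_iff.mpr h0
    have h1 := hT v
    rw [hv', nv_zero] at h1
    have := mul_pos ht (nv_pos hv)
    linarith
  refine ⟨hdet, ?_⟩
  have hu : IsUnit T.det := isUnit_iff_ne_zero.mpr hdet
  have hop : OpLe T⁻¹ (1 / t) := by
    intro x
    have h1 := hT (T⁻¹ *ᵥ x)
    rw [Matrix.mulVec_mulVec, Matrix.mul_nonsing_inv _ hu, Matrix.one_mulVec] at h1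
    rw [div_mul_eq_mul_div, one_mul, le_div_iff₀ ht]
    linarith
  have hn0 : (0 : ℝ) < n := by exact_mod_cast hn
  have hfro : fro (T⁻¹ * E) ≤ 1 / (300 * n) := by
    refine (OpLe.fro_mul_le (by positivity) hop E).trans ?_
    rw [div_mul_eq_mul_div, one_mul, div_le_div_iff₀ ht (by positivity)]
    linarith
  have hTE : T + E = T * (1 + T⁻¹ * E) := by
    rw [Matrix.mul_add, Matrix.mul_one, ← Matrix.mul_assoc, Matrix.mul_nonsing_inv _ hu,
      Matrix.one_mul]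
  have hb := norm_det_one_add_sub_one_le hfro
  have hpow : (1 + 1 / (300 * (n : ℝ))) ^ n ≤ 300 / 299 := by
    have h1 : 1 + 1 / (300 * (n : ℝ)) ≤ Real.exp (1 / (300 * n)) := by
      have := Real.add_one_le_exp (1 / (300 * (n : ℝ)))
      linarith
    have h2 : (1 + 1 / (300 * (n : ℝ))) ^ n ≤ Real.exp (1 / (300 * n)) ^ n :=
      pow_le_pow_left₀ (by positivity) h1 n
    have h3 : Real.exp (1 / (300 * (n : ℝ))) ^ n = Real.exp (1 / 300) := by
      rw [← Real.exp_nat_mul]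
      congr 1
      field_simp
    have h4 : Real.exp (1 / 300) ≤ 300 / 299 := by
      have h5 := Real.add_one_le_exp (-(1 / 300) : ℝ)
      rw [Real.exp_neg] at h5
      have h6 : (299 / 300 : ℝ) ≤ (Real.exp (1 / 300))⁻¹ := by linarith
      have h7 := Real.exp_pos (1 / 300 : ℝ)
      rw [le_inv_comm₀ (by norm_num) h7] at h6
      refine h6.trans (by norm_num)
    rw [h3] at h2
    exact h2.trans h4
  have hb2 : |‖(1 + T⁻¹ * E).det‖ - 1| ≤ 0.004 := by
    have h1 : |‖(1 + T⁻¹ * E).det‖ - ‖(1 : ℂ)‖| ≤ ‖(1 + T⁻¹ * E).det - 1‖ := abs_norm_sub_norm_le _ _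
    rw [norm_one] at h1
    refine h1.trans (hb.trans ?_)
    have h2 : (300 / 299 : ℝ) - 1 ≤ 0.004 := by norm_num
    linarith
  rw [hTE, Matrix.det_mul, norm_mul]
  have h1 : ‖T.det‖ * ‖(1 + T⁻¹ * E).det‖ - ‖T.det‖ = ‖T.det‖ * (‖(1 + T⁻¹ * E).det‖ - 1) := by ring
  rw [h1, abs_mul, abs_of_nonneg (norm_nonneg _), mul_comm]
  exact mul_le_mul_of_nonneg_right hb2 (norm_nonneg _)

end H6LP
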