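import Pool.Agent.H6.LP.DOT

/-!
# NRM: the error of `sqP` and `normP`

`sqP`: all values are exactly real; invariant: after `k` steps the accumulator is a real number `t` with
`|t - ∑_{i<k} ‖X i‖²| ≤ ((1+u)^(k+1) - 1) ∑_{i<k} ‖X i‖²`.  `normP`: `post_sqrt_real`,
`|√(a(1+θ)) - √a| ≤ |θ| √a`, then `re`.
-/

set_option autoImplicit false

open Complex Matrix

namespace H6LP

/-- partial sums of the squares -/
noncomputable def NRM_S {n : ℕ} (X : Fin n → ℂ) (k : ℕ) : ℝ :=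
  ∑ i ∈ Finset.univ.filter (fun i : Fin n => (i : ℕ) < k), ‖X i‖ ^ 2

theorem NRM_S_nonneg {n : ℕ} (X : Fin n → ℂ) (k : ℕ) : 0 ≤ NRM_S X k :=
  Finset.sum_nonneg fun i _ => sq_nonneg _

theorem NRM_S_zero {n : ℕ} (X : Fin n → ℂ) : NRM_S X 0 = 0 := by
  unfold NRM_S
  simp

theorem NRM_S_succ {n : ℕ} (X : Fin n → ℂ) (k : Fin n) :
    NRM_S X ((k : ℕ) + 1) = NRM_S X k + ‖X k‖ ^ 2 := by
  unfold NRM_S
  have h : (Finset.univ.filter fun i : Fin n => (i : ℕ) < (k : ℕ) + 1) =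
      insert k (Finset.univ.filter fun i : Fin n => (i : ℕ) < (k : ℕ)) := by
    ext i
    simp only [Finset.mem_filter, Finset.mem_univ, true_and, Finset.mem_insert]
    rw [Fin.ext_iff]
    omega
  rw [h, Finset.sum_insert (by simp), add_comm]

theorem NRM_nv_sq {n : ℕ} (X : Fin n → ℂ) : nv X ^ 2 = ∑ i, ‖X i‖ ^ 2 := by
  unfold nv
  exact Real.sq_sqrt (Finset.sum_nonneg fun i _ => sq_nonneg _)

theorem NRM_S_all {n : ℕ} (X : Fin n → ℂ) : NRM_S X n = nv X ^ 2 := by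
  rw [NRM_nv_sq]
  unfold NRM_S
  congr 1
  ext i
  simp

theorem NRM_pow {u : ℝ} (hu : 0 ≤ u) {k : ℕ} (h : k * u ≤ 1 / 50) :
    (1 + u) ^ k - 1 ≤ 1.02 * (k * u) := by
  have h0 : 0 ≤ (k : ℝ) * u := by positivity
  have h1 : (1 + u) ^ k ≤ Real.exp (k * u) := by
    rw [Real.exp_nat_mul]
    refine pow_le_pow_left₀ (by linarith) ?_ k
    have := Real.add_one_le_exp u
    linarith
  have h2 : |(k : ℝ) * u| ≤ 1 := by
    rw [abs_of_nonneg h0]
    linarith
  have h3 := (abs_le.1 (Real.abs_exp_sub_one_sub_id_le h2)).2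
  nlinarith

/-- the arithmetic of one step -/
theorem NRM_step {u : ℝ} (hu : 0 ≤ u) {S a t B : ℝ} (hS : 0 ≤ S) (ha : 0 ≤ a) (hB : 1 + u ≤ B)
    (ht : |t - S| ≤ (B - 1) * S) {p s : ℂ} (hp : Rel u (a : ℂ) p) (hs : Rel u ((t : ℂ) + p) s) :
    |s.re - (S + a)| ≤ (B * (1 + u) - 1) * (S + a) := by
  unfold Rel at hp hs
  have hna : ‖(a : ℂ)‖ = a := by rw [Complex.norm_real, Real.norm_eq_abs, abs_of_nonneg ha]
  rw [hna] at hp
  have hp2 : ‖p‖ ≤ (1 + u) * a := by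
    have := norm_sub_norm_le p (a : ℂ)
    rw [hna] at this
    linarith
  have ht2 : |t| ≤ B * S := by
    have := abs_sub_abs_le_abs_sub t S
    rw [abs_of_nonneg hS] at this
    linarith
  have htn : ‖(t : ℂ)‖ = |t| := by rw [Complex.norm_real, Real.norm_eq_abs]
  have h1 : ‖(t : ℂ) + p‖ ≤ B * S + (1 + u) * a := by
    refine (norm_add_le _ _).trans ?_
    rw [htn]
    linarith
  have h2 : ‖s - ((t : ℂ) + p)‖ ≤ u * (B * S + (1 + u) * a) :=
    hs.trans (mul_le_mul_of_nonneg_left h1 hu)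
  have h3 : ‖((t : ℂ) - (S : ℂ))‖ ≤ (B - 1) * S := by
    rw [← Complex.ofReal_sub, Complex.norm_real, Real.norm_eq_abs]
    exact ht
  have h4 : ‖s - ((S : ℂ) + (a : ℂ))‖ ≤ (B * (1 + u) - 1) * S + ((1 + u) * (1 + u) - 1) * a := by
    have e : s - ((S : ℂ) + (a : ℂ)) = (s - ((t : ℂ) + p)) + ((t : ℂ) - S) + (p - a) := by ring
    rw [e]
    refine (norm_add_le _ _).trans ?_
    have := norm_add_le (s - ((t : ℂ) + p)) ((t : ℂ) - S)
    linarith
  have h5 : |s.re - (S + a)| ≤ ‖s - ((S : ℂ) + (a : ℂ))‖ := by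
    have := Complex.abs_re_le_norm (s - ((S : ℂ) + (a : ℂ)))
    simpa using this
  refine h5.trans (h4.trans ?_)
  have h6 : ((1 + u) * (1 + u) - 1) * a ≤ (B * (1 + u) - 1) * a := by
    refine mul_le_mul_of_nonneg_right ?_ ha
    have := mul_le_mul_of_nonneg_right hB (by linarith : (0 : ℝ) ≤ 1 + u)
    linarith
  linarith

theorem post_sq {ad : Adv} {u : ℝ} (hu : ad.Le u) {n : ℕ} (hn : 1 ≤ n) (hnu : n * u ≤ 1 / 100)
    {env : Env} {x : RVec n} {X : Fin n → ℂ} (hx : HasV env x X) :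
    Post ad (sqP x) env (fun r env' => ∃ t : ℝ, Has env' r (t : ℂ) ∧
      |t - nv X ^ 2| ≤ 2.1 * (n + 1) * u * nv X ^ 2 / 2) := by
  have hu0 := hu.nonneg
  unfold sqP
  refine Post.bind (post_cst hu env 0 0) ?_
  rintro r0 env0 h0 ⟨z, hz, hz2⟩
  have hz0 : z = ((0 : ℝ) : ℂ) := by
    unfold Rel at hz2
    simp at hz2
    rw [hz2]
    simp
  have key := post_iterF (ad := ad) n (fun i acc => do
    let c ← conjP (x i)
    let p ← mulP (x i) c
    let s ← addP acc p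
    reP s) r0 env0 (fun k r env' => ∃ t : ℝ, Has env' r (t : ℂ) ∧
      |t - NRM_S X k| ≤ ((1 + u) ^ (k + 1) - 1) * NRM_S X k)
    ⟨0, by rw [hz0] at hz; exact hz, by rw [NRM_S_zero]; simp⟩ ?_
  · refine key.weaken ?_
    rintro r env' _ ⟨t, ht, ht2⟩
    refine ⟨t, ht, ?_⟩
    rw [NRM_S_all] at ht2
    refine ht2.trans ?_
    have hn' : (1 : ℝ) ≤ n := by exact_mod_cast hn
    have h1 : ((n + 1 : ℕ) : ℝ) * u ≤ 1 / 50 := by
      push_cast
      nlinarith
    have h2 := NRM_pow hu0 h1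
    push_cast at h2
    have h3 : 0 ≤ nv X ^ 2 := sq_nonneg _
    have h4 : 0 ≤ ((n : ℝ) + 1) * u := by positivity
    have h5 : ((1 + u) ^ (n + 1) - 1) * nv X ^ 2 ≤ (1.02 * ((n + 1) * u)) * nv X ^ 2 :=
      mul_le_mul_of_nonneg_right h2 h3
    nlinarith [mul_nonneg h4 h3]
  · intro k s env1 h1 hi
    obtain ⟨t, ht, ht2⟩ := hi
    have hxk : Has env1 (x k) (X k) := (hx k).mono (h0.trans h1)
    refine Post.bind (post_conj hxk) ?_
    intro c env2 h2 hc
    refine Post.bind (post_mul hu (hxk.mono h2) hc) ?_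
    rintro p env3 h3 ⟨pv, hp, hpr⟩
    refine Post.bind (post_add hu ((ht.mono h2).mono h3) hp) ?_
    rintro s' env4 h4 ⟨sv, hs, hsr⟩
    refine (post_re hs).weaken ?_
    intro r env5 _ hr
    refine ⟨sv.re, hr, ?_⟩
    rw [NRM_S_succ]
    have hmul : X k * (starRingEnd ℂ) (X k) = ((‖X k‖ ^ 2 : ℝ) : ℂ) := by
      rw [Complex.mul_conj, Complex.normSq_eq_norm_sq]
    rw [hmul] at hpr
    have hB : 1 + u ≤ (1 + u) ^ ((k : ℕ) + 1) := by
      have := one_le_pow₀ (M₀ := ℝ) (a := 1 + u) (n := (k : ℕ)) (by linarith)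
      rw [pow_succ]
      nlinarith
    have := NRM_step hu0 (NRM_S_nonneg X k) (sq_nonneg ‖X k‖) hB ht2 hpr hsr
    rw [pow_succ _ ((k : ℕ) + 1)]
    exact this

theorem post_norm {ad : Adv} {u : ℝ} (hu : ad.Le u) {n : ℕ} (hn : 1 ≤ n) (hnu : n * u ≤ 1 / 100)
    {env : Env} {x : RVec n} {X : Fin n → ℂ} (hx : HasV env x X) :
    Post ad (normP x) env (fun r env' => ∃ t : ℝ, Has env' r (t : ℂ) ∧ |t - nv X| ≤ 4 * n * u * nv X) := by
  have hu0 := hu.nonneg
  have hn' : (1 : ℝ) ≤ n := by exact_mod_cast hn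
  have hN : 0 ≤ nv X := Real.sqrt_nonneg _
  have hnu' : ((n : ℝ) + 1) * u ≤ 1 / 50 := by nlinarith
  have hnu0 : 0 ≤ ((n : ℝ) + 1) * u := by positivity
  unfold normP
  refine Post.bind (post_sq hu hn hnu hx) ?_
  rintro r0 env0 _ ⟨t, ht, ht2⟩
  have hN2 : 0 ≤ nv X ^ 2 := sq_nonneg _
  have ht0 : 0 ≤ t := by
    have h1 := (abs_le.1 ht2).1
    nlinarith [mul_nonneg hnu0 hN2]
  refine Post.bind (post_sqrt_real hu ht ht0) ?_
  rintro r1 env1 _ ⟨z, hz, hz2⟩
  refine (post_re hz).weaken ?_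
  intro r2 env2 _ hr2
  refine ⟨z.re, hr2, ?_⟩
  have hs0 : 0 ≤ Real.sqrt t := Real.sqrt_nonneg t
  have hss : Real.sqrt t ^ 2 = t := Real.sq_sqrt ht0
  have h1 : |z.re - Real.sqrt t| ≤ u * Real.sqrt t := by
    unfold Rel at hz2
    rw [Complex.norm_real, Real.norm_eq_abs, abs_of_nonneg hs0] at hz2
    have := Complex.abs_re_le_norm (z - ((Real.sqrt t : ℝ) : ℂ))
    rw [Complex.sub_re, Complex.ofReal_re] at this
    exact this.trans hz2
  have h2 : |Real.sqrt t - nv X| ≤ 1.05 * (((n : ℝ) + 1) * u) * nv X := by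
    rcases hN.eq_or_lt with h0 | hpos
    · rw [← h0] at ht2 ⊢
      have : t = 0 := by
        have : |t - 0 ^ 2| ≤ 0 := by
          refine ht2.trans (le_of_eq ?_)
          ring
        have h3 := abs_nonpos_iff.1 this
        linarith
      rw [this]
      simp
    · have h3 : |Real.sqrt t - nv X| * (Real.sqrt t + nv X) = |t - nv X ^ 2| := by
        rw [← abs_of_nonneg (add_nonneg hs0 hN), ← abs_mul]
        congr 1
        nlinarith
      have h4 : |Real.sqrt t - nv X| * nv X ≤ |t - nv X ^ 2| := by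
        rw [← h3]
        exact mul_le_mul_of_nonneg_left (by linarith) (abs_nonneg _)
      have h5 : |Real.sqrt t - nv X| * nv X ≤ 1.05 * (((n : ℝ) + 1) * u) * nv X * nv X := by
        refine h4.trans (ht2.trans (le_of_eq ?_))
        ring
      exact le_of_mul_le_mul_right h5 hpos
  have h6 : Real.sqrt t ≤ 1.05 * nv X := by
    have := (abs_le.1 h2).2
    nlinarith
  have h7 : |z.re - nv X| ≤ u * Real.sqrt t + 1.05 * (((n : ℝ) + 1) * u) * nv X := by
    have e : z.re - nv X = (z.re - Real.sqrt t) + (Real.sqrt t - nv X) := by ring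
    rw [e]
    exact (abs_add_le _ _).trans (add_le_add h1 h2)
  refine h7.trans ?_
  have h8 : u * Real.sqrt t ≤ u * (1.05 * nv X) := mul_le_mul_of_nonneg_left h6 hu0
  have h9 : 0 ≤ u * nv X := mul_nonneg hu0 hN
  nlinarith [mul_le_mul_of_nonneg_right hn' h9]

end H6LP
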