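import Pool.Agent.H6.LP.QR
import Pool.Agent.H6.LP.DETP
import Pool.Agent.H6.LP.NRM

/-!
# DET: the computed value of `|det (z - H)|`

`shiftP` gives `T = H - Z + E0`, `fro E0 ≤ u fro (H - Z)` (diagonal entries only);
`post_qr`: `R = 𝒬 (T + E1)`, so `∏ |R_ii| = |det R| = |det (H - z + E)|` with
`fro E ≤ 0.003 t/n`; `norm_det_add_bound` (sign: `det (X - z) = ± det (z - X)`); the product of the
norms: relative error `≤ 20 n u`.
-/

set_option autoImplicit false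

open Complex Matrix

namespace H6LP

/-- the shifted matrix -/
theorem post_shift {ad : Adv} {u : ℝ} (hu : ad.Le u) {n : ℕ} {env : Env} {x : RMat n n} {z : ℕ}
    {X : Matrix (Fin n) (Fin n) ℂ} {Z : ℂ} (hx : HasM env x X) (hz : Has env z Z) :
    Post ad (shiftP x z) env (fun t env' => ∃ T : Matrix (Fin n) (Fin n) ℂ, HasM env' t T ∧
      fro (T - (X - Z • (1 : Matrix (Fin n) (Fin n) ℂ))) ≤ u * fro (X - Z • (1 : Matrix (Fin n) (Fin n) ℂ)) ∧
      (∀ i j, i ≠ j → T i j = X i j)) := by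
  unfold shiftP
  refine Post.bind (post_vecM n _ env (fun i (r : ℕ) env' => ∃ d, Has env' r d ∧ Rel u (X i i - Z) d)
    ?_ ?_) ?_
  · rintro i b env1 env2 h12 ⟨d, hd, hr⟩
    exact ⟨d, hd.mono h12, hr⟩
  · intro i env' h'
    exact post_sub hu ((hx i i).mono h') (hz.mono h')
  · intro d env' h' hd
    choose v hv hr using hd
    refine Post.pure ?_
    refine ⟨fun i j => if i = j then v i else X i j, ?_, ?_, ?_⟩
    · intro i j
      by_cases hij : i = j
      · simp only [if_pos hij]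
        exact hv i
      · simp only [if_neg hij]
        exact (hx i j).mono h'
    · refine fro_le_of_entries hu.nonneg ?_
      intro i j
      by_cases hij : i = j
      · subst hij
        have h1 := hr i
        unfold Rel at h1
        simpa [Matrix.sub_apply, Matrix.smul_apply] using h1
      · simp only [Matrix.sub_apply, Matrix.smul_apply, if_neg hij, Matrix.one_apply_ne hij,
          smul_zero, sub_zero, sub_self, norm_zero]
        exact mul_nonneg hu.nonneg (norm_nonneg _)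
    · intro i j hij
      simp only [if_neg hij]

/-- the diagonal products -/
noncomputable def DET_pr {n : ℕ} (R : Matrix (Fin n) (Fin n) ℂ) (k : ℕ) : ℝ :=
  ∏ i ∈ Finset.range k, (if h : i < n then ‖R ⟨i, h⟩ ⟨i, h⟩‖ else 1)

theorem DET_pr_succ {n : ℕ} (R : Matrix (Fin n) (Fin n) ℂ) (k : Fin n) :
    DET_pr R (k + 1) = DET_pr R k * ‖R k k‖ := by
  unfold DET_pr
  rw [Finset.prod_range_succ, dif_pos k.2]

theorem DET_pr_nonneg {n : ℕ} (R : Matrix (Fin n) (Fin n) ℂ) (k : ℕ) : 0 ≤ DET_pr R k := by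
  refine Finset.prod_nonneg fun i _ => ?_
  split_ifs
  · exact norm_nonneg _
  · exact zero_le_one

theorem DET_pr_eq {n : ℕ} (R : Matrix (Fin n) (Fin n) ℂ) : DET_pr R n = ∏ i, ‖R i i‖ := by
  unfold DET_pr
  rw [← Fin.prod_univ_eq_prod_range (fun i => if h : i < n then ‖R ⟨i, h⟩ ⟨i, h⟩‖ else 1) n]
  refine Finset.prod_congr rfl fun i _ => ?_
  rw [dif_pos i.2]

theorem DET_nv1 (r : ℂ) : nv ![r] = ‖r‖ := by
  unfold nv
  simp [Real.sqrt_sq (norm_nonneg r)]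

/-- one multiplication step -/
theorem DET_step {a t a' P r u δ : ℝ} (hu : 0 ≤ u) (hu1 : u ≤ 1 / 4) (hP : 0 ≤ P) (hr : 0 ≤ r)
    (hδ : 0 ≤ δ) (ha : |a - P| ≤ δ * P) (ht : |t - r| ≤ 4 * u * r) (ha' : |a' - a * t| ≤ u * |a * t|) :
    |a' - P * r| ≤ ((1 + δ) * (1 + 6 * u) - 1) * (P * r) := by
  have hPr : 0 ≤ P * r := mul_nonneg hP hr
  have h1 : |a * t - P * r| ≤ ((1 + δ) * (1 + 4 * u) - 1) * (P * r) := by
    have e1 : a * t - P * r = (a - P) * (t - r) + (a - P) * r + P * (t - r) := by ring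
    have h2 : |(a - P) * (t - r)| ≤ δ * P * (4 * u * r) := by
      rw [abs_mul]
      exact mul_le_mul ha ht (abs_nonneg _) (mul_nonneg hδ hP)
    have h3 : |(a - P) * r| ≤ δ * P * r := by
      rw [abs_mul, abs_of_nonneg hr]
      exact mul_le_mul_of_nonneg_right ha hr
    have h4 : |P * (t - r)| ≤ P * (4 * u * r) := by
      rw [abs_mul, abs_of_nonneg hP]
      exact mul_le_mul_of_nonneg_left ht hP
    rw [e1]
    refine (abs_add_three _ _ _).trans ?_
    nlinarith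
  have h2 : |a * t| ≤ (1 + δ) * (1 + 4 * u) * (P * r) := by
    have e1 : a * t = (a * t - P * r) + P * r := by ring
    rw [e1]
    refine (abs_add_le _ _).trans ?_
    rw [abs_of_nonneg hPr]
    linarith
  have h3 : |a' - P * r| ≤ u * |a * t| + |a * t - P * r| := by
    have e1 : a' - P * r = (a' - a * t) + (a * t - P * r) := by ring
    rw [e1]
    exact (abs_add_le _ _).trans (add_le_add_left ha' _)
  have h4 : u * |a * t| ≤ u * ((1 + δ) * (1 + 4 * u) * (P * r)) := mul_le_mul_of_nonneg_left h2 hu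
  have h5 : (1 + δ) * ((1 + 4 * u) * (1 + u)) * (P * r) ≤ (1 + δ) * (1 + 6 * u) * (P * r) := by
    refine mul_le_mul_of_nonneg_right (mul_le_mul_of_nonneg_left ?_ (by linarith)) hPr
    nlinarith
  nlinarith

theorem DET_loop {ad : Adv} {u : ℝ} (hu : ad.Le u) (hu1 : u ≤ 1 / 100) {n : ℕ}
    {env : Env} {s : RMat n n} {R : Matrix (Fin n) (Fin n) ℂ} (hs : HasM env s R) {one : ℕ} {a0 : ℝ}
    (h1 : Has env one (a0 : ℂ)) (ha0 : |a0 - 1| ≤ u) :
    Post ad (iterF n (fun i acc => do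
      let a ← normP ![s i i]
      fmulP acc a) one) env (fun r env' => ∃ d : ℝ, Has env' r (d : ℂ) ∧
        |d - ∏ i, ‖R i i‖| ≤ ((1 + 6 * u) ^ (n + 1) - 1) * ∏ i, ‖R i i‖) := by
  have hu0 := hu.nonneg
  have h := post_iterF (ad := ad) n (fun i acc => do
      let a ← normP ![s i i]
      fmulP acc a) one env (fun k acc env' => ∃ d : ℝ, Has env' acc (d : ℂ) ∧
        |d - DET_pr R k| ≤ ((1 + 6 * u) ^ (k + 1) - 1) * DET_pr R k) ?_ ?_
  · refine h.weaken ?_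
    rintro r env' _ ⟨d, hd, hd'⟩
    refine ⟨d, hd, ?_⟩
    rw [DET_pr_eq] at hd'
    exact hd'
  · refine ⟨a0, h1, ?_⟩
    have : DET_pr R 0 = 1 := by simp [DET_pr]
    rw [this]
    refine ha0.trans ?_
    rw [zero_add, pow_one]
    linarith
  · rintro k acc env1 hpre ⟨d, hd, hd'⟩
    have hv : HasV env1 ![s k k] ![R k k] := by
      intro i
      have : i = 0 := Subsingleton.elim _ _
      subst this
      exact (hs k k).mono hpre
    refine Post.bind (post_norm hu (le_refl 1) (by simpa using hu1) hv) ?_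
    rintro t env2 hpre2 ⟨tt, htt, htt'⟩
    refine (post_fmul hu (hd.mono hpre2) htt).weaken ?_
    rintro r env3 hpre3 ⟨a', ha', ha''⟩
    refine ⟨a', ha', ?_⟩
    rw [DET_nv1] at htt'
    rw [DET_pr_succ]
    have hδ : 0 ≤ (1 + 6 * u) ^ ((k : ℕ) + 1) - 1 := by
      have := one_le_pow₀ (n := (k : ℕ) + 1) (show (1 : ℝ) ≤ 1 + 6 * u by linarith)
      linarith
    have h2 := DET_step hu0 (by linarith) (DET_pr_nonneg R k) (norm_nonneg (R k k)) hδ hd'
      (by push_cast at htt'; linarith) ha''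
    refine h2.trans (le_of_eq ?_)
    ring

theorem DET_UT_det {n : ℕ} {R : Matrix (Fin n) (Fin n) ℂ} (h : UT R) : R.det = ∏ i, R i i := by
  refine Matrix.det_of_upperTriangular ?_
  intro i j hij
  exact h i j hij

theorem post_det {ad : Adv} {u : ℝ} (hu : ad.Le u) {n : ℕ} (hn : 1 ≤ n)
    {env : Env} {x : RMat n n} {z : ℕ} {X : Matrix (Fin n) (Fin n) ℂ} {Z ζ : ℂ} {t : ℝ}
    (hx : HasM env x X) (hz : Has env z Z) (hh : Hess X)
    (hb : ∀ k (hk : k + 1 < n), X ⟨k + 1, hk⟩ ⟨k, by omega⟩ ≠ 0)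
    (ht : 0 < t) (ht1 : t ≤ 1) (hcol : ColAt X ζ t) (hζ : 10 ^ 4 * n ^ 2 * ‖Z - ζ‖ ≤ t)
    (hnu : 10 ^ 6 * n ^ 3 * u * (fro X + ‖ζ‖ + 1) ≤ t) :
    Post ad (detP x z) env (fun r env' => ∃ d : ℝ, Has env' r (d : ℂ) ∧
      0 < ‖(ζ • (1 : Matrix (Fin n) (Fin n) ℂ) - X).det‖ ∧
      |d - ‖(ζ • (1 : Matrix (Fin n) (Fin n) ℂ) - X).det‖| ≤
        0.005 * ‖(ζ • (1 : Matrix (Fin n) (Fin n) ℂ) - X).det‖) := by
  have hu0 := hu.nonneg
  have hn1 : (1 : ℝ) ≤ n := by exact_mod_cast hn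
  set F : ℝ := fro X + ‖ζ‖ + 1 with hF
  have hF1 : 1 ≤ F := by
    have h1 := fro_nonneg X
    have h2 := norm_nonneg ζ
    rw [hF]
    linarith
  -- consequences of hnu
  have hn3 : (n : ℝ) ≤ (n : ℝ) ^ 3 := by
    have : (n : ℝ) ^ 1 ≤ (n : ℝ) ^ 3 := pow_le_pow_right₀ hn1 (by norm_num)
    simpa using this
  have hn2 : (n : ℝ) ≤ (n : ℝ) ^ 2 := by
    have : (n : ℝ) ^ 1 ≤ (n : ℝ) ^ 2 := pow_le_pow_right₀ hn1 (by norm_num)
    simpa using this
  have hnu3 : 10 ^ 6 * (n : ℝ) ^ 3 * u ≤ 1 := by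
    have h1 : 10 ^ 6 * (n : ℝ) ^ 3 * u * 1 ≤ 10 ^ 6 * (n : ℝ) ^ 3 * u * F :=
      mul_le_mul_of_nonneg_left hF1 (by positivity)
    linarith
  have hnu1 : (n : ℝ) * u ≤ 1 / 10 ^ 6 := by
    have h1 : (n : ℝ) * u ≤ (n : ℝ) ^ 3 * u := mul_le_mul_of_nonneg_right hn3 hu0
    have h2 : (n : ℝ) ^ 3 * u ≤ 1 / 10 ^ 6 := by
      rw [le_div_iff₀ (by norm_num)]
      linarith
    exact h1.trans h2
  have hu1 : u ≤ 1 / 10 ^ 6 := by
    have : 1 * u ≤ n * u := mul_le_mul_of_nonneg_right hn1 hu0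
    linarith
  unfold detP
  refine Post.bind (post_shift hu hx hz) ?_
  rintro tt env1 hp1 ⟨T, hT, hT1, hT2⟩
  refine Post.bind (post_cst hu env1 0 0) ?_
  rintro zz env2 hp2 ⟨z0, hz0, hz0'⟩
  have hTh : Hess T := by
    intro i j hij
    rw [hT2 i j (by rintro rfl; omega)]
    exact hh i j hij
  have hTb : ∀ k (hk : k + 1 < n), T ⟨k + 1, hk⟩ ⟨k, by omega⟩ ≠ 0 := by
    intro k hk
    rw [hT2 _ _ (by intro h; have := congrArg Fin.val h; simp at this)]
    exact hb k hk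
  refine Post.bind (post_qr hu hn (by linarith) (hT.mono hp2) (y := fun _ => zz)
    (Y := fun _ => z0) (fun _ => hz0) hTh hTb) ?_
  rintro S env3 hp3 ⟨Q, E, R, f, Y', hQ, hS1, hS2, hR, hY', hE, hf, hUT, hne⟩
  refine Post.bind (post_cst hu env3 1 0) ?_
  rintro o env4 hp4 ⟨o0, ho0, ho0'⟩
  refine Post.bind (post_re ho0) ?_
  rintro one env5 hp5 hone
  have ho1 : |o0.re - 1| ≤ u := by
    unfold Rel at ho0'
    have h1 : ‖o0 - 1‖ ≤ u := by simpa using ho0'
    have h2 := Complex.abs_re_le_norm (o0 - 1)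
    simp only [Complex.sub_re, Complex.one_re] at h2
    exact h2.trans h1
  refine (DET_loop hu (by linarith) ((hS1.mono hp4).mono hp5) hone ho1).weaken ?_
  rintro r env6 hp6 ⟨d, hd, hd'⟩
  refine ⟨d, hd, ?_⟩
  -- the product of the diagonal entries
  set E' : Matrix (Fin n) (Fin n) ℂ :=
    (Z - ζ) • (1 : Matrix (Fin n) (Fin n) ℂ) - (T - (X - Z • (1 : Matrix (Fin n) (Fin n) ℂ))) - E
    with hE'
  have hprod : ∏ i, ‖R i i‖ = ‖((ζ • (1 : Matrix (Fin n) (Fin n) ℂ) - X) + E').det‖ := by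
    have h1 : ∏ i, ‖R i i‖ = ‖R.det‖ := by rw [DET_UT_det hUT, norm_prod]
    have h2 : T + E = -((ζ • (1 : Matrix (Fin n) (Fin n) ℂ) - X) + E') := by
      rw [hE', sub_smul]
      abel
    rw [h1, hR, Matrix.det_mul, norm_mul, hQ.norm_det, one_mul, h2, Matrix.det_neg, norm_mul]
    simp
  have hXZ : fro (X - Z • (1 : Matrix (Fin n) (Fin n) ℂ)) ≤ n * F := by
    have h1 := fro_sub_le X (Z • (1 : Matrix (Fin n) (Fin n) ℂ))
    rw [fro_smul_one] at h1
    have h2 : ‖Z‖ ≤ ‖ζ‖ + ‖Z - ζ‖ := by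
      have e1 : Z = ζ + (Z - ζ) := by ring
      calc ‖Z‖ = ‖ζ + (Z - ζ)‖ := by rw [← e1]
        _ ≤ _ := norm_add_le _ _
    have h3 : ‖Z - ζ‖ ≤ 1 := by
      have h4 : (1 : ℝ) * ‖Z - ζ‖ ≤ 10 ^ 4 * n ^ 2 * ‖Z - ζ‖ := by
        refine mul_le_mul_of_nonneg_right ?_ (norm_nonneg _)
        nlinarith
      linarith
    have h4 : Real.sqrt n ≤ n := by
      rw [Real.sqrt_le_left (by linarith)]
      exact hn2
    have h5 : ‖Z‖ * Real.sqrt n ≤ (‖ζ‖ + 1) * n :=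
      mul_le_mul (by linarith) h4 (Real.sqrt_nonneg _) (by positivity)
    have h6 : fro X ≤ fro X * n := le_mul_of_one_le_right (fro_nonneg X) hn1
    calc fro (X - Z • (1 : Matrix (Fin n) (Fin n) ℂ)) ≤ fro X * n + (‖ζ‖ + 1) * n := by linarith
      _ = n * F := by rw [hF]; ring
  have hTf : fro T ≤ 2 * (n * F) := by
    have e1 : T = (T - (X - Z • (1 : Matrix (Fin n) (Fin n) ℂ))) +
      (X - Z • (1 : Matrix (Fin n) (Fin n) ℂ)) := by abel
    have h1 : fro T ≤ fro (T - (X - Z • (1 : Matrix (Fin n) (Fin n) ℂ))) +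
        fro (X - Z • (1 : Matrix (Fin n) (Fin n) ℂ)) := by
      conv_lhs => rw [e1]
      exact fro_add_le _ _
    have h2 : u * fro (X - Z • (1 : Matrix (Fin n) (Fin n) ℂ)) ≤
        1 * fro (X - Z • (1 : Matrix (Fin n) (Fin n) ℂ)) :=
      mul_le_mul_of_nonneg_right (by linarith) (fro_nonneg _)
    linarith
  have hE'f : 300 * n * fro E' ≤ t := by
    have h1 : fro E' ≤ fro ((Z - ζ) • (1 : Matrix (Fin n) (Fin n) ℂ)) +
        fro (T - (X - Z • (1 : Matrix (Fin n) (Fin n) ℂ))) + fro E := by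
      rw [hE']
      exact (fro_sub_le _ _).trans (add_le_add_left (fro_sub_le _ _) _)
    rw [fro_smul_one] at h1
    have h4 : Real.sqrt n ≤ n := by
      rw [Real.sqrt_le_left (by linarith)]
      exact hn2
    have h2 : ‖Z - ζ‖ * Real.sqrt n ≤ ‖Z - ζ‖ * n := mul_le_mul_of_nonneg_left h4 (norm_nonneg _)
    have h3 : u * fro (X - Z • (1 : Matrix (Fin n) (Fin n) ℂ)) ≤ u * (n * F) :=
      mul_le_mul_of_nonneg_left hXZ hu0
    have h5 : 200 * n * u * fro T ≤ 200 * n * u * (2 * (n * F)) :=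
      mul_le_mul_of_nonneg_left hTf (by positivity)
    have h6 : fro E' ≤ ‖Z - ζ‖ * n + u * (n * F) + 200 * n * u * (2 * (n * F)) := by linarith
    have h7 : 300 * n * fro E' ≤
        300 * n * (‖Z - ζ‖ * n + u * (n * F) + 200 * n * u * (2 * (n * F))) :=
      mul_le_mul_of_nonneg_left h6 (by positivity)
    have h8 : (n : ℝ) * (u * (n * F)) ≤ n ^ 3 * u * F := by
      have h9 : (n : ℝ) ^ 2 * (u * F) ≤ n ^ 3 * (u * F) :=
        mul_le_mul_of_nonneg_right (pow_le_pow_right₀ hn1 (by norm_num)) (by positivity)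
      nlinarith
    have h9 : 300 * n * (‖Z - ζ‖ * n + u * (n * F) + 200 * n * u * (2 * (n * F))) =
        300 * ((n : ℝ) ^ 2 * ‖Z - ζ‖) + 300 * (n * (u * (n * F))) + 120000 * (n ^ 3 * u * F) := by
      ring
    have h10 : (n : ℝ) ^ 2 * ‖Z - ζ‖ ≤ t / 10 ^ 4 := by
      rw [le_div_iff₀ (by norm_num)]
      linarith
    have h11 : (n : ℝ) ^ 3 * u * F ≤ t / 10 ^ 6 := by
      rw [le_div_iff₀ (by norm_num)]
      linarith
    linarith
  obtain ⟨hdet0, hdet1⟩ := norm_det_add_bound hn ht hcol hE'f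
  rw [hprod] at hd'
  set D : ℝ := ‖(ζ • (1 : Matrix (Fin n) (Fin n) ℂ) - X).det‖ with hD
  set P : ℝ := ‖((ζ • (1 : Matrix (Fin n) (Fin n) ℂ) - X) + E').det‖ with hP
  have hDpos : 0 < D := norm_pos_iff.2 hdet0
  refine ⟨hDpos, ?_⟩
  have hP0 : 0 ≤ P := norm_nonneg _
  have hpow : (1 + 6 * u) ^ (n + 1) - 1 ≤ 24 * (1 / 10 ^ 6) := by
    have h1 := one_add_pow_sub_one_le (u := 6 * u) (by linarith) (k := n + 1) (by
      push_cast
      nlinarith)
    push_cast at h1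
    nlinarith
  have h1 : |d - P| ≤ 24 * (1 / 10 ^ 6) * P := hd'.trans (mul_le_mul_of_nonneg_right hpow hP0)
  have h2 : P ≤ 1.004 * D := by
    have := (abs_le.1 hdet1).2
    linarith
  have h3 : |d - D| ≤ |d - P| + |P - D| := abs_sub_le _ _ _
  linarith

end H6LP
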