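import Pool.Agent.H6.LP.NB

/-!
# DIAG: easy consequences of `Diag` (pure)
-/

set_option autoImplicit false

open Complex Matrix

namespace H6LP

theorem DIAG_eq {n : ℕ} {X : Matrix (Fin n) (Fin n) ℂ} {s w0 : ℝ} {lam : Fin n → ℂ}
    {V W : Matrix (Fin n) (Fin n) ℂ} (h : Diag X s w0 lam V W) (z : ℂ) :
    z • (1 : Matrix (Fin n) (Fin n) ℂ) - X = V * Matrix.diagonal (fun i => z - lam i) * W := by
  have h1 : Matrix.diagonal (fun i => z - lam i) =
      z • (1 : Matrix (Fin n) (Fin n) ℂ) - Matrix.diagonal lam := by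
    ext i j
    rw [Matrix.sub_apply, Matrix.smul_apply, Matrix.diagonal_apply, Matrix.diagonal_apply,
      Matrix.one_apply]
    by_cases hij : i = j
    · simp [hij]
    · simp [hij]
  rw [h1, Matrix.mul_sub, Matrix.sub_mul, ← h.eq, Matrix.mul_smul, Matrix.mul_one,
    Matrix.smul_mul, h.vw]

/-- the determinant of `z - X` -/
theorem Diag.det {n : ℕ} {X : Matrix (Fin n) (Fin n) ℂ} {s w0 : ℝ} {lam : Fin n → ℂ}
    {V W : Matrix (Fin n) (Fin n) ℂ} (h : Diag X s w0 lam V W) (z : ℂ) :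
    (z • (1 : Matrix (Fin n) (Fin n) ℂ) - X).det = ∏ i, (z - lam i) := by
  rw [DIAG_eq h, Matrix.det_mul, Matrix.det_mul, Matrix.det_diagonal]
  have h1 : V.det * W.det = 1 := by rw [← Matrix.det_mul, h.vw, Matrix.det_one]
  calc V.det * (∏ i, (z - lam i)) * W.det = (V.det * W.det) * ∏ i, (z - lam i) := by ring
    _ = ∏ i, (z - lam i) := by rw [h1, one_mul]

/-- reindexing -/
theorem Diag.perm {n : ℕ} {X : Matrix (Fin n) (Fin n) ℂ} {s w0 : ℝ} {lam : Fin n → ℂ}
    {V W : Matrix (Fin n) (Fin n) ℂ} (h : Diag X s w0 lam V W) (σ : Equiv.Perm (Fin n)) :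
    Diag X s w0 (fun i => lam (σ i)) (fun i j => V i (σ j)) (fun i j => W (σ i) j) := by
  have hVW : ∀ D : Fin n → ℂ, (Matrix.of fun i j => V i (σ j)) * Matrix.diagonal (fun i => D (σ i)) *
      (Matrix.of fun i j => W (σ i) j) = V * Matrix.diagonal D * W := by
    intro D
    ext i j
    rw [Matrix.mul_apply, Matrix.mul_apply]
    simp only [Matrix.mul_diagonal, Matrix.of_apply]
    exact Equiv.sum_comp σ (fun x => V i x * D x * W x j)
  refine ⟨?_, ?_, ?_, fun i => h.lam_le _, fun j => h.col _, fun i => h.row _,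
    fun i j hj => h.first _ j hj, fun i j hij => h.gap _ _ (fun hc => hij (σ.injective hc))⟩
  · exact h.eq.trans (hVW lam).symm
  · ext i j
    have h1 : (V * W) i j = (1 : Matrix (Fin n) (Fin n) ℂ) i j := by rw [h.vw]
    rw [← h1]
    exact Equiv.sum_comp σ (fun x => V i x * W x j)
  · ext i j
    have h1 : (W * V) (σ i) (σ j) = (1 : Matrix (Fin n) (Fin n) ℂ) (σ i) (σ j) := by rw [h.wv]
    have h2 : (1 : Matrix (Fin n) (Fin n) ℂ) (σ i) (σ j) = (1 : Matrix (Fin n) (Fin n) ℂ) i j := by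
      rw [Matrix.one_apply, Matrix.one_apply]
      by_cases hij : i = j
      · simp [hij]
      · rw [if_neg hij, if_neg (fun hc => hij (σ.injective hc))]
    rw [← h2, ← h1]
    rfl

/-- the resolvent bound -/
theorem Diag.colAt {n : ℕ} (hn : 1 ≤ n) {X : Matrix (Fin n) (Fin n) ℂ} {s w0 : ℝ} (hw : 0 < w0)
    {lam : Fin n → ℂ} {V W : Matrix (Fin n) (Fin n) ℂ} (h : Diag X s w0 lam V W) {z : ℂ} {d : ℝ}
    (hd : 0 ≤ d) (hz : ∀ i, d ≤ ‖z - lam i‖) : ColAt X z (w0 / n * d) := by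
  intro x
  have hn0 : (0 : ℝ) < n := by exact_mod_cast (by omega : 0 < n)
  set y : Fin n → ℂ := W *ᵥ x with hy
  set r : Fin n → ℂ := (z • (1 : Matrix (Fin n) (Fin n) ℂ) - X) *ᵥ x with hr
  have hV : fro V ≤ Real.sqrt n * 1 := fro_le_sqrt_cols zero_le_one (fun j => (h.col j).le)
  have hW : fro W ≤ Real.sqrt n * (1 / w0) := fro_le_sqrt_rows (by positivity) h.row
  have hx : x = V *ᵥ y := by
    rw [hy, Matrix.mulVec_mulVec, h.vw, Matrix.one_mulVec]
  have hWr : W *ᵥ r = fun i => (z - lam i) * y i := by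
    rw [hr, DIAG_eq h, Matrix.mulVec_mulVec, ← Matrix.mul_assoc, ← Matrix.mul_assoc, h.wv,
      Matrix.one_mul, ← Matrix.mulVec_mulVec, ← hy]
    funext i
    rw [Matrix.mulVec_diagonal]
  have h1 : nv x ≤ Real.sqrt n * nv y := by
    rw [hx]
    refine (nv_mulVec_le V y).trans ?_
    have := mul_le_mul_of_nonneg_right hV (nv_nonneg y)
    linarith
  have h2 : d * nv y ≤ Real.sqrt n * (1 / w0) * nv r := by
    have h3 : d * nv y ≤ nv (W *ᵥ r) := by
      rw [hWr]
      have h4 : nv ((d : ℂ) • y) = d * nv y := by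
        rw [nv_smul, Complex.norm_real, Real.norm_eq_abs, abs_of_nonneg hd]
      rw [← h4]
      apply nv_mono
      intro i
      rw [Pi.smul_apply, smul_eq_mul, norm_mul, norm_mul, Complex.norm_real, Real.norm_eq_abs,
        abs_of_nonneg hd]
      exact mul_le_mul_of_nonneg_right (hz i) (norm_nonneg _)
    refine h3.trans ((nv_mulVec_le W r).trans ?_)
    exact mul_le_mul_of_nonneg_right hW (nv_nonneg r)
  have hs : Real.sqrt n * Real.sqrt n = n := Real.mul_self_sqrt hn0.le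
  have hs0 : 0 ≤ Real.sqrt n := Real.sqrt_nonneg _
  calc w0 / n * d * nv x ≤ w0 / n * d * (Real.sqrt n * nv y) :=
        mul_le_mul_of_nonneg_left h1 (by positivity)
    _ = w0 / n * Real.sqrt n * (d * nv y) := by ring
    _ ≤ w0 / n * Real.sqrt n * (Real.sqrt n * (1 / w0) * nv r) :=
        mul_le_mul_of_nonneg_left h2 (by positivity)
    _ = (Real.sqrt n * Real.sqrt n) / n * (w0 / w0) * nv r := by ring
    _ = nv r := by rw [hs, div_self hn0.ne', div_self hw.ne']; ring

end H6LP
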