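import Pool.Agent.H6.LP.NB

/-!
# DOT: the error of `dotP`, `fmulP`

Proof of `post_dot`: `post_iterF` with the invariant: after `k` steps the accumulator has a value `z` with
`‖z - ∑_{i<k} X i Y i‖ ≤ ((1+u)^(k+1) - 1) ∑_{i<k} ‖X i‖‖Y i‖`; at the end
`(1+u)^(n+1) - 1 ≤ 2 (n+1) u ≤ 4 n u`.
-/

set_option autoImplicit false

open Complex Matrix

namespace H6LP

theorem Adv.Le.nonneg {ad : Adv} {u : ℝ} (hu : ad.Le u) : 0 ≤ u :=
  (norm_nonneg _).trans (hu 0)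

/-- `(1+u)^k - 1 ≤ 2 k u` -/
theorem one_add_pow_sub_one_le {u : ℝ} (hu : 0 ≤ u) {k : ℕ} (h : k * u ≤ 1 / 2) :
    (1 + u) ^ k - 1 ≤ 2 * k * u := by
  induction k with
  | zero => simp
  | succ k ih =>
    have h1 : (k : ℝ) * u ≤ 1 / 2 := by
      push_cast at h
      nlinarith
    have h2 := ih h1
    have h3 : (1 + u) ^ (k + 1) = (1 + u) ^ k * (1 + u) := pow_succ _ _
    have h4 : (1 + u) ^ k * (1 + u) ≤ (1 + 2 * k * u) * (1 + u) :=
      mul_le_mul_of_nonneg_right (by linarith) (by linarith)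
    have h5 : (k : ℝ) * u * u ≤ 1 / 2 * u := mul_le_mul_of_nonneg_right h1 hu
    rw [h3]
    push_cast
    nlinarith

theorem DOT_sum_succ {M : Type} [AddCommMonoid M] {n : ℕ} (f : Fin n → M) (k : Fin n) :
    (∑ i : Fin n, if (i : ℕ) < (k : ℕ) + 1 then f i else 0)
      = (∑ i : Fin n, if (i : ℕ) < (k : ℕ) then f i else 0) + f k := by
  have h : ∀ i : Fin n, (if (i : ℕ) < (k : ℕ) + 1 then f i else 0)
      = (if (i : ℕ) < (k : ℕ) then f i else 0) + (if i = k then f i else 0) := by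
    intro i
    by_cases h1 : i = k
    · subst h1; simp
    · have h2 : (i : ℕ) ≠ (k : ℕ) := fun h => h1 (Fin.ext h)
      by_cases h3 : (i : ℕ) < (k : ℕ)
      · rw [if_pos (by omega), if_pos h3, if_neg h1, add_zero]
      · rw [if_neg (by omega), if_neg h3, if_neg h1, add_zero]
  rw [Finset.sum_congr rfl (fun i _ => h i), Finset.sum_add_distrib]
  simp

theorem DOT_step {u : ℝ} (hu : 0 ≤ u) {k : ℕ} {z S p q z' : ℂ} {T : ℝ} (hS : ‖S‖ ≤ T)
    (hz : ‖z - S‖ ≤ ((1 + u) ^ (k + 1) - 1) * T) (hp : Rel u q p) (hz' : Rel u (z + p) z') :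
    ‖z' - (S + q)‖ ≤ ((1 + u) ^ (k + 1 + 1) - 1) * (T + ‖q‖) := by
  unfold Rel at hp hz'
  have hT : 0 ≤ T := (norm_nonneg _).trans hS
  have hq := norm_nonneg q
  have h1 : ‖p‖ ≤ (1 + u) * ‖q‖ := by
    calc ‖p‖ = ‖(p - q) + q‖ := by rw [sub_add_cancel]
      _ ≤ ‖p - q‖ + ‖q‖ := norm_add_le _ _
      _ ≤ (1 + u) * ‖q‖ := by linarith
  have h2 : ‖z + p‖ ≤ (1 + u) ^ (k + 1) * T + (1 + u) * ‖q‖ := by
    calc ‖z + p‖ = ‖(z - S) + S + p‖ := by rw [sub_add_cancel]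
      _ ≤ ‖z - S‖ + ‖S‖ + ‖p‖ := norm_add₃_le
      _ ≤ _ := by nlinarith
  have h3 : ‖z' - (S + q)‖ ≤ ‖z' - (z + p)‖ + ‖z - S‖ + ‖p - q‖ := by
    calc ‖z' - (S + q)‖ = ‖(z' - (z + p)) + (z - S) + (p - q)‖ := by congr 1; ring
      _ ≤ _ := norm_add₃_le
  have h4 : (1 + u) ^ (k + 1 + 1) = (1 + u) ^ (k + 1) * (1 + u) := pow_succ _ _
  have h5 : (1 + u) ≤ (1 + u) ^ (k + 1) := le_self_pow₀ (by linarith) (by omega)
  have h6 : u * ‖z + p‖ ≤ u * ((1 + u) ^ (k + 1) * T + (1 + u) * ‖q‖) :=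
    mul_le_mul_of_nonneg_left h2 hu
  have h7 : (1 + u) * (1 + u) * ‖q‖ ≤ (1 + u) ^ (k + 1) * (1 + u) * ‖q‖ := by
    apply mul_le_mul_of_nonneg_right _ hq
    exact mul_le_mul_of_nonneg_right h5 (by linarith)
  rw [h4]
  nlinarith

theorem post_dot {ad : Adv} {u : ℝ} (hu : ad.Le u) {n : ℕ} (hn : 1 ≤ n) (hnu : n * u ≤ 1 / 100)
    {env : Env} {x y : RVec n} {X Y : Fin n → ℂ} (hx : HasV env x X) (hy : HasV env y Y) :
    Post ad (dotP x y) env (fun r env' => ∃ z, Has env' r z ∧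
      ‖z - ∑ i, X i * Y i‖ ≤ 4 * n * u * ∑ i, ‖X i‖ * ‖Y i‖) := by
  have hu0 := hu.nonneg
  unfold dotP
  refine Post.bind (post_cst hu env 0 0) ?_
  rintro r0 env0 h0 ⟨z0, hz0, hrel0⟩
  have hz00 : z0 = 0 := by
    unfold Rel at hrel0
    simpa using hrel0
  subst hz00
  refine Post.weaken (post_iterF n _ r0 env0 (fun k r env' => ∃ z, Has env' r z ∧
    ‖z - ∑ i : Fin n, (if (i : ℕ) < k then X i * Y i else 0)‖ ≤ ((1 + u) ^ (k + 1) - 1) *
      ∑ i : Fin n, (if (i : ℕ) < k then ‖X i‖ * ‖Y i‖ else 0)) ?_ ?_) ?_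
  · exact ⟨0, hz0, by simp⟩
  · rintro k r env1 h1 ⟨z, hz, hzb⟩
    refine Post.bind (post_mul hu ((hx k).mono (h0.trans h1)) ((hy k).mono (h0.trans h1))) ?_
    rintro p env2 h2 ⟨w, hw, hwr⟩
    refine Post.weaken (post_add hu (hz.mono h2) hw) ?_
    rintro r' env3 _ ⟨z', hz', hz'r⟩
    refine ⟨z', hz', ?_⟩
    rw [DOT_sum_succ (fun i => X i * Y i) k, DOT_sum_succ (fun i => ‖X i‖ * ‖Y i‖) k]
    have hS : ‖∑ i : Fin n, (if (i : ℕ) < (k : ℕ) then X i * Y i else 0)‖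
        ≤ ∑ i : Fin n, (if (i : ℕ) < (k : ℕ) then ‖X i‖ * ‖Y i‖ else 0) := by
      refine (norm_sum_le _ _).trans (le_of_eq ?_)
      apply Finset.sum_congr rfl
      intro i _
      split_ifs
      · exact norm_mul _ _
      · exact norm_zero
    have h3 := DOT_step hu0 hS hzb hwr hz'r
    rw [norm_mul] at h3
    exact h3
  · rintro r env' _ ⟨z, hz, hzb⟩
    refine ⟨z, hz, ?_⟩
    simp only [Fin.is_lt, if_true] at hzb
    refine hzb.trans ?_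
    apply mul_le_mul_of_nonneg_right _ (Finset.sum_nonneg fun i _ => by positivity)
    have hn1 : (1 : ℝ) ≤ n := by exact_mod_cast hn
    have h1 : ((n + 1 : ℕ) : ℝ) * u ≤ 1 / 2 := by
      push_cast
      nlinarith
    have h2 := one_add_pow_sub_one_le hu0 h1
    refine h2.trans ?_
    push_cast
    nlinarith

theorem post_dot' {ad : Adv} {u : ℝ} (hu : ad.Le u) {n : ℕ} (hn : 1 ≤ n) (hnu : n * u ≤ 1 / 100)
    {env : Env} {x y : RVec n} {X Y : Fin n → ℂ} (hx : HasV env x X) (hy : HasV env y Y) :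
    Post ad (dotP x y) env (fun r env' => ∃ z, Has env' r z ∧
      ‖z - X ⬝ᵥ Y‖ ≤ 4 * n * u * (nv X * nv Y)) := by
  have hu0 := hu.nonneg
  refine (post_dot hu hn hnu hx hy).weaken ?_
  rintro r env' _ ⟨z, hz, hzb⟩
  refine ⟨z, hz, hzb.trans ?_⟩
  exact mul_le_mul_of_nonneg_left (sum_norm_mul_le X Y) (by positivity)

theorem post_fmul {ad : Adv} {u : ℝ} (hu : ad.Le u) {env : Env} {i j : ℕ} {x y : ℝ}
    (hi : Has env i (x : ℂ)) (hj : Has env j (y : ℂ)) :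
    Post ad (fmulP i j) env (fun r env' => ∃ t : ℝ, Has env' r (t : ℂ) ∧
      |t - x * y| ≤ u * |x * y|) := by
  unfold fmulP
  refine Post.bind (post_mul hu hi hj) ?_
  rintro m env1 h1 ⟨z, hz, hr⟩
  refine (post_re hz).weaken ?_
  rintro r env2 _ h2
  refine ⟨z.re, h2, ?_⟩
  unfold Rel at hr
  have h3 : z.re - x * y = (z - (x : ℂ) * (y : ℂ)).re := by simp
  have h4 : ‖(x : ℂ) * (y : ℂ)‖ = |x * y| := by
    rw [← Complex.ofReal_mul, Complex.norm_real, Real.norm_eq_abs]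
  rw [h3, ← h4]
  exact (Complex.abs_re_le_norm _).trans hr

end H6LP
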