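import Pool.Agent.H6.LP.Progs

/-!
# Pure definitions (MP_63a4b3_lc)
-/

set_option autoImplicit false

open Complex Matrix

namespace H6LP

/-- the operator norm of `A` is at most `c` -/
def OpLe {n m : ℕ} (A : Matrix (Fin n) (Fin m) ℂ) (c : ℝ) : Prop :=
  ∀ x : Fin m → ℂ, nv (A *ᵥ x) ≤ c * nv x

/-- the first unit vector -/
def e1 (n : ℕ) : Fin n → ℂ := fun i => if (i : ℕ) = 0 then 1 else 0

/-- first row and first column are those of the identity -/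
def Fix0 {n : ℕ} (P : Matrix (Fin n) (Fin n) ℂ) : Prop :=
  (∀ i j : Fin n, (j : ℕ) = 0 → P i j = if (i : ℕ) = 0 then 1 else 0) ∧
  (∀ i j : Fin n, (i : ℕ) = 0 → P i j = if (j : ℕ) = 0 then 1 else 0)

/-- upper triangular -/
def UT {n : ℕ} (R : Matrix (Fin n) (Fin n) ℂ) : Prop := ∀ i j : Fin n, (j : ℕ) < i → R i j = 0

/-- `‖xᵀ (z - X)‖ ≥ s ‖x‖` for all `|z| ≤ 4` and all `x` with vanishing first coordinate -/
def RowLB {n : ℕ} (X : Matrix (Fin n) (Fin n) ℂ) (s : ℝ) : Prop :=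
  ∀ z : ℂ, ‖z‖ ≤ 4 → ∀ x : Fin n → ℂ, (∀ i : Fin n, (i : ℕ) = 0 → x i = 0) →
    s * nv x ≤ nv (x ᵥ* (z • (1 : Matrix (Fin n) (Fin n) ℂ) - X))

/-- `‖(z - X) x‖ ≥ t ‖x‖` for all `x` -/
def ColAt {n : ℕ} (X : Matrix (Fin n) (Fin n) ℂ) (z : ℂ) (t : ℝ) : Prop :=
  ∀ x : Fin n → ℂ, t * nv x ≤ nv ((z • (1 : Matrix (Fin n) (Fin n) ℂ) - X) *ᵥ x)

/-- the point `(a + b i) h` -/
noncomputable def grd (h : ℝ) (a b : ℤ) : ℂ := ((h * a : ℝ) : ℂ) + ((h * b : ℝ) : ℂ) * I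

/-- `ColAt` at all points of the grid of mesh `h` in the square `|Re z|, |Im z| ≤ 4` -/
def ColLB {n : ℕ} (X : Matrix (Fin n) (Fin n) ℂ) (h t : ℝ) : Prop :=
  ∀ a b : ℤ, |h * a| ≤ 4 → |h * b| ≤ 4 → ColAt X (grd h a b) t

/-- a diagonalization with the bounds which follow from `RowLB` and `ColLB` -/
structure Diag {n : ℕ} (X : Matrix (Fin n) (Fin n) ℂ) (s w0 : ℝ) (lam : Fin n → ℂ)
    (V W : Matrix (Fin n) (Fin n) ℂ) : Prop where
  eq : X = V * Matrix.diagonal lam * W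
  vw : V * W = 1
  wv : W * V = 1
  lam_le : ∀ i, ‖lam i‖ ≤ 3
  col : ∀ j, nv (fun i => V i j) = 1
  row : ∀ i, nv (W i) ≤ 1 / w0
  first : ∀ i j : Fin n, (j : ℕ) = 0 → s / 7 ≤ ‖W i j‖
  gap : ∀ i j, i ≠ j → s * w0 / 2 ≤ ‖lam i - lam j‖

/-! ## Householder -/

/-- `1 - τ v vᴴ` -/
def hhM {n : ℕ} (v : Fin n → ℂ) (t : ℂ) : Matrix (Fin n) (Fin n) ℂ :=
  1 - t • Matrix.vecMulVec v (star v)

/-- the exact Householder vector of the unit vector `y` -/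
noncomputable def hv {n : ℕ} (y : Fin n → ℂ) (p : Fin n) (β : ℝ) : Fin n → ℂ :=
  fun i => if i = p then y i - β else y i

/-- the exact factor -/
noncomputable def ht {n : ℕ} (y : Fin n → ℂ) (p : Fin n) (β : ℝ) : ℂ := 1 / (1 - β * y p)

/-! ## nodes -/

/-- `exp (2πi / 2^e)` -/
noncomputable def omg (e : ℕ) : ℂ := Complex.exp (2 * Real.pi * I / 2 ^ e)

/-- the random direction -/
noncomputable def dir (t : ℝ) : ℂ := (1 + t * I) / (1 - t * I)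

/-- the nodes on the circle with centre `c` and radius `ρ` -/
noncomputable def nodeZ (c : ℂ) (rho : ℝ) (φ : ℂ) (e i : ℕ) : ℂ := c + rho * φ * omg e ^ i

open Classical in
/-- number of eigenvalues at distance `≤ 2 r` -/
noncomputable def m2 {n : ℕ} (lam : Fin n → ℂ) (c : ℂ) (r : ℝ) : ℕ :=
  (Finset.univ.filter (fun i => ‖lam i - c‖ ≤ 2 * r)).card

open Classical in
/-- number of eigenvalues at distance `< 3 r` -/
noncomputable def m3 {n : ℕ} (lam : Fin n → ℂ) (c : ℂ) (r : ℝ) : ℕ :=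
  (Finset.univ.filter (fun i => ‖lam i - c‖ < 3 * r)).card

open Classical in
/-- number of eigenvalues at distance `< 4 r` -/
noncomputable def m4 {n : ℕ} (lam : Fin n → ℂ) (c : ℂ) (r : ℝ) : ℕ :=
  (Finset.univ.filter (fun i => ‖lam i - c‖ < 4 * r)).card

/-- radius of the discs of level `j` -/
noncomputable def rad (j : ℕ) : ℝ := 4 / 2 ^ j

/-- all nodes which can occur are good for `X` -/
def NodeOK {n : ℕ} (l : ℕ) (X : Matrix (Fin n) (Fin n) ℂ) (φ : ℂ) (t : ℝ) : Prop :=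
  ∀ j ≤ l + 2, ∀ a b : ℤ, |a| ≤ 3 * 2 ^ j → |b| ≤ 3 * 2 ^ j → ∀ e i : ℕ, 2 ^ e ≤ 200000 * n * l →
    i < 2 ^ e → ∀ m : ℕ, m = 2 ∨ m = 3 →
      ColAt X (nodeZ (grd (rad j) a b) (m * rad j) φ e i) t

/-- everything which is needed about the Hessenberg matrix `X` for the counts -/
structure HCtx {n : ℕ} (l : ℕ) (X : Matrix (Fin n) (Fin n) ℂ) (lam : Fin n → ℂ) (φ : ℂ) (u : ℝ) :
    Prop where
  hn : 1 ≤ n
  hl : 100 ≤ l
  hnl : (n : ℝ) ^ 25 ≤ 2 ^ (l - 100)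
  hess : Hess X
  sub : ∀ k (hk : k + 1 < n), (2 : ℝ)⁻¹ ^ l ≤ ‖X ⟨k + 1, hk⟩ ⟨k, by omega⟩‖
  frob : fro X ≤ 4 * n
  det : ∀ z : ℂ, (z • (1 : Matrix (Fin n) (Fin n) ℂ) - X).det = ∏ i, (z - lam i)
  lamb : ∀ i, ‖lam i‖ ≤ 3
  hφ : ‖φ‖ = 1
  node : NodeOK l X φ ((2 : ℝ)⁻¹ ^ (5 * l + 1))
  u0 : 0 ≤ u
  hu : u ≤ (2 : ℝ)⁻¹ ^ (8 * l)

/-! ## the quadtree -/

/-- the invariant of the list of level `j` -/
structure TInv {n : ℕ} (lam : Fin n → ℂ) (j : ℕ) (S : DList) : Prop where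
  nodup : (S.map (fun p => (p.1, p.2.1))).Nodup
  pos : ∀ p ∈ S, 1 ≤ p.2.2
  low : ∀ p ∈ S, m2 lam (grd (rad j) p.1 p.2.1) (rad j) ≤ p.2.2
  list : ∀ a b : ℤ, (∃ i, ‖lam i - grd (rad j) a b‖ ≤ 2 * rad j) → ∃ k, (a, b, k) ∈ S
  sum : ksum S ≤ 98 * n
  box : ∀ p ∈ S, |p.1| < 3 * 2 ^ j ∧ |p.2.1| < 3 * 2 ^ j

/-- at positive levels: every disc of the list is near an eigenvalue -/
def TNear {n : ℕ} (lam : Fin n → ℂ) (j : ℕ) (S : DList) : Prop :=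
  ∀ p ∈ S, ∃ i, ‖lam i - grd (rad j) p.1 p.2.1‖ < 3 * rad j

/-! ## probability -/

open MeasureTheory

/-- the uniform measure on the cube `[0,1]^ι` -/
noncomputable def PP (ι : Type) [Fintype ι] : Measure (ι → ℝ) :=
  Measure.pi (fun _ : ι => (volume : Measure ℝ).restrict (Set.Icc 0 1))

/-- coordinates: `co i j false` is the coordinate of the real part of `G i j`, `co i j true` the one of
the imaginary part, `ct` the coordinate of the direction -/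
structure Coo (n : ℕ) (ι : Type) : Type where
  co : Fin n → Fin n → Bool → ι
  ct : ι
  inj : ∀ i j b i' j' b', co i j b = co i' j' b' → i = i' ∧ j = j' ∧ b = b'
  ne : ∀ i j b, co i j b ≠ ct

/-- the perturbed matrix -/
noncomputable def Mof {n : ℕ} {ι : Type} (A : Matrix (Fin n) (Fin n) ℂ) (γ : ℝ) (C : Coo n ι) (g : ι → ℝ) :
    Matrix (Fin n) (Fin n) ℂ :=
  fun i j => A i j + γ * (g (C.co i j false) + g (C.co i j true) * I)

end H6LP
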