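import Pool.Agent.H6.LP.NB

/-!
# INV: `RowLB`, `ColAt`, `ColLB`, `OpLe` under unitary similarity and small perturbations

Proofs: `xᵀ (z - Qᴴ X Q) = (xᵀ Qᴴ) (z - X) Q` and `xᵀ Qᴴ` has the same first coordinate as `x` (`Fix0`);
`(z - Qᴴ X Q) x = Qᴴ (z - X) (Q x)`; perturbations: triangle inequality, `nv_mulVec_le`, `nv_vecMul_le`.
-/

set_option autoImplicit false

open Complex Matrix

namespace H6LP

variable {n : ℕ}

theorem INV_sim {X Q : Matrix (Fin n) (Fin n) ℂ} (hQ : Uni Q) (z : ℂ) :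
    z • (1 : Matrix (Fin n) (Fin n) ℂ) - Qᴴ * X * Q =
      Qᴴ * (z • (1 : Matrix (Fin n) (Fin n) ℂ) - X) * Q := by
  unfold Uni at hQ
  rw [Matrix.mul_sub, Matrix.sub_mul, Matrix.mul_smul, Matrix.smul_mul, Matrix.mul_one, hQ]

theorem RowLB.mono {X : Matrix (Fin n) (Fin n) ℂ} {s s' : ℝ} (h : RowLB X s) (hs : s' ≤ s) :
    RowLB X s' := by
  intro z hz x hx
  exact (mul_le_mul_of_nonneg_right hs (nv_nonneg x)).trans (h z hz x hx)

theorem RowLB.pert {X E : Matrix (Fin n) (Fin n) ℂ} {s ε : ℝ} (h : RowLB X s) (hE : fro E ≤ ε) :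
    RowLB (X + E) (s - ε) := by
  intro z hz x hx
  have h1 := h z hz x hx
  have h2 : x ᵥ* (z • (1 : Matrix (Fin n) (Fin n) ℂ) - (X + E)) =
      x ᵥ* (z • (1 : Matrix (Fin n) (Fin n) ℂ) - X) - x ᵥ* E := by
    rw [← sub_sub, Matrix.vecMul_sub]
  rw [h2]
  have h3 := nv_sub_ge (x ᵥ* (z • (1 : Matrix (Fin n) (Fin n) ℂ) - X)) (x ᵥ* E)
  have h4 := nv_vecMul_le E x
  have h5 := mul_le_mul_of_nonneg_right hE (nv_nonneg x)
  nlinarith

theorem RowLB.uni {X Q : Matrix (Fin n) (Fin n) ℂ} {s : ℝ} (h : RowLB X s) (hQ : Uni Q) (h0 : Fix0 Q) :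
    RowLB (Qᴴ * X * Q) s := by
  intro z hz x hx
  rw [INV_sim hQ, ← Matrix.vecMul_vecMul, ← Matrix.vecMul_vecMul, hQ.nv_vecMul]
  have h1 := h z hz (x ᵥ* Qᴴ) (fun i hi => by
    rw [h0.conjTranspose.vecMul_first x i hi, hx i hi])
  rwa [hQ.conjTranspose.nv_vecMul] at h1

theorem ColAt.mono {X : Matrix (Fin n) (Fin n) ℂ} {z : ℂ} {t t' : ℝ} (h : ColAt X z t) (ht : t' ≤ t) :
    ColAt X z t' := by
  intro x
  exact (mul_le_mul_of_nonneg_right ht (nv_nonneg x)).trans (h x)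

theorem ColAt.pert {X E : Matrix (Fin n) (Fin n) ℂ} {z : ℂ} {t ε : ℝ} (h : ColAt X z t)
    (hE : fro E ≤ ε) : ColAt (X + E) z (t - ε) := by
  intro x
  have h1 := h x
  have h2 : (z • (1 : Matrix (Fin n) (Fin n) ℂ) - (X + E)) *ᵥ x =
      (z • (1 : Matrix (Fin n) (Fin n) ℂ) - X) *ᵥ x - E *ᵥ x := by
    rw [← sub_sub, Matrix.sub_mulVec]
  rw [h2]
  have h3 := nv_sub_ge ((z • (1 : Matrix (Fin n) (Fin n) ℂ) - X) *ᵥ x) (E *ᵥ x)
  have h4 := nv_mulVec_le E x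
  have h5 := mul_le_mul_of_nonneg_right hE (nv_nonneg x)
  nlinarith

theorem ColAt.pert_z {X : Matrix (Fin n) (Fin n) ℂ} {z z' : ℂ} {t ε : ℝ} (h : ColAt X z t)
    (hE : ‖z' - z‖ ≤ ε) : ColAt X z' (t - ε) := by
  intro x
  have h1 := h x
  have h2 : (z' • (1 : Matrix (Fin n) (Fin n) ℂ) - X) *ᵥ x =
      (z • (1 : Matrix (Fin n) (Fin n) ℂ) - X) *ᵥ x - (z - z') • x := by
    rw [Matrix.sub_mulVec, Matrix.sub_mulVec, Matrix.smul_mulVec, Matrix.smul_mulVec,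
      Matrix.one_mulVec, sub_smul]
    abel
  rw [h2]
  have h3 := nv_sub_ge ((z • (1 : Matrix (Fin n) (Fin n) ℂ) - X) *ᵥ x) ((z - z') • x)
  have h4 : nv ((z - z') • x) = ‖z' - z‖ * nv x := by rw [nv_smul, norm_sub_rev]
  have h5 := mul_le_mul_of_nonneg_right hE (nv_nonneg x)
  nlinarith

theorem ColAt.uni {X Q : Matrix (Fin n) (Fin n) ℂ} {z : ℂ} {t : ℝ} (h : ColAt X z t) (hQ : Uni Q) :
    ColAt (Qᴴ * X * Q) z t := by
  intro x
  rw [INV_sim hQ, ← Matrix.mulVec_mulVec, ← Matrix.mulVec_mulVec, hQ.conjTranspose.nv_mulVec]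
  have h1 := h (Q *ᵥ x)
  rwa [hQ.nv_mulVec] at h1

theorem ColLB.pert {X E : Matrix (Fin n) (Fin n) ℂ} {h t ε : ℝ} (hc : ColLB X h t)
    (hE : fro E ≤ ε) : ColLB (X + E) h (t - ε) :=
  fun a b ha hb => (hc a b ha hb).pert hE

theorem ColLB.uni {X Q : Matrix (Fin n) (Fin n) ℂ} {h t : ℝ} (hc : ColLB X h t) (hQ : Uni Q) :
    ColLB (Qᴴ * X * Q) h t :=
  fun a b ha hb => (hc a b ha hb).uni hQ

theorem NodeOK.pert {l : ℕ} {X E : Matrix (Fin n) (Fin n) ℂ} {φ : ℂ} {t ε : ℝ} (h : NodeOK l X φ t)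
    (hE : fro E ≤ ε) : NodeOK l (X + E) φ (t - ε) :=
  fun j hj a b ha hb e i he hi m hm => (h j hj a b ha hb e i he hi m hm).pert hE

theorem NodeOK.uni {l : ℕ} {X Q : Matrix (Fin n) (Fin n) ℂ} {φ : ℂ} {t : ℝ} (h : NodeOK l X φ t)
    (hQ : Uni Q) : NodeOK l (Qᴴ * X * Q) φ t :=
  fun j hj a b ha hb e i he hi m hm => (h j hj a b ha hb e i he hi m hm).uni hQ

theorem OpLe.uni {X Q : Matrix (Fin n) (Fin n) ℂ} {c : ℝ} (h : OpLe X c) (hQ : Uni Q) :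
    OpLe (Qᴴ * X * Q) c := by
  intro x
  rw [← Matrix.mulVec_mulVec, ← Matrix.mulVec_mulVec, hQ.conjTranspose.nv_mulVec]
  have h1 := h (Q *ᵥ x)
  rwa [hQ.nv_mulVec] at h1

/-- eigenvalues keep away from good points -/
theorem ColAt.dist_eigenvalue {X : Matrix (Fin n) (Fin n) ℂ} {z : ℂ} {t : ℝ} (h : ColAt X z t)
    {lam : ℂ} {v : Fin n → ℂ} (hv : v ≠ 0) (he : X *ᵥ v = lam • v) : t ≤ ‖z - lam‖ := by
  have h1 := h v
  rw [Matrix.sub_mulVec, Matrix.smul_mulVec, Matrix.one_mulVec, he, ← sub_smul, nv_smul] at h1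
  exact le_of_mul_le_mul_right h1 (nv_pos hv)

/-- the same for the roots of the characteristic polynomial -/
theorem ColAt.dist_root {X : Matrix (Fin n) (Fin n) ℂ} {z : ℂ} {t : ℝ} (h : ColAt X z t)
    {lam : Fin n → ℂ} (hd : ∀ z : ℂ, (z • (1 : Matrix (Fin n) (Fin n) ℂ) - X).det = ∏ i, (z - lam i))
    (i : Fin n) : t ≤ ‖z - lam i‖ := by
  have h1 : ((lam i) • (1 : Matrix (Fin n) (Fin n) ℂ) - X).det = 0 := by
    rw [hd]
    exact Finset.prod_eq_zero (Finset.mem_univ i) (sub_self _)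
  obtain ⟨v, hv, hv0⟩ := Matrix.exists_mulVec_eq_zero_iff.2 h1
  refine h.dist_eigenvalue hv ?_
  rw [Matrix.sub_mulVec, Matrix.smul_mulVec, Matrix.one_mulVec, sub_eq_zero] at hv0
  exact hv0.symm

end H6LP
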