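import Pool.Agent.H6.LP.DIAG

/-!
# INVIT: inverse iteration (pure)

`w = ∑_j c_j V_j` with `c_j = (W (e1+f))_j / (λ_j - Z)`.
`nv f ≤ ε (1 + nv w)`, `nv w ≤ n (1/w0) (1 + nv f)/ρ` (all `|λ_j - Z| ≥ ρ`), so `nv f ≤ 4 ε n/(w0 ρ) ≤ w0 s/14`;
`|c_i| ≥ (s/7 - nv f/w0)/(9ρ) ≥ s/(126 ρ)`; the other terms: `≤ n (1/w0)(1 + nv f)(2/g) ≤ 4 n/(w0 g)`, `g = s w0/2`.
`nv (w/nv w - (c_i/|c_i|) V_i) ≤ 2 (rest)/|c_i| ≤ 1008 n ρ/(w0 g s) = 2016 n ρ/(w0² s²)`.
-/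

set_option autoImplicit false

open Complex Matrix

namespace H6LP

theorem INVIT_normalize {n : ℕ} {w r v : Fin n → ℂ} {c : ℂ} (hc : c ≠ 0) (hv : nv v = 1)
    (hw : w = c • v + r) (hw0 : 0 < nv w) :
    nv (((nv w)⁻¹ : ℂ) • w - (c / (‖c‖ : ℂ)) • v) ≤ 2 * nv r / ‖c‖ := by
  have hcn : 0 < ‖c‖ := norm_pos_iff.2 hc
  have hcc : (‖c‖ : ℂ) ≠ 0 := by exact_mod_cast hcn.ne'
  have hww : (nv w : ℂ) ≠ 0 := by exact_mod_cast hw0.ne'
  have e : ((nv w)⁻¹ : ℂ) • w - (c / (‖c‖ : ℂ)) • v =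
      ((‖c‖ : ℂ)⁻¹) • r + ((nv w : ℂ)⁻¹ - (‖c‖ : ℂ)⁻¹) • w := by
    have e1 : (‖c‖ : ℂ)⁻¹ • w = (c / (‖c‖ : ℂ)) • v + (‖c‖ : ℂ)⁻¹ • r := by
      conv_lhs => rw [hw]
      rw [smul_add, smul_smul, div_eq_mul_inv, mul_comm]
    rw [sub_smul, e1]
    abel
  rw [e]
  refine le_trans (nv_add_le _ _) ?_
  rw [nv_smul, nv_smul]
  have h1 : ‖(‖c‖ : ℂ)⁻¹‖ = 1 / ‖c‖ := by
    rw [norm_inv, Complex.norm_real, norm_norm, one_div]
  have h2 : ‖(nv w : ℂ)⁻¹ - (‖c‖ : ℂ)⁻¹‖ * nv w = |‖c‖ - nv w| / ‖c‖ := by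
    have e2 : (nv w : ℂ)⁻¹ - (‖c‖ : ℂ)⁻¹ = (((‖c‖ - nv w) / (nv w * ‖c‖) : ℝ) : ℂ) := by
      push_cast
      field_simp
    rw [e2, Complex.norm_real, Real.norm_eq_abs, abs_div, abs_mul, abs_of_pos hw0, abs_of_pos hcn]
    field_simp
  have h3 : |‖c‖ - nv w| ≤ nv r := by
    have e3 : ‖c‖ = nv (c • v) := by rw [nv_smul, hv, mul_one]
    have e4 : nv r = nv (c • v - w) := by
      rw [hw, ← nv_neg]
      congr 1
      abel
    rw [e4, e3]
    have := abs_nv_sub_le (c • v) w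
    exact this
  rw [h1, h2]
  have h4 : |‖c‖ - nv w| / ‖c‖ ≤ nv r / ‖c‖ := div_le_div_of_nonneg_right h3 hcn.le
  calc 1 / ‖c‖ * nv r + |‖c‖ - nv w| / ‖c‖ ≤ 1 / ‖c‖ * nv r + nv r / ‖c‖ := by linarith
    _ = 2 * nv r / ‖c‖ := by ring

theorem invit {n : ℕ} (hn : 1 ≤ n) {X : Matrix (Fin n) (Fin n) ℂ} {s w0 : ℝ} (hs : 0 < s) (hs1 : s ≤ 1)
    (hw : 0 < w0) (hw1 : w0 ≤ 1 / 10) {lam : Fin n → ℂ} {V W : Matrix (Fin n) (Fin n) ℂ}
    (hD : Diag X s w0 lam V W) {i : Fin n} {Z : ℂ} {ρ ε : ℝ} (hρ : 0 < ρ)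
    (h1 : ρ ≤ ‖lam i - Z‖) (h2 : ‖lam i - Z‖ ≤ 9 * ρ) (hρg : 40 * ρ ≤ s * w0)
    (hε0 : 0 ≤ ε) (hε : 100 * ε * n ≤ s * w0 ^ 2 * ρ) {w f : Fin n → ℂ}
    (hw' : (X - Z • (1 : Matrix (Fin n) (Fin n) ℂ)) *ᵥ w = e1 n + f)
    (hf : nv f ≤ ε * (1 + nv w)) :
    ∃ t : ℂ, ‖t‖ = 1 ∧ nv (((nv w)⁻¹ : ℂ) • w - t • (fun a => V a i)) ≤ 2200 * n * ρ / (w0 ^ 2 * s ^ 2) := by
  have hnR : (1 : ℝ) ≤ n := by exact_mod_cast hn
  have hsw : 0 < s * w0 := mul_pos hs hw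
  set c : Fin n → ℂ := W *ᵥ w with hc
  set F : ℝ := nv f with hF
  have hF0 : 0 ≤ F := nv_nonneg f
  have hVc : V *ᵥ c = w := by
    rw [hc, Matrix.mulVec_mulVec, hD.vw, Matrix.one_mulVec]
  -- the coefficients
  have hWX : W * (X - Z • (1 : Matrix (Fin n) (Fin n) ℂ)) =
      Matrix.diagonal (fun j => lam j - Z) * W := by
    have e1 : W * X = Matrix.diagonal lam * W := by
      calc W * X = W * (V * Matrix.diagonal lam * W) := by rw [← hD.eq]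
        _ = (W * V) * (Matrix.diagonal lam * W) := by simp only [Matrix.mul_assoc]
        _ = Matrix.diagonal lam * W := by rw [hD.wv, Matrix.one_mul]
    have e2 : Matrix.diagonal (fun j => lam j - Z) =
        Matrix.diagonal lam - Z • (1 : Matrix (Fin n) (Fin n) ℂ) := by
      rw [Matrix.smul_one_eq_diagonal, Matrix.diagonal_sub]
    rw [Matrix.mul_sub, e1, e2, Matrix.sub_mul, Matrix.mul_smul, Matrix.smul_mul, Matrix.mul_one,
      Matrix.one_mul]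
  have hcoef : ∀ j, (lam j - Z) * c j = (W *ᵥ (e1 n + f)) j := by
    intro j
    rw [← hw', Matrix.mulVec_mulVec, hWX, ← Matrix.mulVec_mulVec, Matrix.mulVec_diagonal]
  have hWrow : ∀ (x : Fin n → ℂ) (j : Fin n), ‖(W *ᵥ x) j‖ ≤ 1 / w0 * nv x := by
    intro x j
    have := norm_dotProduct_le (W j) x
    refine le_trans this ?_
    exact mul_le_mul_of_nonneg_right (hD.row j) (nv_nonneg x)
  have hb : ∀ j, ‖lam j - Z‖ * ‖c j‖ ≤ 1 / w0 * (1 + F) := by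
    intro j
    rw [← norm_mul, hcoef j]
    refine le_trans (hWrow _ j) ?_
    refine mul_le_mul_of_nonneg_left ?_ (by positivity)
    have := nv_add_le (e1 n) f
    rw [nv_e1 hn] at this
    exact this
  -- distances
  have hdist : ∀ j, j ≠ i → 11 / 40 * (s * w0) ≤ ‖lam j - Z‖ := by
    intro j hj
    have hg := hD.gap i j (Ne.symm hj)
    have h3 : ‖lam i - lam j‖ ≤ ‖lam i - Z‖ + ‖lam j - Z‖ := by
      have e : lam i - lam j = (lam i - Z) - (lam j - Z) := by ring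
      rw [e]
      exact norm_sub_le _ _
    nlinarith
  have hdρ : ∀ j, ρ ≤ ‖lam j - Z‖ := by
    intro j
    by_cases hj : j = i
    · rw [hj]; exact h1
    · have := hdist j hj
      linarith
  have hcj : ∀ j, ‖c j‖ ≤ 1 / w0 * (1 + F) / ρ := by
    intro j
    rw [le_div_iff₀ hρ]
    calc ‖c j‖ * ρ ≤ ‖c j‖ * ‖lam j - Z‖ := mul_le_mul_of_nonneg_left (hdρ j) (norm_nonneg _)
      _ = ‖lam j - Z‖ * ‖c j‖ := mul_comm _ _
      _ ≤ _ := hb j
  have hcj' : ∀ j, j ≠ i → ‖c j‖ ≤ 1 / w0 * (1 + F) / (11 / 40 * (s * w0)) := by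
    intro j hj
    rw [le_div_iff₀ (by positivity)]
    calc ‖c j‖ * (11 / 40 * (s * w0)) ≤ ‖c j‖ * ‖lam j - Z‖ :=
          mul_le_mul_of_nonneg_left (hdist j hj) (norm_nonneg _)
      _ = ‖lam j - Z‖ * ‖c j‖ := mul_comm _ _
      _ ≤ _ := hb j
  have hsumV : ∀ S : Finset (Fin n), nv (∑ j ∈ S, c j • (fun a => V a j)) ≤ ∑ j ∈ S, ‖c j‖ := by
    intro S
    refine le_trans (nv_sum_le S _) ?_
    refine Finset.sum_le_sum fun j _ => ?_
    rw [nv_smul, hD.col j, mul_one]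
  have hwsum : w = ∑ j, c j • (fun a => V a j) := by
    rw [← hVc]
    funext a
    rw [Finset.sum_apply]
    simp only [Matrix.mulVec, dotProduct, Pi.smul_apply, smul_eq_mul]
    exact Finset.sum_congr rfl fun j _ => mul_comm _ _
  have hnw : nv w ≤ n * (1 / w0 * (1 + F) / ρ) := by
    rw [hwsum]
    refine le_trans (hsumV Finset.univ) ?_
    refine le_trans (Finset.sum_le_sum fun j _ => hcj j) ?_
    rw [Finset.sum_const, Finset.card_univ, Fintype.card_fin, nsmul_eq_mul]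
  -- bound for F
  set τ : ℝ := ε * n / (w0 * ρ) with hτ
  have hτ0 : 0 ≤ τ := by positivity
  have hτ1 : τ ≤ s * w0 / 100 := by
    rw [hτ, div_le_div_iff₀ (by positivity) (by norm_num)]
    nlinarith
  have hsw1 : s * w0 ≤ 1 / 10 := by nlinarith
  have hρ1 : w0 * ρ ≤ 1 := by nlinarith
  have hετ : ε ≤ τ := by
    rw [hτ, le_div_iff₀ (by positivity)]
    calc ε * (w0 * ρ) ≤ ε * 1 := mul_le_mul_of_nonneg_left hρ1 hε0
      _ ≤ ε * n := mul_le_mul_of_nonneg_left hnR hε0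
  have hFF : F ≤ 2 * τ + τ * F := by
    have h3 : ε * nv w ≤ τ * (1 + F) := by
      calc ε * nv w ≤ ε * (n * (1 / w0 * (1 + F) / ρ)) := mul_le_mul_of_nonneg_left hnw hε0
        _ = τ * (1 + F) := by rw [hτ]; field_simp
    nlinarith [hf]
  have hFb : F ≤ 201 / 10000 * (s * w0) := by
    have h3 : τ ≤ 1 / 1000 := by linarith
    have h4 : τ * F ≤ 1 / 1000 * F := mul_le_mul_of_nonneg_right h3 hF0
    linarith
  -- lower bound for the main coefficient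
  have hbi : 12 / 100 * s ≤ ‖lam i - Z‖ * ‖c i‖ := by
    rw [← norm_mul, hcoef i]
    have e : (W *ᵥ (e1 n + f)) i = W i ⟨0, hn⟩ + (W *ᵥ f) i := by
      rw [Matrix.mulVec_add, Pi.add_apply, NB_e1_eq hn, Matrix.mulVec_single_one]
      rfl
    rw [e]
    have h3 := hD.first i ⟨0, hn⟩ rfl
    have h4 : ‖(W *ᵥ f) i‖ ≤ 201 / 10000 * s := by
      refine le_trans (hWrow f i) ?_
      calc 1 / w0 * nv f ≤ 1 / w0 * (201 / 10000 * (s * w0)) :=
            mul_le_mul_of_nonneg_left hFb (by positivity)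
        _ = 201 / 10000 * s := by field_simp
    have h5 : ‖W i ⟨0, hn⟩‖ - ‖(W *ᵥ f) i‖ ≤ ‖W i ⟨0, hn⟩ + (W *ᵥ f) i‖ := by
      have := norm_sub_le (W i ⟨0, hn⟩ + (W *ᵥ f) i) ((W *ᵥ f) i)
      rw [add_sub_cancel_right] at this
      linarith
    linarith
  have hci : 12 / 900 * s / ρ ≤ ‖c i‖ := by
    rw [div_le_iff₀ hρ]
    have h3 : ‖lam i - Z‖ * ‖c i‖ ≤ 9 * ρ * ‖c i‖ := mul_le_mul_of_nonneg_right h2 (norm_nonneg _)
    linarith
  have hcipos : 0 < ‖c i‖ := lt_of_lt_of_le (by positivity) hci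
  have hci0 : c i ≠ 0 := norm_pos_iff.1 hcipos
  have hwpos : 0 < nv w := by
    apply nv_pos
    intro h0
    apply hci0
    rw [hc, h0, Matrix.mulVec_zero]
    rfl
  -- the rest
  set r : Fin n → ℂ := ∑ j ∈ Finset.univ.erase i, c j • (fun a => V a j) with hr
  have hwr : w = c i • (fun a => V a i) + r := by
    rw [hr, Finset.add_sum_erase Finset.univ (fun j => c j • (fun a => V a j)) (Finset.mem_univ i)]
    exact hwsum
  have hrb : nv r ≤ n * (1 / w0 * (1 + F) / (11 / 40 * (s * w0))) := by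
    refine le_trans (hsumV _) ?_
    refine le_trans (Finset.sum_le_sum fun j hj => hcj' j (Finset.ne_of_mem_erase hj)) ?_
    rw [Finset.sum_const, nsmul_eq_mul]
    refine mul_le_mul_of_nonneg_right ?_ (by positivity)
    have : (Finset.univ.erase i).card ≤ n := by
      refine le_trans (Finset.card_le_card (Finset.erase_subset _ _)) ?_
      simp
    exact_mod_cast this
  have hrb2 : nv r ≤ 4 * n / (s * w0 ^ 2) := by
    refine le_trans hrb ?_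
    have e : (n : ℝ) * (1 / w0 * (1 + F) / (11 / 40 * (s * w0))) =
        (40 / 11 * (1 + F)) * n / (s * w0 ^ 2) := by field_simp
    rw [e]
    refine div_le_div_of_nonneg_right ?_ (by positivity)
    refine mul_le_mul_of_nonneg_right ?_ (by positivity)
    linarith
  refine ⟨c i / (‖c i‖ : ℂ), ?_, ?_⟩
  · rw [norm_div, Complex.norm_real, norm_norm, div_self hcipos.ne']
  · refine le_trans (INVIT_normalize hci0 (hD.col i) hwr hwpos) ?_
    have h3 : 2 * nv r / ‖c i‖ ≤ 2 * (4 * n / (s * w0 ^ 2)) / (12 / 900 * s / ρ) := by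
      apply div_le_div₀ (by positivity) (by linarith) (by positivity) hci
    refine le_trans h3 ?_
    have e : 2 * (4 * (n : ℝ) / (s * w0 ^ 2)) / (12 / 900 * s / ρ) = 600 * n * ρ / (w0 ^ 2 * s ^ 2) := by
      field_simp
      ring
    rw [e]
    refine div_le_div_of_nonneg_right ?_ (by positivity)
    have : (0 : ℝ) ≤ n * ρ := by positivity
    nlinarith

end H6LP
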