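import Pool.Agent.H6.LP.SOLVE
import Pool.Agent.H6.LP.INVIT
import Pool.Agent.H6.LP.INV

/-!
# EIG: the computed eigenvector

`Z` = computed value of `(a + 5 + b i)/2^l`, `|c - λ_i| ≤ 3r`, `r = 2^-l`, so `r ≤ |Z - λ_i| ≤ 9r`; resolvent:
`Diag.colAt` with `d = r`; `post_solve`, `invit`; the product with `Q'`: `post_dot'` for every row.
-/

set_option autoImplicit false

open Complex Matrix

namespace H6LP

/-- the shift: casting -/
theorem EIG_shift (l : ℕ) (a b : ℤ) :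
    ((((a : ℚ) + 5) / 2 ^ l : ℚ) : ℂ) + ((((b : ℚ)) / 2 ^ l : ℚ) : ℂ) * I =
      grd ((2 : ℝ)⁻¹ ^ l) a b + ((5 * (2 : ℝ)⁻¹ ^ l : ℝ) : ℂ) := by
  unfold grd
  push_cast
  simp only [div_eq_mul_inv, inv_pow]
  ring

/-- distances of the shift from the eigenvalue -/
theorem EIG_dist {u r : ℝ} {c lam Z : ℂ} (hu0 : 0 ≤ u) (hr : 0 < r) (hr1 : 100 * r ≤ 1)
    (hur : 4 * u ≤ r) (hlam : ‖lam‖ ≤ 3)
    (hc : ‖lam - c‖ ≤ 3 * r) (hZ : Rel u (c + ((5 * r : ℝ) : ℂ)) Z) :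
    r ≤ ‖lam - Z‖ ∧ ‖lam - Z‖ ≤ 9 * r := by
  have h5 : ‖((5 * r : ℝ) : ℂ)‖ = 5 * r := by
    rw [Complex.norm_real, Real.norm_of_nonneg (by positivity)]
  have hc1 : ‖c‖ ≤ 3 + 3 * r := by
    have h1 : c = lam - (lam - c) := by ring
    have h2 := norm_sub_le lam (lam - c)
    rw [← h1] at h2
    linarith
  have hc5 : ‖c + ((5 * r : ℝ) : ℂ)‖ ≤ 4 := by
    have := norm_add_le c ((5 * r : ℝ) : ℂ)
    linarith
  have hZ1 : ‖Z - (c + ((5 * r : ℝ) : ℂ))‖ ≤ r := by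
    unfold Rel at hZ
    have := mul_le_mul_of_nonneg_left hc5 hu0
    linarith
  have e1 : lam - Z = (lam - c) - ((5 * r : ℝ) : ℂ) - (Z - (c + ((5 * r : ℝ) : ℂ))) := by ring
  refine ⟨?_, ?_⟩
  · have e2 : ((5 * r : ℝ) : ℂ) = (lam - c) - (Z - (c + ((5 * r : ℝ) : ℂ))) - (lam - Z) := by ring
    have h1 := norm_sub_le ((lam - c) - (Z - (c + ((5 * r : ℝ) : ℂ)))) (lam - Z)
    rw [← e2, h5] at h1
    have h2 := norm_sub_le (lam - c) (Z - (c + ((5 * r : ℝ) : ℂ)))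
    linarith
  · have h1 := norm_sub_le ((lam - c) - ((5 * r : ℝ) : ℂ)) (Z - (c + ((5 * r : ℝ) : ℂ)))
    rw [← e1] at h1
    have h2 := norm_sub_le (lam - c) ((5 * r : ℝ) : ℂ)
    linarith

/-- the product with `Q'` -/
theorem EIG_mul {ad : Adv} {u : ℝ} (hu : ad.Le u) {n : ℕ} (hn : 1 ≤ n) (hnu : n * u ≤ 1 / 100)
    {env : Env} {q : RMat n n} {y : RVec n} {Q' : Matrix (Fin n) (Fin n) ℂ} {Y : Fin n → ℂ}
    (hq : HasM env q Q') (hy : HasV env y Y) :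
    Post ad (vecM n (fun i => dotP (q i) y)) env (fun z env' => ∃ Z : Fin n → ℂ, HasV env' z Z ∧
      nv (Z - Q' *ᵥ Y) ≤ 4 * n * u * (fro Q' * nv Y)) := by
  have hu0 : 0 ≤ u := hu.nonneg
  have h := post_vecM (ad := ad) n (fun i => dotP (q i) y) env
    (fun i b env' => ∃ z, Has env' b z ∧ ‖z - Q' i ⬝ᵥ Y‖ ≤ 4 * n * u * (nv (Q' i) * nv Y))
    (by
      rintro i b env1 env2 h12 ⟨z, hz, hz2⟩
      exact ⟨z, hz.mono h12, hz2⟩)
    (by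
      intro i env' h'
      exact post_dot' hu hn hnu (x := q i) (X := Q' i) (fun j => (hq i j).mono h') (hy.mono h'))
  refine h.weaken ?_
  intro v env' _ hv
  choose Z hZ using hv
  refine ⟨Z, fun i => (hZ i).1, ?_⟩
  have h4 : 0 ≤ 4 * (n : ℝ) * u := by positivity
  apply NB_sq_le (mul_nonneg h4 (mul_nonneg (fro_nonneg _) (nv_nonneg _)))
  have e : (4 * (n : ℝ) * u * (fro Q' * nv Y)) ^ 2 =
      (4 * (n : ℝ) * u) ^ 2 * (fro Q' ^ 2 * nv Y ^ 2) := by ring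
  rw [e, nv_sq, fro_sq_rows, Finset.sum_mul, Finset.mul_sum]
  apply Finset.sum_le_sum
  intro i _
  rw [← mul_pow, ← mul_pow]
  exact pow_le_pow_left₀ (norm_nonneg _) (hZ i).2 2

theorem post_eig {ad : Adv} {u : ℝ} (hu : ad.Le u) {n l : ℕ} (hn : 1 ≤ n)
    {env : Env} {x q : RMat n n} {X Q Q' : Matrix (Fin n) (Fin n) ℂ} {s w0 : ℝ} (hs : 0 < s) (hs1 : s ≤ 1)
    (hw : 0 < w0) (hw1 : w0 ≤ 1 / 10) {lam : Fin n → ℂ} {V W : Matrix (Fin n) (Fin n) ℂ}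
    (hx : HasM env x X) (hq : HasM env q Q') (hQ : Uni Q) {εq : ℝ} (hQ' : fro (Q' - Q) ≤ εq)
    (hεq : εq ≤ 1) (hh : Hess X)
    (hb : ∀ k (hk : k + 1 < n), X ⟨k + 1, hk⟩ ⟨k, by omega⟩ ≠ 0)
    (hD : Diag X s w0 lam V W) (hfr : fro X ≤ 4 * n) {i : Fin n} {pos : ℤ × ℤ}
    (hpos : ‖lam i - grd ((2 : ℝ)⁻¹ ^ l) pos.1 pos.2‖ ≤ 3 * (2 : ℝ)⁻¹ ^ l)
    (hl : 100 * (2 : ℝ)⁻¹ ^ l ≤ s * w0) (hnu : 10 ^ 9 * n ^ 5 * u ≤ s * w0 ^ 2 * (2 : ℝ)⁻¹ ^ l) :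
    Post ad (eigP l x q pos) env (fun y env' => ∃ (Y : Fin n → ℂ) (t : ℂ), HasV env' y Y ∧ ‖t‖ = 1 ∧
      nv (Y - Q *ᵥ (t • (fun a => V a i))) ≤
        2200 * n * (2 : ℝ)⁻¹ ^ l / (w0 ^ 2 * s ^ 2) + 20 * n ^ 2 * u + 2 * εq) := by
  have hu0 : 0 ≤ u := hu.nonneg
  set r : ℝ := (2 : ℝ)⁻¹ ^ l with hr_def
  have hr : 0 < r := by positivity
  have hN : (1 : ℝ) ≤ n := by exact_mod_cast hn
  have hN0 : (0 : ℝ) < n := by linarith
  have hsw : s * w0 ≤ 1 / 10 := by nlinarith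
  have hsw0 : 0 < s * w0 := by positivity
  have hr1 : 100 * r ≤ 1 := by linarith
  have hswr : s * w0 ^ 2 * r ≤ w0 * r / 10 := by
    have : s * w0 ^ 2 * r = (s * w0) * (w0 * r) := by ring
    rw [this]
    nlinarith [mul_pos hw hr]
  have hwr : w0 * r ≤ r / 10 := by nlinarith
  -- powers of n
  have hn2 : (n : ℝ) ≤ n ^ 2 := by nlinarith
  have hn5 : ∀ k : ℕ, k ≤ 5 → (n : ℝ) ^ k ≤ n ^ 5 := fun k hk => pow_le_pow_right₀ hN hk
  have hpu : ∀ k : ℕ, k ≤ 5 → 10 ^ 9 * ((n : ℝ) ^ k * u) ≤ s * w0 ^ 2 * r := by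
    intro k hk
    have h1 := mul_le_mul_of_nonneg_right (hn5 k hk) hu0
    have h2 : 10 ^ 9 * ((n : ℝ) ^ 5 * u) = 10 ^ 9 * n ^ 5 * u := by ring
    linarith
  have hpu0 := hpu 0 (by norm_num)
  have hpu1 := hpu 1 (by norm_num)
  have hpu2 := hpu 2 (by norm_num)
  have hpu4 := hpu 4 (by norm_num)
  have hpu5 := hpu 5 (by norm_num)
  rw [pow_zero, one_mul] at hpu0
  rw [pow_one] at hpu1
  have hur : 4 * u ≤ r := by linarith
  have hnu1 : (n : ℝ) * u ≤ 1 / 100 := by linarith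
  unfold eigP
  refine Post.bind (post_cst hu env _ _) ?_
  rintro z env1 h1 ⟨Z, hzZ, hZrel⟩
  rw [EIG_shift] at hZrel
  obtain ⟨hZ1, hZ2⟩ := EIG_dist hu0 hr hr1 hur (hD.lam_le i) hpos hZrel
  have hZn : ‖Z‖ ≤ 4 := by
    have e : Z = lam i - (lam i - Z) := by ring
    have h := norm_sub_le (lam i) (lam i - Z)
    rw [← e] at h
    have := hD.lam_le i
    linarith
  have hdist : ∀ j, r ≤ ‖Z - lam j‖ := by
    intro j
    by_cases hj : j = i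
    · rw [hj, norm_sub_rev]; exact hZ1
    · have h := hD.gap j i hj
      have e : lam j - lam i = (lam j - Z) - (lam i - Z) := by ring
      have h' := norm_sub_le (lam j - Z) (lam i - Z)
      rw [← e] at h'
      rw [norm_sub_rev Z]
      linarith
  have hcol : ColAt X Z (w0 / n * r) := hD.colAt hn hw hr.le hdist
  have ht0 : 0 < w0 / n * r := by positivity
  have hwn : w0 / n ≤ w0 := div_le_self hw.le hN
  have ht1 : w0 / n * r ≤ 1 := by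
    have := mul_le_mul_of_nonneg_right hwn hr.le
    linarith
  have hfZ : fro X + ‖Z‖ + 1 ≤ 9 * n := by linarith
  have hsolve : 10 ^ 6 * (n : ℝ) ^ 3 * u * (fro X + ‖Z‖ + 1) ≤ w0 / n * r := by
    have h3 : 0 ≤ 10 ^ 6 * (n : ℝ) ^ 3 * u := by positivity
    refine (mul_le_mul_of_nonneg_left hfZ h3).trans ?_
    rw [div_mul_eq_mul_div, le_div_iff₀ hN0]
    have e : 10 ^ 6 * (n : ℝ) ^ 3 * u * (9 * n) * n = 9 * 10 ^ 6 * (n ^ 5 * u) := by ring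
    rw [e]
    have : 0 ≤ (n : ℝ) ^ 5 * u := by positivity
    nlinarith [mul_pos hw hr]
  refine Post.bind (post_solve hu hn (hx.mono h1) hzZ hh hb ht0 ht1 hcol hsolve) ?_
  rintro y env2 h2 ⟨Y, w, f, hyY, hw0, heq, hf, hYw⟩
  have hnw := nv_nonneg w
  have hε0 : 0 ≤ 9000 * (n : ℝ) ^ 3 * u := by positivity
  have hε : 100 * (9000 * (n : ℝ) ^ 3 * u) * n ≤ s * w0 ^ 2 * r := by
    have e : 100 * (9000 * (n : ℝ) ^ 3 * u) * n = 900000 * (n ^ 4 * u) := by ring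
    rw [e]
    have : 0 ≤ (n : ℝ) ^ 4 * u := by positivity
    linarith
  have hf' : nv f ≤ 9000 * (n : ℝ) ^ 3 * u * (1 + nv w) := by
    refine hf.trans ?_
    have h3 : 0 ≤ 1000 * (n : ℝ) ^ 2 * u := by positivity
    have h4 : 1 + (fro X + ‖Z‖) * nv w ≤ 9 * n * (1 + nv w) := by
      have h5 : (fro X + ‖Z‖) * nv w ≤ 9 * n * nv w :=
        mul_le_mul_of_nonneg_right (by linarith) hnw
      linarith
    refine (mul_le_mul_of_nonneg_left h4 h3).trans (le_of_eq ?_)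
    ring
  obtain ⟨t, ht, hinv⟩ := invit hn hs hs1 hw hw1 hD hr hZ1 hZ2 (by linarith) hε0 hε heq hf'
  -- the norm of `Y`
  have hY11 : nv Y ≤ 11 / 10 := by
    have h3 : nv (((nv w)⁻¹ : ℂ) • w) = 1 := by
      rw [nv_smul]
      have hp := nv_pos hw0
      rw [norm_inv, Complex.norm_real, Real.norm_of_nonneg hnw]
      exact inv_mul_cancel₀ hp.ne'
    have e : Y = (Y - ((nv w)⁻¹ : ℂ) • w) + ((nv w)⁻¹ : ℂ) • w := by abel
    have h4 := nv_add_le (Y - ((nv w)⁻¹ : ℂ) • w) (((nv w)⁻¹ : ℂ) • w)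
    rw [← e, h3] at h4
    have h5 : 10 * (n : ℝ) * u ≤ 1 / 10 := by linarith
    linarith
  have hY0 := nv_nonneg Y
  have hfQ : fro Q' ≤ 2 * n := by
    have e : Q' = (Q' - Q) + Q := by abel
    have h3 := fro_add_le (Q' - Q) Q
    rw [← e, hQ.fro_eq] at h3
    have h4 : Real.sqrt n ≤ n := by
      rw [Real.sqrt_le_left hN0.le]
      exact hn2
    linarith
  refine (EIG_mul hu hn hnu1 ((hq.mono h1).mono h2) hyY).weaken ?_
  rintro v env3 _ ⟨Zo, hvZ, hZo⟩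
  refine ⟨Zo, t, hvZ, ht, ?_⟩
  have a1 : nv (Zo - Q' *ᵥ Y) ≤ 9 * (n : ℝ) ^ 2 * u := by
    refine hZo.trans ?_
    have h3 : fro Q' * nv Y ≤ 2 * n * (11 / 10) :=
      mul_le_mul hfQ hY11 hY0 (by positivity)
    have h4 : 0 ≤ 4 * (n : ℝ) * u := by positivity
    refine (mul_le_mul_of_nonneg_left h3 h4).trans ?_
    have h5 : 0 ≤ (n : ℝ) ^ 2 * u := by positivity
    nlinarith
  have a2 : nv ((Q' - Q) *ᵥ Y) ≤ 11 / 10 * εq := by
    refine (nv_mulVec_le _ _).trans ?_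
    have h3 := fro_nonneg (Q' - Q)
    have h4 : fro (Q' - Q) * nv Y ≤ εq * (11 / 10) := mul_le_mul hQ' hY11 hY0 (by linarith)
    linarith
  have a3 : nv (Q *ᵥ (Y - t • (fun a => V a i))) ≤ 10 * n * u + 2200 * n * r / (w0 ^ 2 * s ^ 2) := by
    rw [hQ.nv_mulVec]
    have e : Y - t • (fun a => V a i) =
        (Y - ((nv w)⁻¹ : ℂ) • w) + (((nv w)⁻¹ : ℂ) • w - t • (fun a => V a i)) := by abel
    rw [e]
    exact (nv_add_le _ _).trans (add_le_add hYw hinv)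
  have e : Zo - Q *ᵥ (t • (fun a => V a i)) =
      (Zo - Q' *ᵥ Y) + ((Q' - Q) *ᵥ Y) + (Q *ᵥ (Y - t • (fun a => V a i))) := by
    rw [Matrix.mulVec_sub, Matrix.sub_mulVec]
    abel
  rw [e]
  have b1 := nv_add_le ((Zo - Q' *ᵥ Y) + ((Q' - Q) *ᵥ Y)) (Q *ᵥ (Y - t • (fun a => V a i)))
  have b2 := nv_add_le (Zo - Q' *ᵥ Y) ((Q' - Q) *ᵥ Y)
  have b3 : 0 ≤ εq := (fro_nonneg _).trans hQ'
  have b4 : (n : ℝ) * u ≤ n ^ 2 * u := mul_le_mul_of_nonneg_right hn2 hu0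
  nlinarith

end H6LP
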