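import Pool.Agent.H6.LP.SOLV

/-!
# EIGV: well conditioned eigenvalues, large gaps (pure)

`X v = λ v`, `u ᵥ* X = λ u`, `nv v = nv u = 1`.
`uv_ge`: suppose `|u·v| < w0`.  `r = v - (u·v) ū` (`u·ū = 1`), `u·r = 0`, `nv (v - r) < w0`, `nv r ≤ 1` (it is the
projection of `v`; or use `≤ 1 + w0`, the constants allow it), `y` from `solv`, `z` the nearest grid point
(mesh `h = s w0`), `d = |z - λ| ≤ h/√2`; `x = v - (z-λ) y`; `(z - X) x = (z-λ)(v - r) - (z-λ)² y`
(sign: `(λ - X) y = r`), so `nv ((z-X)x) ≤ d w0 + d² (1+w0)/s < 4 s w0² nv x`, `nv x ≥ 1 - d (1+w0)/s ≥ 1/2`.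
`gap`: `λ' ≠ λ` with unit eigenvector `v'`; `u·v' = 0`; `solv` with `r = (λ - λ') v'` gives `y`, `v' - y` is in the
kernel of `λ - X`, which is spanned by `v` (if `(λ-X) p = 0`: `p - c v` with `u·(p - c v) = 0`…; use
`ker_one` below), so `v' = y + c v`, `|c| w0 ≤ |c (u·v)| = |u·y| ≤ nv y`, `1 ≤ nv y + |c|`.
`ker_one`: `p` in the kernel; `q = p - (u·p)/(u·v) v` satisfies `(λ-X) q = 0`, `u·q = 0`; need `q = 0`: if not,
solve `(λ - X) y = q` … get `u`-orthogonality chain; simpler: rows `2..n` of `λ - X` have rank `n-1`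
(`RowLB`), so the kernel is at most one-dimensional.
-/

set_option autoImplicit false

open Complex Matrix

namespace H6LP

variable {n : ℕ}

/-- nearest grid point of a real number -/
theorem EIGV_round {h x : ℝ} (hh : 0 < h) : |h * (round (x / h) : ℤ) - x| ≤ h / 2 := by
  have h1 := abs_sub_round (x / h)
  have h2 : h * (round (x / h) : ℤ) - x = -(h * (x / h - (round (x / h) : ℤ))) := by
    field_simp
    ring
  rw [h2, abs_neg, abs_mul, abs_of_pos hh]
  nlinarith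

/-- nearest grid point of a complex number -/
theorem EIGV_grid {h : ℝ} (hh : 0 < h) (hh1 : h ≤ 1) {z : ℂ} (hz : ‖z‖ ≤ 3) :
    ∃ a b : ℤ, |h * a| ≤ 4 ∧ |h * b| ≤ 4 ∧ ‖grd h a b - z‖ ≤ h := by
  refine ⟨round (z.re / h), round (z.im / h), ?_, ?_, ?_⟩
  · have h1 := EIGV_round (x := z.re) hh
    have h2 : |z.re| ≤ 3 := (Complex.abs_re_le_norm z).trans hz
    have h3 : |h * (round (z.re / h) : ℤ)| ≤ |h * (round (z.re / h) : ℤ) - z.re| + |z.re| := by
      have := abs_add_le (h * (round (z.re / h) : ℤ) - z.re) z.re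
      simpa using this
    linarith
  · have h1 := EIGV_round (x := z.im) hh
    have h2 : |z.im| ≤ 3 := (Complex.abs_im_le_norm z).trans hz
    have h3 : |h * (round (z.im / h) : ℤ)| ≤ |h * (round (z.im / h) : ℤ) - z.im| + |z.im| := by
      have := abs_add_le (h * (round (z.im / h) : ℤ) - z.im) z.im
      simpa using this
    linarith
  · have h1 := EIGV_round (x := z.re) hh
    have h2 := EIGV_round (x := z.im) hh
    have h3 := Complex.norm_le_abs_re_add_abs_im (grd h (round (z.re / h)) (round (z.im / h)) - z)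
    have h4 : (grd h (round (z.re / h)) (round (z.im / h)) - z).re
        = h * (round (z.re / h) : ℤ) - z.re := by
      simp [grd]
    have h5 : (grd h (round (z.re / h)) (round (z.im / h)) - z).im
        = h * (round (z.im / h) : ℤ) - z.im := by
      simp [grd]
    rw [h4, h5] at h3
    linarith

theorem EIGV_nv_star (u : Fin n → ℂ) : nv (star u) = nv u := by
  unfold nv
  simp

theorem EIGV_dot_star (u : Fin n → ℂ) (hu : nv u = 1) : u ⬝ᵥ star u = 1 := by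
  have h1 := nv_sq u
  rw [hu] at h1
  have h2 : u ⬝ᵥ star u = ((∑ i, ‖u i‖ ^ 2 : ℝ) : ℂ) := by
    unfold dotProduct
    push_cast
    apply Finset.sum_congr rfl
    intro i _
    rw [Pi.star_apply]
    simpa using Complex.mul_conj' (u i)
  rw [h2, ← h1]
  simp

theorem uv_ge {X : Matrix (Fin n) (Fin n) ℂ} {s w0 : ℝ} (hs : 0 < s) (hs1 : s ≤ 1) (hw : 0 < w0)
    (hw1 : w0 ≤ 1 / 10) (hop : OpLe X 3) (hr : RowLB X s) (hc : ColLB X (s * w0) (4 * s * w0 ^ 2))
    {z : ℂ} (hz : ‖z‖ ≤ 3) {u v : Fin n → ℂ} (hu : nv u = 1) (hv : nv v = 1)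
    (hl : u ᵥ* (z • (1 : Matrix (Fin n) (Fin n) ℂ) - X) = 0)
    (hv' : (z • (1 : Matrix (Fin n) (Fin n) ℂ) - X) *ᵥ v = 0) : w0 ≤ ‖u ⬝ᵥ v‖ := by
  by_contra hlt
  push Not at hlt
  have hu0 : u ≠ 0 := by
    rintro rfl
    rw [nv_zero] at hu
    norm_num at hu
  set α : ℂ := u ⬝ᵥ v with hα
  set r : Fin n → ℂ := v - α • star u with hrdef
  have hur : u ⬝ᵥ r = 0 := by
    rw [hrdef, dotProduct_sub, dotProduct_smul, EIGV_dot_star u hu, ← hα]
    simp
  have hnr : nv r ≤ 1 + w0 := by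
    have h1 := nv_sub_le v (α • star u)
    rw [nv_smul, EIGV_nv_star, hu, hv] at h1
    rw [hrdef]
    linarith
  have hvr : nv (v - r) ≤ w0 := by
    have : v - r = α • star u := by rw [hrdef]; abel
    rw [this, nv_smul, EIGV_nv_star, hu]
    linarith
  obtain ⟨y, hy, hny⟩ := solv hs hs1 hop hr hz hu0 hl hur
  have hsw : 0 < s * w0 := mul_pos hs hw
  have hsw1 : s * w0 ≤ 1 := by nlinarith
  obtain ⟨a, b, ha, hb, hd⟩ := EIGV_grid hsw hsw1 hz
  set z' : ℂ := grd (s * w0) a b with hz'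
  set d : ℝ := ‖z' - z‖ with hddef
  have hd0 : 0 ≤ d := norm_nonneg _
  set x : Fin n → ℂ := v - (z' - z) • y with hx
  have hny' : nv y ≤ (1 + w0) / s := by
    refine hny.trans ?_
    gcongr
  have hdy : d * nv y ≤ w0 * (1 + w0) := by
    calc d * nv y ≤ (s * w0) * ((1 + w0) / s) :=
          mul_le_mul hd hny' (nv_nonneg y) hsw.le
      _ = w0 * (1 + w0) := by field_simp
  have hnx : 1 - w0 * (1 + w0) ≤ nv x := by
    have h1 := nv_sub_ge v ((z' - z) • y)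
    rw [nv_smul, hv] at h1
    rw [hx]
    linarith
  have hkey : (z' • (1 : Matrix (Fin n) (Fin n) ℂ) - X) *ᵥ x
      = (z' - z) • (v - r) - ((z' - z) * (z' - z)) • y := by
    have h1 : (z' • (1 : Matrix (Fin n) (Fin n) ℂ) - X)
        = (z' - z) • (1 : Matrix (Fin n) (Fin n) ℂ) + (z • (1 : Matrix (Fin n) (Fin n) ℂ) - X) := by
      rw [sub_smul]
      abel
    have h2 : (z • (1 : Matrix (Fin n) (Fin n) ℂ) - X) *ᵥ x = -((z' - z) • r) := by
      rw [hx, mulVec_sub, hv', mulVec_smul, hy, zero_sub]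
    rw [h1, add_mulVec, h2, smul_mulVec, one_mulVec, hx]
    module
  have hcol := hc a b ha hb x
  rw [← hz', hkey] at hcol
  have hle : nv ((z' - z) • (v - r) - ((z' - z) * (z' - z)) • y) ≤ d * w0 + d * (d * nv y) := by
    refine (nv_sub_le _ _).trans ?_
    rw [nv_smul, nv_smul, norm_mul, ← hddef]
    have := mul_le_mul_of_nonneg_left hvr hd0
    nlinarith
  have h3 : d * w0 + d * (d * nv y) ≤ (s * w0) * w0 + (s * w0) * (w0 * (1 + w0)) := by
    have h4 : d * w0 ≤ (s * w0) * w0 := mul_le_mul_of_nonneg_right hd hw.le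
    have h5 : d * (d * nv y) ≤ (s * w0) * (w0 * (1 + w0)) :=
      mul_le_mul hd hdy (mul_nonneg hd0 (nv_nonneg y)) hsw.le
    linarith
  have h6 : 4 * s * w0 ^ 2 * (1 - w0 * (1 + w0)) ≤ 4 * s * w0 ^ 2 * nv x :=
    mul_le_mul_of_nonneg_left hnx (by positivity)
  have h7 : 4 * s * w0 ^ 2 * (1 - w0 * (1 + w0)) ≤ (s * w0) * w0 + (s * w0) * (w0 * (1 + w0)) := by
    linarith
  have h8 : 4 * (1 - w0 * (1 + w0)) ≤ 1 + (1 + w0) := by
    have h9 : 0 < s * w0 ^ 2 := by positivity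
    have h10 : (s * w0 ^ 2) * (4 * (1 - w0 * (1 + w0))) ≤ (s * w0 ^ 2) * (1 + (1 + w0)) := by
      nlinarith
    exact le_of_mul_le_mul_left h10 h9
  nlinarith

theorem ker_one {X : Matrix (Fin n) (Fin n) ℂ} {s : ℝ} (hs : 0 < s) (hr : RowLB X s)
    {z : ℂ} (hz : ‖z‖ ≤ 4) {v p : Fin n → ℂ} (hv : v ≠ 0)
    (hv' : (z • (1 : Matrix (Fin n) (Fin n) ℂ) - X) *ᵥ v = 0)
    (hp : (z • (1 : Matrix (Fin n) (Fin n) ℂ) - X) *ᵥ p = 0) : ∃ c : ℂ, p = c • v := by
  set T : Matrix (Fin n) (Fin n) ℂ := z • (1 : Matrix (Fin n) (Fin n) ℂ) - X with hT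
  have hn : 0 < n := by
    rcases Nat.eq_zero_or_pos n with h | h
    · subst h
      exact absurd (Subsingleton.elim v 0) hv
    · exact h
  -- the left kernel has dimension at most one
  have hleft : Module.finrank ℂ (LinearMap.ker (Tᵀ).mulVecLin) ≤ 1 := by
    let φ : LinearMap.ker (Tᵀ).mulVecLin →ₗ[ℂ] ℂ :=
      (LinearMap.proj (⟨0, hn⟩ : Fin n)).comp (Submodule.subtype _)
    have hinj : Function.Injective φ := by
      rw [← LinearMap.ker_eq_bot, LinearMap.ker_eq_bot']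
      intro w hw
      have h0 : (w : Fin n → ℂ) ⟨0, hn⟩ = 0 := hw
      have h1 : (w : Fin n → ℂ) ᵥ* T = 0 := by
        have := w.2
        rw [LinearMap.mem_ker, mulVecLin_apply, mulVec_transpose] at this
        exact this
      have h2 := hr z hz (w : Fin n → ℂ) (fun i hi => by
        have : i = ⟨0, hn⟩ := Fin.ext hi
        rw [this]; exact h0)
      rw [← hT, h1, nv_zero] at h2
      have h3 : nv (w : Fin n → ℂ) = 0 := by
        have := nv_nonneg (w : Fin n → ℂ)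
        nlinarith
      exact Subtype.ext (nv_eq_zero.mp h3)
    have := LinearMap.finrank_le_finrank_of_injective hinj
    simpa using this
  have hright : Module.finrank ℂ (LinearMap.ker T.mulVecLin) ≤ 1 := by
    have h1 := LinearMap.finrank_range_add_finrank_ker T.mulVecLin
    have h2 := LinearMap.finrank_range_add_finrank_ker (Tᵀ).mulVecLin
    have h3 : Module.finrank ℂ (LinearMap.range T.mulVecLin)
        = Module.finrank ℂ (LinearMap.range (Tᵀ).mulVecLin) := by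
      have := Matrix.rank_transpose T
      unfold Matrix.rank at this
      exact this.symm
    omega
  obtain ⟨v0, hv0⟩ := finrank_le_one_iff.mp hright
  obtain ⟨c1, hc1⟩ := hv0 ⟨v, by rw [LinearMap.mem_ker, mulVecLin_apply]; exact hv'⟩
  obtain ⟨c2, hc2⟩ := hv0 ⟨p, by rw [LinearMap.mem_ker, mulVecLin_apply]; exact hp⟩
  have h1 : c1 • (v0 : Fin n → ℂ) = v := congrArg Subtype.val hc1
  have h2 : c2 • (v0 : Fin n → ℂ) = p := congrArg Subtype.val hc2
  have hc10 : c1 ≠ 0 := by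
    rintro rfl
    rw [zero_smul] at h1
    exact hv h1.symm
  refine ⟨c2 / c1, ?_⟩
  rw [← h1, ← h2, smul_smul, div_mul_cancel₀ _ hc10]

theorem EIGV_unit {v : Fin n → ℂ} (hv : v ≠ 0) : nv (((nv v)⁻¹ : ℂ) • v) = 1 := by
  have h1 := nv_pos hv
  rw [nv_smul, norm_inv, Complex.norm_real, Real.norm_eq_abs, abs_of_pos h1, inv_mul_cancel₀ h1.ne']

theorem eig_gap {X : Matrix (Fin n) (Fin n) ℂ} {s w0 : ℝ} (hs : 0 < s) (hs1 : s ≤ 1) (hw : 0 < w0)
    (hw1 : w0 ≤ 1 / 10) (hop : OpLe X 3) (hr : RowLB X s) (hc : ColLB X (s * w0) (4 * s * w0 ^ 2))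
    {z z' : ℂ} (hz : ‖z‖ ≤ 3) (hz' : ‖z'‖ ≤ 3) (hne : z ≠ z') {v v' : Fin n → ℂ} (hv0 : v ≠ 0) (hv0' : v' ≠ 0)
    (hv : (z • (1 : Matrix (Fin n) (Fin n) ℂ) - X) *ᵥ v = 0)
    (hv' : (z' • (1 : Matrix (Fin n) (Fin n) ℂ) - X) *ᵥ v' = 0) :
    s * w0 / 2 ≤ ‖z - z'‖ := by
  set T : Matrix (Fin n) (Fin n) ℂ := z • (1 : Matrix (Fin n) (Fin n) ℂ) - X with hT
  -- unit vectors
  set v1 : Fin n → ℂ := ((nv v)⁻¹ : ℂ) • v with hv1
  set v1' : Fin n → ℂ := ((nv v')⁻¹ : ℂ) • v' with hv1'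
  have hnv1 : nv v1 = 1 := EIGV_unit hv0
  have hnv1' : nv v1' = 1 := EIGV_unit hv0'
  have hTv1 : T *ᵥ v1 = 0 := by rw [hv1, mulVec_smul, hv, smul_zero]
  have hTv1' : (z' • (1 : Matrix (Fin n) (Fin n) ℂ) - X) *ᵥ v1' = 0 := by
    rw [hv1', mulVec_smul, hv', smul_zero]
  -- left null vector
  have hdet : T.det = 0 := Matrix.exists_mulVec_eq_zero_iff.mp ⟨v, hv0, hv⟩
  obtain ⟨u0, hu0, hu0l⟩ := Matrix.exists_vecMul_eq_zero_iff.mpr hdet
  set u : Fin n → ℂ := ((nv u0)⁻¹ : ℂ) • u0 with hu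
  have hnu : nv u = 1 := EIGV_unit hu0
  have hul : u ᵥ* T = 0 := by rw [hu, smul_vecMul, hu0l, smul_zero]
  have hune : u ≠ 0 := by
    intro h
    rw [h, nv_zero] at hnu
    norm_num at hnu
  have huv := uv_ge hs hs1 hw hw1 hop hr hc hz hnu hnv1 hul hTv1
  -- the difference
  have hTv' : T *ᵥ v1' = (z - z') • v1' := by
    have h1 : T = (z - z') • (1 : Matrix (Fin n) (Fin n) ℂ)
        + (z' • (1 : Matrix (Fin n) (Fin n) ℂ) - X) := by
      rw [hT, sub_smul]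
      abel
    rw [h1, add_mulVec, hTv1', smul_mulVec, one_mulVec, add_zero]
  have huv' : u ⬝ᵥ ((z - z') • v1') = 0 := by
    rw [← hTv', dotProduct_mulVec, hul, zero_dotProduct]
  obtain ⟨y, hy, hny⟩ := solv hs hs1 hop hr hz hune hul huv'
  have hker : T *ᵥ (v1' - y) = 0 := by
    rw [mulVec_sub, hTv', ← hT] at *
    rw [hy, sub_self]
  have hv1ne : v1 ≠ 0 := by
    intro h
    rw [h, nv_zero] at hnv1
    norm_num at hnv1
  obtain ⟨c, hcv⟩ := ker_one hs hr (by linarith) hv1ne hTv1 hker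
  have huv0 : u ⬝ᵥ v1' = 0 := by
    rw [dotProduct_smul, smul_eq_mul] at huv'
    rcases mul_eq_zero.mp huv' with h | h
    · exact absurd (sub_eq_zero.mp h) hne
    · exact h
  have h1 : c * (u ⬝ᵥ v1) = -(u ⬝ᵥ y) := by
    have h2 : u ⬝ᵥ (v1' - y) = u ⬝ᵥ (c • v1) := by rw [hcv]
    rw [dotProduct_sub, huv0, dotProduct_smul, smul_eq_mul, zero_sub] at h2
    exact h2.symm
  have h2 : ‖c‖ * w0 ≤ nv y := by
    calc ‖c‖ * w0 ≤ ‖c‖ * ‖u ⬝ᵥ v1‖ := mul_le_mul_of_nonneg_left huv (norm_nonneg _)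
      _ = ‖u ⬝ᵥ y‖ := by rw [← norm_mul, h1, norm_neg]
      _ ≤ nv u * nv y := norm_dotProduct_le u y
      _ = nv y := by rw [hnu, one_mul]
  have h3 : 1 ≤ nv y + ‖c‖ := by
    have h4 : v1' = y + c • v1 := by rw [← hcv]; abel
    calc 1 = nv v1' := hnv1'.symm
      _ = nv (y + c • v1) := by rw [← h4]
      _ ≤ nv y + nv (c • v1) := nv_add_le _ _
      _ = nv y + ‖c‖ := by rw [nv_smul, hnv1, mul_one]
  have h5 : nv y ≤ ‖z - z'‖ / s := by
    rw [nv_smul, hnv1', mul_one] at hny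
    exact hny
  have h6 : s * nv y ≤ ‖z - z'‖ := by
    rw [le_div_iff₀ hs] at h5
    linarith
  have h7 : w0 ≤ nv y * (1 + w0) := by nlinarith
  have h8 : w0 / 2 ≤ nv y := by
    have := nv_nonneg y
    nlinarith
  calc s * w0 / 2 = s * (w0 / 2) := by ring
    _ ≤ s * nv y := mul_le_mul_of_nonneg_left h8 hs.le
    _ ≤ ‖z - z'‖ := h6

end H6LP
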