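import Pool.Agent.H6.LP.SBROW

/-!
# SBCOL: the column event at one point `z`

As SBROW, simpler: `B_k = {g | ∃ x, nv x = 1, nv x ≤ √n ‖x k‖, nv (T *ᵥ x) ≤ a}`; resample the column `k`; `w` a
unit vector with `w ⬝ᵥ (column j) = 0` for `j ≠ k`, `‖w p‖ ≥ 1/√n`; `‖w ⬝ᵥ column_k‖ ≤ a √n`; `sb_col`.
-/

set_option autoImplicit false

open Complex Matrix MeasureTheory

namespace H6LP

variable {ι : Type} [Fintype ι] [DecidableEq ι] {n : ℕ}

/-- the compact set of the normalized vectors with large coordinate `k` -/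
def sbcolK (n : ℕ) (k : Fin n) : Set (Fin n → ℂ) :=
  {x | nv x = 1 ∧ 1 ≤ Real.sqrt n * ‖x k‖}

theorem sbcol_isCompact (k : Fin n) : IsCompact (sbcolK n k) := by
  refine sbrow_isCompact_of_nv_eq_one ?_ (fun x hx => hx.1)
  have h3 : IsClosed {x : Fin n → ℂ | 1 ≤ Real.sqrt n * ‖x k‖} :=
    isClosed_le continuous_const (continuous_const.mul (continuous_apply k).norm)
  exact (isClosed_eq sbrow_continuous_nv continuous_const).inter h3

/-- the block of the coordinates of the column `k` -/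
def sbcolBlock (C : Coo n ι) (k : Fin n) : Finset ι :=
  Finset.univ.image (fun p : Fin n × Bool => C.co p.1 k p.2)

omit [Fintype ι] in
theorem sbcol_Mof_mix_ne (A : Matrix (Fin n) (Fin n) ℂ) (C : Coo n ι) (γ : ℝ) (g h : ι → ℝ)
    {k j : Fin n} (hjk : j ≠ k) (i : Fin n) :
    Mof A γ C (mix (sbcolBlock C k) g h) i j = Mof A γ C g i j := by
  have hm : ∀ b, mix (sbcolBlock C k) g h (C.co i j b) = g (C.co i j b) := by
    intro b
    unfold mix
    rw [if_neg]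
    intro hmem
    unfold sbcolBlock at hmem
    rw [Finset.mem_image] at hmem
    obtain ⟨p, -, hp⟩ := hmem
    exact hjk ((C.inj _ _ _ _ _ _ hp).2.1).symm
  unfold Mof
  rw [hm, hm]

omit [Fintype ι] in
theorem sbcol_Mof_mix_eq (A : Matrix (Fin n) (Fin n) ℂ) (C : Coo n ι) (γ : ℝ) (g h : ι → ℝ)
    (k i : Fin n) :
    Mof A γ C (mix (sbcolBlock C k) g h) i k = A i k + γ * Gc C h i k := by
  have hm : ∀ b, mix (sbcolBlock C k) g h (C.co i k b) = h (C.co i k b) := by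
    intro b
    unfold mix
    rw [if_pos]
    unfold sbcolBlock
    rw [Finset.mem_image]
    exact ⟨(i, b), Finset.mem_univ _, rfl⟩
  unfold Mof Gc
  rw [hm, hm]

theorem sbcol_aux (hn : 1 ≤ n) (A : Matrix (Fin n) (Fin n) ℂ) (C : Coo n ι) {γ a : ℝ} (hγ : 0 < γ)
    (ha : 0 ≤ a) (z : ℂ) (k : Fin n) (g : ι → ℝ) :
    PP ι {h | ∃ x ∈ sbcolK n k, nv ((z • (1 : Matrix (Fin n) (Fin n) ℂ) -
      Mof A γ C (mix (sbcolBlock C k) g h)) *ᵥ x) ≤ a} ≤ ENNReal.ofReal ((2 * a * n / γ) ^ 2) := by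
  set T : Matrix (Fin n) (Fin n) ℂ := z • (1 : Matrix (Fin n) (Fin n) ℂ) - Mof A γ C g with hT
  have hs : 0 < Real.sqrt n := Real.sqrt_pos.mpr (by exact_mod_cast hn)
  -- kernel vector
  obtain ⟨w, hw0, hw⟩ : ∃ w : Fin n → ℂ, w ≠ 0 ∧ ∀ j, j ≠ k → w ⬝ᵥ (fun i => T i j) = 0 := by
    set N : Matrix (Fin n) (Fin n) ℂ := fun i j => if j = k then 0 else T i j with hN
    have hdet : N.det = 0 := Matrix.det_eq_zero_of_column_eq_zero k (fun j => by
      rw [hN]
      simp)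
    obtain ⟨w, hw0, hw⟩ := Matrix.exists_vecMul_eq_zero_iff.mpr hdet
    refine ⟨w, hw0, ?_⟩
    intro j hjk
    have h1 : w ⬝ᵥ (fun i => N i j) = 0 := congrFun hw j
    have h2 : (fun i => N i j) = fun i => T i j := by
      rw [hN]
      simp [hjk]
    rwa [h2] at h1
  obtain ⟨c, hc, p, hp⟩ := sbrow_exists_normalized hn hw0
  set w' := c • w with hw'
  have hker : ∀ j, j ≠ k → w' ⬝ᵥ (fun i => T i j) = 0 := by
    intro j hj
    rw [hw', smul_dotProduct, hw j hj, smul_zero]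
  -- the main estimate
  have main : ∀ h ∈ {h | ∃ x ∈ sbcolK n k, nv ((z • (1 : Matrix (Fin n) (Fin n) ℂ) -
        Mof A γ C (mix (sbcolBlock C k) g h)) *ᵥ x) ≤ a},
      ‖-(z * w' k - ∑ i, A i k * w' i) + γ * ∑ i, Gc C h i k * w' i‖ ≤ a * Real.sqrt n := by
    rintro h ⟨x, ⟨hx1, hxk⟩, hxa⟩
    set T' : Matrix (Fin n) (Fin n) ℂ := z • (1 : Matrix (Fin n) (Fin n) ℂ) -
        Mof A γ C (mix (sbcolBlock C k) g h) with hT'
    have hcol : ∀ j, j ≠ k → (fun i => T' i j) = fun i => T i j := by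
      intro j hjk
      funext i
      rw [hT', hT, Matrix.sub_apply, Matrix.sub_apply, sbcol_Mof_mix_ne A C γ g h hjk]
    have e1 : w' ⬝ᵥ (T' *ᵥ x) = (w' ⬝ᵥ (fun i => T' i k)) * x k := by
      rw [Matrix.dotProduct_mulVec]
      show ∑ j, (w' ᵥ* T') j * x j = _
      rw [Finset.sum_eq_single k]
      · rfl
      · intro j _ hjk
        have : (w' ᵥ* T') j = 0 := by
          show w' ⬝ᵥ (fun i => T' i j) = 0
          rw [hcol j hjk]
          exact hker j hjk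
        rw [this, zero_mul]
      · intro h'
        exact absurd (Finset.mem_univ _) h'
    have e2 : ‖w' ⬝ᵥ (fun i => T' i k)‖ * ‖x k‖ ≤ a := by
      rw [← norm_mul, ← e1]
      refine (norm_dotProduct_le _ _).trans ?_
      rw [hc, one_mul]
      exact hxa
    have e3 : ‖w' ⬝ᵥ (fun i => T' i k)‖ ≤ a * Real.sqrt n := by
      have h1 : ‖w' ⬝ᵥ (fun i => T' i k)‖ ≤
          (Real.sqrt n * ‖x k‖) * ‖w' ⬝ᵥ (fun i => T' i k)‖ := by
        have := norm_nonneg (w' ⬝ᵥ (fun i => T' i k))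
        nlinarith
      have h2 : Real.sqrt n * (‖w' ⬝ᵥ (fun i => T' i k)‖ * ‖x k‖) ≤ Real.sqrt n * a := by gcongr
      nlinarith
    have e4 : -(z * w' k - ∑ i, A i k * w' i) + γ * ∑ i, Gc C h i k * w' i =
        -(w' ⬝ᵥ (fun i => T' i k)) := by
      have e5 : w' ⬝ᵥ (fun i => T' i k) = ∑ i, ((z • (1 : Matrix (Fin n) (Fin n) ℂ)) i k * w' i -
          (A i k * w' i + γ * (Gc C h i k * w' i))) := by
        show ∑ i, w' i * T' i k = _
        refine Finset.sum_congr rfl (fun i _ => ?_)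
        rw [hT', Matrix.sub_apply, sbcol_Mof_mix_eq]
        ring
      rw [e5, Finset.sum_sub_distrib, Finset.sum_add_distrib, ← Finset.mul_sum]
      have e6 : ∑ i, (z • (1 : Matrix (Fin n) (Fin n) ℂ)) i k * w' i = z * w' k := by
        rw [Finset.sum_eq_single k]
        · simp
        · intro j _ hjk
          simp [hjk]
        · intro h'
          exact absurd (Finset.mem_univ _) h'
      rw [e6]
      ring
    rw [e4, norm_neg]
    exact e3
  have hfin := sb_col C hγ (mul_nonneg ha hs.le) (one_div_pos.mpr hs) k p _ w' hp main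
  refine hfin.trans (le_of_eq ?_)
  congr 2
  have hsq : Real.sqrt n * Real.sqrt n = n := Real.mul_self_sqrt (by positivity)
  have hg := hγ.ne'
  have hs' := hs.ne'
  field_simp
  nlinarith [hsq]

theorem sbcol (hn : 1 ≤ n) (A : Matrix (Fin n) (Fin n) ℂ) (C : Coo n ι) {γ a : ℝ} (hγ : 0 < γ) (ha : 0 ≤ a)
    (z : ℂ) :
    PP ι {g | ∃ x : Fin n → ℂ, nv x = 1 ∧
      nv ((z • (1 : Matrix (Fin n) (Fin n) ℂ) - Mof A γ C g) *ᵥ x) ≤ a} ≤
    ENNReal.ofReal (n * (2 * a * n / γ) ^ 2) := by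
  have hcont : Continuous fun p : (ι → ℝ) × (Fin n → ℂ) =>
      nv ((z • (1 : Matrix (Fin n) (Fin n) ℂ) - Mof A γ C p.1) *ᵥ p.2) := by
    refine sbrow_continuous_nv.comp (continuous_pi fun i => ?_)
    show Continuous fun p : (ι → ℝ) × (Fin n → ℂ) =>
      ∑ j, ((z • (1 : Matrix (Fin n) (Fin n) ℂ)) i j - Mof A γ C p.1 i j) * p.2 j
    refine continuous_finsetSum _ fun j _ => ?_
    refine Continuous.mul (Continuous.sub continuous_const ?_) (by fun_prop)
    exact (sbrow_continuous_Mof A C γ i j).comp continuous_fst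
  set Bk : Fin n → Set (ι → ℝ) := fun k =>
    {g | ∃ x ∈ sbcolK n k, nv ((z • (1 : Matrix (Fin n) (Fin n) ℂ) - Mof A γ C g) *ᵥ x) ≤ a} with hBk
  have hclosed : ∀ k, IsClosed (Bk k) := fun k =>
    sbrow_isClosed_exists_le (sbcol_isCompact k) hcont a
  have hbound : ∀ k, PP ι (Bk k) ≤ ENNReal.ofReal ((2 * a * n / γ) ^ 2) := fun k =>
    pisec' (sbcolBlock C k) (hclosed k).measurableSet (fun g => sbcol_aux hn A C hγ ha z k g)
  have hsub : {g | ∃ x : Fin n → ℂ, nv x = 1 ∧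
      nv ((z • (1 : Matrix (Fin n) (Fin n) ℂ) - Mof A γ C g) *ᵥ x) ≤ a} ⊆ ⋃ k, Bk k := by
    rintro g ⟨x, hx1, hxa⟩
    obtain ⟨k, hk⟩ := exists_large_coord hn x
    rw [Set.mem_iUnion]
    exact ⟨k, x, ⟨hx1, by rw [← hx1]; exact hk⟩, hxa⟩
  calc _ ≤ PP ι (⋃ k, Bk k) := measure_mono hsub
    _ ≤ ∑ k, PP ι (Bk k) := measure_iUnion_fintype_le _ _
    _ ≤ ∑ _k : Fin n, ENNReal.ofReal ((2 * a * n / γ) ^ 2) := Finset.sum_le_sum fun k _ => hbound k
    _ = ENNReal.ofReal (n * (2 * a * n / γ) ^ 2) := by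
      rw [Finset.sum_const, Finset.card_univ, Fintype.card_fin, nsmul_eq_mul,
        ENNReal.ofReal_mul (Nat.cast_nonneg _), ENNReal.ofReal_natCast]

end H6LP
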