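import Pool.Agent.H6.LP.SBROW
import Pool.Agent.H6.LP.SBCOL

/-!
# EV: the row event and the column event

Row: if `RowLB (M g) (2s)` fails there are `‖z‖ ≤ 4`, `x` (scaled to `nv x = 1`) with `nv (x ᵥ* (z - M)) < 2s`;
the grid point `z'` of mesh `s` with `|Re|,|Im| ≤ 4` or just outside (`|s a| ≤ 5`) has `|z - z'| ≤ s`, so
`nv (x ᵥ* (z' - M)) ≤ 3s`: union over at most `(10/s + 1)^2 ≤ (11/s)^2` grid points of `sbrow` with `a = 3s`.
Column: directly a union over the grid points of mesh `h` with `|h a| ≤ 4`: at most `(8/h+1)^2 ≤ (9/h)^2` points.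
Both good sets are closed (intersections of closed sets; everything is continuous in `g`), so measurable.
-/

set_option autoImplicit false

open Complex Matrix MeasureTheory

namespace H6LP

variable {ι : Type} [Fintype ι] [DecidableEq ι] {n : ℕ}

theorem ev_cont_Mof (A : Matrix (Fin n) (Fin n) ℂ) (C : Coo n ι) (γ : ℝ) (z : ℂ) (i j : Fin n) :
    Continuous fun g : ι → ℝ => (z • (1 : Matrix (Fin n) (Fin n) ℂ) - Mof A γ C g) i j := by
  simp only [Mof, Matrix.sub_apply]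
  fun_prop

theorem ev_cont_nv {X : Type} [TopologicalSpace X] {f : X → Fin n → ℂ}
    (hf : ∀ i, Continuous fun x => f x i) : Continuous fun x => nv (f x) := by
  unfold nv
  refine Continuous.sqrt ?_
  exact continuous_finsetSum _ fun i _ => ((hf i).norm).pow 2

theorem ev_cont_row (A : Matrix (Fin n) (Fin n) ℂ) (C : Coo n ι) (γ : ℝ) (z : ℂ) (x : Fin n → ℂ) :
    Continuous fun g : ι → ℝ => nv (x ᵥ* (z • (1 : Matrix (Fin n) (Fin n) ℂ) - Mof A γ C g)) := by
  refine ev_cont_nv fun j => ?_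
  simp only [Matrix.vecMul, dotProduct]
  exact continuous_finsetSum _ fun i _ => continuous_const.mul (ev_cont_Mof A C γ z i j)

theorem ev_cont_col (A : Matrix (Fin n) (Fin n) ℂ) (C : Coo n ι) (γ : ℝ) (z : ℂ) (x : Fin n → ℂ) :
    Continuous fun g : ι → ℝ => nv ((z • (1 : Matrix (Fin n) (Fin n) ℂ) - Mof A γ C g) *ᵥ x) := by
  refine ev_cont_nv fun i => ?_
  simp only [Matrix.mulVec, dotProduct]
  exact continuous_finsetSum _ fun j _ => (ev_cont_Mof A C γ z i j).mul continuous_const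

theorem measurableSet_rowLB (A : Matrix (Fin n) (Fin n) ℂ) (C : Coo n ι) (γ s : ℝ) :
    MeasurableSet {g : ι → ℝ | RowLB (Mof A γ C g) s} := by
  apply IsClosed.measurableSet
  have : {g : ι → ℝ | RowLB (Mof A γ C g) s} =
      ⋂ z : ℂ, ⋂ _ : ‖z‖ ≤ 4, ⋂ x : Fin n → ℂ, ⋂ _ : ∀ i : Fin n, (i : ℕ) = 0 → x i = 0,
        {g : ι → ℝ | s * nv x ≤ nv (x ᵥ* (z • (1 : Matrix (Fin n) (Fin n) ℂ) - Mof A γ C g))} := by
    ext g
    simp only [RowLB, Set.mem_iInter, Set.mem_ofPred_eq]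
  rw [this]
  refine isClosed_iInter fun z => isClosed_iInter fun _ => isClosed_iInter fun x =>
    isClosed_iInter fun _ => ?_
  exact isClosed_le continuous_const (ev_cont_row A C γ z x)

theorem measurableSet_colLB (A : Matrix (Fin n) (Fin n) ℂ) (C : Coo n ι) (γ h t : ℝ) :
    MeasurableSet {g : ι → ℝ | ColLB (Mof A γ C g) h t} := by
  apply IsClosed.measurableSet
  have : {g : ι → ℝ | ColLB (Mof A γ C g) h t} =
      ⋂ a : ℤ, ⋂ b : ℤ, ⋂ _ : |h * a| ≤ 4, ⋂ _ : |h * b| ≤ 4, ⋂ x : Fin n → ℂ,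
        {g : ι → ℝ | t * nv x ≤
          nv ((grd h a b • (1 : Matrix (Fin n) (Fin n) ℂ) - Mof A γ C g) *ᵥ x)} := by
    ext g
    simp only [ColLB, ColAt, Set.mem_iInter, Set.mem_ofPred_eq]
  rw [this]
  refine isClosed_iInter fun a => isClosed_iInter fun b => isClosed_iInter fun _ =>
    isClosed_iInter fun _ => isClosed_iInter fun x => ?_
  exact isClosed_le continuous_const (ev_cont_col A C γ _ x)

/-- the union bound over a square of grid points -/
theorem ev_union {N : ℤ} (hN : 0 ≤ N) {c q : ℝ} (hc : ((2 * N + 1 : ℤ) : ℝ) ≤ c)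
    {E : Set (ι → ℝ)} {B : ℤ → ℤ → Set (ι → ℝ)} (hE : ∀ g ∈ E, ∃ a b : ℤ, |a| ≤ N ∧ |b| ≤ N ∧ g ∈ B a b)
    (hB : ∀ a b, PP ι (B a b) ≤ ENNReal.ofReal q) (hq : 0 ≤ q) :
    PP ι E ≤ ENNReal.ofReal (c ^ 2 * q) := by
  have h1 : E ⊆ ⋃ p ∈ (Finset.Icc (-N) N ×ˢ Finset.Icc (-N) N), B p.1 p.2 := by
    intro g hg
    obtain ⟨a, b, ha, hb, hgB⟩ := hE g hg
    rw [abs_le] at ha hb
    simp only [Set.mem_iUnion]
    refine ⟨(a, b), ?_, hgB⟩
    rw [Finset.mem_product, Finset.mem_Icc, Finset.mem_Icc]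
    exact ⟨ha, hb⟩
  have hcard : ((Finset.Icc (-N) N ×ˢ Finset.Icc (-N) N).card : ℝ) = ((2 * N + 1 : ℤ) : ℝ) ^ 2 := by
    rw [Finset.card_product, Int.card_Icc]
    have h2 : ((N + 1 - -N).toNat : ℤ) = 2 * N + 1 := by omega
    have h3 : ((N + 1 - -N).toNat : ℝ) = ((2 * N + 1 : ℤ) : ℝ) := by exact_mod_cast h2
    push_cast
    rw [h3]
    push_cast
    ring
  calc PP ι E ≤ PP ι (⋃ p ∈ (Finset.Icc (-N) N ×ˢ Finset.Icc (-N) N), B p.1 p.2) :=
        measure_mono h1
    _ ≤ ∑ p ∈ (Finset.Icc (-N) N ×ˢ Finset.Icc (-N) N), PP ι (B p.1 p.2) :=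
        measure_biUnion_finset_le _ _
    _ ≤ ∑ _p ∈ (Finset.Icc (-N) N ×ˢ Finset.Icc (-N) N), ENNReal.ofReal q :=
        Finset.sum_le_sum fun p _ => hB p.1 p.2
    _ = ENNReal.ofReal (((Finset.Icc (-N) N ×ˢ Finset.Icc (-N) N).card : ℝ) * q) := by
        rw [Finset.sum_const, nsmul_eq_mul, ENNReal.ofReal_mul (by positivity),
          ENNReal.ofReal_natCast]
    _ ≤ ENNReal.ofReal (c ^ 2 * q) := by
        apply ENNReal.ofReal_le_ofReal
        apply mul_le_mul_of_nonneg_right _ hq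
        rw [hcard]
        apply pow_le_pow_left₀ _ hc
        have : (0 : ℤ) ≤ 2 * N + 1 := by omega
        exact_mod_cast this

theorem ev_row (hn : 1 ≤ n) (A : Matrix (Fin n) (Fin n) ℂ) (C : Coo n ι) {γ s : ℝ} (hγ : 0 < γ) (hs : 0 < s)
    (hs1 : s ≤ 1) :
    PP ι {g | ¬ RowLB (Mof A γ C g) (2 * s)} ≤
      ENNReal.ofReal ((11 / s) ^ 2 * (n * (2 * (3 * s) * n / γ) ^ 4)) := by
  have hN : (0 : ℤ) ≤ ⌊4 / s + 1 / 2⌋ := Int.floor_nonneg.mpr (by positivity)
  refine ev_union (N := ⌊4 / s + 1 / 2⌋) hN ?_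
    (B := fun a b => {g | ∃ x : Fin n → ℂ, nv x = 1 ∧ (∀ i : Fin n, (i : ℕ) = 0 → x i = 0) ∧
      nv (x ᵥ* (grd s a b • (1 : Matrix (Fin n) (Fin n) ℂ) - Mof A γ C g)) ≤ 3 * s}) ?_
    (fun a b => sbrow hn A C hγ (by positivity) (grd s a b)) (by positivity)
  · have h1 := Int.floor_le (4 / s + 1 / 2)
    push_cast
    have h2 : (1 : ℝ) ≤ 1 / s := by rw [le_div_iff₀ hs]; linarith
    have h3 : 4 / s = 4 * (1 / s) := by ring
    have h4 : 11 / s = 11 * (1 / s) := by ring
    rw [h3] at h1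
    rw [h3, h4]
    linarith
  · intro g hg
    simp only [Set.mem_ofPred_eq, RowLB, not_forall, not_le] at hg
    obtain ⟨z, hz, x, hx0, hlt⟩ := hg
    have hxpos : 0 < nv x := by
      rcases (nv_nonneg x).lt_or_eq with h | h
      · exact h
      · exfalso
        rw [← h, mul_zero] at hlt
        have hx : x = 0 := nv_eq_zero.mp h.symm
        rw [hx, Matrix.zero_vecMul, nv_zero] at hlt
        exact lt_irrefl _ hlt
    set y : Fin n → ℂ := ((1 / nv x : ℝ) : ℂ) • x with hy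
    have hny : nv y = 1 := by
      rw [hy, nv_smul, Complex.norm_real, Real.norm_of_nonneg (by positivity)]
      field_simp
    have hy0 : ∀ i : Fin n, (i : ℕ) = 0 → y i = 0 := by
      intro i hi
      rw [hy, Pi.smul_apply, hx0 i hi, smul_zero]
    have hylt : nv (y ᵥ* (z • (1 : Matrix (Fin n) (Fin n) ℂ) - Mof A γ C g)) ≤ 2 * s := by
      rw [hy, Matrix.smul_vecMul, nv_smul, Complex.norm_real,
        Real.norm_of_nonneg (by positivity : (0 : ℝ) ≤ 1 / nv x)]
      rw [div_mul_eq_mul_div, one_mul, div_le_iff₀ hxpos]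
      exact hlt.le
    -- the grid point
    set a : ℤ := round (z.re / s) with ha
    set b : ℤ := round (z.im / s) with hb
    have hre : |z.re| ≤ 4 := (Complex.abs_re_le_norm z).trans hz
    have him : |z.im| ≤ 4 := (Complex.abs_im_le_norm z).trans hz
    have key : ∀ r : ℝ, |r| ≤ 4 → |round (r / s)| ≤ ⌊4 / s + 1 / 2⌋ := by
      intro r hr
      rw [Int.le_floor]
      have h1 := abs_sub_round (r / s)
      have h2 : |r / s| ≤ 4 / s := by
        rw [abs_div, abs_of_pos hs]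
        exact div_le_div_of_nonneg_right hr hs.le
      have h3 : |((round (r / s) : ℤ) : ℝ)| ≤ 4 / s + 1 / 2 := by
        have h4 : ((round (r / s) : ℤ) : ℝ) = r / s - (r / s - round (r / s)) := by ring
        rw [h4]
        calc _ ≤ |r / s| + |r / s - round (r / s)| := abs_sub _ _
          _ ≤ _ := add_le_add h2 h1
      rw [← Int.cast_abs] at h3
      exact h3
    have hdist : ∀ r : ℝ, |r - s * round (r / s)| ≤ s / 2 := by
      intro r
      have h1 := abs_sub_round (r / s)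
      have h2 : r - s * round (r / s) = s * (r / s - round (r / s)) := by
        field_simp
      rw [h2, abs_mul, abs_of_pos hs]
      calc s * |r / s - round (r / s)| ≤ s * (1 / 2) := mul_le_mul_of_nonneg_left h1 hs.le
        _ = s / 2 := by ring
    refine ⟨a, b, key _ hre, key _ him, y, hny, hy0, ?_⟩
    have hzz : ‖grd s a b - z‖ ≤ s := by
      have h1 : ‖grd s a b - z‖ ≤ |(grd s a b - z).re| + |(grd s a b - z).im| :=
        Complex.norm_le_abs_re_add_abs_im _
      have h2 : (grd s a b - z).re = -(z.re - s * a) := by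
        simp [grd]
      have h3 : (grd s a b - z).im = -(z.im - s * b) := by
        simp [grd]
      rw [h2, h3, abs_neg, abs_neg] at h1
      linarith [hdist z.re, hdist z.im]
    have hsplit : y ᵥ* (grd s a b • (1 : Matrix (Fin n) (Fin n) ℂ) - Mof A γ C g) =
        y ᵥ* (z • (1 : Matrix (Fin n) (Fin n) ℂ) - Mof A γ C g) + (grd s a b - z) • y := by
      simp only [Matrix.vecMul_sub, Matrix.vecMul_smul, Matrix.vecMul_one]
      module
    calc nv (y ᵥ* (grd s a b • (1 : Matrix (Fin n) (Fin n) ℂ) - Mof A γ C g))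
        ≤ nv (y ᵥ* (z • (1 : Matrix (Fin n) (Fin n) ℂ) - Mof A γ C g)) +
            nv ((grd s a b - z) • y) := by rw [hsplit]; exact nv_add_le _ _
      _ ≤ 2 * s + s := by
          refine add_le_add hylt ?_
          rw [nv_smul, hny, mul_one]
          exact hzz
      _ = 3 * s := by ring

theorem ev_col (hn : 1 ≤ n) (A : Matrix (Fin n) (Fin n) ℂ) (C : Coo n ι) {γ h t : ℝ} (hγ : 0 < γ)
    (hh : 0 < h) (hh1 : h ≤ 1) (ht : 0 < t) :
    PP ι {g | ¬ ColLB (Mof A γ C g) h t} ≤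
      ENNReal.ofReal ((9 / h) ^ 2 * (n * (2 * t * n / γ) ^ 2)) := by
  have hN : (0 : ℤ) ≤ ⌊4 / h⌋ := Int.floor_nonneg.mpr (by positivity)
  refine ev_union (N := ⌊4 / h⌋) hN ?_
    (B := fun a b => {g | ∃ x : Fin n → ℂ, nv x = 1 ∧
      nv ((grd h a b • (1 : Matrix (Fin n) (Fin n) ℂ) - Mof A γ C g) *ᵥ x) ≤ t}) ?_
    (fun a b => sbcol hn A C hγ ht.le (grd h a b)) (by positivity)
  · have h1 := Int.floor_le (4 / h)
    push_cast
    have h2 : (1 : ℝ) ≤ 1 / h := by rw [le_div_iff₀ hh]; linarith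
    have h3 : 4 / h = 4 * (1 / h) := by ring
    have h4 : 9 / h = 9 * (1 / h) := by ring
    rw [h3] at h1
    rw [h3, h4]
    linarith
  · intro g hg
    simp only [Set.mem_ofPred_eq, ColLB, ColAt, not_forall, not_le] at hg
    obtain ⟨a, b, ha, hb, x, hlt⟩ := hg
    have hxpos : 0 < nv x := by
      rcases (nv_nonneg x).lt_or_eq with h | h
      · exact h
      · exfalso
        rw [← h, mul_zero] at hlt
        have hx : x = 0 := nv_eq_zero.mp h.symm
        rw [hx, Matrix.mulVec_zero, nv_zero] at hlt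
        exact lt_irrefl _ hlt
    have key : ∀ c : ℤ, |h * c| ≤ 4 → |c| ≤ ⌊4 / h⌋ := by
      intro c hc
      rw [Int.le_floor, Int.cast_abs, le_div_iff₀ hh]
      rw [abs_mul, abs_of_pos hh] at hc
      linarith
    refine ⟨a, b, key a ha, key b hb, ((1 / nv x : ℝ) : ℂ) • x, ?_, ?_⟩
    · rw [nv_smul, Complex.norm_real, Real.norm_of_nonneg (by positivity)]
      field_simp
    · rw [Matrix.mulVec_smul, nv_smul, Complex.norm_real,
        Real.norm_of_nonneg (by positivity : (0 : ℝ) ≤ 1 / nv x)]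
      rw [div_mul_eq_mul_div, one_mul, div_le_iff₀ hxpos]
      exact hlt.le

end H6LP
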