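import Pool.Agent.H6.LP.EIGV

/-!
# RMDET: the diagonalization (pure)

Every root `λ` of the characteristic polynomial is simple: otherwise there is a generalized eigenvector
(`(X - λ) y = v`) or a two-dimensional kernel; `u·v = u·(X-λ)y = 0` contradicts `uv_ge`, the kernel is
one-dimensional by `ker_one`.  (E.g. `charpoly` separable ⟸ no double root; or: `Module.End` generalized
eigenspaces span (`iSup_maxGenEigenspace_eq_top`) and equal the eigenspaces, so there is a basis of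
eigenvectors; distinct basis vectors have distinct eigenvalues by `ker_one`.)
`V` = unit eigenvectors as columns, `W = V⁻¹`; row `i` of `W` is a left eigenvector `c_i u_i` with
`c_i u_i·v_i = 1`, so `nv (W i) = |c_i| = 1/|u_i·v_i| ∈ [1, 1/w0]`, `‖W i 0‖ = |c_i| ‖u_i 0‖ ≥ s/7`.
-/

set_option autoImplicit false

open Complex Matrix

namespace H6LP

theorem RMDET_unit {n : ℕ} {x : Fin n → ℂ} (hx : x ≠ 0) :
    nv ((((nv x)⁻¹ : ℝ) : ℂ) • x) = 1 := by
  rw [nv_smul, Complex.norm_real, Real.norm_eq_abs, abs_of_nonneg (inv_nonneg.2 (nv_nonneg x))]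
  exact inv_mul_cancel₀ (nv_pos hx).ne'

theorem RMDET_left {n : ℕ} {T : Matrix (Fin n) (Fin n) ℂ} {q : Fin n → ℂ} (hq : q ≠ 0)
    (h : T *ᵥ q = 0) : ∃ w : Fin n → ℂ, w ≠ 0 ∧ w ᵥ* T = 0 := by
  have hdet : T.det = 0 := Matrix.exists_mulVec_eq_zero_iff.1 ⟨q, hq, h⟩
  exact Matrix.exists_vecMul_eq_zero_iff.2 hdet

theorem RMDET_ev {n : ℕ} {X : Matrix (Fin n) (Fin n) ℂ} {z : ℂ} {q : Fin n → ℂ}
    (h : (z • (1 : Matrix (Fin n) (Fin n) ℂ) - X) *ᵥ q = 0) : X *ᵥ q = z • q := by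
  rw [Matrix.sub_mulVec, Matrix.smul_mulVec, Matrix.one_mulVec, sub_eq_zero] at h
  exact h.symm

theorem RMDET_ev' {n : ℕ} {X : Matrix (Fin n) (Fin n) ℂ} {z : ℂ} {q : Fin n → ℂ}
    (h : X *ᵥ q = z • q) : (z • (1 : Matrix (Fin n) (Fin n) ℂ) - X) *ᵥ q = 0 := by
  rw [Matrix.sub_mulVec, Matrix.smul_mulVec, Matrix.one_mulVec, sub_eq_zero, h]

theorem RMDET_sq {n : ℕ} {X : Matrix (Fin n) (Fin n) ℂ} {s w0 : ℝ} (hs : 0 < s) (hs1 : s ≤ 1)
    (hw : 0 < w0) (hw1 : w0 ≤ 1 / 10) (hop : OpLe X 3) (hr : RowLB X s)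
    (hc : ColLB X (s * w0) (4 * s * w0 ^ 2)) {z : ℂ} {p : Fin n → ℂ}
    (h : (z • (1 : Matrix (Fin n) (Fin n) ℂ) - X) *ᵥ
      ((z • (1 : Matrix (Fin n) (Fin n) ℂ) - X) *ᵥ p) = 0) :
    (z • (1 : Matrix (Fin n) (Fin n) ℂ) - X) *ᵥ p = 0 := by
  by_contra hq
  set q := (z • (1 : Matrix (Fin n) (Fin n) ℂ) - X) *ᵥ p with hqdef
  have hz : ‖z‖ ≤ 3 := hop.eigenvalue_le hq (RMDET_ev h)
  obtain ⟨w, hw0, hwT⟩ := RMDET_left hq h
  have h1 := uv_ge hs hs1 hw hw1 hop hr hc hz (RMDET_unit hw0) (RMDET_unit hq)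
    (by rw [Matrix.smul_vecMul, hwT, smul_zero]) (by rw [Matrix.mulVec_smul, h, smul_zero])
  rw [smul_dotProduct, dotProduct_smul, hqdef, Matrix.dotProduct_mulVec, hwT] at h1
  simp only [zero_dotProduct, smul_zero, norm_zero] at h1
  linarith

theorem RMDET_basis {n : ℕ} {X : Matrix (Fin n) (Fin n) ℂ} {s w0 : ℝ} (hs : 0 < s) (hs1 : s ≤ 1)
    (hw : 0 < w0) (hw1 : w0 ≤ 1 / 10) (hop : OpLe X 3) (hr : RowLB X s)
    (hc : ColLB X (s * w0) (4 * s * w0 ^ 2)) :
    ∃ (lam : Fin n → ℂ) (v : Fin n → Fin n → ℂ), Function.Injective lam ∧ LinearIndependent ℂ v ∧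
      ∀ i, nv (v i) = 1 ∧ X *ᵥ v i = lam i • v i := by
  classical
  set f : Module.End ℂ (Fin n → ℂ) := Matrix.mulVecLin X with hf
  have hfa : ∀ x, f x = X *ᵥ x := fun x => rfl
  have hsub : ∀ (μ : ℂ) (x : Fin n → ℂ), (f - μ • (1 : Module.End ℂ (Fin n → ℂ))) x
      = - ((μ • (1 : Matrix (Fin n) (Fin n) ℂ) - X) *ᵥ x) := by
    intro μ x
    rw [LinearMap.sub_apply, LinearMap.smul_apply, Module.End.one_apply, hfa, Matrix.sub_mulVec,
      Matrix.smul_mulVec, Matrix.one_mulVec]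
    abel
  have hsq : ∀ (μ : ℂ) (x : Fin n → ℂ), (f - μ • (1 : Module.End ℂ (Fin n → ℂ)))
      ((f - μ • (1 : Module.End ℂ (Fin n → ℂ))) x) = 0 →
      (f - μ • (1 : Module.End ℂ (Fin n → ℂ))) x = 0 := by
    intro μ x h
    rw [hsub, hsub, Matrix.mulVec_neg, neg_neg] at h
    rw [hsub, RMDET_sq hs hs1 hw hw1 hop hr hc h, neg_zero]
  have hpow : ∀ (μ : ℂ) (k : ℕ) (x : Fin n → ℂ),
      ((f - μ • (1 : Module.End ℂ (Fin n → ℂ))) ^ k) x = 0 →
      (f - μ • (1 : Module.End ℂ (Fin n → ℂ))) x = 0 := by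
    intro μ k
    induction k with
    | zero =>
      intro x h
      rw [pow_zero, Module.End.one_apply] at h
      rw [h, map_zero]
    | succ k ih =>
      intro x h
      rw [pow_succ, Module.End.mul_apply] at h
      exact hsq μ x (ih _ h)
  have hgen : ∀ μ : ℂ, f.maxGenEigenspace μ ≤ f.eigenspace μ := by
    intro μ x hx
    rw [Module.End.mem_maxGenEigenspace] at hx
    obtain ⟨k, hk⟩ := hx
    have := hpow μ k x hk
    rw [Module.End.mem_eigenspace_iff]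
    rw [LinearMap.sub_apply, LinearMap.smul_apply, Module.End.one_apply, sub_eq_zero] at this
    exact this
  have htop : (⨆ μ : ℂ, f.eigenspace μ) = ⊤ := by
    rw [eq_top_iff, ← Module.End.iSup_maxGenEigenspace_eq_top f]
    exact iSup_mono hgen
  -- unit eigenvectors
  have hex : ∀ μ : f.Eigenvalues, ∃ x : Fin n → ℂ, nv x = 1 ∧ f x = (μ : ℂ) • x := by
    intro μ
    have hμ : f.HasEigenvalue (μ : ℂ) := μ.2
    obtain ⟨x, hx⟩ := hμ.exists_hasEigenvector
    refine ⟨(((nv x)⁻¹ : ℝ) : ℂ) • x, RMDET_unit hx.2, ?_⟩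
    rw [map_smul, hx.apply_eq_smul, smul_comm]
  choose v hv1 hv2 using hex
  have hv0 : ∀ μ, v μ ≠ 0 := by
    intro μ h0
    have := hv1 μ
    rw [h0, nv_zero] at this
    exact zero_ne_one this
  have hli : LinearIndependent ℂ v :=
    Module.End.eigenvectors_linearIndependent' f (fun μ : f.Eigenvalues => (μ : ℂ))
      Subtype.coe_injective v (fun μ => ⟨Module.End.mem_eigenspace_iff.2 (hv2 μ), hv0 μ⟩)
  have hspan : ⊤ ≤ Submodule.span ℂ (Set.range v) := by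
    rw [← htop]
    refine iSup_le fun μ => ?_
    intro x hx
    by_cases hx0 : x = 0
    · rw [hx0]; exact Submodule.zero_mem _
    have hxe := Module.End.mem_eigenspace_iff.1 hx
    have hμ : f.HasEigenvalue μ := Module.End.hasEigenvalue_of_hasEigenvector ⟨hx, hx0⟩
    have hz : ‖μ‖ ≤ 3 := hop.eigenvalue_le hx0 hxe
    obtain ⟨c, hc'⟩ := ker_one hs hr (hz.trans (by norm_num)) (hv0 ⟨μ, hμ⟩)
      (RMDET_ev' (hv2 ⟨μ, hμ⟩)) (RMDET_ev' hxe)
    rw [hc']
    exact Submodule.smul_mem _ _ (Submodule.subset_span ⟨_, rfl⟩)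
  let b : Module.Basis f.Eigenvalues ℂ (Fin n → ℂ) := Module.Basis.mk hli hspan
  let e : Fin n ≃ f.Eigenvalues := (b.indexEquiv (Pi.basisFun ℂ (Fin n))).symm
  refine ⟨fun i => (e i : ℂ), fun i => v (e i), ?_, hli.comp e e.injective, fun i => ⟨hv1 _, hv2 _⟩⟩
  exact Subtype.coe_injective.comp e.injective

theorem rmdet {n : ℕ} {X : Matrix (Fin n) (Fin n) ℂ} {s w0 : ℝ} (hs : 0 < s) (hs1 : s ≤ 1) (hw : 0 < w0)
    (hw1 : w0 ≤ 1 / 10) (hop : OpLe X 3) (hr : RowLB X s) (hc : ColLB X (s * w0) (4 * s * w0 ^ 2)) :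
    ∃ (lam : Fin n → ℂ) (V W : Matrix (Fin n) (Fin n) ℂ), Diag X s w0 lam V W := by
  classical
  obtain ⟨lam, v, hinj, hli, hv⟩ := RMDET_basis hs hs1 hw hw1 hop hr hc
  have hv0 : ∀ i, v i ≠ 0 := by
    intro i h0
    have := (hv i).1
    rw [h0, nv_zero] at this
    exact zero_ne_one this
  have hlam : ∀ i, ‖lam i‖ ≤ 3 := fun i => hop.eigenvalue_le (hv0 i) (hv i).2
  set V : Matrix (Fin n) (Fin n) ℂ := fun i j => v j i with hV
  have hVu : IsUnit V := by
    rw [← Matrix.linearIndependent_cols_iff_isUnit]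
    exact hli
  have hVd : IsUnit V.det := (Matrix.isUnit_iff_isUnit_det V).1 hVu
  set W := V⁻¹ with hW
  have hvw : V * W = 1 := Matrix.mul_nonsing_inv V hVd
  have hwv : W * V = 1 := Matrix.nonsing_inv_mul V hVd
  have hXV : X * V = V * Matrix.diagonal lam := by
    ext i j
    rw [Matrix.mul_diagonal]
    have := congrFun (hv j).2 i
    rw [Pi.smul_apply, smul_eq_mul, mul_comm] at this
    exact this
  have hX : X = V * Matrix.diagonal lam * W := by
    rw [← hXV, Matrix.mul_assoc, hvw, Matrix.mul_one]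
  have hWX : W * X = Matrix.diagonal lam * W := by
    rw [hX, Matrix.mul_assoc, ← Matrix.mul_assoc W, hwv, Matrix.one_mul]
  have hrow : ∀ i, (W i) ᵥ* X = lam i • W i := by
    intro i
    funext j
    have := congrFun (congrFun hWX i) j
    rw [Matrix.diagonal_mul] at this
    exact this
  have hrow' : ∀ i, (W i) ᵥ* (lam i • (1 : Matrix (Fin n) (Fin n) ℂ) - X) = 0 := by
    intro i
    rw [Matrix.vecMul_sub, hrow, Matrix.vecMul_smul, Matrix.vecMul_one, sub_self]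
  have hdot : ∀ i, W i ⬝ᵥ v i = 1 := by
    intro i
    have := congrFun (congrFun hwv i) i
    rw [Matrix.one_apply_eq] at this
    exact this
  have hW0 : ∀ i, W i ≠ 0 := by
    intro i h0
    have := hdot i
    rw [h0, zero_dotProduct] at this
    exact zero_ne_one this
  have hWpos : ∀ i, 0 < nv (W i) := fun i => nv_pos (hW0 i)
  have hWge : ∀ i, 1 ≤ nv (W i) := by
    intro i
    have := norm_dotProduct_le (W i) (v i)
    rw [hdot, (hv i).1, norm_one, mul_one] at this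
    exact this
  refine ⟨lam, V, W, hX, hvw, hwv, hlam, fun j => (hv j).1, ?_, ?_, ?_⟩
  · intro i
    have h1 := uv_ge hs hs1 hw hw1 hop hr hc (hlam i) (RMDET_unit (hW0 i)) (hv i).1
      (by rw [Matrix.smul_vecMul, hrow', smul_zero]) (RMDET_ev' (hv i).2)
    rw [smul_dotProduct, hdot, smul_eq_mul, mul_one, Complex.norm_real, Real.norm_eq_abs,
      abs_of_nonneg (inv_nonneg.2 (nv_nonneg _))] at h1
    rw [le_div_iff₀ hw]
    have h2 := mul_le_mul_of_nonneg_left h1 (nv_nonneg (W i))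
    rw [mul_inv_cancel₀ (hWpos i).ne'] at h2
    exact h2
  · intro i j hj
    have h1 := left_first hs hs1 hop hr (hlam i) (RMDET_unit (hW0 i))
      (by rw [Matrix.smul_vecMul, hrow', smul_zero]) j hj
    rw [Pi.smul_apply, smul_eq_mul, norm_mul, Complex.norm_real, Real.norm_eq_abs,
      abs_of_nonneg (inv_nonneg.2 (nv_nonneg _))] at h1
    refine h1.trans ?_
    have h3 : (nv (W i))⁻¹ ≤ 1 := inv_le_one_of_one_le₀ (hWge i)
    calc (nv (W i))⁻¹ * ‖W i j‖ ≤ 1 * ‖W i j‖ := mul_le_mul_of_nonneg_right h3 (norm_nonneg _)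
      _ = ‖W i j‖ := one_mul _
  · intro i j hij
    exact eig_gap hs hs1 hw hw1 hop hr hc (hlam i) (hlam j) (fun h => hij (hinj h)) (hv0 i) (hv0 j)
      (RMDET_ev' (hv i).2) (RMDET_ev' (hv j).2)

end H6LP
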