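import Pool.Agent.H6.LP.EV
import Pool.Agent.H6.LP.RMDET
import Pool.Agent.H6.LP.DIAG
import Pool.Agent.H6.LP.PHI

/-!
# EVPHI: the random direction

`section`: for fixed `X` with `Diag`, each pair (node, eigenvalue) is bad for a set of `t` of diameter
`≤ 2 d/ρ` (`dir_sub`), `d = t0 n/w0` (`Diag.colAt`), `ρ ≥ 2 rad (l+2) = 2^(1-l)`; number of pairs
`≤ n (l+3) (6·2^j+1)² · 2 · ∑_e 2^e ≤ …`.
`ev_dir`: `pisec` with the block `{ct}` and `A` = the set of `g` with `RowLB` and `ColLB` (`rmdet` applies).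
-/

set_option autoImplicit false

open Complex Matrix MeasureTheory

namespace H6LP

variable {ι : Type} [Fintype ι] [DecidableEq ι] {n : ℕ}

theorem evphi_cont_dir : Continuous dir := by
  unfold dir
  refine Continuous.div (by fun_prop) (by fun_prop) ?_
  intro t h
  have := congrArg Complex.re h
  simp at this

theorem evphi_closed {Y : Type} [TopologicalSpace Y] (X : Y → Matrix (Fin n) (Fin n) ℂ)
    (hX : ∀ i j, Continuous fun y => X y i j) (φ : Y → ℂ) (hφ : Continuous φ) (l : ℕ) (t : ℝ) :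
    IsClosed {y | NodeOK l (X y) (φ y) t} := by
  have : {y | NodeOK l (X y) (φ y) t} =
      ⋂ j : ℕ, ⋂ _ : j ≤ l + 2, ⋂ a : ℤ, ⋂ b : ℤ, ⋂ _ : |a| ≤ 3 * 2 ^ j, ⋂ _ : |b| ≤ 3 * 2 ^ j,
        ⋂ e : ℕ, ⋂ i : ℕ, ⋂ _ : 2 ^ e ≤ 200000 * n * l, ⋂ _ : i < 2 ^ e, ⋂ m : ℕ,
          ⋂ _ : m = 2 ∨ m = 3, ⋂ x : Fin n → ℂ,
            {y | t * nv x ≤ nv ((nodeZ (grd (rad j) a b) (m * rad j) (φ y) e i •
              (1 : Matrix (Fin n) (Fin n) ℂ) - X y) *ᵥ x)} := by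
    ext y
    simp only [NodeOK, ColAt, Set.mem_iInter, Set.mem_ofPred_eq]
  rw [this]
  refine isClosed_iInter fun j => isClosed_iInter fun _ => isClosed_iInter fun a =>
    isClosed_iInter fun b => isClosed_iInter fun _ => isClosed_iInter fun _ =>
    isClosed_iInter fun e => isClosed_iInter fun i => isClosed_iInter fun _ =>
    isClosed_iInter fun _ => isClosed_iInter fun m => isClosed_iInter fun _ =>
    isClosed_iInter fun x => ?_
  refine isClosed_le continuous_const (ev_cont_nv fun p => ?_)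
  simp only [Matrix.mulVec, dotProduct, Matrix.sub_apply, Matrix.smul_apply, smul_eq_mul, nodeZ]
  refine continuous_finsetSum _ fun q _ => ?_
  have h1 := hX p q
  fun_prop

theorem measurableSet_nodeOK (A : Matrix (Fin n) (Fin n) ℂ) (C : Coo n ι) (γ t : ℝ) (l : ℕ) :
    MeasurableSet {g : ι → ℝ | NodeOK l (Mof A γ C g) (dir (g C.ct)) t} := by
  apply IsClosed.measurableSet
  refine evphi_closed _ (fun i j => ?_) _ ?_ l t
  · simp only [Mof]; fun_prop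
  · exact evphi_cont_dir.comp (continuous_apply _)

theorem evphi_norm_omg (e : ℕ) : ‖omg e‖ = 1 := by
  unfold omg
  have : 2 * (Real.pi : ℂ) * I / 2 ^ e = ((2 * Real.pi / 2 ^ e : ℝ) : ℂ) * I := by
    push_cast; ring
  rw [this, Complex.norm_exp_ofReal_mul_I]

/-- the set of bad directions for one node and one eigenvalue -/
theorem evphi_one {l j e i m : ℕ} (hj : j ≤ l + 2) (hm : m = 2 ∨ m = 3) (c lam : ℂ) {d : ℝ}
    (hd : 0 ≤ d) :
    volume {τ : ℝ | τ ∈ Set.Icc (0 : ℝ) 1 ∧ ‖nodeZ c (m * rad j) (dir τ) e i - lam‖ < d} ≤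
      ENNReal.ofReal (d * 2 ^ l) := by
  refine (Real.volume_le_diam _).trans ?_
  refine Metric.ediam_le ?_
  rintro τ ⟨hτ, h1⟩ τ' ⟨hτ', h2⟩
  rw [edist_dist, Real.dist_eq]
  apply ENNReal.ofReal_le_ofReal
  have hρ : (2 : ℝ) / 2 ^ l ≤ m * rad j := by
    unfold rad
    have hm2 : (2 : ℝ) ≤ m := by rcases hm with rfl | rfl <;> norm_num
    have h3 : (2 : ℝ) ^ j ≤ 2 ^ (l + 2) := pow_le_pow_right₀ (by norm_num) hj
    have h4 : (4 : ℝ) / 2 ^ (l + 2) ≤ 4 / 2 ^ j := by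
      apply div_le_div_of_nonneg_left (by norm_num) (by positivity) h3
    have h5 : (4 : ℝ) / 2 ^ (l + 2) = 1 / 2 ^ l := by
      rw [pow_add]; field_simp; norm_num
    rw [h5] at h4
    calc (2 : ℝ) / 2 ^ l = 2 * (1 / 2 ^ l) := by ring
      _ ≤ m * (4 / 2 ^ j) := mul_le_mul hm2 h4 (by positivity) (by linarith)
  have hρ0 : 0 < m * rad j := lt_of_lt_of_le (by positivity) hρ
  have h6 : nodeZ c (m * rad j) (dir τ) e i - nodeZ c (m * rad j) (dir τ') e i =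
      ((m * rad j : ℝ) : ℂ) * (dir τ - dir τ') * omg e ^ i := by
    unfold nodeZ; push_cast; ring
  have h7 : ‖nodeZ c (m * rad j) (dir τ) e i - nodeZ c (m * rad j) (dir τ') e i‖ =
      m * rad j * ‖dir τ - dir τ'‖ := by
    rw [h6, norm_mul, norm_mul, norm_pow, evphi_norm_omg, one_pow, mul_one, Complex.norm_real,
      Real.norm_of_nonneg hρ0.le]
  have h8 : ‖nodeZ c (m * rad j) (dir τ) e i - nodeZ c (m * rad j) (dir τ') e i‖ ≤ 2 * d := by
    have h9 : nodeZ c (m * rad j) (dir τ) e i - nodeZ c (m * rad j) (dir τ') e i =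
      (nodeZ c (m * rad j) (dir τ) e i - lam) - (nodeZ c (m * rad j) (dir τ') e i - lam) := by ring
    rw [h9]
    calc _ ≤ _ := norm_sub_le _ _
      _ ≤ 2 * d := by linarith
  rw [h7] at h8
  have h10 := dir_sub τ τ' hτ hτ'
  have h11 : (2 / 2 ^ l) * ‖dir τ - dir τ'‖ ≤ 2 * d :=
    (mul_le_mul_of_nonneg_right hρ (norm_nonneg _)).trans h8
  have h12 : ‖dir τ - dir τ'‖ ≤ d * 2 ^ l := by
    have h13 : (2 / 2 ^ l) * ‖dir τ - dir τ'‖ * (2 ^ l / 2) = ‖dir τ - dir τ'‖ := by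
      field_simp
    rw [← h13]
    calc (2 / 2 ^ l) * ‖dir τ - dir τ'‖ * (2 ^ l / 2) ≤ 2 * d * (2 ^ l / 2) :=
          mul_le_mul_of_nonneg_right h11 (by positivity)
      _ = d * 2 ^ l := by ring
  exact h10.trans h12

theorem evphi_two_pow (q : ℕ) (hq : 16 ≤ q) : 6 * q + 8 ≤ 2 ^ q := by
  induction q, hq using Nat.le_induction with
  | base => norm_num
  | succ q hq ih => rw [pow_succ]; omega

/-- the numerical estimate -/
theorem evphi_num {l : ℕ} (hn : 1 ≤ n) (hl : 100 ≤ l) (hnl : (n : ℝ) ^ 25 ≤ 2 ^ (l - 100)) :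
    200000 * n * l < 2 ^ l ∧
    ((l + 3) * (6 * 2 ^ (l + 2) + 1) * (6 * 2 ^ (l + 2) + 1) * l * (200000 * n * l) * 2 * n) * n ≤
      2 ^ (3 * l) := by
  have hnl' : n ^ 25 ≤ 2 ^ (l - 100) := by exact_mod_cast hnl
  set k : ℕ := (l - 100) / 25 + 1 with hk
  have hnk : n ≤ 2 ^ k := by
    by_contra h
    push Not at h
    have h1 : (2 ^ k) ^ 25 < n ^ 25 := Nat.pow_lt_pow_left h (by norm_num)
    have h2 : 2 ^ (l - 100) ≤ (2 ^ k) ^ 25 := by
      rw [← pow_mul]; apply Nat.pow_le_pow_right (by norm_num); omega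
    omega
  set q : ℕ := l / 6 with hq
  have hlq : l + 3 ≤ 2 ^ q := by
    have := evphi_two_pow q (by omega)
    omega
  have hl1 : l ≤ 2 ^ q := by omega
  have h200 : 200000 ≤ 2 ^ 18 := by norm_num
  constructor
  · calc 200000 * n * l ≤ 2 ^ 18 * 2 ^ k * 2 ^ q :=
          Nat.mul_le_mul (Nat.mul_le_mul h200 hnk) hl1
      _ = 2 ^ (18 + k + q) := by rw [pow_add 2 (18 + k) q, pow_add 2 18 k]
      _ < 2 ^ l := Nat.pow_lt_pow_right (by norm_num) (by omega)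
  · have h25 : 6 * 2 ^ (l + 2) + 1 ≤ 25 * 2 ^ l := by
      rw [pow_add]; have : 1 ≤ 2 ^ l := Nat.one_le_two_pow; omega
    calc ((l + 3) * (6 * 2 ^ (l + 2) + 1) * (6 * 2 ^ (l + 2) + 1) * l * (200000 * n * l) * 2 * n) * n
        ≤ (2 ^ q * (25 * 2 ^ l) * (25 * 2 ^ l) * 2 ^ q * (200000 * 2 ^ k * 2 ^ q) * 2 * 2 ^ k) *
            2 ^ k := by gcongr
      _ = (25 * 25 * 200000 * 2) * (2 ^ (3 * q + 3 * k) * 2 ^ (2 * l)) := by ring
      _ ≤ 2 ^ 28 * (2 ^ (3 * q + 3 * k) * 2 ^ (2 * l)) := by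
          apply Nat.mul_le_mul_right; norm_num
      _ = 2 ^ (28 + (3 * q + 3 * k) + 2 * l) := by
          rw [pow_add 2 (28 + (3 * q + 3 * k)) (2 * l), pow_add 2 28 (3 * q + 3 * k)]; ring
      _ ≤ 2 ^ (3 * l) := Nat.pow_le_pow_right (by norm_num) (by omega)

theorem dir_section {l : ℕ} (hn : 1 ≤ n) (hl : 100 ≤ l) (hnl : (n : ℝ) ^ 25 ≤ 2 ^ (l - 100))
    {X : Matrix (Fin n) (Fin n) ℂ} {s w0 : ℝ} (hw : 0 < w0) (hw1 : w0 ≤ 1) {lam : Fin n → ℂ}
    {V W : Matrix (Fin n) (Fin n) ℂ} (h : Diag X s w0 lam V W) {t : ℝ} (ht : 0 < t) :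
    volume ({τ : ℝ | ¬ NodeOK l X (dir τ) t} ∩ Set.Icc 0 1) ≤
      ENNReal.ofReal ((2 : ℝ) ^ (4 * l) * t / w0) := by
  classical
  obtain ⟨hQ, hnum⟩ := evphi_num (n := n) hn hl hnl
  have hn0 : (0 : ℝ) < n := by exact_mod_cast hn
  set d : ℝ := t * n / w0 with hd
  have hd0 : 0 ≤ d := by positivity
  let N : ℤ := 3 * 2 ^ (l + 2)
  let F : Finset (ℕ × ℤ × ℤ × ℕ × ℕ × ℕ × Fin n) :=
    Finset.range (l + 3) ×ˢ Finset.Icc (-N) N ×ˢ Finset.Icc (-N) N ×ˢ Finset.range l ×ˢ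
      Finset.range (200000 * n * l) ×ˢ ({2, 3} : Finset ℕ) ×ˢ Finset.univ
  let B : ℕ × ℤ × ℤ × ℕ × ℕ × ℕ × Fin n → Set ℝ := fun p =>
    {τ : ℝ | τ ∈ Set.Icc (0 : ℝ) 1 ∧
      ‖nodeZ (grd (rad p.1) p.2.1 p.2.2.1) (p.2.2.2.2.2.1 * rad p.1) (dir τ) p.2.2.2.1 p.2.2.2.2.1 -
        lam p.2.2.2.2.2.2‖ < d}
  have hsub : {τ : ℝ | ¬ NodeOK l X (dir τ) t} ∩ Set.Icc 0 1 ⊆ ⋃ p ∈ F, B p := by
    rintro τ ⟨h1, h2⟩
    simp only [NodeOK, Set.mem_ofPred_eq, not_forall] at h1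
    obtain ⟨j, hj, a, b, ha, hb, e, i, he, hi, m, hm, hcol⟩ := h1
    have h3 : ∃ k, ‖nodeZ (grd (rad j) a b) (m * rad j) (dir τ) e i - lam k‖ < d := by
      by_contra hno
      push Not at hno
      apply hcol
      have h4 := Diag.colAt hn hw h hd0 hno
      have h5 : w0 / n * d = t := by rw [hd]; field_simp
      rwa [h5] at h4
    obtain ⟨k, hk⟩ := h3
    simp only [Set.mem_iUnion]
    refine ⟨(j, a, b, e, i, m, k), ?_, h2, hk⟩
    have h6 : (2 : ℤ) ^ j ≤ 2 ^ (l + 2) := pow_le_pow_right₀ (by norm_num) hj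
    rw [abs_le] at ha hb
    have he2 : e < l := by
      have : 2 ^ e < 2 ^ l := lt_of_le_of_lt he hQ
      exact (Nat.pow_lt_pow_iff_right (by norm_num)).mp this
    simp only [F, N, Finset.mem_product, Finset.mem_range, Finset.mem_Icc, Finset.mem_insert,
      Finset.mem_singleton, Finset.mem_univ, and_true]
    refine ⟨by omega, ⟨?_, ?_⟩, ⟨?_, ?_⟩, he2, by omega, hm⟩
    · linarith [ha.1]
    · linarith [ha.2]
    · linarith [hb.1]
    · linarith [hb.2]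
  have hcard : (F.card : ℝ) = ((l + 3) * (6 * 2 ^ (l + 2) + 1) * (6 * 2 ^ (l + 2) + 1) * l *
      (200000 * n * l) * 2 * n : ℕ) := by
    have h1 : (Finset.Icc (-N) N).card = 6 * 2 ^ (l + 2) + 1 := by
      rw [Int.card_Icc]
      have : (N + 1 - -N) = ((6 * 2 ^ (l + 2) + 1 : ℕ) : ℤ) := by
        simp only [N]; push_cast; ring
      rw [this, Int.toNat_natCast]
    have h2 : ({2, 3} : Finset ℕ).card = 2 := by decide
    have h3 : F.card = (l + 3) * (6 * 2 ^ (l + 2) + 1) * (6 * 2 ^ (l + 2) + 1) * l *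
      (200000 * n * l) * 2 * n := by
      simp only [F, Finset.card_product, Finset.card_range, h1, h2, Finset.card_univ,
        Fintype.card_fin]
      ring
    rw [h3]
  calc volume ({τ : ℝ | ¬ NodeOK l X (dir τ) t} ∩ Set.Icc 0 1)
      ≤ volume (⋃ p ∈ F, B p) := measure_mono hsub
    _ ≤ ∑ p ∈ F, volume (B p) := measure_biUnion_finset_le _ _
    _ ≤ ∑ _p ∈ F, ENNReal.ofReal (d * 2 ^ l) := by
        refine Finset.sum_le_sum fun p hp => ?_
        simp only [F, Finset.mem_product, Finset.mem_range, Finset.mem_insert,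
          Finset.mem_singleton] at hp
        exact evphi_one (by omega) hp.2.2.2.2.2.1 _ _ hd0
    _ = ENNReal.ofReal ((F.card : ℝ) * (d * 2 ^ l)) := by
        rw [Finset.sum_const, nsmul_eq_mul, ENNReal.ofReal_mul (p := (F.card : ℝ)) (by positivity),
          ENNReal.ofReal_natCast]
    _ ≤ ENNReal.ofReal ((2 : ℝ) ^ (4 * l) * t / w0) := by
        apply ENNReal.ofReal_le_ofReal
        have h1 : (F.card : ℝ) * n ≤ 2 ^ (3 * l) := by
          rw [hcard]; exact_mod_cast hnum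
        calc (F.card : ℝ) * (d * 2 ^ l) = ((F.card : ℝ) * n) * (2 ^ l * t / w0) := by
              rw [hd]; ring
          _ ≤ 2 ^ (3 * l) * (2 ^ l * t / w0) :=
              mul_le_mul_of_nonneg_right h1 (by positivity)
          _ = (2 : ℝ) ^ (4 * l) * t / w0 := by
              have : (2 : ℝ) ^ (4 * l) = 2 ^ (3 * l) * 2 ^ l := by rw [← pow_add]; congr 1; ring
              rw [this]; ring

theorem evphi_Mof_congr (A : Matrix (Fin n) (Fin n) ℂ) (C : Coo n ι) (γ : ℝ) {g h : ι → ℝ}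
    (hgh : ∀ i, i ≠ C.ct → g i = h i) : Mof A γ C g = Mof A γ C h := by
  ext i j
  simp only [Mof]
  rw [hgh _ (C.ne i j false), hgh _ (C.ne i j true)]

theorem ev_dir {l : ℕ} (hn : 1 ≤ n) (hl : 100 ≤ l) (hnl : (n : ℝ) ^ 25 ≤ 2 ^ (l - 100))
    (A : Matrix (Fin n) (Fin n) ℂ) (C : Coo n ι) {γ s w0 t : ℝ} (hs : 0 < s) (hs1 : s ≤ 1) (hw : 0 < w0)
    (hw1 : w0 ≤ 1 / 10) (ht : 0 < t) (hop : ∀ g : ι → ℝ, (∀ i, g i ∈ Set.Icc (0 : ℝ) 1) → OpLe (Mof A γ C g) 3) :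
    PP ι {g | (∀ i, g i ∈ Set.Icc (0 : ℝ) 1) ∧ RowLB (Mof A γ C g) (2 * s) ∧
      ColLB (Mof A γ C g) (s * w0) (5 * s * w0 ^ 2) ∧
      ¬ NodeOK l (Mof A γ C g) (dir (g C.ct)) t} ≤ ENNReal.ofReal ((2 : ℝ) ^ (4 * l) * t / w0) := by
  classical
  let AA : Set (ι → ℝ) := {g | (∀ i, i ≠ C.ct → g i ∈ Set.Icc (0 : ℝ) 1)} ∩
    ({g | RowLB (Mof A γ C g) (2 * s)} ∩ {g | ColLB (Mof A γ C g) (s * w0) (5 * s * w0 ^ 2)})
  let BB : Set (ι → ℝ) := {g | NodeOK l (Mof A γ C g) (dir (g C.ct)) t}ᶜ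
  have hAA : MeasurableSet AA := by
    refine MeasurableSet.inter ?_ ((measurableSet_rowLB A C γ _).inter (measurableSet_colLB A C γ _ _))
    have : {g : ι → ℝ | (∀ i, i ≠ C.ct → g i ∈ Set.Icc (0 : ℝ) 1)} =
        ⋂ i : ι, ⋂ _ : i ≠ C.ct, {g : ι → ℝ | g i ∈ Set.Icc (0 : ℝ) 1} := by
      ext g; simp only [Set.mem_iInter, Set.mem_ofPred_eq]
    rw [this]
    refine MeasurableSet.iInter fun i => MeasurableSet.iInter fun _ => ?_
    exact measurable_pi_apply i measurableSet_Icc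
  have hBB : MeasurableSet BB := (measurableSet_nodeOK A C γ t l).compl
  have hmix : ∀ (g h : ι → ℝ), Mof A γ C (mix {C.ct} g h) = Mof A γ C g := by
    intro g h
    apply evphi_Mof_congr
    intro i hi
    simp [mix, hi]
  have hinv : ∀ g h, mix {C.ct} g h ∈ AA ↔ g ∈ AA := by
    intro g h
    simp only [AA, Set.mem_inter_iff, Set.mem_ofPred_eq, hmix]
    have : (∀ i, i ≠ C.ct → mix {C.ct} g h i ∈ Set.Icc (0 : ℝ) 1) ↔
        (∀ i, i ≠ C.ct → g i ∈ Set.Icc (0 : ℝ) 1) := by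
      refine forall_congr' fun i => ?_
      by_cases hi : i = C.ct
      · simp [hi]
      · simp [mix, hi]
    rw [this]
  have hsec : ∀ g ∈ AA, PP ι {h | mix {C.ct} g h ∈ BB} ≤
      ENNReal.ofReal ((2 : ℝ) ^ (4 * l) * t / w0) := by
    rintro g ⟨hg1, hg2, hg3⟩
    have hop' : OpLe (Mof A γ C g) 3 := by
      have h1 := hop (Function.update g C.ct 0) (by
        intro i
        by_cases hi : i = C.ct
        · subst hi; simp
        · rw [Function.update_of_ne hi]; exact hg1 i hi)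
      rwa [evphi_Mof_congr A C γ (g := Function.update g C.ct 0) (h := g)
        (fun i hi => Function.update_of_ne hi _ _)] at h1
    have hrow : RowLB (Mof A γ C g) s := by
      intro z hz x hx
      refine le_trans ?_ (hg2 z hz x hx)
      apply mul_le_mul_of_nonneg_right _ (nv_nonneg x)
      linarith
    have hcol : ColLB (Mof A γ C g) (s * w0) (4 * s * w0 ^ 2) := by
      intro a b ha hb x
      refine le_trans ?_ (hg3 a b ha hb x)
      apply mul_le_mul_of_nonneg_right _ (nv_nonneg x)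
      have : 0 ≤ s * w0 ^ 2 := by positivity
      linarith
    obtain ⟨lam, V, W, hD⟩ := rmdet hs hs1 hw hw1 hop' hrow hcol
    have hset : {h | mix {C.ct} g h ∈ BB} =
        {h : ι → ℝ | h C.ct ∈ {τ : ℝ | ¬ NodeOK l (Mof A γ C g) (dir τ) t}} := by
      ext h
      simp only [BB, Set.mem_compl_iff, Set.mem_ofPred_eq, hmix]
      have : mix {C.ct} g h C.ct = h C.ct := by simp [mix]
      rw [this]
    have hmeas : MeasurableSet {τ : ℝ | ¬ NodeOK l (Mof A γ C g) (dir τ) t} := by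
      have h1 : IsClosed {τ : ℝ | NodeOK l (Mof A γ C g) (dir τ) t} :=
        evphi_closed (fun _ : ℝ => Mof A γ C g) (fun i j => continuous_const) dir evphi_cont_dir l t
      exact h1.measurableSet.compl
    rw [hset, pp_coord C.ct hmeas]
    exact dir_section hn hl hnl hw (by linarith) hD ht
  calc PP ι {g | (∀ i, g i ∈ Set.Icc (0 : ℝ) 1) ∧ RowLB (Mof A γ C g) (2 * s) ∧
      ColLB (Mof A γ C g) (s * w0) (5 * s * w0 ^ 2) ∧
      ¬ NodeOK l (Mof A γ C g) (dir (g C.ct)) t} ≤ PP ι (AA ∩ BB) := by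
        apply measure_mono
        rintro g ⟨h1, h2, h3, h4⟩
        exact ⟨⟨fun i _ => h1 i, h2, h3⟩, h4⟩
    _ ≤ ENNReal.ofReal ((2 : ℝ) ^ (4 * l) * t / w0) * PP ι AA :=
        pisec {C.ct} hAA hBB hinv hsec
    _ ≤ ENNReal.ofReal ((2 : ℝ) ^ (4 * l) * t / w0) * 1 := by gcongr; exact prob_le_one
    _ = _ := mul_one _

end H6LP
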