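import Pool.Agent.H6.LP.NB

/-!
# FINA: the final estimate (pure)

`B = U diag(λ) U'`, `U U' = 1`; `Vh = U + F`.  `B Vh - Vh diag(D) = U diag(λ - D) + B F - F diag(D)`;
`Vh = U (1 + U' F)`, `‖U' F‖ ≤ 1/2`, so `Vh` is invertible and `‖Vh⁻¹ x‖ ≤ 2 K ‖x‖`.
-/

set_option autoImplicit false

open Complex Matrix

namespace H6LP

theorem fina {n : ℕ} {B U U' Vh : Matrix (Fin n) (Fin n) ℂ} {lam D : Fin n → ℂ} {K ε ε' : ℝ}
    (hB : B = U * Matrix.diagonal lam * U') (hU : U * U' = 1) (hop : OpLe B 4)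
    (hlam : ∀ i, ‖lam i‖ ≤ 3) (hK : fro U' ≤ K) (hUf : fro U ≤ Real.sqrt n) (hK1 : 1 ≤ K)
    (hF : fro (Vh - U) ≤ ε) (hD : ∀ i, ‖D i - lam i‖ ≤ ε') (hε' : ε' ≤ 1) (hεK : 2 * (ε * K) ≤ 1) :
    IsUnit Vh ∧ fro (B - Vh * Matrix.diagonal D * Vh⁻¹) ≤ 2 * K * (Real.sqrt n * ε' + 8 * ε) := by
  have hU' : U' * U = 1 := mul_eq_one_comm.1 hU
  have hF0 : 0 ≤ fro (Vh - U) := fro_nonneg _
  have hε0 : 0 ≤ ε := hF0.trans hF
  have hK0 : 0 ≤ K := zero_le_one.trans hK1
  have hVU : U' * Vh = 1 + U' * (Vh - U) := by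
    rw [Matrix.mul_sub, hU']
    abel
  have hsmall : fro (U' * (Vh - U)) ≤ 1 / 2 := by
    have h1 := fro_mul_le U' (Vh - U)
    have h2 : fro U' * fro (Vh - U) ≤ K * ε := mul_le_mul hK hF hF0 hK0
    nlinarith
  have hlow : ∀ x : Fin n → ℂ, nv x ≤ 2 * K * nv (Vh *ᵥ x) := by
    intro x
    have h1 : nv (U' *ᵥ (Vh *ᵥ x)) ≤ K * nv (Vh *ᵥ x) :=
      (nv_mulVec_le _ _).trans (mul_le_mul_of_nonneg_right hK (nv_nonneg _))
    rw [Matrix.mulVec_mulVec, hVU, Matrix.add_mulVec, Matrix.one_mulVec] at h1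
    have h2 : nv ((U' * (Vh - U)) *ᵥ x) ≤ 1 / 2 * nv x :=
      (nv_mulVec_le _ _).trans (mul_le_mul_of_nonneg_right hsmall (nv_nonneg _))
    have h3 : nv x ≤ nv (x + (U' * (Vh - U)) *ᵥ x) + nv ((U' * (Vh - U)) *ᵥ x) := by
      have h4 := nv_sub_le (x + (U' * (Vh - U)) *ᵥ x) ((U' * (Vh - U)) *ᵥ x)
      rwa [add_sub_cancel_right] at h4
    linarith
  have hunit : IsUnit Vh := by
    rw [← Matrix.mulVec_injective_iff_isUnit]
    intro x y hxy
    have h1 := hlow (x - y)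
    have hxy' : Vh *ᵥ x = Vh *ᵥ y := hxy
    rw [Matrix.mulVec_sub, hxy', sub_self, nv_zero, mul_zero] at h1
    have h2 : nv (x - y) = 0 := le_antisymm h1 (nv_nonneg _)
    exact sub_eq_zero.1 (nv_eq_zero.1 h2)
  refine ⟨hunit, ?_⟩
  have hdet : IsUnit Vh.det := (Matrix.isUnit_iff_isUnit_det _).1 hunit
  have hVV : Vh * Vh⁻¹ = 1 := Matrix.mul_nonsing_inv _ hdet
  have hop' : OpLe Vh⁻¹ (2 * K) := by
    intro y
    have h1 := hlow (Vh⁻¹ *ᵥ y)
    rwa [Matrix.mulVec_mulVec, hVV, Matrix.one_mulVec] at h1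
  have hBU : B * U = U * Matrix.diagonal lam := by
    rw [hB, Matrix.mul_assoc, hU', Matrix.mul_one]
  have heq : B - Vh * Matrix.diagonal D * Vh⁻¹ =
      (U * Matrix.diagonal (fun i => lam i - D i) + B * (Vh - U) -
        (Vh - U) * Matrix.diagonal D) * Vh⁻¹ := by
    have h1 : U * Matrix.diagonal (fun i => lam i - D i) + B * (Vh - U) -
        (Vh - U) * Matrix.diagonal D = B * Vh - Vh * Matrix.diagonal D := by
      have h2 : Matrix.diagonal (fun i => lam i - D i) =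
          Matrix.diagonal lam - Matrix.diagonal D := (Matrix.diagonal_sub lam D).symm
      rw [h2, Matrix.mul_sub, Matrix.mul_sub, Matrix.sub_mul, hBU]
      abel
    rw [h1, Matrix.sub_mul, Matrix.mul_assoc B, hVV, Matrix.mul_one]
  rw [heq]
  have hD4 : ∀ i, ‖D i‖ ≤ 4 := by
    intro i
    have h1 := norm_add_le (D i - lam i) (lam i)
    rw [sub_add_cancel] at h1
    linarith [hD i, hlam i]
  have hε'0 : 0 ≤ ε' ∨ n = 0 := by
    rcases Nat.eq_zero_or_pos n with h | h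
    · exact Or.inr h
    · exact Or.inl ((norm_nonneg _).trans (hD ⟨0, h⟩))
  have hmain : fro (U * Matrix.diagonal (fun i => lam i - D i) + B * (Vh - U) -
      (Vh - U) * Matrix.diagonal D) ≤ Real.sqrt n * ε' + 8 * ε := by
    have h1 : fro (U * Matrix.diagonal (fun i => lam i - D i)) ≤ Real.sqrt n * ε' := by
      rcases hε'0 with h | h
      · have h2 := fro_mul_diagonal_le (A := U) (d := fun i => lam i - D i) h
          (fun i => by rw [norm_sub_rev]; exact hD i)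
        refine h2.trans ?_
        rw [mul_comm]
        exact mul_le_mul_of_nonneg_right hUf h
      · subst h
        have h2 : U * Matrix.diagonal (fun i => lam i - D i) = 0 := Subsingleton.elim _ _
        rw [h2, fro_zero]
        simp
    have h2 : fro (B * (Vh - U)) ≤ 4 * ε :=
      (hop.fro_mul_le (by norm_num) _).trans (mul_le_mul_of_nonneg_left hF (by norm_num))
    have h3 : fro ((Vh - U) * Matrix.diagonal D) ≤ 4 * ε :=
      (fro_mul_diagonal_le (by norm_num) hD4).trans (mul_le_mul_of_nonneg_left hF (by norm_num))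
    have h4 := fro_sub_le (U * Matrix.diagonal (fun i => lam i - D i) + B * (Vh - U))
      ((Vh - U) * Matrix.diagonal D)
    have h5 := fro_add_le (U * Matrix.diagonal (fun i => lam i - D i)) (B * (Vh - U))
    linarith
  exact (hop'.fro_mul_le' (by positivity) _).trans
    (mul_le_mul_of_nonneg_left hmain (by positivity))

end H6LP
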