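import Pool.Agent.H6.LP.NRM

/-!
# GIV: one Givens rotation

`a = X k k`, `b = X (k+1) k ≠ 0`, `ρ = √(|a|²+|b|²)`, `α = a/ρ`, `β = b/ρ`; the exact unitary matrix `G` is the
identity except for the rows `k, k+1`: `[ᾱ β̄; -β α]`.  All computed entries have errors `≤ 20 u ‖(x, y)‖`
where `x, y` are the two entries of the column.  The explicit entries: `ρ̃` instead of `ρ` (error `8 u ρ`), `0`.
-/

set_option autoImplicit false

open Complex Matrix

namespace H6LP

/-- the Givens matrix -/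
def givM {n : ℕ} (k0 k1 : Fin n) (al be : ℂ) : Matrix (Fin n) (Fin n) ℂ := fun i j =>
  if i = k0 then (if j = k0 then star al else if j = k1 then star be else 0)
  else if i = k1 then (if j = k0 then -be else if j = k1 then al else 0)
  else if i = j then 1 else 0

theorem givM_mulVec {n : ℕ} {k0 k1 : Fin n} (h : k0 ≠ k1) (al be : ℂ) (x : Fin n → ℂ) (i : Fin n) :
    (givM k0 k1 al be *ᵥ x) i = if i = k0 then star al * x k0 + star be * x k1
      else if i = k1 then -be * x k0 + al * x k1 else x i := by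
  have two : ∀ c d : ℂ, ∑ j, (if j = k0 then c else if j = k1 then d else 0) * x j =
      c * x k0 + d * x k1 := by
    intro c d
    have : ∀ j : Fin n, (if j = k0 then c else if j = k1 then d else 0) * x j =
        (if j = k0 then c * x j else 0) + (if j = k1 then d * x j else 0) := by
      intro j
      by_cases h0 : j = k0
      · subst h0
        simp [h]
      · by_cases h1 : j = k1
        · subst h1
          simp [h0]
        · simp [h0, h1]
    rw [Finset.sum_congr rfl (fun j _ => this j), Finset.sum_add_distrib]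
    simp
  show ∑ j, givM k0 k1 al be i j * x j = _
  unfold givM
  by_cases h0 : i = k0
  · simp only [h0, if_true]
    exact two _ _
  · by_cases h1 : i = k1
    · simp only [h1, if_true, if_false, Ne.symm h]
      exact two _ _
    · simp [h0, h1]

theorem givM_uni {n : ℕ} {k0 k1 : Fin n} (h : k0 ≠ k1) {al be : ℂ} (hab : ‖al‖ ^ 2 + ‖be‖ ^ 2 = 1) :
    Uni (givM k0 k1 al be) := by
  have hc : (starRingEnd ℂ) al * al + (starRingEnd ℂ) be * be = 1 := by
    have h1 : ∀ w : ℂ, (starRingEnd ℂ) w * w = ((‖w‖ ^ 2 : ℝ) : ℂ) := by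
      intro w
      rw [mul_comm, Complex.mul_conj, Complex.normSq_eq_norm_sq]
    rw [h1, h1, ← Complex.ofReal_add, hab, Complex.ofReal_one]
  unfold Uni
  rw [mul_eq_one_comm]
  ext i j
  have key : (givM k0 k1 al be * (givM k0 k1 al be)ᴴ) i j =
      (givM k0 k1 al be *ᵥ (fun l => star (givM k0 k1 al be j l))) i := rfl
  rw [key, givM_mulVec h, Matrix.one_apply]
  have h' := Ne.symm h
  unfold givM
  by_cases hi0 : i = k0
  · subst hi0
    by_cases hj0 : j = i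
    · subst hj0
      simp only [if_true, h', if_false]
      simpa using hc
    · by_cases hj1 : j = k1
      · subst hj1
        simp only [if_true, hj0, h, if_false]
        simp
        ring
      · simp [hj0, hj1, Ne.symm hj0]
  · by_cases hi1 : i = k1
    · subst hi1
      by_cases hj0 : j = k0
      · subst hj0
        simp only [if_true, hi0, if_false]
        simp
        ring
      · by_cases hj1 : j = i
        · subst hj1
          simp only [if_true, hj0, h, if_false]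
          simp
          rw [← hc]
          ring
        · simp [hj0, hj1, hi0, Ne.symm hj1]
    · by_cases hj0 : j = k0
      · subst hj0
        simp [hi0, hi1]
      · by_cases hj1 : j = k1
        · subst hj1
          simp [hi0, hi1, hj0]
        · simp [hi0, hi1, hj0, hj1, eq_comm]

theorem giv_pair_le_nv {n : ℕ} {k0 k1 : Fin n} (h : k0 ≠ k1) (x : Fin n → ℂ) :
    Real.sqrt (‖x k0‖ ^ 2 + ‖x k1‖ ^ 2) ≤ nv x := by
  unfold nv
  apply Real.sqrt_le_sqrt
  rw [← Finset.sum_pair (f := fun i => ‖x i‖ ^ 2) h]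
  exact Finset.sum_le_sum_of_subset_of_nonneg (Finset.subset_univ _) (fun i _ _ => by positivity)

theorem giv_col_err {n : ℕ} {k0 k1 : Fin n} (h : k0 ≠ k1) {v x : Fin n → ℂ} {u : ℝ} (hu : 0 ≤ u)
    (hv : ∀ i, i ≠ k0 → i ≠ k1 → v i = 0)
    (h0 : ‖v k0‖ ≤ 13 * u * Real.sqrt (‖x k0‖ ^ 2 + ‖x k1‖ ^ 2))
    (h1 : ‖v k1‖ ≤ 13 * u * Real.sqrt (‖x k0‖ ^ 2 + ‖x k1‖ ^ 2)) :
    nv v ≤ 100 * u * nv x := by
  have hv' : v = Pi.single k0 (v k0) + Pi.single k1 (v k1) := by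
    funext i
    by_cases hi0 : i = k0
    · subst hi0
      simp [h]
    · by_cases hi1 : i = k1
      · subst hi1
        simp [hi0]
      · simp [hi0, hi1, hv i hi0 hi1]
  have h2 : nv v ≤ ‖v k0‖ + ‖v k1‖ := by
    conv_lhs => rw [hv']
    refine (nv_add_le _ _).trans ?_
    rw [nv_single, nv_single]
  have h3 := giv_pair_le_nv h x
  have h4 : 0 ≤ nv x := nv_nonneg x
  have h5 : 13 * u * Real.sqrt (‖x k0‖ ^ 2 + ‖x k1‖ ^ 2) ≤ 13 * u * nv x := by gcongr
  have h6 : 0 ≤ u * nv x := by positivity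
  nlinarith

theorem giv_comb_err {u : ℝ} (hu0 : 0 ≤ u) (hu1 : u ≤ 1 / 10000) {A A' B B' X Y P Q Z : ℂ}
    (hA : ‖A' - A‖ ≤ 10 * u * ‖A‖) (hB : ‖B' - B‖ ≤ 10 * u * ‖B‖)
    (hAB : ‖A‖ ^ 2 + ‖B‖ ^ 2 = 1) (hP : ‖P - A' * X‖ ≤ u * ‖A' * X‖)
    (hQ : ‖Q - B' * Y‖ ≤ u * ‖B' * Y‖) (hZ : ‖Z - (P + Q)‖ ≤ u * ‖P + Q‖) :
    ‖Z - (A * X + B * Y)‖ ≤ 13 * u * Real.sqrt (‖X‖ ^ 2 + ‖Y‖ ^ 2) := by
  have gen : ∀ {C C' W R : ℂ}, ‖C' - C‖ ≤ 10 * u * ‖C‖ → ‖R - C' * W‖ ≤ u * ‖C' * W‖ →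
      ‖R - C * W‖ ≤ 11.01 * u * (‖C‖ * ‖W‖) := by
    intro C C' W R h1 h2
    have h3 : ‖C'‖ ≤ (1 + 10 * u) * ‖C‖ := by
      have : ‖C'‖ ≤ ‖C' - C‖ + ‖C‖ := by
        simpa using norm_add_le (C' - C) C
      linarith
    have h4 : R - C * W = (R - C' * W) + (C' - C) * W := by ring
    have h5 : ‖R - C * W‖ ≤ ‖R - C' * W‖ + ‖C' - C‖ * ‖W‖ := by
      rw [h4]
      refine (norm_add_le _ _).trans ?_
      rw [norm_mul]
    rw [norm_mul] at h2
    have h6 : u * (‖C'‖ * ‖W‖) ≤ u * ((1 + 10 * u) * ‖C‖ * ‖W‖) := by gcongr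
    have h7 : ‖C' - C‖ * ‖W‖ ≤ 10 * u * ‖C‖ * ‖W‖ := by gcongr
    have h8 : 0 ≤ ‖C‖ * ‖W‖ := by positivity
    have h9 : u * ((1 + 10 * u) * ‖C‖ * ‖W‖) ≤ 1.01 * u * (‖C‖ * ‖W‖) := by
      have : (1 + 10 * u) ≤ 1.01 := by linarith
      calc u * ((1 + 10 * u) * ‖C‖ * ‖W‖) = (1 + 10 * u) * (u * (‖C‖ * ‖W‖)) := by ring
        _ ≤ 1.01 * (u * (‖C‖ * ‖W‖)) := by gcongr
        _ = _ := by ring
    nlinarith
  have hP' := gen hA hP
  have hQ' := gen hB hQ
  set s := ‖A‖ * ‖X‖ + ‖B‖ * ‖Y‖ with hs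
  have hs0 : 0 ≤ s := by positivity
  have hss : s ≤ Real.sqrt (‖X‖ ^ 2 + ‖Y‖ ^ 2) := by
    apply Real.le_sqrt_of_sq_le
    have : (‖A‖ ^ 2 + ‖B‖ ^ 2) * (‖X‖ ^ 2 + ‖Y‖ ^ 2) - s ^ 2 = (‖A‖ * ‖Y‖ - ‖B‖ * ‖X‖) ^ 2 := by
      rw [hs]; ring
    rw [hAB] at this
    have h2 := sq_nonneg (‖A‖ * ‖Y‖ - ‖B‖ * ‖X‖)
    linarith
  have hPQ : ‖P + Q - (A * X + B * Y)‖ ≤ 11.01 * u * s := by
    have h1 : P + Q - (A * X + B * Y) = (P - A * X) + (Q - B * Y) := by ring
    rw [h1]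
    refine (norm_add_le _ _).trans ?_
    rw [hs]
    linarith
  have hAX : ‖A * X + B * Y‖ ≤ s := by
    refine (norm_add_le _ _).trans ?_
    rw [norm_mul, norm_mul]
  have hPQ2 : ‖P + Q‖ ≤ 1.01 * s := by
    have h1 : ‖P + Q‖ ≤ ‖P + Q - (A * X + B * Y)‖ + ‖A * X + B * Y‖ := by
      simpa using norm_add_le (P + Q - (A * X + B * Y)) (A * X + B * Y)
    have h2 : 11.01 * u * s ≤ 0.01 * s := by
      have : 11.01 * u ≤ 0.01 := by linarith
      gcongr
    linarith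
  have h1 : Z - (A * X + B * Y) = (Z - (P + Q)) + (P + Q - (A * X + B * Y)) := by ring
  have h2 : ‖Z - (A * X + B * Y)‖ ≤ 13 * u * s := by
    rw [h1]
    refine (norm_add_le _ _).trans ?_
    have h3 : u * ‖P + Q‖ ≤ u * (1.01 * s) := by gcongr
    have h4 : 0 ≤ u * s := by positivity
    nlinarith
  refine h2.trans ?_
  gcongr

theorem giv_post_comb {ad : Adv} {u : ℝ} (hu : ad.Le u) (hu1 : u ≤ 1 / 10000) {env : Env}
    {a x b y : ℕ} {A A' B B' X Y : ℂ} (ha : Has env a A') (hx : Has env x X) (hb : Has env b B')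
    (hy : Has env y Y) (hA : ‖A' - A‖ ≤ 10 * u * ‖A‖) (hB : ‖B' - B‖ ≤ 10 * u * ‖B‖)
    (hAB : ‖A‖ ^ 2 + ‖B‖ ^ 2 = 1) :
    Post ad (combP a x b y) env (fun r env' => ∃ z, Has env' r z ∧
      ‖z - (A * X + B * Y)‖ ≤ 13 * u * Real.sqrt (‖X‖ ^ 2 + ‖Y‖ ^ 2)) := by
  unfold combP
  refine Post.bind (post_mul hu ha hx) ?_
  rintro p env1 h1 ⟨P, hp, hP⟩
  refine Post.bind (post_mul hu (hb.mono h1) (hy.mono h1)) ?_
  rintro q env2 h2 ⟨Q, hq, hQ⟩
  refine (post_add hu (hp.mono h2) hq).weaken ?_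
  rintro z env3 h3 ⟨Z, hz, hZ⟩
  exact ⟨Z, hz, giv_comb_err hu.nonneg hu1 hA hB hAB hP hQ hZ⟩

theorem giv_post_combs {ad : Adv} {u : ℝ} (hu : ad.Le u) (hu1 : u ≤ 1 / 10000) {env : Env}
    {a x b y : ℕ} {A A' B B' X Y : ℂ} (ha : Has env a A') (hx : Has env x X) (hb : Has env b B')
    (hy : Has env y Y) (hA : ‖A' - A‖ ≤ 10 * u * ‖A‖) (hB : ‖B' - B‖ ≤ 10 * u * ‖B‖)
    (hAB : ‖A‖ ^ 2 + ‖B‖ ^ 2 = 1) :
    Post ad (combsP a x b y) env (fun r env' => ∃ z, Has env' r z ∧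
      ‖z - (A * X - B * Y)‖ ≤ 13 * u * Real.sqrt (‖X‖ ^ 2 + ‖Y‖ ^ 2)) := by
  unfold combsP
  refine Post.bind (post_mul hu ha hx) ?_
  rintro p env1 h1 ⟨P, hp, hP⟩
  refine Post.bind (post_mul hu (hb.mono h1) (hy.mono h1)) ?_
  rintro q env2 h2 ⟨Q, hq, hQ⟩
  refine (post_sub hu (hp.mono h2) hq).weaken ?_
  rintro z env3 h3 ⟨Z, hz, hZ⟩
  refine ⟨Z, hz, ?_⟩
  unfold Rel at hP hQ hZ
  have := giv_comb_err (A := A) (A' := A') (B := -B) (B' := -B') (X := X) (Y := Y) (P := P) (Q := -Q)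
    (Z := Z) hu.nonneg hu1 hA ?_ ?_ hP ?_ ?_
  · have e1 : A * X + -B * Y = A * X - B * Y := by ring
    rwa [e1] at this
  · have e1 : -B' - -B = -(B' - B) := by ring
    rw [e1, norm_neg, norm_neg]
    exact hB
  · rw [norm_neg]
    exact hAB
  · have e1 : -Q - -B' * Y = -(Q - B' * Y) := by ring
    have e2 : -B' * Y = -(B' * Y) := by ring
    rw [e1, norm_neg, e2, norm_neg]
    exact hQ
  · have e1 : Z - (P + -Q) = Z - (P - Q) := by ring
    have e2 : P + -Q = P - Q := by ring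
    rw [e1, e2]
    exact hZ

/-- the error of the quotient `a / ρ̃` -/
theorem giv_quot_err {u : ℝ} (hu0 : 0 ≤ u) (hu1 : u ≤ 1 / 10000) {rho t : ℝ} (hr : 0 < rho)
    (ht : |t - rho| ≤ 8 * u * rho) {a z : ℂ} (hz : Rel u (a / (t : ℂ)) z) :
    ‖z - a / (rho : ℂ)‖ ≤ 10 * u * ‖a / (rho : ℂ)‖ := by
  have ht1 : (1 - 8 * u) * rho ≤ t := by
    have := (abs_le.mp ht).1
    linarith
  have ht0 : 0 < t := by
    have : 0 < (1 - 8 * u) * rho := by
      apply mul_pos _ hr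
      linarith
    linarith
  have htc : (t : ℂ) ≠ 0 := by exact_mod_cast ht0.ne'
  have hrc : (rho : ℂ) ≠ 0 := by exact_mod_cast hr.ne'
  have e1 : a / (t : ℂ) - a / (rho : ℂ) = (a / (rho : ℂ)) * (((rho - t) / t : ℝ) : ℂ) := by
    push_cast
    field_simp
  have hq : |(rho - t) / t| ≤ 8.1 * u := by
    rw [abs_div, abs_of_pos ht0, div_le_iff₀ ht0, abs_sub_comm]
    refine ht.trans ?_
    have h1 : 8.1 * u * ((1 - 8 * u) * rho) ≤ 8.1 * u * t := by gcongr
    have h2 : 8 * u * rho ≤ 8.1 * u * ((1 - 8 * u) * rho) := by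
      have h3 : 8 ≤ 8.1 * (1 - 8 * u) := by linarith
      have h4 : 0 ≤ u * rho := by positivity
      nlinarith
    linarith
  have n1 : ‖a / (t : ℂ) - a / (rho : ℂ)‖ ≤ 8.1 * u * ‖a / (rho : ℂ)‖ := by
    rw [e1, norm_mul, Complex.norm_real, Real.norm_eq_abs, mul_comm]
    gcongr
  have n2 : ‖a / (t : ℂ)‖ ≤ (1 + 8.1 * u) * ‖a / (rho : ℂ)‖ := by
    have : ‖a / (t : ℂ)‖ ≤ ‖a / (t : ℂ) - a / (rho : ℂ)‖ + ‖a / (rho : ℂ)‖ := by
      simpa using norm_add_le (a / (t : ℂ) - a / (rho : ℂ)) (a / (rho : ℂ))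
    linarith
  unfold Rel at hz
  have e2 : z - a / (rho : ℂ) = (z - a / (t : ℂ)) + (a / (t : ℂ) - a / (rho : ℂ)) := by ring
  rw [e2]
  refine (norm_add_le _ _).trans ?_
  have n3 : u * ‖a / (t : ℂ)‖ ≤ u * ((1 + 8.1 * u) * ‖a / (rho : ℂ)‖) := by gcongr
  have n4 : u * ((1 + 8.1 * u) * ‖a / (rho : ℂ)‖) ≤ 1.1 * u * ‖a / (rho : ℂ)‖ := by
    have h3 : (1 + 8.1 * u) ≤ 1.1 := by linarith
    have h4 : 0 ≤ u * ‖a / (rho : ℂ)‖ := by positivity
    nlinarith
  have n5 : 0 ≤ u * ‖a / (rho : ℂ)‖ := by positivity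
  nlinarith

theorem post_giv {ad : Adv} {u : ℝ} (hu : ad.Le u) {n : ℕ} (hn : 1 ≤ n) (hu1 : u ≤ 1 / 10000)
    {env : Env} {x : RMat n n} {y : RVec n} {X : Matrix (Fin n) (Fin n) ℂ} {Y : Fin n → ℂ}
    (hx : HasM env x X) (hy : HasV env y Y) (k : ℕ) (hk : k + 1 < n)
    (hz : ∀ i j : Fin n, (j : ℕ) < k → (j : ℕ) < i → X i j = 0)
    (hh : ∀ i j : Fin n, (j : ℕ) + 1 < i → X i j = 0)
    (hb : X ⟨k + 1, hk⟩ ⟨k, by omega⟩ ≠ 0) :
    Post ad (givP k hk (x, y)) env (fun S env' => ∃ (G X' : Matrix (Fin n) (Fin n) ℂ) (Y' : Fin n → ℂ)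
      (rho : ℝ), Uni G ∧ HasM env' S.1 X' ∧ HasV env' S.2 Y' ∧
      fro (X' - G * X) ≤ 100 * u * fro X ∧ nv (Y' - G *ᵥ Y) ≤ 100 * u * nv Y ∧
      (∀ i j : Fin n, (j : ℕ) < k + 1 → (j : ℕ) < i → X' i j = 0) ∧
      (∀ i j : Fin n, (j : ℕ) + 1 < i → X' i j = 0) ∧
      (∀ i j : Fin n, k + 1 < (i : ℕ) → X' i j = X i j) ∧
      (∀ i j : Fin n, (i : ℕ) < k → X' i j = X i j) ∧
      X' ⟨k, by omega⟩ ⟨k, by omega⟩ = (rho : ℂ) ∧
      ‖X ⟨k + 1, hk⟩ ⟨k, by omega⟩‖ / 2 ≤ rho) := by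
  have hu0 : 0 ≤ u := hu.nonneg
  set k0 : Fin n := ⟨k, by omega⟩ with hk0
  set k1 : Fin n := ⟨k + 1, hk⟩ with hk1
  have hne : k0 ≠ k1 := by
    rw [hk0, hk1, Ne, Fin.mk.injEq]
    omega
  set rho : ℝ := nv ![X k0 k0, X k1 k0] with hrho
  have hrho2 : rho ^ 2 = ‖X k0 k0‖ ^ 2 + ‖X k1 k0‖ ^ 2 := by
    rw [hrho, nv_sq, Fin.sum_univ_two]
    rfl
  have hrb : ‖X k1 k0‖ ≤ rho := by
    have := norm_le_nv ![X k0 k0, X k1 k0] 1
    exact this
  have hrpos : 0 < rho := lt_of_lt_of_le (norm_pos_iff.mpr hb) hrb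
  set al : ℂ := X k0 k0 / (rho : ℂ) with hal
  set be : ℂ := X k1 k0 / (rho : ℂ) with hbe
  have hrc : (rho : ℂ) ≠ 0 := by exact_mod_cast hrpos.ne'
  have hab : ‖al‖ ^ 2 + ‖be‖ ^ 2 = 1 := by
    rw [hal, hbe, norm_div, norm_div, Complex.norm_real, Real.norm_eq_abs, abs_of_pos hrpos,
      div_pow, div_pow, ← add_div, ← hrho2]
    field_simp
  unfold givP
  refine Post.bind (post_cst hu env 0 0) ?_
  rintro z env1 h1 ⟨Z, hz1, hZ⟩
  have hZ0 : Z = 0 := by
    unfold Rel at hZ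
    simpa using hZ
  subst hZ0
  have hnv : HasV env1 ![x k0 k0, x k1 k0] ![X k0 k0, X k1 k0] := by
    intro i
    fin_cases i
    · exact (hx k0 k0).mono h1
    · exact (hx k1 k0).mono h1
  refine Post.bind (post_norm hu (by norm_num) (by norm_num; linarith) hnv) ?_
  rintro rr env2 h2 ⟨t, ht1, ht2⟩
  have ht2' : |t - rho| ≤ 8 * u * rho := by
    refine ht2.trans (le_of_eq ?_)
    push_cast
    ring
  have htp : rho / 2 ≤ t := by
    have h3 := (abs_le.mp ht2').1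
    have h4 : 8 * u * rho ≤ 1 / 2 * rho := by
      have : 8 * u ≤ 1 / 2 := by linarith
      gcongr
    linarith
  have ht0 : 0 < t := by linarith
  have htc : (t : ℂ) ≠ 0 := by exact_mod_cast ht0.ne'
  have p12 := h1.trans h2
  refine Post.bind (post_div hu ((hx k0 k0).mono p12) ht1 htc) ?_
  rintro ar env3 h3 ⟨al', hal1, hal2⟩
  have hal3 := giv_quot_err hu0 hu1 hrpos ht2' hal2
  rw [← hal] at hal3
  have p13 := p12.trans h3
  refine Post.bind (post_div hu ((hx k1 k0).mono p13) (ht1.mono h3) htc) ?_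
  rintro br env4 h4 ⟨be', hbe1, hbe2⟩
  have hbe3 := giv_quot_err hu0 hu1 hrpos ht2' hbe2
  rw [← hbe] at hbe3
  have p14 := p13.trans h4
  refine Post.bind (post_conj (hal1.mono h4)) ?_
  rintro acr env5 h5 hac
  have p15 := p14.trans h5
  refine Post.bind (post_conj (hbe1.mono h5)) ?_
  rintro bcr env6 h6 hbc
  have p16 := p15.trans h6
  have hac3 : ‖(starRingEnd ℂ) al' - (starRingEnd ℂ) al‖ ≤ 10 * u * ‖(starRingEnd ℂ) al‖ := by
    rw [← map_sub, Complex.norm_conj, Complex.norm_conj]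
    exact hal3
  have hbc3 : ‖(starRingEnd ℂ) be' - (starRingEnd ℂ) be‖ ≤ 10 * u * ‖(starRingEnd ℂ) be‖ := by
    rw [← map_sub, Complex.norm_conj, Complex.norm_conj]
    exact hbe3
  have habc : ‖(starRingEnd ℂ) al‖ ^ 2 + ‖(starRingEnd ℂ) be‖ ^ 2 = 1 := by
    rw [Complex.norm_conj, Complex.norm_conj]
    exact hab
  -- the row `k`
  refine Post.bind (post_vecM n _ env6 (fun j r env' => ∃ w, Has env' r w ∧
    ‖w - ((starRingEnd ℂ) al * X k0 j + (starRingEnd ℂ) be * X k1 j)‖ ≤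
      13 * u * Real.sqrt (‖X k0 j‖ ^ 2 + ‖X k1 j‖ ^ 2)) ?_ ?_) ?_
  · rintro i b e1 e2 h12 ⟨w, hw1, hw2⟩
    exact ⟨w, hw1.mono h12, hw2⟩
  · intro j env' h'
    exact giv_post_comb hu hu1 (hac.mono (h6.trans h')) ((hx k0 j).mono (p16.trans h'))
      (hbc.mono h') ((hx k1 j).mono (p16.trans h')) hac3 hbc3 habc
  rintro r0 env7 h7 hr0
  choose R0 hR0 hR0' using hr0
  have p17 := p16.trans h7
  -- the row `k + 1`
  refine Post.bind (post_vecM n _ env7 (fun j r env' => ∃ w, Has env' r w ∧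
    ‖w - (al * X k1 j - be * X k0 j)‖ ≤
      13 * u * Real.sqrt (‖X k1 j‖ ^ 2 + ‖X k0 j‖ ^ 2)) ?_ ?_) ?_
  · rintro i b e1 e2 h12 ⟨w, hw1, hw2⟩
    exact ⟨w, hw1.mono h12, hw2⟩
  · intro j env' h'
    exact giv_post_combs hu hu1 (hal1.mono (((h4.trans h5).trans (h6.trans h7)).trans h'))
      ((hx k1 j).mono (p17.trans h')) (hbe1.mono ((h5.trans (h6.trans h7)).trans h'))
      ((hx k0 j).mono (p17.trans h')) hal3 hbe3 hab
  rintro r1 env8 h8 hr1
  choose R1 hR1 hR1' using hr1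
  have p18 := p17.trans h8
  refine Post.bind (giv_post_comb hu hu1 (hac.mono (h6.trans (h7.trans h8))) ((hy k0).mono p18)
      (hbc.mono (h7.trans h8)) ((hy k1).mono p18) hac3 hbc3 habc) ?_
  rintro y0 env9 h9 ⟨Y0, hY0, hY0'⟩
  have p19 := p18.trans h9
  refine Post.bind (giv_post_combs hu hu1 (hal1.mono ((h4.trans h5).trans ((h6.trans h7).trans (h8.trans h9))))
      ((hy k1).mono p19) (hbe1.mono ((h5.trans h6).trans (h7.trans (h8.trans h9))))
      ((hy k0).mono p19) hal3 hbe3 hab) ?_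
  rintro y1 env10 h10 ⟨Y1, hY1, hY1'⟩
  have p110 := p19.trans h10
  refine Post.pure ?_
  have q2 : env2 <+: env10 := h3.trans (h4.trans (h5.trans (h6.trans (h7.trans (h8.trans (h9.trans h10))))))
  obtain ⟨X', hX'⟩ : ∃ X' : Matrix (Fin n) (Fin n) ℂ, ∀ i j, X' i j =
      if (i : ℕ) = k then (if (j : ℕ) < k then X i j else if (j : ℕ) = k then (t : ℂ) else R0 j)
      else if (i : ℕ) = k + 1 then (if (j : ℕ) ≤ k then 0 else R1 j)
      else X i j := ⟨_, fun _ _ => rfl⟩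
  obtain ⟨Y', hY'⟩ : ∃ Y' : Fin n → ℂ, ∀ i, Y' i =
      if (i : ℕ) = k then Y0 else if (i : ℕ) = k + 1 then Y1 else Y i := ⟨_, fun _ => rfl⟩
  have e0 : (k0 : ℕ) = k := rfl
  have e1 : (k1 : ℕ) = k + 1 := rfl
  have e2 : ¬ (k + 1 = k) := by omega
  refine ⟨givM k0 k1 al be, X', Y', t,
    givM_uni hne hab, ?_, ?_, ?_, ?_, ?_, ?_, ?_, ?_, ?_, ?_⟩
  · intro i j
    rw [hX']
    dsimp only
    split_ifs with c1 c2 c3 c4 c5
    · exact (hx i j).mono p110
    · exact ht1.mono q2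
    · exact (hR0 j).mono (h8.trans (h9.trans h10))
    · exact hz1.mono (h2.trans q2)
    · exact (hR1 j).mono (h9.trans h10)
    · exact (hx i j).mono p110
  · intro i
    rw [hY']
    dsimp only
    split_ifs with c1 c2
    · exact hY0.mono h10
    · exact hY1
    · exact (hy i).mono p110
  · refine fro_le_of_cols (by positivity) (fun j => ?_)
    have hmul : ∀ i, (givM k0 k1 al be * X) i j = (givM k0 k1 al be *ᵥ (fun l => X l j)) i :=
      fun i => rfl
    refine giv_col_err hne hu0 ?_ ?_ ?_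
    · intro i hi0 hi1
      have hi0' : ¬ (i : ℕ) = k := fun h => hi0 (Fin.ext h)
      have hi1' : ¬ (i : ℕ) = k + 1 := fun h => hi1 (Fin.ext h)
      rw [Matrix.sub_apply, hmul, givM_mulVec hne, if_neg hi0, if_neg hi1, hX', if_neg hi0',
        if_neg hi1', sub_self]
    · rw [Matrix.sub_apply, hmul, givM_mulVec hne, if_pos rfl, hX', if_pos e0]
      split_ifs with c1 c2
      · have z0 : X k0 j = 0 := hz _ _ c1 (by rw [e0]; exact c1)
        have z1 : X k1 j = 0 := hz _ _ c1 (by rw [hk1]; show (j : ℕ) < k + 1; omega)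
        rw [z0, z1]
        simp
      · have hj : j = k0 := Fin.ext c2
        subst hj
        have e1 : star al * X k0 k0 + star be * X k1 k0 = (rho : ℂ) := by
          have a1 : X k0 k0 = al * rho := by rw [hal]; field_simp
          have a2 : X k1 k0 = be * rho := by rw [hbe]; field_simp
          have h1 : ∀ w : ℂ, star w * w = ((‖w‖ ^ 2 : ℝ) : ℂ) := by
            intro w
            rw [mul_comm]
            have := Complex.mul_conj w
            rw [Complex.normSq_eq_norm_sq] at this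
            exact this
          rw [a1, a2]
          calc star al * (al * rho) + star be * (be * rho)
              = (star al * al + star be * be) * rho := by ring
            _ = rho := by rw [h1, h1, ← Complex.ofReal_add, hab, Complex.ofReal_one, one_mul]
        rw [e1, ← hrho2, Real.sqrt_sq hrpos.le, ← Complex.ofReal_sub, Complex.norm_real,
          Real.norm_eq_abs]
        refine ht2'.trans ?_
        gcongr
        norm_num
      · exact hR0' j
    · rw [Matrix.sub_apply, hmul, givM_mulVec hne, if_neg (Ne.symm hne), if_pos rfl, hX', e1,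
        if_neg e2, if_pos rfl]
      have e3 : -be * X k0 j + al * X k1 j = al * X k1 j - be * X k0 j := by ring
      rw [e3]
      split_ifs with c1
      · have hzero : al * X k1 j - be * X k0 j = 0 := by
          rcases Nat.lt_or_ge (j : ℕ) k with hlt | hge
          · have z0 : X k0 j = 0 := hz _ _ hlt hlt
            have z1 : X k1 j = 0 := hz _ _ hlt (by rw [hk1]; show (j : ℕ) < k + 1; omega)
            rw [z0, z1]
            ring
          · have hj : j = k0 := Fin.ext (by show (j : ℕ) = k; omega)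
            subst hj
            rw [hal, hbe]
            ring
        rw [hzero]
        simp only [sub_self, norm_zero]
        positivity
      · have := hR1' j
        rwa [add_comm (‖X k1 j‖ ^ 2)] at this
  · refine giv_col_err hne hu0 ?_ ?_ ?_
    · intro i hi0 hi1
      have hi0' : ¬ (i : ℕ) = k := fun h => hi0 (Fin.ext h)
      have hi1' : ¬ (i : ℕ) = k + 1 := fun h => hi1 (Fin.ext h)
      rw [Pi.sub_apply, givM_mulVec hne, if_neg hi0, if_neg hi1, hY', if_neg hi0', if_neg hi1',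
        sub_self]
    · rw [Pi.sub_apply, givM_mulVec hne, if_pos rfl, hY', if_pos e0]
      exact hY0'
    · rw [Pi.sub_apply, givM_mulVec hne, if_neg (Ne.symm hne), if_pos rfl, hY', e1, if_neg e2,
        if_pos rfl]
      have e3 : -be * Y k0 + al * Y k1 = al * Y k1 - be * Y k0 := by ring
      rw [e3]
      rwa [add_comm (‖Y k1‖ ^ 2)] at hY1'
  · intro i j hj hji
    rw [hX']
    split_ifs with c1 c2 c3 c4 c5
    · exact hz i j c2 hji
    · omega
    · omega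
    · rfl
    · omega
    · rcases Nat.lt_or_ge (j : ℕ) k with hlt | hge
      · exact hz i j hlt hji
      · exact hh i j (by omega)
  · intro i j hji
    rw [hX']
    split_ifs with c1 c2 c3 c4 c5
    · exact hh i j hji
    · omega
    · omega
    · rfl
    · omega
    · exact hh i j hji
  · intro i j hi
    rw [hX', if_neg (by omega), if_neg (by omega)]
  · intro i j hi
    rw [hX', if_neg (by omega), if_neg (by omega)]
  · rw [hX', if_pos e0, e0, if_neg (lt_irrefl _), if_pos rfl]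
  · linarith

end H6LP
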