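import Pool.Agent.H6.LP.HMIN
import Pool.Agent.H6.LP.INV

/-!
# HESS: the reduction to Hessenberg form

`post_iterP` with the invariant (after `k` steps): `HasM` of the current `H_k`, `Q_k`, and
`H_k = Qᴴ (X + E) Q`, `Uni Q`, `Fix0 Q`, `fro E ≤ k * (…)`, `fro (Q_k - Q) ≤ …`, and
`H_k i j = 0` for `j < k`, `j + 1 < i`.  Before each step `RowLB H_k s` and `OpLe H_k 4` (INV), so `hmin`
gives `s ≤ nv (subcol H_k k)`.  New `Q` is `Q Pᴴ`; new `E` is `E + (Q Pᴴ) (H_{k+1} - P H_k Pᴴ) (Q Pᴴ)ᴴ`.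
`fro H_k ≤ 4 √n ≤ 4 n`.
-/

set_option autoImplicit false

open Complex Matrix

namespace H6LP

theorem HESS_ctx {n : ℕ} {X : Matrix (Fin n) (Fin n) ℂ} {s : ℝ}
    (hs1 : s ≤ 1) (hrow : RowLB X (2 * s)) (hop : OpLe X 3)
    {Q E : Matrix (Fin n) (Fin n) ℂ} (hQ : Uni Q) (hQ0 : Fix0 Q) (hE : fro E ≤ s) :
    OpLe (Qᴴ * (X + E) * Q) 4 ∧ RowLB (Qᴴ * (X + E) * Q) s := by
  constructor
  · exact OpLe.uni ((hop.add_fro hE).mono (by linarith)) hQ
  · exact RowLB.uni ((hrow.pert hE).mono (by linarith)) hQ hQ0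

theorem HESS_sqrt_le {n : ℕ} (hn : 1 ≤ n) : Real.sqrt n ≤ n := by
  have h1 : (1 : ℝ) ≤ n := by exact_mod_cast hn
  rw [Real.sqrt_le_left (by linarith)]
  nlinarith

/-- the algebra of one step -/
theorem HESS_alg {n : ℕ} {X E Q P H X' : Matrix (Fin n) (Fin n) ℂ} (hQ : Uni Q) (hP : Uni P)
    (hH : H = Qᴴ * (X + E) * Q) :
    X' = (Q * Pᴴ)ᴴ * (X + (E + (Q * Pᴴ) * (X' - P * H * Pᴴ) * (Q * Pᴴ)ᴴ)) * (Q * Pᴴ) := by
  have hU : Uni (Q * Pᴴ) := hQ.mul hP.conjTranspose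
  have h1 : (Q * Pᴴ)ᴴ * (Q * Pᴴ) = 1 := hU
  have h3 : (Q * Pᴴ)ᴴ * (X + E) * (Q * Pᴴ) = P * H * Pᴴ := by
    rw [hH, Matrix.conjTranspose_mul, Matrix.conjTranspose_conjTranspose]
    simp only [Matrix.mul_assoc]
  have h4 : (Q * Pᴴ)ᴴ * ((Q * Pᴴ) * (X' - P * H * Pᴴ) * (Q * Pᴴ)ᴴ) * (Q * Pᴴ) =
      X' - P * H * Pᴴ := by
    calc (Q * Pᴴ)ᴴ * ((Q * Pᴴ) * (X' - P * H * Pᴴ) * (Q * Pᴴ)ᴴ) * (Q * Pᴴ)
        = ((Q * Pᴴ)ᴴ * (Q * Pᴴ)) * (X' - P * H * Pᴴ) * ((Q * Pᴴ)ᴴ * (Q * Pᴴ)) := by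
          simp only [Matrix.mul_assoc]
      _ = X' - P * H * Pᴴ := by rw [h1, Matrix.one_mul, Matrix.mul_one]
  rw [← add_assoc, Matrix.mul_add, Matrix.add_mul, h3, h4]
  abel

theorem HESS_fro {n : ℕ} {E Q P H X' : Matrix (Fin n) (Fin n) ℂ} (hQ : Uni Q) (hP : Uni P) {a b : ℝ}
    (hE : fro E ≤ a) (hX' : fro (X' - P * H * Pᴴ) ≤ b) :
    fro (E + (Q * Pᴴ) * (X' - P * H * Pᴴ) * (Q * Pᴴ)ᴴ) ≤ a + b := by
  have hU : Uni (Q * Pᴴ) := hQ.mul hP.conjTranspose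
  refine (fro_add_le _ _).trans (add_le_add hE ?_)
  rw [hU.conjTranspose.fro_mul', hU.fro_mul]
  exact hX'

theorem post_hess {ad : Adv} {u : ℝ} (hu : ad.Le u) {n : ℕ} (hn : 1 ≤ n)
    {env : Env} {x : RMat n n} {X : Matrix (Fin n) (Fin n) ℂ} (hx : HasM env x X) {s : ℝ}
    (hs : 0 < s) (hs1 : s ≤ 1) (hrow : RowLB X (2 * s)) (hop : OpLe X 3)
    (hnu : 10 ^ 6 * n ^ 3 * u ≤ s) :
    Post ad (hessP x) env (fun HQ env' => ∃ Q E H Q' : Matrix (Fin n) (Fin n) ℂ,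
      Uni Q ∧ Fix0 Q ∧ H = Qᴴ * (X + E) * Q ∧ fro E ≤ 10 ^ 5 * n ^ 3 * u ∧ Hess H ∧
      HasM env' HQ.1 H ∧ HasM env' HQ.2 Q' ∧ fro (Q' - Q) ≤ 10 ^ 5 * n ^ 3 * u ∧
      ∀ k (hk : k + 1 < n), s ≤ ‖H ⟨k + 1, hk⟩ ⟨k, by omega⟩‖) := by
  have hu0 : 0 ≤ u := (norm_nonneg _).trans (hu 0)
  have hn1 : (1 : ℝ) ≤ n := by exact_mod_cast hn
  have hn2 : (1 : ℝ) ≤ (n : ℝ) ^ 2 := one_le_pow₀ hn1
  have hn13 : (n : ℝ) ≤ (n : ℝ) ^ 3 := by
    calc (n : ℝ) = n * 1 := (mul_one _).symm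
      _ ≤ n * (n : ℝ) ^ 2 := by gcongr
      _ = _ := by ring
  have hsq : Real.sqrt n ≤ n := HESS_sqrt_le hn
  have hu3 : (n : ℝ) * u ≤ (n : ℝ) ^ 3 * u := mul_le_mul_of_nonneg_right hn13 hu0
  have hnu' : (n : ℝ) * u ≤ 1 / 10000 := by nlinarith
  set c : ℝ := (n : ℝ) ^ 2 * u with hc
  have hc0 : 0 ≤ c := by positivity
  have hnc : (n : ℝ) * c = (n : ℝ) ^ 3 * u := by rw [hc]; ring
  have hkc : ∀ k : ℕ, k ≤ n → (k : ℝ) * c ≤ (n : ℝ) ^ 3 * u := by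
    intro k hk
    rw [← hnc]
    have : (k : ℝ) ≤ n := by exact_mod_cast hk
    gcongr
  unfold hessP
  refine Post.bind (post_cst hu env 0 0) ?_
  rintro z env1 h1 ⟨zv, hzv, hzr⟩
  have hz0 : zv = 0 := by
    unfold Rel at hzr
    simp only [Rat.cast_zero, zero_mul, add_zero, sub_zero, norm_zero, mul_zero] at hzr
    exact norm_le_zero_iff.1 hzr
  subst hz0
  refine Post.bind (post_cst hu env1 1 0) ?_
  rintro one env2 h2 ⟨ov, hov, hor⟩
  have hor' : ‖ov - 1‖ ≤ u := by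
    unfold Rel at hor
    simpa using hor
  have hx2 : HasM env2 x X := hx.mono (h1.trans h2)
  have hz2 : Has env2 z 0 := hzv.mono h2
  -- the invariant
  refine (post_iterP (n - 1) _ _ env2 (fun k (S : RMat n n × RMat n n) env' =>
    ∃ Q E H Q' : Matrix (Fin n) (Fin n) ℂ,
      Uni Q ∧ Fix0 Q ∧ H = Qᴴ * (X + E) * Q ∧ fro E ≤ k * (8000 * c) ∧
      (∀ i j : Fin n, (j : ℕ) < k → (j : ℕ) + 1 < i → H i j = 0) ∧
      HasM env' S.1 H ∧ HasM env' S.2 Q' ∧ fro (Q' - Q) ≤ (n : ℝ) * u + k * (4000 * c)) ?_ ?_).weaken ?_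
  · refine ⟨1, 0, X, ov • 1, Uni.one, Fix0.one, by simp, by simp [fro_zero], ?_, hx2, ?_, ?_⟩
    · intro i j hj; exact absurd hj (Nat.not_lt_zero _)
    · intro i j
      by_cases hij : i = j
      · subst hij
        simpa using hov
      · simpa [hij, Matrix.one_apply_ne hij] using hz2
    · have e : ov • (1 : Matrix (Fin n) (Fin n) ℂ) - 1 = (ov - 1) • 1 := by
        rw [sub_smul, one_smul]
      rw [e, fro_smul_one]
      simp only [Nat.cast_zero, zero_mul, add_zero]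
      calc ‖ov - 1‖ * Real.sqrt n ≤ u * n := by gcongr
        _ = n * u := mul_comm _ _
  · intro k hk S env' henv hInv
    obtain ⟨Q, E, H, Q', hQ, hQ0, hH, hE, hHz, hS1, hS2, hQ'⟩ := hInv
    have hk1 : k + 1 < n := by omega
    have hEs : fro E ≤ s := by
      have := hkc k (by omega)
      nlinarith
    obtain ⟨hop4, hrs⟩ := HESS_ctx hs1 hrow hop hQ hQ0 hEs
    rw [← hH] at hop4 hrs
    have hmn : s ≤ nv (subcol H k hk1) := hmin hop4 hrs k hk1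
      (fun i j hj hi => hHz i j hj (by omega))
    rw [dif_pos hk1]
    have hfH : fro H ≤ 4 * n := (hop4.fro_le (by norm_num)).trans (by gcongr)
    have hfQ' : fro Q' ≤ 2 * n := by
      have e : Q' = Q + (Q' - Q) := by abel
      rw [e]
      refine (fro_add_le _ _).trans ?_
      rw [hQ.fro_eq]
      have := hkc k (by omega)
      nlinarith
    refine (post_hstep hu hn hnu' (x := S.1) (q := S.2) hS1 hS2 k hk1 hHz (hs.trans_le hmn)).weaken ?_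
    rintro r env'' hpre ⟨P, X', Q'', hP, hP0, hr1, hr2, hX', hQ'', hzz⟩
    have hX'' : fro (X' - P * H * Pᴴ) ≤ 8000 * c := by
      refine hX'.trans ?_
      calc 2000 * (n : ℝ) * u * fro H ≤ 2000 * (n : ℝ) * u * (4 * n) := by gcongr
        _ = 8000 * c := by rw [hc]; ring
    have hQ3 : fro (Q'' - Q' * Pᴴ) ≤ 4000 * c := by
      refine hQ''.trans ?_
      calc 2000 * (n : ℝ) * u * fro Q' ≤ 2000 * (n : ℝ) * u * (2 * n) := by gcongr
        _ = 4000 * c := by rw [hc]; ring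
    refine ⟨Q * Pᴴ, E + (Q * Pᴴ) * (X' - P * H * Pᴴ) * (Q * Pᴴ)ᴴ, X', Q'',
      hQ.mul hP.conjTranspose, hQ0.mul hP0.conjTranspose, HESS_alg hQ hP hH, ?_, ?_, hr1, hr2, ?_⟩
    · refine (HESS_fro hQ hP hE hX'').trans (le_of_eq ?_)
      push_cast; ring
    · intro i j hj hi
      exact hzz i j hj hi
    · have e : Q'' - Q * Pᴴ = (Q'' - Q' * Pᴴ) + (Q' - Q) * Pᴴ := by
        rw [Matrix.sub_mul]; abel
      rw [e]
      refine (fro_add_le _ _).trans ?_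
      rw [hP.conjTranspose.fro_mul']
      push_cast
      linarith
  · rintro ⟨a, b⟩ env' hpre ⟨Q, E, H, Q', hQ, hQ0, hH, hE, hHz, hS1, hS2, hQ'⟩
    have hk1 := hkc (n - 1) (by omega)
    have hEs : fro E ≤ s := by
      nlinarith
    obtain ⟨hop4, hrs⟩ := HESS_ctx hs1 hrow hop hQ hQ0 hEs
    rw [← hH] at hop4 hrs
    have hHess : Hess H := by
      intro i j hij
      exact hHz i j (by have := i.2; omega) hij
    refine ⟨Q, E, H, Q', hQ, hQ0, hH, ?_, hHess, hS1, hS2, ?_, ?_⟩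
    · nlinarith
    · nlinarith
    · intro k hk
      have hmn : s ≤ nv (subcol H k hk) := hmin hop4 hrs k hk
        (fun i j hj hi => hHess i j (by omega))
      refine hmn.trans (le_of_eq ?_)
      have e : ∑ i : Fin n, ‖subcol H k hk i‖ ^ 2 = ‖H ⟨k + 1, hk⟩ ⟨k, by omega⟩‖ ^ 2 := by
        rw [Finset.sum_eq_single (⟨k + 1, hk⟩ : Fin n)]
        · unfold subcol
          rw [if_neg (by simp)]
        · intro i _ hi
          unfold subcol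
          split_ifs with h5
          · simp
          · rw [hHess i ⟨k, by omega⟩ (by
              have : (i : ℕ) ≠ k + 1 := fun h => hi (Fin.ext h)
              show k + 1 < (i : ℕ)
              omega)]
            simp
        · intro h; exact absurd (Finset.mem_univ _) h
      unfold nv
      rw [e, Real.sqrt_sq (norm_nonneg _)]

end H6LP
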