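import Pool.Agent.H6.LP.HSTEP

/-!
# HMIN: the subcolumns of a partially reduced matrix are not small (pure linear algebra)

Let `B` be the lower right block (rows and columns `> k`), `y` a left eigenvector of `B`: `yᵀ B = z yᵀ`,
`|z| ≤ 4` (`OpLe X 4`).  Extend `y` by zeros to `x` (first coordinate `0`).  Then `xᵀ (z - X)` vanishes except
in the column `k`, where it is `- yᵀ (subcol)`.  So `s ‖y‖ ≤ ‖y‖ ‖subcol‖`.
(A left eigenvector: `Module.End.exists_eigenvalue` for `Bᵀ` over ℂ; the block is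
`fun i j : Fin (n-k-1) => X ⟨i+k+1,_⟩ ⟨j+k+1,_⟩`, or use a subtype index.)
-/

set_option autoImplicit false

open Complex Matrix

namespace H6LP

theorem hmin {n : ℕ} {X : Matrix (Fin n) (Fin n) ℂ} {s : ℝ} (hop : OpLe X 4) (hr : RowLB X s)
    (k : ℕ) (hk : k + 1 < n)
    (hz : ∀ i j : Fin n, (j : ℕ) < k → k < (i : ℕ) → X i j = 0) :
    s ≤ nv (subcol X k hk) := by
  classical
  let W : Submodule ℂ (Fin n → ℂ) :=
    { carrier := {x | ∀ i : Fin n, (i : ℕ) ≤ k → x i = 0}
      add_mem' := by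
        intro a b ha hb i hi
        simp only [Pi.add_apply]
        rw [ha i hi, hb i hi, add_zero]
      zero_mem' := by intro i _; rfl
      smul_mem' := by
        intro c x hx i hi
        simp only [Pi.smul_apply, smul_eq_mul]
        rw [hx i hi, mul_zero] }
  let T : (Fin n → ℂ) →ₗ[ℂ] (Fin n → ℂ) :=
    { toFun := fun x j => if (j : ℕ) ≤ k then 0 else (x ᵥ* X) j
      map_add' := by
        intro a b
        funext j
        by_cases hj : (j : ℕ) ≤ k
        · simp [hj]
        · simp [hj, Matrix.add_vecMul]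
      map_smul' := by
        intro c x
        funext j
        by_cases hj : (j : ℕ) ≤ k
        · simp [hj]
        · simp [hj, Matrix.smul_vecMul] }
  have hT : ∀ x ∈ W, T x ∈ W := by
    intro x _ i hi
    change (if (i : ℕ) ≤ k then (0 : ℂ) else (x ᵥ* X) i) = 0
    rw [if_pos hi]
  have hWn : Nontrivial W := by
    refine ⟨⟨⟨Pi.single (⟨k + 1, hk⟩ : Fin n) (1 : ℂ), ?_⟩, 0, ?_⟩⟩
    · intro i hi
      refine Pi.single_eq_of_ne ?_ _
      intro h
      rw [h] at hi
      simp at hi
    · intro h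
      have h1 := congrArg (fun w : W => (w : Fin n → ℂ) ⟨k + 1, hk⟩) h
      simp at h1
  obtain ⟨z, hz0⟩ := Module.End.exists_eigenvalue (T.restrict hT)
  obtain ⟨w, hw⟩ := hz0.exists_hasEigenvector
  have hTw : (T.restrict hT) w = z • w := hw.apply_eq_smul
  have hwne : (w : Fin n → ℂ) ≠ 0 := by
    intro h
    exact hw.2 (Subtype.ext h)
  have hx0 : ∀ i : Fin n, (i : ℕ) ≤ k → (w : Fin n → ℂ) i = 0 := w.2
  have hcol : ∀ j : Fin n, k < (j : ℕ) → ((w : Fin n → ℂ) ᵥ* X) j = z * (w : Fin n → ℂ) j := by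
    intro j hj
    have h1 := congrArg (fun v : W => (v : Fin n → ℂ) j) hTw
    have h2 : (if (j : ℕ) ≤ k then (0 : ℂ) else ((w : Fin n → ℂ) ᵥ* X) j)
        = z * (w : Fin n → ℂ) j := h1
    rwa [if_neg (by omega)] at h2
  generalize (w : Fin n → ℂ) = x at hwne hx0 hcol
  have hpos : 0 < nv x := nv_pos hwne
  have hzle : ‖z‖ ≤ 4 := by
    have h1 : nv (z • x) ≤ nv (x ᵥ* X) := by
      refine nv_mono (fun j => ?_)
      by_cases hj : (j : ℕ) ≤ k
      · simp [hx0 j hj]
      · rw [hcol j (by omega)]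
        simp
    have h2 : nv (x ᵥ* X) ≤ 4 * nv x := OpLe.vecMul (by norm_num) hop x
    rw [nv_smul] at h1
    exact le_of_mul_le_mul_right (h1.trans h2) hpos
  have hmain := hr z hzle x (fun i hi => hx0 i (by omega))
  have hval : x ᵥ* (z • (1 : Matrix (Fin n) (Fin n) ℂ) - X)
      = Pi.single (⟨k, by omega⟩ : Fin n) (-(x ⬝ᵥ subcol X k hk)) := by
    funext j
    have hj0 : (x ᵥ* (z • (1 : Matrix (Fin n) (Fin n) ℂ) - X)) j = z * x j - (x ᵥ* X) j := by
      rw [Matrix.vecMul_sub, Matrix.vecMul_smul, Matrix.vecMul_one]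
      rfl
    rw [hj0]
    rcases lt_trichotomy (j : ℕ) k with hj | hj | hj
    · have hne : j ≠ (⟨k, by omega⟩ : Fin n) := by
        intro h
        rw [h] at hj
        simp at hj
      rw [Pi.single_eq_of_ne hne, hx0 j hj.le]
      have : (x ᵥ* X) j = 0 := by
        change ∑ i, x i * X i j = 0
        refine Finset.sum_eq_zero (fun i _ => ?_)
        by_cases hi : (i : ℕ) ≤ k
        · rw [hx0 i hi, zero_mul]
        · rw [hz i j hj (by omega), mul_zero]
      rw [this]
      ring
    · have hjk : j = (⟨k, by omega⟩ : Fin n) := Fin.ext hj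
      rw [hjk, Pi.single_eq_same, hx0 _ le_rfl]
      have : (x ᵥ* X) (⟨k, by omega⟩ : Fin n) = x ⬝ᵥ subcol X k hk := by
        change ∑ i, x i * X i (⟨k, by omega⟩ : Fin n) = ∑ i, x i * subcol X k hk i
        refine Finset.sum_congr rfl (fun i _ => ?_)
        unfold subcol
        by_cases hi : (i : ℕ) ≤ k
        · rw [hx0 i hi]
          simp
        · rw [if_neg hi]
      rw [this]
      ring
    · have hne : j ≠ (⟨k, by omega⟩ : Fin n) := by
        intro h
        rw [h] at hj
        simp at hj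
      rw [Pi.single_eq_of_ne hne, hcol j hj, sub_self]
  rw [hval, nv_single, norm_neg] at hmain
  have h3 := hmain.trans (norm_dotProduct_le x (subcol X k hk))
  rw [mul_comm (nv x)] at h3
  exact le_of_mul_le_mul_right h3 hpos

end H6LP
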