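import Pool.Agent.H6.LP.NB

/-!
# HOUSE: the exact Householder matrix

`y` a unit vector, `β = ±1` with `β Re (y p) ≤ 0`, `v = y - β e_p`, `τ = 1/(1 - β y_p)`.
`vᴴ v = 2 - 2 β Re y_p = 2 Re (1/τ)`, so `1 - τ v vᴴ` is unitary (`τ + τ̄ = |τ|² vᴴ v`);
`vᴴ y = 1 - β y_p = 1/τ`, so `(1 - τ v vᴴ) y = y - v = β e_p`.
-/

set_option autoImplicit false

open Complex Matrix

namespace H6LP

variable {n : ℕ}

theorem hhM_mulVec (v : Fin n → ℂ) (t : ℂ) (x : Fin n → ℂ) :
    hhM v t *ᵥ x = x - (t * (star v ⬝ᵥ x)) • v := by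
  unfold hhM
  rw [Matrix.sub_mulVec, Matrix.one_mulVec, Matrix.smul_mulVec, Matrix.vecMulVec_mulVec]
  congr 1
  funext i
  simp only [Pi.smul_apply, smul_eq_mul, MulOpposite.smul_eq_mul_unop, MulOpposite.unop_op]
  ring

theorem HOUSE_sum_sq {y : Fin n → ℂ} (hy : nv y = 1) : star y ⬝ᵥ y = 1 := by
  rw [star_dot_self, hy]; norm_num

theorem HOUSE_hv_eq (y : Fin n → ℂ) (p : Fin n) (β : ℝ) :
    hv y p β = y - Pi.single p (β : ℂ) := by
  funext i
  unfold hv
  by_cases h : i = p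
  · subst h; simp
  · simp [h]

theorem HOUSE_star_hv_dot {y : Fin n → ℂ} {p : Fin n} {β : ℝ} (hy : nv y = 1) :
    star (hv y p β) ⬝ᵥ y = 1 - β * y p := by
  rw [HOUSE_hv_eq, star_sub, sub_dotProduct, HOUSE_sum_sq hy]
  congr 1
  rw [dotProduct, Finset.sum_eq_single p]
  · simp
  · intro i _ hi
    simp [hi]
  · intro h; exact absurd (Finset.mem_univ p) h

theorem HOUSE_dot_single (x : Fin n → ℂ) (p : Fin n) (c : ℂ) :
    x ⬝ᵥ Pi.single p c = x p * c := by
  rw [dotProduct_single]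

theorem HOUSE_star_hv_self {y : Fin n → ℂ} {p : Fin n} {β : ℝ} (hy : nv y = 1)
    (hβ : β = 1 ∨ β = -1) :
    star (hv y p β) ⬝ᵥ (hv y p β) = ((2 - 2 * (β * (y p).re) : ℝ) : ℂ) := by
  have h1 : star (hv y p β) ⬝ᵥ (hv y p β) =
      star (hv y p β) ⬝ᵥ y - star (hv y p β) ⬝ᵥ Pi.single p (β : ℂ) := by
    conv_lhs => rw [HOUSE_hv_eq y p β]
    rw [dotProduct_sub, ← HOUSE_hv_eq]
  rw [h1, HOUSE_star_hv_dot hy, HOUSE_dot_single]
  have h2 : (star (hv y p β)) p = (starRingEnd ℂ) (y p) - β := by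
    simp [hv]
  rw [h2]
  have hb : (β : ℂ) * β = 1 := by
    rcases hβ with h | h <;> rw [h] <;> norm_num
  apply Complex.ext
  · have hb' : β * β = 1 := by exact_mod_cast hb
    simp only [Complex.sub_re, Complex.mul_re, Complex.ofReal_re, Complex.ofReal_im, Complex.one_re,
      Complex.conj_re, Complex.conj_im, Complex.sub_im]
    nlinarith
  · simp only [Complex.sub_im, Complex.mul_im, Complex.ofReal_re, Complex.ofReal_im, Complex.one_im,
      Complex.conj_re, Complex.conj_im, Complex.sub_re]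
    ring

theorem HOUSE_hv_sq {y : Fin n → ℂ} {p : Fin n} {β : ℝ} (hy : nv y = 1)
    (hβ : β = 1 ∨ β = -1) : nv (hv y p β) ^ 2 = 2 - 2 * (β * (y p).re) := by
  have h1 := star_dot_self (hv y p β)
  rw [HOUSE_star_hv_self hy hβ] at h1
  exact_mod_cast h1.symm

theorem hv_norm {y : Fin n → ℂ} {p : Fin n} {β : ℝ} (hy : nv y = 1) (hβ : β = 1 ∨ β = -1)
    (hp : β * (y p).re ≤ 0) : nv (hv y p β) ≤ 2 := by
  apply NB_sq_le (by norm_num)
  rw [HOUSE_hv_sq hy hβ]
  have h1 : |(y p).re| ≤ 1 := (Complex.abs_re_le_norm _).trans ((norm_le_nv y p).trans (le_of_eq hy))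
  have h2 := abs_le.1 h1
  rcases hβ with h | h <;> rw [h] <;> nlinarith

theorem HOUSE_den {y : Fin n → ℂ} {p : Fin n} {β : ℝ} (hp : β * (y p).re ≤ 0) :
    1 ≤ (1 - β * y p : ℂ).re := by
  simp only [Complex.sub_re, Complex.mul_re, Complex.ofReal_re, Complex.ofReal_im, Complex.one_re]
  linarith

theorem HOUSE_den_norm {y : Fin n → ℂ} {p : Fin n} {β : ℝ} (hp : β * (y p).re ≤ 0) :
    1 ≤ ‖(1 - β * y p : ℂ)‖ :=
  (HOUSE_den hp).trans (Complex.re_le_norm _)

theorem ht_norm {y : Fin n → ℂ} {p : Fin n} {β : ℝ} (hp : β * (y p).re ≤ 0) : ‖ht y p β‖ ≤ 1 := by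
  unfold ht
  rw [norm_div, norm_one]
  exact (div_le_one (lt_of_lt_of_le one_pos (HOUSE_den_norm hp))).2 (HOUSE_den_norm hp)

theorem HOUSE_ht_ne {y : Fin n → ℂ} {p : Fin n} {β : ℝ} (hp : β * (y p).re ≤ 0) :
    (1 - β * y p : ℂ) ≠ 0 := by
  intro h
  have := HOUSE_den_norm hp
  rw [h, norm_zero] at this
  linarith

theorem house_uni {y : Fin n → ℂ} {p : Fin n} {β : ℝ} (hy : nv y = 1) (hβ : β = 1 ∨ β = -1)
    (hp : β * (y p).re ≤ 0) : Uni (hhM (hv y p β) (ht y p β)) := by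
  unfold Uni
  set v := hv y p β with hv_def
  set t := ht y p β with ht_def
  have hvv : star v ⬝ᵥ v = ((2 - 2 * (β * (y p).re) : ℝ) : ℂ) := HOUSE_star_hv_self hy hβ
  have hne := HOUSE_ht_ne hp
  have ht1 : t * (1 - β * y p) = 1 := by
    rw [ht_def]; unfold ht
    field_simp
  have ht2 : (starRingEnd ℂ) t * (1 - β * (starRingEnd ℂ) (y p)) = 1 := by
    have := congrArg (starRingEnd ℂ) ht1
    simpa using this
  have hkey : t + (starRingEnd ℂ) t = (starRingEnd ℂ) t * t * (star v ⬝ᵥ v) := by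
    have h3 : (((2 - 2 * (β * (y p).re) : ℝ)) : ℂ) =
        (1 - β * y p) + (1 - β * (starRingEnd ℂ) (y p)) := by
      have h4 : ((y p).re : ℂ) = (y p + (starRingEnd ℂ) (y p)) / 2 := by
        rw [Complex.add_conj]; push_cast; ring
      push_cast
      rw [h4]; ring
    rw [hvv, h3]
    linear_combination (-((starRingEnd ℂ) t)) * ht1 + (-t) * ht2
  have hct : (hhM v t)ᴴ = 1 - (starRingEnd ℂ) t • Matrix.vecMulVec v (star v) := by
    unfold hhM
    rw [Matrix.conjTranspose_sub, Matrix.conjTranspose_one, Matrix.conjTranspose_smul,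
      Matrix.conjTranspose_vecMulVec, star_star]
    rfl
  rw [hct]
  unfold hhM
  have hmm : Matrix.vecMulVec v (star v) * Matrix.vecMulVec v (star v) =
      (star v ⬝ᵥ v) • Matrix.vecMulVec v (star v) := by
    ext i j
    simp only [Matrix.mul_apply, Matrix.vecMulVec_apply, Matrix.smul_apply, smul_eq_mul, dotProduct]
    rw [Finset.sum_mul]
    refine Finset.sum_congr rfl fun k _ => ?_
    ring
  rw [sub_mul, mul_sub, mul_sub, one_mul, mul_one, one_mul, smul_mul_smul_comm, hmm, smul_smul]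
  rw [← hkey, add_smul]
  abel

theorem house_mulVec {y : Fin n → ℂ} {p : Fin n} {β : ℝ} (hy : nv y = 1) (hβ : β = 1 ∨ β = -1)
    (hp : β * (y p).re ≤ 0) :
    hhM (hv y p β) (ht y p β) *ᵥ y = fun i => if i = p then (β : ℂ) else 0 := by
  rw [hhM_mulVec, HOUSE_star_hv_dot hy]
  have hne := HOUSE_ht_ne hp
  have ht1 : ht y p β * (1 - β * y p) = 1 := by
    unfold ht
    field_simp
  rw [ht1, one_smul]
  funext i
  unfold hv
  simp only [Pi.sub_apply]
  by_cases h : i = p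
  · simp [h]
  · simp [h]

/-- row and column `i` of `1 - τ v vᴴ` are those of the identity if `v i = 0` -/
theorem hhM_row_of_zero {v : Fin n → ℂ} {t : ℂ} {i : Fin n} (h : v i = 0) (j : Fin n) :
    hhM v t i j = if i = j then 1 else 0 := by
  unfold hhM
  simp [Matrix.sub_apply, Matrix.smul_apply, Matrix.vecMulVec_apply, h, Matrix.one_apply]

theorem hhM_col_of_zero {v : Fin n → ℂ} {t : ℂ} {j : Fin n} (h : v j = 0) (i : Fin n) :
    hhM v t i j = if i = j then 1 else 0 := by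
  unfold hhM
  simp [Matrix.sub_apply, Matrix.smul_apply, Matrix.vecMulVec_apply, h, Matrix.one_apply]

/-- perturbation -/
theorem fro_hhM_sub_le {v v' : Fin n → ℂ} {t t' : ℂ} {ε : ℝ} (hv : nv v ≤ 2) (ht : ‖t‖ ≤ 1)
    (hv' : nv (v' - v) ≤ ε) (ht' : ‖t' - t‖ ≤ ε) (hε : ε ≤ 1 / 10) :
    fro (hhM v' t' - hhM v t) ≤ 10 * ε := by
  have hε0 : 0 ≤ ε := (norm_nonneg _).trans ht'
  have h1 : hhM v' t' - hhM v t = (t - t') • Matrix.vecMulVec v (star v) -
      t' • (Matrix.vecMulVec (v' - v) (star v) + Matrix.vecMulVec v' (star (v' - v))) := by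
    ext i j
    simp only [hhM, Matrix.sub_apply, Matrix.smul_apply, Matrix.vecMulVec_apply, smul_eq_mul,
      Matrix.add_apply, Pi.sub_apply, star_sub, Pi.star_apply]
    ring
  have hnv' : nv v' ≤ 2 + ε := by
    have h2 := nv_add_le (v' - v) v
    rw [sub_add_cancel] at h2
    linarith
  have hnt' : ‖t'‖ ≤ 1 + ε := by
    have h2 := norm_add_le (t' - t) t
    rw [sub_add_cancel] at h2
    linarith
  rw [h1]
  refine (fro_sub_le _ _).trans ?_
  rw [fro_smul, fro_smul, fro_vecMulVec, nv_star, norm_sub_rev]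
  have h3 : fro (Matrix.vecMulVec (v' - v) (star v) + Matrix.vecMulVec v' (star (v' - v))) ≤
      ε * 2 + (2 + ε) * ε := by
    refine (fro_add_le _ _).trans ?_
    rw [fro_vecMulVec, fro_vecMulVec, nv_star, nv_star]
    have a1 := nv_nonneg v
    have a2 := nv_nonneg (v' - v)
    have a3 := nv_nonneg v'
    have b1 : nv (v' - v) * nv v ≤ ε * 2 := mul_le_mul hv' hv a1 hε0
    have b2 : nv v' * nv (v' - v) ≤ (2 + ε) * ε := mul_le_mul hnv' hv' a2 (by linarith)
    linarith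
  have h4 : ‖t' - t‖ * (nv v * nv v) ≤ ε * 4 := by
    refine mul_le_mul ht' ?_ (mul_nonneg (nv_nonneg v) (nv_nonneg v)) hε0
    nlinarith [nv_nonneg v]
  have h5 : ‖t'‖ * fro (Matrix.vecMulVec (v' - v) (star v) + Matrix.vecMulVec v' (star (v' - v))) ≤
      (1 + ε) * (ε * 2 + (2 + ε) * ε) := mul_le_mul hnt' h3 (fro_nonneg _) (by linarith)
  have h6 : (1 + ε) * (ε * 2 + (2 + ε) * ε) ≤ 6 * ε := by
    nlinarith [mul_nonneg hε0 hε0, mul_nonneg hε0 (sub_nonneg.2 hε)]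
  linarith

end H6LP
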