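import Pool.Agent.H6.LP.DOT

/-!
# LMUL: the error of `lmulP`

`w_j = (vᴴ X)_j (error ≤ 4nu ‖v‖‖X_j‖)`, `tv_i = τ v_i (1+e)`, the product, the difference.  Entrywise
`‖X'_ij - (X_ij - τ v_i (vᴴX)_j)‖ ≤ 73 n u ‖v_i‖ nv X_j + u ‖X_ij‖`.
-/

set_option autoImplicit false

open Complex Matrix

namespace H6LP

theorem LMUL_prod {u : ℝ} (hu : 0 ≤ u) (hu1 : u ≤ 1) {P Q p g : ℂ} (hp : ‖p - P‖ ≤ u * ‖P‖)
    (hg : ‖g - p * Q‖ ≤ u * ‖p * Q‖) : ‖g - P * Q‖ ≤ 3 * u * ‖P * Q‖ := by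
  have h1 : ‖p‖ ≤ (1 + u) * ‖P‖ := by
    have : ‖p‖ ≤ ‖p - P‖ + ‖P‖ := by simpa using norm_add_le (p - P) P
    linarith
  have h2 : ‖g - P * Q‖ ≤ ‖g - p * Q‖ + ‖p - P‖ * ‖Q‖ := by
    have h3 : g - P * Q = (g - p * Q) + (p - P) * Q := by ring
    rw [h3]
    refine (norm_add_le _ _).trans ?_
    rw [norm_mul (p - P) Q]
  rw [norm_mul] at hg ⊢
  have h4 : u * (‖p‖ * ‖Q‖) ≤ u * ((1 + u) * ‖P‖ * ‖Q‖) := by gcongr
  have h5 : ‖p - P‖ * ‖Q‖ ≤ u * ‖P‖ * ‖Q‖ := by gcongr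
  have h6 : 0 ≤ ‖P‖ * ‖Q‖ := by positivity
  have h7 : u * ((1 + u) * ‖P‖ * ‖Q‖) ≤ 2 * u * (‖P‖ * ‖Q‖) := by
    have : u * ((1 + u) * ‖P‖ * ‖Q‖) = (u * (1 + u)) * (‖P‖ * ‖Q‖) := by ring
    rw [this]
    apply mul_le_mul_of_nonneg_right _ h6
    nlinarith
  nlinarith

theorem LMUL_entry {u N c : ℝ} (hu : 0 ≤ u) (hN : 1 ≤ N) (hNu : N * u ≤ 1 / 1000) (hc : 0 ≤ c)
    {T V d W g x x' : ℂ} (hT : ‖T‖ ≤ 3) (hd : ‖d‖ ≤ 3 * c) (hW : ‖W - d‖ ≤ 12 * N * u * c)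
    (hg : ‖g - T * V * W‖ ≤ 3 * u * ‖T * V * W‖) (hx : ‖x' - (x - g)‖ ≤ u * ‖x - g‖) :
    ‖x' - (x - T * V * d)‖ ≤ 73 * N * u * (‖V‖ * c) + u * ‖x‖ := by
  have huN : u ≤ N * u := by nlinarith
  have hA : 0 ≤ ‖V‖ := norm_nonneg V
  have hAc : 0 ≤ ‖V‖ * c := mul_nonneg hA hc
  have hWn : ‖W‖ ≤ (3 + 12 * (N * u)) * c := by
    have : ‖W‖ ≤ ‖W - d‖ + ‖d‖ := by simpa using norm_add_le (W - d) d
    nlinarith
  have hWn' : ‖W‖ ≤ 3.012 * c := by nlinarith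
  have h1 : ‖T * V * W‖ ≤ 9.04 * (‖V‖ * c) := by
    rw [norm_mul, norm_mul]
    calc ‖T‖ * ‖V‖ * ‖W‖ ≤ 3 * ‖V‖ * (3.012 * c) := by gcongr
      _ ≤ 9.04 * (‖V‖ * c) := by nlinarith
  have h2 : ‖g - T * V * W‖ ≤ 27.2 * (N * u) * (‖V‖ * c) := by
    calc ‖g - T * V * W‖ ≤ 3 * u * ‖T * V * W‖ := hg
      _ ≤ 3 * u * (9.04 * (‖V‖ * c)) := by gcongr
      _ = 27.12 * u * (‖V‖ * c) := by ring
      _ ≤ 27.2 * (N * u) * (‖V‖ * c) := by
        apply mul_le_mul_of_nonneg_right _ hAc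
        nlinarith
  have h3 : ‖T * V * W - T * V * d‖ ≤ 36 * (N * u) * (‖V‖ * c) := by
    rw [← mul_sub, norm_mul, norm_mul]
    calc ‖T‖ * ‖V‖ * ‖W - d‖ ≤ 3 * ‖V‖ * (12 * N * u * c) := by gcongr
      _ = 36 * (N * u) * (‖V‖ * c) := by ring
  have h4 : ‖g - T * V * d‖ ≤ 63.2 * (N * u) * (‖V‖ * c) := by
    have : g - T * V * d = (g - T * V * W) + (T * V * W - T * V * d) := by ring
    rw [this]
    refine (norm_add_le _ _).trans ?_
    linarith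
  have h5 : ‖T * V * d‖ ≤ 9 * (‖V‖ * c) := by
    rw [norm_mul, norm_mul]
    calc ‖T‖ * ‖V‖ * ‖d‖ ≤ 3 * ‖V‖ * (3 * c) := by gcongr
      _ = 9 * (‖V‖ * c) := by ring
  have h6 : ‖g‖ ≤ 9.1 * (‖V‖ * c) := by
    have h7 : ‖g‖ ≤ ‖g - T * V * d‖ + ‖T * V * d‖ := by
      simpa using norm_add_le (g - T * V * d) (T * V * d)
    have h8 : 63.2 * (N * u) * (‖V‖ * c) ≤ 0.1 * (‖V‖ * c) := by
      apply mul_le_mul_of_nonneg_right _ hAc
      linarith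
    linarith
  have h9 : ‖x' - (x - g)‖ ≤ u * (‖x‖ + 9.1 * (‖V‖ * c)) := by
    refine hx.trans ?_
    apply mul_le_mul_of_nonneg_left _ hu
    exact (norm_sub_le _ _).trans (by linarith)
  have h10 : x' - (x - T * V * d) = (x' - (x - g)) - (g - T * V * d) := by ring
  rw [h10]
  refine (norm_sub_le _ _).trans ?_
  have h11 : u * (9.1 * (‖V‖ * c)) ≤ 9.1 * (N * u) * (‖V‖ * c) := by
    have : u * (9.1 * (‖V‖ * c)) = (9.1 * u) * (‖V‖ * c) := by ring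
    rw [this]
    apply mul_le_mul_of_nonneg_right _ hAc
    linarith
  have h12 : 0 ≤ (N * u) * (‖V‖ * c) := by positivity
  nlinarith

theorem LMUL_vec {n : ℕ} {u N c : ℝ} (hu : 0 ≤ u) (hN : 1 ≤ N) (hc : 0 ≤ c)
    {V e X : Fin n → ℂ} (hV : nv V ≤ 3) (hX : nv X ≤ c)
    (he : ∀ i, ‖e i‖ ≤ 73 * N * u * (‖V i‖ * c) + u * ‖X i‖) :
    nv e ≤ 250 * N * u * c := by
  have h1 : nv e ≤ nv (fun i => (((73 * N * u * c : ℝ) : ℂ) • (fun i => ((‖V i‖ : ℝ) : ℂ))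
      + ((u : ℝ) : ℂ) • (fun i => ((‖X i‖ : ℝ) : ℂ))) i) := by
    apply nv_mono
    intro i
    refine (he i).trans ?_
    simp only [Pi.add_apply, Pi.smul_apply, smul_eq_mul]
    rw [← Complex.ofReal_mul, ← Complex.ofReal_mul, ← Complex.ofReal_add, Complex.norm_real,
      Real.norm_eq_abs]
    refine le_trans (le_of_eq ?_) (le_abs_self _)
    ring
  refine h1.trans ?_
  refine (nv_add_le _ _).trans ?_
  rw [nv_smul, nv_smul, Complex.norm_real, Complex.norm_real, Real.norm_eq_abs, Real.norm_eq_abs,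
    abs_of_nonneg hu, abs_of_nonneg (by positivity : 0 ≤ 73 * N * u * c)]
  have h2 : nv (fun i => ((‖V i‖ : ℝ) : ℂ)) ≤ 3 := by
    refine le_trans (nv_mono fun i => ?_) hV
    simp
  have h3 : nv (fun i => ((‖X i‖ : ℝ) : ℂ)) ≤ c := by
    refine le_trans (nv_mono fun i => ?_) hX
    simp
  have h4 : 73 * N * u * c * nv (fun i => ((‖V i‖ : ℝ) : ℂ)) ≤ 73 * N * u * c * 3 := by
    gcongr
  have h5 : u * nv (fun i => ((‖X i‖ : ℝ) : ℂ)) ≤ u * c := by gcongr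
  have h6 : u * c ≤ N * u * c := by
    have : 0 ≤ u * c := mul_nonneg hu hc
    nlinarith
  have h7 : 0 ≤ N * u * c := by positivity
  nlinarith

theorem LMUL_nv_star {n : ℕ} (V : Fin n → ℂ) : nv (fun i => (starRingEnd ℂ) (V i)) = nv V := by
  unfold nv
  simp

theorem post_lmul {ad : Adv} {u : ℝ} (hu : ad.Le u) {n m : ℕ} (hn : 1 ≤ n) (hnu : n * u ≤ 1 / 1000)
    {env : Env} {v : RVec n} {t : ℕ} {x : RMat n m} {V : Fin n → ℂ} {T : ℂ}
    {X : Matrix (Fin n) (Fin m) ℂ} (hv : HasV env v V) (ht : Has env t T) (hx : HasM env x X)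
    (hV : nv V ≤ 3) (hT : ‖T‖ ≤ 3) :
    Post ad (lmulP v t x) env (fun x' env' => ∃ X' : Matrix (Fin n) (Fin m) ℂ, HasM env' x' X' ∧
      fro (X' - hhM V T * X) ≤ 250 * n * u * fro X) := by
  have hu0 : 0 ≤ u := hu.nonneg
  have hN : (1 : ℝ) ≤ n := by exact_mod_cast hn
  have hu1 : u ≤ 1 := by nlinarith
  unfold lmulP
  refine Post.bind (post_vecM n _ env (fun i r env' => Has env' r ((starRingEnd ℂ) (V i)))
    (fun i b env1 env2 h12 h => h.mono h12)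
    (fun i env' h' => post_conj ((hv i).mono h'))) ?_
  intro vc env1 h1 hvc
  refine Post.bind (post_vecM n _ env1 (fun i r env' => ∃ z, Has env' r z ∧ Rel u (T * V i) z)
    (fun i b env1 env2 h12 ⟨z, hz, hr⟩ => ⟨z, hz.mono h12, hr⟩)
    (fun i env' h' => post_mul hu (ht.mono (h1.trans h')) ((hv i).mono (h1.trans h')))) ?_
  intro tv env2 h2 htv
  refine Post.bind (post_vecM m _ env2 (fun j r env' => ∃ z, Has env' r z ∧
      ‖z - (fun i => (starRingEnd ℂ) (V i)) ⬝ᵥ (fun i => X i j)‖ ≤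
        4 * n * u * (nv (fun i => (starRingEnd ℂ) (V i)) * nv (fun i => X i j)))
    (fun i b env1 env2 h12 ⟨z, hz, hr⟩ => ⟨z, hz.mono h12, hr⟩)
    (fun j env' h' => post_dot' hu hn (by linarith)
      (HasV.mono (fun i => hvc i) (h2.trans h'))
      (fun i => (hx i j).mono (h1.trans (h2.trans h'))))) ?_
  intro w env3 h3 hw
  choose TV hTV hTVr using htv
  choose W hW hWr using hw
  refine Post.weaken (post_matM n m _ env3 (fun i j r env' => ∃ z, Has env' r z ∧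
      ∃ g, ‖g - TV i * W j‖ ≤ u * ‖TV i * W j‖ ∧ ‖z - (X i j - g)‖ ≤ u * ‖X i j - g‖)
    (fun i j b env1 env2 h12 ⟨z, hz, hr⟩ => ⟨z, hz.mono h12, hr⟩)
    (fun i j env' h' => ?_)) ?_
  · refine Post.bind (post_mul hu ((hTV i).mono (h3.trans h')) ((hW j).mono h')) ?_
    rintro g env4 h4 ⟨G, hG, hGr⟩
    refine Post.weaken (post_sub hu ((hx i j).mono (h1.trans (h2.trans (h3.trans (h'.trans h4)))))
      hG) ?_
    rintro r env5 _ ⟨z, hz, hzr⟩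
    exact ⟨z, hz, G, hGr, hzr⟩
  · intro x' env' _ hx'
    choose X0 hX' G hG hXG using hx'
    obtain ⟨X', rfl⟩ : ∃ Y : Matrix (Fin n) (Fin m) ℂ, Y = X0 := ⟨X0, rfl⟩
    refine ⟨X', hX', ?_⟩
    apply fro_le_of_cols (by positivity)
    intro j
    have hc : 0 ≤ nv (fun i => X i j) := nv_nonneg _
    refine LMUL_vec hu0 hN hc hV le_rfl (fun i => ?_)
    have hent : (X' - hhM V T * X) i j
        = X' i j - (X i j - T * V i * ((fun i => (starRingEnd ℂ) (V i)) ⬝ᵥ (fun i => X i j))) := by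
      rw [Matrix.sub_apply]
      congr 1
      unfold hhM
      rw [Matrix.sub_mul, Matrix.one_mul, Matrix.sub_apply, Matrix.smul_mul, Matrix.smul_apply,
        Matrix.mul_apply]
      congr 1
      rw [smul_eq_mul, dotProduct, Finset.mul_sum, Finset.mul_sum]
      apply Finset.sum_congr rfl
      intro k _
      rw [Matrix.vecMulVec_apply, Pi.star_apply]
      simp only [RCLike.star_def]
      ring
    rw [hent]
    apply LMUL_entry hu0 hN hnu hc hT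
    · refine (norm_dotProduct_le _ _).trans ?_
      rw [LMUL_nv_star]
      exact mul_le_mul_of_nonneg_right hV hc
    · refine (hWr j).trans ?_
      rw [LMUL_nv_star]
      calc 4 * (n : ℝ) * u * (nv V * nv (fun i => X i j))
          ≤ 4 * (n : ℝ) * u * (3 * nv (fun i => X i j)) := by gcongr
        _ = 12 * n * u * nv (fun i => X i j) := by ring
    · exact LMUL_prod hu0 hu1 (hTVr i) (hG i j)
    · exact hXG i j

end H6LP
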