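import Pool.Agent.H6.LP.LMUL

/-!
# RMUL: the error of `rmulP`

The same as LMUL with rows: `X (1 - τ v vᴴ)ᴴ = X - τ̄ (X v) vᴴ`.
-/

set_option autoImplicit false

open Complex Matrix

namespace H6LP

theorem post_rmul {ad : Adv} {u : ℝ} (hu : ad.Le u) {n m : ℕ} (hn : 1 ≤ n) (hnu : n * u ≤ 1 / 1000)
    {env : Env} {v : RVec n} {t : ℕ} {x : RMat m n} {V : Fin n → ℂ} {T : ℂ}
    {X : Matrix (Fin m) (Fin n) ℂ} (hv : HasV env v V) (ht : Has env t T) (hx : HasM env x X)
    (hV : nv V ≤ 3) (hT : ‖T‖ ≤ 3) :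
    Post ad (rmulP v t x) env (fun x' env' => ∃ X' : Matrix (Fin m) (Fin n) ℂ, HasM env' x' X' ∧
      fro (X' - X * (hhM V T)ᴴ) ≤ 250 * n * u * fro X) := by
  have hu0 : 0 ≤ u := hu.nonneg
  have hN : (1 : ℝ) ≤ n := by exact_mod_cast hn
  have hu1 : u ≤ 1 := by nlinarith
  unfold rmulP
  refine Post.bind (post_vecM n _ env (fun i r env' => Has env' r ((starRingEnd ℂ) (V i)))
    (fun i b env1 env2 h12 h => h.mono h12)
    (fun i env' h' => post_conj ((hv i).mono h'))) ?_
  intro vc env1 h1 hvc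
  refine Post.bind (post_conj (ht.mono h1)) ?_
  intro tc env2 h2 htc
  refine Post.bind (post_vecM m _ env2 (fun i r env' => ∃ z, Has env' r z ∧
      ‖z - (X i) ⬝ᵥ V‖ ≤ 4 * n * u * (nv (X i) * nv V))
    (fun i b env1 env2 h12 ⟨z, hz, hr⟩ => ⟨z, hz.mono h12, hr⟩)
    (fun i env' h' => post_dot' hu hn (by linarith)
      (fun j => (hx i j).mono (h1.trans (h2.trans h')))
      (hv.mono (h1.trans (h2.trans h'))))) ?_
  intro w env3 h3 hw
  choose W hW hWr using hw
  refine Post.bind (post_vecM m _ env3 (fun i r env' => ∃ z, Has env' r z ∧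
      Rel u ((starRingEnd ℂ) T * W i) z)
    (fun i b env1 env2 h12 ⟨z, hz, hr⟩ => ⟨z, hz.mono h12, hr⟩)
    (fun i env' h' => post_mul hu (htc.mono (h3.trans h')) ((hW i).mono h'))) ?_
  intro tw env4 h4 htw
  choose TW hTW hTWr using htw
  refine Post.weaken (post_matM m n _ env4 (fun i j r env' => ∃ z, Has env' r z ∧
      ∃ g, ‖g - TW i * (starRingEnd ℂ) (V j)‖ ≤ u * ‖TW i * (starRingEnd ℂ) (V j)‖ ∧
        ‖z - (X i j - g)‖ ≤ u * ‖X i j - g‖)
    (fun i j b env1 env2 h12 ⟨z, hz, hr⟩ => ⟨z, hz.mono h12, hr⟩)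
    (fun i j env' h' => ?_)) ?_
  · refine Post.bind (post_mul hu ((hTW i).mono h')
      ((hvc j).mono (h2.trans (h3.trans (h4.trans h'))))) ?_
    rintro g env5 h5 ⟨G, hG, hGr⟩
    refine Post.weaken (post_sub hu
      ((hx i j).mono (h1.trans (h2.trans (h3.trans (h4.trans (h'.trans h5)))))) hG) ?_
    rintro r env6 _ ⟨z, hz, hzr⟩
    exact ⟨z, hz, G, hGr, hzr⟩
  · intro x' env' _ hx'
    choose X0 hX' G hG hXG using hx'
    obtain ⟨X', rfl⟩ : ∃ Y : Matrix (Fin m) (Fin n) ℂ, Y = X0 := ⟨X0, rfl⟩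
    refine ⟨X', hX', ?_⟩
    apply fro_le_of_rows (by positivity)
    intro i
    have hc : 0 ≤ nv (X i) := nv_nonneg _
    have hTn : ‖(starRingEnd ℂ) T‖ ≤ 3 := by rw [RCLike.norm_conj]; exact hT
    refine LMUL_vec hu0 hN hc (V := fun j => (starRingEnd ℂ) (V j)) (X := X i)
      (by rw [LMUL_nv_star]; exact hV) le_rfl (fun j => ?_)
    have hent : (X' - X * (hhM V T)ᴴ) i j
        = X' i j - (X i j - (starRingEnd ℂ) T * (starRingEnd ℂ) (V j) * (X i ⬝ᵥ V)) := by
      rw [Matrix.sub_apply]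
      congr 1
      unfold hhM
      rw [Matrix.conjTranspose_sub, Matrix.conjTranspose_one, Matrix.conjTranspose_smul,
        Matrix.mul_sub, Matrix.mul_one, Matrix.sub_apply, Matrix.mul_smul, Matrix.smul_apply,
        Matrix.mul_apply]
      congr 1
      rw [smul_eq_mul, dotProduct, Finset.mul_sum, Finset.mul_sum]
      apply Finset.sum_congr rfl
      intro k _
      rw [Matrix.conjTranspose_apply, Matrix.vecMulVec_apply, Pi.star_apply]
      simp only [RCLike.star_def, map_mul, RingHomCompTriple.comp_apply, RingHom.id_apply]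
      ring
    rw [hent]
    apply LMUL_entry hu0 hN hnu hc hTn
    · refine (norm_dotProduct_le _ _).trans ?_
      rw [mul_comm]
      exact mul_le_mul_of_nonneg_right hV hc
    · refine (hWr i).trans ?_
      calc 4 * (n : ℝ) * u * (nv (X i) * nv V)
          ≤ 4 * (n : ℝ) * u * (nv (X i) * 3) := by gcongr
        _ = 12 * n * u * nv (X i) := by ring
    · have h := LMUL_prod hu0 hu1 (hTWr i) (hG i j)
      have h5 : (starRingEnd ℂ) T * (starRingEnd ℂ) (V j) * W i
          = (starRingEnd ℂ) T * W i * (starRingEnd ℂ) (V j) := by ring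
      rw [h5]
      exact h
    · exact hXG i j

end H6LP
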