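import Pool.Agent.H6.LP.HVEC
import Pool.Agent.H6.LP.LMUL
import Pool.Agent.H6.LP.RMUL

/-!
# HSTEP: one step of the Hessenberg reduction

`P = hhM (hv Y p β) (ht Y p β)` for the exact subcolumn.  After `lmulP`: `X1`, `fro (X1 - P X) ≤ 450 n u fro X`
(`post_lmul` + `fro_hhM_sub_le`); the replacement of the columns `≤ k` by the explicit values makes the error
only smaller (the columns `< k` of `P X` are those of `X`; the column `k` of `P X` is explicit) up to
`20 n u fro X`; then `rmulP`; the columns `≤ k` are not changed by `Pᴴ`.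
-/

set_option autoImplicit false

open Complex Matrix

namespace H6LP

/-- the part of the column `k` below the diagonal -/
def subcol {n : ℕ} (X : Matrix (Fin n) (Fin n) ℂ) (k : ℕ) (hk : k + 1 < n) : Fin n → ℂ :=
  fun i => if (i : ℕ) ≤ k then 0 else X i ⟨k, by omega⟩

theorem HSTEP_split {n m : ℕ} {A B C : Matrix (Fin n) (Fin m) ℂ}
    (h : ∀ i j, ‖A i j‖ ≤ ‖B i j‖ + ‖C i j‖) : fro A ≤ fro B + fro C := by
  have h1 : fro A ≤ 1 * fro (fun i j => ((‖B i j‖ + ‖C i j‖ : ℝ) : ℂ)) := by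
    refine fro_le_of_entries zero_le_one fun i j => ?_
    rw [one_mul, Complex.norm_real, Real.norm_of_nonneg (by positivity)]
    exact h i j
  rw [one_mul] at h1
  refine h1.trans ?_
  have h2 : (fun i j => ((‖B i j‖ + ‖C i j‖ : ℝ) : ℂ) : Matrix (Fin n) (Fin m) ℂ) =
      (fun i j => ((‖B i j‖ : ℝ) : ℂ) : Matrix (Fin n) (Fin m) ℂ) +
      (fun i j => ((‖C i j‖ : ℝ) : ℂ) : Matrix (Fin n) (Fin m) ℂ) := by
    funext i j
    show _ = ((‖B i j‖ : ℝ) : ℂ) + ((‖C i j‖ : ℝ) : ℂ)
    push_cast; rfl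
  rw [h2]
  refine (fro_add_le _ _).trans ?_
  have h3 : ∀ D : Matrix (Fin n) (Fin m) ℂ,
      fro (fun i j => ((‖D i j‖ : ℝ) : ℂ) : Matrix (Fin n) (Fin m) ℂ) ≤ fro D := by
    intro D
    have h4 : fro (fun i j => ((‖D i j‖ : ℝ) : ℂ) : Matrix (Fin n) (Fin m) ℂ) ≤ 1 * fro D := by
      refine fro_le_of_entries zero_le_one fun i j => ?_
      rw [one_mul, Complex.norm_real, Real.norm_of_nonneg (norm_nonneg _)]
    rwa [one_mul] at h4
  exact add_le_add (h3 B) (h3 C)

theorem HSTEP_fro_single {n m : ℕ} (p : Fin n) (q : Fin m) (c : ℂ) :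
    fro (fun i j => if i = p ∧ j = q then c else 0 : Matrix (Fin n) (Fin m) ℂ) = ‖c‖ := by
  have h : (fun i j => if i = p ∧ j = q then c else 0 : Matrix (Fin n) (Fin m) ℂ) =
      Matrix.vecMulVec (Pi.single p c) (Pi.single q 1) := by
    funext i j
    rw [Matrix.vecMulVec_apply]
    by_cases hi : i = p
    · subst hi
      by_cases hj : j = q
      · subst hj; simp
      · simp [hj]
    · simp [hi]
  rw [h, fro_vecMulVec, nv_single, nv_single]
  simp

/-- a vector which vanishes up to `k` -/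
theorem HSTEP_hv_zero {n : ℕ} {c : Fin n → ℂ} {k : ℕ} (hk : k + 1 < n) (s : ℂ) (β : ℝ)
    (hc : ∀ i : Fin n, (i : ℕ) ≤ k → c i = 0) (i : Fin n) (hi : (i : ℕ) ≤ k) :
    hv (s • c) ⟨k + 1, hk⟩ β i = 0 := by
  unfold hv
  rw [if_neg]
  · simp [hc i hi]
  · intro h
    have := congrArg Fin.val h
    simp only at this
    omega

/-- columns which live above `k` are not changed -/
theorem HSTEP_mulVec_fix {n : ℕ} {v : Fin n → ℂ} {t : ℂ} {k : ℕ}
    (hv : ∀ i : Fin n, (i : ℕ) ≤ k → v i = 0) (x : Fin n → ℂ)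
    (hx : ∀ i : Fin n, k < (i : ℕ) → x i = 0) : hhM v t *ᵥ x = x := by
  rw [hhM_mulVec]
  have h : star v ⬝ᵥ x = 0 := by
    rw [dotProduct]
    refine Finset.sum_eq_zero fun i _ => ?_
    by_cases hi : (i : ℕ) ≤ k
    · rw [Pi.star_apply, hv i hi, star_zero, zero_mul]
    · rw [hx i (by omega), mul_zero]
  rw [h, mul_zero, zero_smul, sub_zero]

/-- the columns `≤ k` of `M Pᴴ` -/
theorem HSTEP_mul_conj_col {n m : ℕ} {v : Fin n → ℂ} {t : ℂ} (M : Matrix (Fin m) (Fin n) ℂ)
    (i : Fin m) (j : Fin n) (hj : v j = 0) : (M * (hhM v t)ᴴ) i j = M i j := by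
  rw [Matrix.mul_apply, Finset.sum_eq_single j]
  · rw [Matrix.conjTranspose_apply, hhM_row_of_zero hj, if_pos rfl, star_one, mul_one]
  · intro l _ hl
    rw [Matrix.conjTranspose_apply, hhM_row_of_zero hj, if_neg (fun h => hl h.symm), star_zero,
      mul_zero]
  · intro h; exact absurd (Finset.mem_univ j) h

/-- the columns `≤ k` of `P X` -/
theorem HSTEP_PX_col {n : ℕ} {X : Matrix (Fin n) (Fin n) ℂ} (k : ℕ) (hk : k + 1 < n) {β : ℝ}
    (hβ : β = 1 ∨ β = -1) (hs : 0 < nv (subcol X k hk))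
    (hz : ∀ i j : Fin n, (j : ℕ) < k → (j : ℕ) + 1 < i → X i j = 0)
    (hp : β * (subcol X k hk ⟨k + 1, hk⟩).re ≤ 0) {P : Matrix (Fin n) (Fin n) ℂ}
    (hP : P = hhM (hv (((nv (subcol X k hk))⁻¹ : ℂ) • subcol X k hk) ⟨k + 1, hk⟩ β)
      (ht (((nv (subcol X k hk))⁻¹ : ℂ) • subcol X k hk) ⟨k + 1, hk⟩ β)) :
    (∀ i j : Fin n, (j : ℕ) < k → (P * X) i j = X i j) ∧
    (∀ i j : Fin n, (j : ℕ) = k → (P * X) i j =
      if (i : ℕ) ≤ k then X i j else if (i : ℕ) = k + 1 then ((β * nv (subcol X k hk) : ℝ) : ℂ)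
      else 0) := by
  set c := subcol X k hk with hc_def
  have hc0 : ∀ i : Fin n, (i : ℕ) ≤ k → c i = 0 := by
    intro i hi
    rw [hc_def]; unfold subcol; rw [if_pos hi]
  have hv0 := HSTEP_hv_zero hk ((nv c)⁻¹ : ℂ) β hc0
  have hcol : ∀ i j : Fin n, (P * X) i j = (P *ᵥ (fun i => X i j)) i :=
    fun i j => congrFun (NB_mul_col P X j) i
  constructor
  · intro i j hj
    rw [hcol i j, hP, HSTEP_mulVec_fix hv0]
    intro i' hi'
    exact hz i' j hj (by omega)
  · intro i j hj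
    rw [hcol i j]
    have hsplit : (fun i => X i j) = (fun i : Fin n => if (i : ℕ) ≤ k then X i j else 0) + c := by
      funext i
      simp only [Pi.add_apply]
      have hjk : j = ⟨k, by omega⟩ := Fin.ext hj
      by_cases hi : (i : ℕ) ≤ k
      · rw [if_pos hi, hc0 i hi, add_zero]
      · rw [if_neg hi, zero_add, hc_def]; unfold subcol; rw [if_neg hi, hjk]
    rw [hsplit, Matrix.mulVec_add]
    have hn1 : nv (((nv c)⁻¹ : ℂ) • c) = 1 := by
      rw [nv_smul, norm_inv, Complex.norm_real, Real.norm_of_nonneg hs.le]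
      exact inv_mul_cancel₀ hs.ne'
    have hp' : β * ((((nv c)⁻¹ : ℂ) • c) ⟨k + 1, hk⟩).re ≤ 0 := by
      have h2 : ((((nv c)⁻¹ : ℂ) • c) ⟨k + 1, hk⟩).re = (nv c)⁻¹ * (c ⟨k + 1, hk⟩).re := by
        rw [Pi.smul_apply, smul_eq_mul, ← Complex.ofReal_inv, Complex.re_ofReal_mul]
      rw [h2]
      have h3 : 0 < (nv c)⁻¹ := inv_pos.2 hs
      nlinarith
    have h4 : P *ᵥ c = fun i => if i = ⟨k + 1, hk⟩ then ((β * nv c : ℝ) : ℂ) else 0 := by
      have h5 : c = ((nv c : ℝ) : ℂ) • (((nv c)⁻¹ : ℂ) • c) := by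
        rw [smul_smul, mul_inv_cancel₀ (by exact_mod_cast hs.ne'), one_smul]
      have h6 := house_mulVec hn1 hβ hp'
      rw [← hP] at h6
      calc P *ᵥ c = P *ᵥ (((nv c : ℝ) : ℂ) • (((nv c)⁻¹ : ℂ) • c)) := by rw [← h5]
        _ = ((nv c : ℝ) : ℂ) • (P *ᵥ (((nv c)⁻¹ : ℂ) • c)) := by rw [Matrix.mulVec_smul]
        _ = _ := by
          rw [h6]
          funext i
          by_cases hi : i = ⟨k + 1, hk⟩
          · simp [hi, mul_comm]
          · simp [hi]
    rw [h4]
    have h7 : P *ᵥ (fun i : Fin n => if (i : ℕ) ≤ k then X i j else 0) =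
        fun i : Fin n => if (i : ℕ) ≤ k then X i j else 0 := by
      rw [hP]
      refine HSTEP_mulVec_fix hv0 _ ?_
      intro i' hi'
      rw [if_neg (by omega)]
    rw [h7]
    simp only [Pi.add_apply]
    by_cases hi : (i : ℕ) ≤ k
    · rw [if_pos hi, if_pos hi, if_neg, add_zero]
      intro h
      have := congrArg Fin.val h
      simp only at this
      omega
    · rw [if_neg hi, if_neg hi, zero_add]
      by_cases hi2 : (i : ℕ) = k + 1
      · rw [if_pos hi2, if_pos (Fin.ext hi2)]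
      · rw [if_neg hi2, if_neg]
        intro h
        exact hi2 (congrArg Fin.val h)

theorem post_hstep {ad : Adv} {u : ℝ} (hu : ad.Le u) {n : ℕ} (hn : 1 ≤ n) (hnu : n * u ≤ 1 / 10000)
    {env : Env} {x q : RMat n n} {X Q : Matrix (Fin n) (Fin n) ℂ} (hx : HasM env x X)
    (hq : HasM env q Q) (k : ℕ) (hk : k + 1 < n)
    (hz : ∀ i j : Fin n, (j : ℕ) < k → (j : ℕ) + 1 < i → X i j = 0)
    (hs : 0 < nv (subcol X k hk)) :
    Post ad (hstepP k hk (x, q)) env (fun r env' => ∃ (P X' Q' : Matrix (Fin n) (Fin n) ℂ),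
      Uni P ∧ Fix0 P ∧ HasM env' r.1 X' ∧ HasM env' r.2 Q' ∧
      fro (X' - P * X * Pᴴ) ≤ 2000 * n * u * fro X ∧
      fro (Q' - Q * Pᴴ) ≤ 2000 * n * u * fro Q ∧
      ∀ i j : Fin n, (j : ℕ) < k + 1 → (j : ℕ) + 1 < i → X' i j = 0) := by
  have hu0 : 0 ≤ u := hu.nonneg
  have hn0 : (0 : ℝ) ≤ n := Nat.cast_nonneg n
  have hnu0 : 0 ≤ n * u := mul_nonneg hn0 hu0
  unfold hstepP
  -- the constant zero
  refine Post.bind (post_cst hu env 0 0) ?_
  rintro z env1 h01 ⟨zv, hzv, hzr⟩
  have hzv0 : zv = 0 := by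
    have : Rel u 0 zv := by simpa using hzr
    unfold Rel at this
    rw [norm_zero, mul_zero] at this
    simpa using this
  subst hzv0
  -- the Householder vector
  have hcol : HasV env1 (fun i : Fin n => if (i : ℕ) ≤ k then z else x i ⟨k, by omega⟩)
      (subcol X k hk) := by
    intro i
    unfold subcol
    by_cases hi : (i : ℕ) ≤ k
    · simp only [if_pos hi]; exact hzv
    · simp only [if_neg hi]; exact (hx i _).mono h01
  refine Post.bind (post_hvec hu hn (by linarith) hcol hs ⟨k + 1, hk⟩) ?_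
  rintro h env2 h12 ⟨β, hβ, hp, V, T, a, hV, hT, ha, eV, eT, ea, hV0⟩
  set c := subcol X k hk with hc_def
  set v := hv (((nv c)⁻¹ : ℂ) • c) ⟨k + 1, hk⟩ β with hv_def
  set t := ht (((nv c)⁻¹ : ℂ) • c) ⟨k + 1, hk⟩ β with ht_def
  set P := hhM v t with hP_def
  have hc0 : ∀ i : Fin n, (i : ℕ) ≤ k → c i = 0 := by
    intro i hi
    rw [hc_def]; unfold subcol; rw [if_pos hi]
  have hv0 : ∀ i : Fin n, (i : ℕ) ≤ k → v i = 0 := HSTEP_hv_zero hk ((nv c)⁻¹ : ℂ) β hc0
  have hn1 : nv (((nv c)⁻¹ : ℂ) • c) = 1 := by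
    rw [nv_smul, norm_inv, Complex.norm_real, Real.norm_of_nonneg hs.le]
    exact inv_mul_cancel₀ hs.ne'
  have hp' : β * ((((nv c)⁻¹ : ℂ) • c) ⟨k + 1, hk⟩).re ≤ 0 := by
    have h2 : ((((nv c)⁻¹ : ℂ) • c) ⟨k + 1, hk⟩).re = (nv c)⁻¹ * (c ⟨k + 1, hk⟩).re := by
      rw [Pi.smul_apply, smul_eq_mul, ← Complex.ofReal_inv, Complex.re_ofReal_mul]
    rw [h2]
    have h3 : 0 < (nv c)⁻¹ := inv_pos.2 hs
    nlinarith
  have hUni : Uni P := house_uni hn1 hβ hp'
  have hFix : Fix0 P := by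
    constructor
    · intro i j hj
      rw [hP_def, hhM_col_of_zero (hv0 j (by omega))]
      by_cases hi : (i : ℕ) = 0
      · rw [if_pos hi, if_pos (Fin.ext (hi.trans hj.symm))]
      · rw [if_neg hi, if_neg (fun h => hi (by rw [h, hj]))]
    · intro i j hi
      rw [hP_def, hhM_row_of_zero (hv0 i (by omega))]
      by_cases hj : (j : ℕ) = 0
      · rw [if_pos hj, if_pos (Fin.ext (hi.trans hj.symm))]
      · rw [if_neg hj, if_neg (fun h => hj (by rw [← h, hi]))]
  have hvn : nv v ≤ 2 := hv_norm hn1 hβ hp'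
  have htn : ‖t‖ ≤ 1 := ht_norm hp'
  have hε : 20 * n * u ≤ 1 / 500 := by linarith
  have hVn : nv V ≤ 3 := by
    have h2 := nv_add_le (V - v) v
    rw [sub_add_cancel] at h2
    linarith
  have hTn : ‖T‖ ≤ 3 := by
    have h2 := norm_add_le (T - t) t
    rw [sub_add_cancel] at h2
    linarith
  have hRP : fro (hhM V T - P) ≤ 200 * (n * u) := by
    have := fro_hhM_sub_le hvn htn eV eT (by linarith)
    linarith
  -- left multiplication
  refine Post.bind (post_lmul hu hn (by linarith) hV hT (hx.mono (h01.trans h12)) hVn hTn) ?_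
  rintro x1 env3 h23 ⟨X1, hX1, eX1⟩
  have hfX := fro_nonneg X
  have eX1' : fro (X1 - P * X) ≤ 450 * (n * u) * fro X := by
    have h1 : X1 - P * X = (X1 - hhM V T * X) + (hhM V T - P) * X := by
      rw [sub_mul]; abel
    rw [h1]
    refine (fro_add_le _ _).trans ?_
    have h2 := fro_mul_le (hhM V T - P) X
    have h3 : fro (hhM V T - P) * fro X ≤ 200 * (n * u) * fro X :=
      mul_le_mul_of_nonneg_right hRP hfX
    linarith
  -- the matrix with replaced columns
  set X2 : Matrix (Fin n) (Fin n) ℂ := fun i j =>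
    if (j : ℕ) < k then X i j
    else if (j : ℕ) = k then (if (i : ℕ) ≤ k then X i j else if (i : ℕ) = k + 1 then a else 0)
    else X1 i j with hX2_def
  have hX2 : HasM env3 (fun i j : Fin n =>
      if (j : ℕ) < k then x i j
      else if (j : ℕ) = k then (if (i : ℕ) ≤ k then x i j else if (i : ℕ) = k + 1 then h.2.2 else z)
      else x1 i j) X2 := by
    intro i j
    rw [hX2_def]
    simp only
    by_cases hj1 : (j : ℕ) < k
    · simp only [if_pos hj1]
      exact (hx i j).mono ((h01.trans h12).trans h23)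
    · simp only [if_neg hj1]
      by_cases hj2 : (j : ℕ) = k
      · simp only [if_pos hj2]
        by_cases hi1 : (i : ℕ) ≤ k
        · simp only [if_pos hi1]
          exact (hx i j).mono ((h01.trans h12).trans h23)
        · simp only [if_neg hi1]
          by_cases hi2 : (i : ℕ) = k + 1
          · simp only [if_pos hi2]
            exact ha.mono h23
          · simp only [if_neg hi2]
            exact hzv.mono (h12.trans h23)
      · simp only [if_neg hj2]
        exact hX1 i j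
  obtain ⟨hPX1, hPX2⟩ := HSTEP_PX_col k hk hβ hs hz hp hP_def
  have hcX : nv c ≤ fro X := by
    refine le_trans ?_ (nv_col_le_fro X ⟨k, by omega⟩)
    refine nv_mono fun i => ?_
    rw [hc_def]; unfold subcol
    by_cases hi : (i : ℕ) ≤ k
    · rw [if_pos hi, norm_zero]; exact norm_nonneg _
    · rw [if_neg hi]
  have eX2 : fro (X2 - P * X) ≤ 470 * (n * u) * fro X := by
    have h1 : fro (X2 - P * X) ≤ fro (X1 - P * X) +
        fro (fun i j : Fin n => if i = ⟨k + 1, hk⟩ ∧ j = ⟨k, by omega⟩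
          then a - ((β * nv c : ℝ) : ℂ) else 0 : Matrix (Fin n) (Fin n) ℂ) := by
      refine HSTEP_split fun i j => ?_
      rw [Matrix.sub_apply, Matrix.sub_apply]
      by_cases hj1 : (j : ℕ) < k
      · rw [hX2_def]
        simp only [if_pos hj1]
        rw [hPX1 i j hj1, sub_self, norm_zero]
        positivity
      · by_cases hj2 : (j : ℕ) = k
        · rw [hPX2 i j hj2, hX2_def]
          simp only [if_neg hj1, if_pos hj2]
          by_cases hi1 : (i : ℕ) ≤ k
          · simp only [if_pos hi1]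
            rw [sub_self, norm_zero]; positivity
          · simp only [if_neg hi1]
            by_cases hi2 : (i : ℕ) = k + 1
            · simp only [if_pos hi2]
              rw [if_pos ⟨Fin.ext hi2, Fin.ext hj2⟩]
              have := norm_nonneg (X1 i j - ((β * nv c : ℝ) : ℂ))
              linarith
            · simp only [if_neg hi2]
              rw [sub_self, norm_zero]; positivity
        · rw [hX2_def]
          simp only [if_neg hj1, if_neg hj2]
          have := norm_nonneg (if i = ⟨k + 1, hk⟩ ∧ j = ⟨k, by omega⟩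
            then a - ((β * nv c : ℝ) : ℂ) else 0)
          linarith
    rw [HSTEP_fro_single] at h1
    have h2 : 20 * n * u * nv c ≤ 20 * (n * u) * fro X := by
      have : 20 * n * u * nv c = 20 * (n * u) * nv c := by ring
      rw [this]
      exact mul_le_mul_of_nonneg_left hcX (by linarith)
    linarith
  have hPX : fro (P * X) = fro X := hUni.fro_mul X
  have hX2n : fro X2 ≤ 1.05 * fro X := by
    have h1 : X2 = (X2 - P * X) + P * X := by abel
    rw [h1]
    refine (fro_add_le _ _).trans ?_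
    rw [hPX]
    nlinarith
  -- right multiplications
  refine Post.bind (post_rmul hu hn (by linarith) (hV.mono h23) (hT.mono h23) hX2 hVn hTn) ?_
  rintro y env4 h34 ⟨Y, hY, eY⟩
  refine Post.bind (post_rmul hu hn (by linarith) (hV.mono (h23.trans h34))
    (hT.mono (h23.trans h34)) (hq.mono (((h01.trans h12).trans h23).trans h34)) hVn hTn) ?_
  rintro q' env5 h45 ⟨Q', hQ', eQ⟩
  have hRPc : fro ((hhM V T)ᴴ - Pᴴ) ≤ 200 * (n * u) := by
    rw [← Matrix.conjTranspose_sub, fro_conjTranspose]; exact hRP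
  have eY' : fro (Y - P * X * Pᴴ) ≤ 945 * (n * u) * fro X := by
    have h1 : Y - P * X * Pᴴ = ((Y - X2 * (hhM V T)ᴴ) + X2 * ((hhM V T)ᴴ - Pᴴ)) +
        (X2 - P * X) * Pᴴ := by
      rw [mul_sub, sub_mul]; abel
    rw [h1]
    refine (fro_add_le _ _).trans ?_
    have h2 := fro_add_le (Y - X2 * (hhM V T)ᴴ) (X2 * ((hhM V T)ᴴ - Pᴴ))
    have h3 := fro_mul_le X2 ((hhM V T)ᴴ - Pᴴ)
    rw [hUni.conjTranspose.fro_mul']
    have h4 : fro X2 * fro ((hhM V T)ᴴ - Pᴴ) ≤ (1.05 * fro X) * (200 * (n * u)) :=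
      mul_le_mul hX2n hRPc (fro_nonneg _) (by positivity)
    have h5 : 250 * n * u * fro X2 ≤ 250 * (n * u) * (1.05 * fro X) := by
      have : 250 * n * u * fro X2 = 250 * (n * u) * fro X2 := by ring
      rw [this]
      exact mul_le_mul_of_nonneg_left hX2n (by linarith)
    nlinarith [mul_nonneg hnu0 hfX]
  have eQ' : fro (Q' - Q * Pᴴ) ≤ 450 * (n * u) * fro Q := by
    have h1 : Q' - Q * Pᴴ = (Q' - Q * (hhM V T)ᴴ) + Q * ((hhM V T)ᴴ - Pᴴ) := by
      rw [mul_sub]; abel
    rw [h1]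
    refine (fro_add_le _ _).trans ?_
    have h3 := fro_mul_le Q ((hhM V T)ᴴ - Pᴴ)
    have h4 : fro Q * fro ((hhM V T)ᴴ - Pᴴ) ≤ fro Q * (200 * (n * u)) :=
      mul_le_mul_of_nonneg_left hRPc (fro_nonneg _)
    linarith
  set X3 : Matrix (Fin n) (Fin n) ℂ := fun i j => if (j : ℕ) ≤ k then X2 i j else Y i j with hX3_def
  refine Post.pure ⟨P, X3, Q', hUni, hFix, ?_, hQ', ?_, ?_, ?_⟩
  · intro i j
    rw [hX3_def]
    by_cases hj : (j : ℕ) ≤ k
    · simp only [if_pos hj]
      exact (hX2 i j).mono (h34.trans h45)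
    · simp only [if_neg hj]
      exact (hY i j).mono h45
  · have h1 : fro (X3 - P * X * Pᴴ) ≤ fro (X2 - P * X) + fro (Y - P * X * Pᴴ) := by
      refine HSTEP_split fun i j => ?_
      rw [Matrix.sub_apply, Matrix.sub_apply, Matrix.sub_apply, hX3_def]
      by_cases hj : (j : ℕ) ≤ k
      · simp only [if_pos hj]
        have h2 : (P * X * Pᴴ) i j = (P * X) i j := by
          conv_lhs => rw [hP_def]
          exact HSTEP_mul_conj_col _ i j (hv0 j hj)
        have := norm_nonneg (Y i j - (P * X * Pᴴ) i j)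
        rw [h2] at this ⊢
        linarith
      · simp only [if_neg hj]
        have := norm_nonneg (X2 i j - (P * X) i j)
        linarith
    refine h1.trans ?_
    nlinarith [mul_nonneg hnu0 hfX]
  · nlinarith [mul_nonneg hnu0 (fro_nonneg Q)]
  · intro i j hj hij
    have hjk : (j : ℕ) ≤ k := by omega
    rw [hX3_def]
    simp only [if_pos hjk]
    rw [hX2_def]
    simp only
    by_cases hj1 : (j : ℕ) < k
    · rw [if_pos hj1]; exact hz i j hj1 hij
    · have hj2 : (j : ℕ) = k := by omega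
      rw [if_neg hj1, if_pos hj2, if_neg (by omega), if_neg (by omega)]

end H6LP
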