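import Pool.Agent.H6.LP.NRM
import Pool.Agent.H6.LP.HOUSE

/-!
# HVEC: the error of `hvecP`

`nr = ‖X‖ (1+θ)`, `|θ| ≤ 4 n u`; `ỹ_i = (X_i / nr)(1+e)`, so `nv (ỹ - Y) ≤ 5.1 n u`.  The comparison gives
`b = true ↔ Re X_p ≤ 0`, so `β Re X_p ≤ 0` for `β = 1` if `b`, `β = -1` otherwise.
`ṽ_p = (ỹ_p - β(1+e))(1+e')`, `τ̃ = (-β)(…)/ṽ_p`, `|Y_p - β| ≥ 1`.
-/

set_option autoImplicit false

open Complex Matrix

namespace H6LP

/-- the quotient `N / t` -/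
theorem HVEC_ratio {N t ν : ℝ} (hN : 0 < N) (hν0 : 0 ≤ ν) (hν : ν ≤ 1 / 1000)
    (ht : |t - N| ≤ 4 * ν * N) : 0 < t ∧ |N / t - 1| ≤ 4.02 * ν ∧ N / t ≤ 1.005 ∧ t ≤ 1.004 * N := by
  have h1 := abs_le.1 ht
  have hνN : ν * N ≤ 1 / 1000 * N := mul_le_mul_of_nonneg_right hν hN.le
  have ht0 : 0.996 * N ≤ t := by nlinarith
  have htp : 0 < t := by nlinarith
  have h2 : |N / t - 1| ≤ 4.02 * ν := by
    have h3 : N / t - 1 = (N - t) / t := by field_simp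
    rw [h3, abs_div, abs_of_pos htp, div_le_iff₀ htp, abs_sub_comm]
    refine ht.trans ?_
    have h4 : 0 ≤ ν * (4.02 * t - 4 * N) := mul_nonneg hν0 (by nlinarith)
    nlinarith
  refine ⟨htp, h2, ?_, by nlinarith⟩
  have h5 := (abs_le.1 h2).2
  nlinarith

theorem HVEC_y {x y : ℂ} {N t ν u : ℝ} (hN : 0 < N) (hu0 : 0 ≤ u) (huν : u ≤ ν)
    (hν : ν ≤ 1 / 1000) (ht : |t - N| ≤ 4 * ν * N) (hy : ‖y - x / (t : ℂ)‖ ≤ u * ‖x / (t : ℂ)‖) :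
    ‖y - (((N : ℝ) : ℂ)⁻¹) * x‖ ≤ 5.1 * ν * ‖(((N : ℝ) : ℂ)⁻¹) * x‖ := by
  have hν0 : 0 ≤ ν := hu0.trans huν
  obtain ⟨htp, h1, h2, h3⟩ := HVEC_ratio hN hν0 hν ht
  have hNc : (N : ℂ) ≠ 0 := by exact_mod_cast hN.ne'
  have htc : (t : ℂ) ≠ 0 := by exact_mod_cast htp.ne'
  set Y : ℂ := (((N : ℝ) : ℂ)⁻¹) * x with hY
  have e1 : x / (t : ℂ) = ((N / t : ℝ) : ℂ) * Y := by
    rw [hY]
    push_cast
    field_simp
  have h4 : ‖x / (t : ℂ)‖ ≤ 1.005 * ‖Y‖ := by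
    rw [e1, norm_mul, Complex.norm_real, Real.norm_eq_abs, abs_of_pos (div_pos hN htp)]
    exact mul_le_mul_of_nonneg_right h2 (norm_nonneg _)
  have h5 : ‖x / (t : ℂ) - Y‖ ≤ 4.02 * ν * ‖Y‖ := by
    have e2 : x / (t : ℂ) - Y = ((N / t - 1 : ℝ) : ℂ) * Y := by
      rw [e1]
      push_cast
      ring
    rw [e2, norm_mul, Complex.norm_real, Real.norm_eq_abs]
    exact mul_le_mul_of_nonneg_right h1 (norm_nonneg _)
  have h6 : ‖y - Y‖ ≤ ‖y - x / (t : ℂ)‖ + ‖x / (t : ℂ) - Y‖ := by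
    have e3 : y - Y = (y - x / (t : ℂ)) + (x / (t : ℂ) - Y) := by ring
    rw [e3]
    exact norm_add_le _ _
  have h7 : u * ‖x / (t : ℂ)‖ ≤ ν * (1.005 * ‖Y‖) :=
    mul_le_mul huν h4 (norm_nonneg _) hν0
  have h8 : 0 ≤ ν * ‖Y‖ := mul_nonneg hν0 (norm_nonneg _)
  nlinarith

theorem HVEC_re {y : ℂ} {β : ℝ} (hβ : β = 1 ∨ β = -1) (h : β * y.re ≤ 0) : 1 ≤ ‖y - (β : ℂ)‖ := by
  have h1 : |(y - (β : ℂ)).re| ≤ ‖y - (β : ℂ)‖ := Complex.abs_re_le_norm _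
  refine le_trans ?_ h1
  rw [Complex.sub_re, Complex.ofReal_re]
  rcases hβ with rfl | rfl
  · rw [abs_of_nonpos (by linarith)]; linarith
  · rw [abs_of_nonneg (by linarith)]; linarith

theorem HVEC_tau {Yp yp B vp m T : ℂ} {β ν u : ℝ} (hβ : β = 1 ∨ β = -1) (hp : β * Yp.re ≤ 0)
    (hu0 : 0 ≤ u) (huν : u ≤ ν) (hν : ν ≤ 1 / 1000) (hY1 : ‖Yp‖ ≤ 1)
    (hy : ‖yp - Yp‖ ≤ 5.1 * ν) (hB : ‖B - (β : ℂ)‖ ≤ u)
    (hvp : ‖vp - (yp - B)‖ ≤ u * ‖yp - B‖) (hm : ‖m - (0 - B)‖ ≤ u * ‖0 - B‖) :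
    ‖vp - (yp - (β : ℂ))‖ ≤ 3.1 * ν ∧ vp ≠ 0 ∧
      (‖T - m / vp‖ ≤ u * ‖m / vp‖ → ‖T - 1 / (1 - (β : ℂ) * Yp)‖ ≤ 20 * ν) := by
  have hν0 : 0 ≤ ν := hu0.trans huν
  have hβn : ‖(β : ℂ)‖ = 1 := by
    rw [Complex.norm_real]
    rcases hβ with rfl | rfl <;> simp
  have hβsq : (β : ℂ) * (β : ℂ) = 1 := by
    rcases hβ with rfl | rfl <;> simp
  have hBn : ‖B‖ ≤ 1.001 := by
    have h1 : ‖B‖ ≤ ‖B - (β : ℂ)‖ + ‖(β : ℂ)‖ := by
      simpa using norm_add_le (B - (β : ℂ)) (β : ℂ)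
    rw [hβn] at h1
    linarith
  have hyn : ‖yp‖ ≤ 1.0051 := by
    have h1 : ‖yp‖ ≤ ‖yp - Yp‖ + ‖Yp‖ := by
      simpa using norm_add_le (yp - Yp) Yp
    linarith
  have h1 : ‖yp - B‖ ≤ 2.0061 := (norm_sub_le _ _).trans (by linarith)
  have h2 : ‖vp - (yp - (β : ℂ))‖ ≤ 3.1 * ν := by
    have e1 : vp - (yp - (β : ℂ)) = (vp - (yp - B)) - (B - (β : ℂ)) := by ring
    rw [e1]
    refine (norm_sub_le _ _).trans ?_
    have h3 : u * ‖yp - B‖ ≤ ν * 2.0061 := mul_le_mul huν h1 (norm_nonneg _) hν0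
    nlinarith
  have h3 : ‖vp - (Yp - (β : ℂ))‖ ≤ 8.2 * ν := by
    have e1 : vp - (Yp - (β : ℂ)) = (vp - (yp - (β : ℂ))) + (yp - Yp) := by ring
    rw [e1]
    refine (norm_add_le _ _).trans ?_
    linarith
  have h4 := HVEC_re hβ hp
  have h5 : 0.99 ≤ ‖vp‖ := by
    have h6 : ‖Yp - (β : ℂ)‖ ≤ ‖vp‖ + ‖vp - (Yp - (β : ℂ))‖ := by
      have e1 : Yp - (β : ℂ) = vp - (vp - (Yp - (β : ℂ))) := by ring
      conv_lhs => rw [e1]
      exact norm_sub_le _ _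
    linarith
  have h6 : vp ≠ 0 := by
    intro h
    rw [h, norm_zero] at h5
    linarith
  refine ⟨h2, h6, ?_⟩
  intro hT
  have hmb : ‖m + (β : ℂ)‖ ≤ 2.01 * ν := by
    have e1 : m + (β : ℂ) = (m - (0 - B)) - (B - (β : ℂ)) := by ring
    rw [e1]
    refine (norm_sub_le _ _).trans ?_
    have h7 : ‖(0 : ℂ) - B‖ ≤ 1.001 := by rw [zero_sub, norm_neg]; exact hBn
    have h8 : u * ‖(0 : ℂ) - B‖ ≤ ν * 1.001 := mul_le_mul huν h7 (norm_nonneg _) hν0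
    nlinarith
  have hYβ : Yp - (β : ℂ) ≠ 0 := by
    intro h
    rw [h, norm_zero] at h4
    linarith
  have e0 : (1 : ℂ) - (β : ℂ) * Yp = -((β : ℂ) * (Yp - (β : ℂ))) := by
    rw [mul_sub, hβsq]; ring
  have hβ0 : (β : ℂ) ≠ 0 := by
    intro h
    rw [h, norm_zero] at hβn
    exact zero_ne_one hβn
  have e1 : m / vp - 1 / (1 - (β : ℂ) * Yp) =
      ((m + (β : ℂ)) * (Yp - (β : ℂ)) + (β : ℂ) * (vp - (Yp - (β : ℂ)))) / (vp * (Yp - (β : ℂ))) := by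
    have h7 : (1 : ℂ) / (1 - (β : ℂ) * Yp) = -(β : ℂ) / (Yp - (β : ℂ)) := by
      rw [e0, div_eq_div_iff (neg_ne_zero.2 (mul_ne_zero hβ0 hYβ)) hYβ]
      have : (-(β : ℂ)) * -((β : ℂ) * (Yp - (β : ℂ))) = ((β : ℂ) * (β : ℂ)) * (Yp - (β : ℂ)) := by ring
      rw [this, hβsq]
    rw [h7, div_sub_div _ _ h6 hYβ]
    congr 1
    ring
  have h7 : ‖m / vp - 1 / (1 - (β : ℂ) * Yp)‖ ≤ 10.4 * ν := by
    rw [e1, norm_div, norm_mul vp]
    have hpos : 0 < ‖vp‖ * ‖Yp - (β : ℂ)‖ := mul_pos (by linarith) (by linarith)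
    rw [div_le_iff₀ hpos]
    refine (norm_add_le _ _).trans ?_
    rw [norm_mul, norm_mul, hβn, one_mul]
    have h8 : ‖m + (β : ℂ)‖ * ‖Yp - (β : ℂ)‖ ≤ 2.01 * ν * ‖Yp - (β : ℂ)‖ :=
      mul_le_mul_of_nonneg_right hmb (norm_nonneg _)
    have h9 : 8.2 * ν ≤ 8.2 * ν * ‖Yp - (β : ℂ)‖ := by
      have := mul_le_mul_of_nonneg_left h4 (by positivity : (0 : ℝ) ≤ 8.2 * ν)
      linarith
    have h10 : 10.21 * ν * ‖Yp - (β : ℂ)‖ ≤ 10.4 * ν * (‖vp‖ * ‖Yp - (β : ℂ)‖) := by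
      have h11 : 10.21 * ν ≤ 10.4 * ν * ‖vp‖ := by
        have := mul_le_mul_of_nonneg_left h5 (by positivity : (0 : ℝ) ≤ 10.4 * ν)
        nlinarith
      have := mul_le_mul_of_nonneg_right h11 (norm_nonneg (Yp - (β : ℂ)))
      nlinarith
    nlinarith
  have h8 : ‖m / vp‖ ≤ 1.02 := by
    rw [norm_div, div_le_iff₀ (by linarith)]
    have h9 : ‖m‖ ≤ 1.003 := by
      have h10 : ‖m‖ ≤ ‖m + (β : ℂ)‖ + ‖(β : ℂ)‖ := by
        simpa using norm_sub_le (m + (β : ℂ)) (β : ℂ)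
      rw [hβn] at h10
      linarith
    nlinarith
  have e2 : T - 1 / (1 - (β : ℂ) * Yp) = (T - m / vp) + (m / vp - 1 / (1 - (β : ℂ) * Yp)) := by ring
  rw [e2]
  refine (norm_add_le _ _).trans ?_
  have h9 : u * ‖m / vp‖ ≤ ν * 1.02 := mul_le_mul huν h8 (norm_nonneg _) hν0
  nlinarith

theorem HVEC_a {B a : ℂ} {β N t ν u : ℝ} (hβ : β = 1 ∨ β = -1) (hN : 0 < N)
    (hu0 : 0 ≤ u) (huν : u ≤ ν) (hν : ν ≤ 1 / 1000) (ht : |t - N| ≤ 4 * ν * N)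
    (hB : ‖B - (β : ℂ)‖ ≤ u) (ha : ‖a - B * (t : ℂ)‖ ≤ u * ‖B * (t : ℂ)‖) :
    ‖a - ((β * N : ℝ) : ℂ)‖ ≤ 20 * ν * N := by
  have hν0 : 0 ≤ ν := hu0.trans huν
  obtain ⟨htp, -, -, h3⟩ := HVEC_ratio hN hν0 hν ht
  have hβn : ‖(β : ℂ)‖ = 1 := by
    rw [Complex.norm_real]
    rcases hβ with rfl | rfl <;> simp
  have hBn : ‖B‖ ≤ 1.001 := by
    have h1 : ‖B‖ ≤ ‖B - (β : ℂ)‖ + ‖(β : ℂ)‖ := by
      simpa using norm_add_le (B - (β : ℂ)) (β : ℂ)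
    rw [hβn] at h1
    linarith
  have htn : ‖(t : ℂ)‖ = t := by
    rw [Complex.norm_real, Real.norm_eq_abs, abs_of_pos htp]
  have h1 : ‖B * (t : ℂ)‖ ≤ 1.001 * (1.004 * N) := by
    rw [norm_mul, htn]
    exact mul_le_mul hBn h3 htp.le (by norm_num)
  have e1 : a - ((β * N : ℝ) : ℂ) = (a - B * (t : ℂ)) + ((B - (β : ℂ)) * (t : ℂ) +
      (β : ℂ) * ((t - N : ℝ) : ℂ)) := by
    push_cast
    ring
  rw [e1]
  refine (norm_add_le _ _).trans ?_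
  have h2 : ‖(B - (β : ℂ)) * (t : ℂ) + (β : ℂ) * ((t - N : ℝ) : ℂ)‖ ≤ ν * (1.004 * N) + 4 * ν * N := by
    refine (norm_add_le _ _).trans ?_
    rw [norm_mul, norm_mul, htn, hβn, one_mul, Complex.norm_real, Real.norm_eq_abs]
    have := mul_le_mul (hB.trans huν) h3 htp.le hν0
    linarith
  have h4 : u * ‖B * (t : ℂ)‖ ≤ ν * (1.001 * (1.004 * N)) := mul_le_mul huν h1 (norm_nonneg _) hν0
  have h5 : 0 ≤ ν * N := mul_nonneg hν0 hN.le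
  nlinarith

theorem post_hvec {ad : Adv} {u : ℝ} (hu : ad.Le u) {n : ℕ} (hn : 1 ≤ n) (hnu : n * u ≤ 1 / 1000)
    {env : Env} {x : RVec n} {X : Fin n → ℂ} (hx : HasV env x X) (hX : 0 < nv X) (p : Fin n) :
    Post ad (hvecP x p) env (fun h env' => ∃ β : ℝ, (β = 1 ∨ β = -1) ∧ β * (X p).re ≤ 0 ∧
      ∃ (V : Fin n → ℂ) (T a : ℂ), HasV env' h.1 V ∧ Has env' h.2.1 T ∧ Has env' h.2.2 a ∧
        nv (V - hv (((nv X)⁻¹ : ℂ) • X) p β) ≤ 20 * n * u ∧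
        ‖T - ht (((nv X)⁻¹ : ℂ) • X) p β‖ ≤ 20 * n * u ∧
        ‖a - ((β * nv X : ℝ) : ℂ)‖ ≤ 20 * n * u * nv X ∧
        ∀ i, i ≠ p → X i = 0 → V i = 0) := by
  have hu0 : 0 ≤ u := hu.nonneg
  have hn1 : (1 : ℝ) ≤ n := by exact_mod_cast hn
  have huν : u ≤ n * u := by nlinarith
  unfold hvecP
  refine Post.bind (post_cst hu env 0 0) ?_
  rintro z env1 h1 ⟨zv, hz, hzr⟩
  have hz0 : zv = 0 := by
    unfold Rel at hzr
    simpa using hzr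
  subst hz0
  refine Post.bind (post_norm hu hn (by linarith) (hx.mono h1)) ?_
  rintro nr env2 h2 ⟨t, hnr, ht⟩
  have ht' : |t - nv X| ≤ 4 * (n * u) * nv X := by
    have : 4 * (n * u) * nv X = 4 * n * u * nv X := by ring
    rw [this]; exact ht
  have hν0 : 0 ≤ n * u := hu0.trans huν
  obtain ⟨htp, -, -, -⟩ := HVEC_ratio hX hν0 hnu ht'
  have htc : (t : ℂ) ≠ 0 := by exact_mod_cast htp.ne'
  refine Post.bind (post_vecM n _ env2 (fun i b env' => ∃ y, Has env' b y ∧ Rel u (X i / (t : ℂ)) y)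
    (fun i b e1 e2 he hb => ?_) (fun i e he => ?_)) ?_
  · obtain ⟨y, hy, hy2⟩ := hb
    exact ⟨y, hy.mono he, hy2⟩
  · exact post_div hu ((hx i).mono (h1.trans (h2.trans he))) (hnr.mono he) htc
  rintro y env3 h3 hy
  choose Y' hY' hYr using hy
  refine Post.bind (post_le ((hx p).mono (h1.trans (h2.trans h3))) (hz.mono (h2.trans h3))) ?_
  rintro b env4 h4 ⟨henv, hb⟩
  subst henv
  refine Post.bind (post_cst hu _ _ _) ?_
  rintro be env5 h5 ⟨B, hBe, hBr⟩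
  set β : ℝ := if b = true then 1 else -1 with hβdef
  have hβ : β = 1 ∨ β = -1 := by
    rw [hβdef]; split_ifs <;> simp
  have hβX : β * (X p).re ≤ 0 := by
    rw [hβdef]
    rcases Bool.eq_false_or_eq_true b with hb' | hb'
    · have := hb.1 hb'
      rw [if_pos hb', one_mul]
      simpa using this
    · have h6 : ¬ ((X p).re ≤ (0 : ℂ).re) := fun h => by
        rw [hb.2 h] at hb'
        exact absurd hb' (by simp)
      rw [Complex.zero_re, not_le] at h6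
      rw [if_neg (by rw [hb']; simp)]
      linarith
  have hBβ : ‖B - (β : ℂ)‖ ≤ u := by
    unfold Rel at hBr
    have e1 : (((if b = true then (1 : ℚ) else -1 : ℚ) : ℂ) + ((0 : ℚ) : ℂ) * I) = (β : ℂ) := by
      rw [hβdef]
      split_ifs <;> simp
    have e2 : ‖(β : ℂ)‖ = 1 := by
      rw [Complex.norm_real]
      rcases hβ with h | h <;> rw [h] <;> simp
    rw [e1, e2, mul_one] at hBr
    exact hBr
  refine Post.bind (post_sub hu ((hY' p).mono h5) hBe) ?_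
  rintro vp env6 h6 ⟨vpv, hvp, hvpr⟩
  refine Post.bind (post_sub hu (hz.mono (h2.trans (h3.trans (h5.trans h6)))) (hBe.mono h6)) ?_
  rintro m env7 h7 ⟨mv, hm, hmr⟩
  set Y : Fin n → ℂ := ((nv X)⁻¹ : ℂ) • X with hYdef
  have hYi : ∀ i, Y i = ((nv X : ℝ) : ℂ)⁻¹ * X i := fun i => rfl
  have hnY : nv Y = 1 := by
    rw [hYdef, nv_smul, norm_inv, Complex.norm_real, Real.norm_eq_abs, abs_of_pos hX]
    exact inv_mul_cancel₀ hX.ne'
  have hyY : ∀ i, ‖Y' i - Y i‖ ≤ 5.1 * (n * u) * ‖Y i‖ := by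
    intro i
    rw [hYi]
    exact HVEC_y hX hu0 huν hnu ht' (hYr i)
  have hYp1 : ‖Y p‖ ≤ 1 := by
    rw [← hnY]; exact norm_le_nv Y p
  have hyp : ‖Y' p - Y p‖ ≤ 5.1 * (n * u) := by
    refine (hyY p).trans ?_
    have := mul_le_mul_of_nonneg_left hYp1 (by positivity : (0 : ℝ) ≤ 5.1 * (n * u))
    linarith
  have hpY : β * (Y p).re ≤ 0 := by
    have e1 : (Y p).re = (nv X)⁻¹ * (X p).re := by
      rw [hYi, ← Complex.ofReal_inv, Complex.re_ofReal_mul]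
    rw [e1]
    have : β * ((nv X)⁻¹ * (X p).re) = (nv X)⁻¹ * (β * (X p).re) := by ring
    rw [this]
    exact mul_nonpos_of_nonneg_of_nonpos (by positivity) hβX
  obtain ⟨hk1, hk2, -⟩ := HVEC_tau (T := 0) hβ hpY hu0 huν hnu hYp1 hyp hBβ hvpr hmr
  refine Post.bind (post_div hu hm (hvp.mono h7) hk2) ?_
  rintro tr env8 h8 ⟨Tv, hT, hTr⟩
  have hTT := (HVEC_tau (T := Tv) hβ hpY hu0 huν hnu hYp1 hyp hBβ hvpr hmr).2.2 hTr
  refine Post.bind (post_mul hu (hBe.mono (h6.trans (h7.trans h8)))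
    (hnr.mono (h3.trans (h5.trans (h6.trans (h7.trans h8)))))) ?_
  rintro ar env9 h9 ⟨av, ha, har⟩
  refine Post.pure ?_
  refine ⟨β, hβ, hβX, Function.update Y' p vpv, Tv, av, ?_, hT.mono h9, ha, ?_, ?_, ?_, ?_⟩
  · intro i
    by_cases hi : i = p
    · subst hi
      simp only [Function.update_self]
      exact hvp.mono (h7.trans (h8.trans h9))
    · simp only [Function.update_of_ne hi]
      exact (hY' i).mono (h5.trans (h6.trans (h7.trans (h8.trans h9))))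
  · have e1 : Function.update Y' p vpv - hv Y p β =
        (Y' - Y) + Pi.single p (vpv - (Y' p - (β : ℂ))) := by
      funext i
      by_cases hi : i = p
      · subst hi
        simp only [Pi.sub_apply, Function.update_self, hv, if_true, Pi.add_apply, Pi.single_eq_same]
        ring
      · simp only [Pi.sub_apply, Function.update_of_ne hi, hv, if_neg hi, Pi.add_apply,
          Pi.single_eq_of_ne hi, add_zero]
    rw [e1]
    refine (nv_add_le _ _).trans ?_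
    rw [nv_single]
    have h10 : nv (Y' - Y) ≤ 5.1 * (n * u) * nv Y :=
      nv_le_mul_of_le (by positivity) (fun i => hyY i)
    rw [hnY] at h10
    nlinarith
  · have e1 : 20 * (n : ℝ) * u = 20 * (n * u) := by ring
    rw [e1]
    exact hTT
  · have e1 : 20 * (n : ℝ) * u * nv X = 20 * (n * u) * nv X := by ring
    rw [e1]
    exact HVEC_a hβ hX hu0 huν hnu ht' hBβ har
  · intro i hi hXi
    rw [Function.update_of_ne hi]
    have h10 := hYr i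
    unfold Rel at h10
    rw [hXi, zero_div, sub_zero, norm_zero, mul_zero] at h10
    simpa using h10

end H6LP
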