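import Mathlib

/-!
# NUM: the parameter inequalities for MAIN (pure numerics)

`y = 2^-q`, `N = n`, `N y ≤ 1`, `s = 2^-17 y^5`, `w = 2^-11 y^3`, `r = 2^-100 y^25`, `u ≤ r^8`.
-/

set_option autoImplicit false

namespace H6LP

structure NumC (N y s w r u : ℝ) : Prop where
  hN : 1 ≤ N
  hy0 : 0 < y
  hy1 : y ≤ 1
  hNy : N * y ≤ 1
  hs : s = (2 : ℝ)⁻¹ ^ 17 * y ^ 5
  hw : w = (2 : ℝ)⁻¹ ^ 11 * y ^ 3
  hr : r = (2 : ℝ)⁻¹ ^ 100 * y ^ 25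
  hu0 : 0 ≤ u
  hu : u ≤ r ^ 8

variable {N y s w r u : ℝ}

theorem NumC.npow (h : NumC N y s w r u) (k : ℕ) : N ^ k * y ^ k ≤ 1 := by
  rw [← mul_pow]
  exact pow_le_one₀ (mul_nonneg (by linarith [h.hN]) h.hy0.le) h.hNy

theorem NumC.nu8 (h : NumC N y s w r u) (k m : ℕ) (hkm : k + m ≤ 200) :
    N ^ k * u ≤ (2 : ℝ)⁻¹ ^ 800 * y ^ m := by
  have h1 : u ≤ (2 : ℝ)⁻¹ ^ 800 * y ^ 200 := by
    refine h.hu.trans (le_of_eq ?_)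
    rw [h.hr, mul_pow, ← pow_mul, ← pow_mul]
  have hN0 : (0 : ℝ) ≤ N ^ k := pow_nonneg (by linarith [h.hN]) k
  have h2 : y ^ 200 ≤ y ^ k * y ^ m := by
    rw [← pow_add]
    exact pow_le_pow_of_le_one h.hy0.le h.hy1 hkm
  have hym : 0 ≤ y ^ m := pow_nonneg h.hy0.le m
  calc N ^ k * u ≤ N ^ k * ((2 : ℝ)⁻¹ ^ 800 * (y ^ k * y ^ m)) := by
        refine mul_le_mul_of_nonneg_left (h1.trans ?_) hN0
        exact mul_le_mul_of_nonneg_left h2 (by positivity)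
    _ = (2 : ℝ)⁻¹ ^ 800 * y ^ m * (N ^ k * y ^ k) := by ring
    _ ≤ (2 : ℝ)⁻¹ ^ 800 * y ^ m * 1 := by
        refine mul_le_mul_of_nonneg_left (h.npow k) (by positivity)
    _ = _ := by ring

theorem NumC.nu (h : NumC N y s w r u) (k m : ℕ) (hkm : k + m ≤ 200) :
    N ^ k * u ≤ (2 : ℝ)⁻¹ ^ 200 * y ^ m := by
  refine (h.nu8 k m hkm).trans ?_
  refine mul_le_mul_of_nonneg_right ?_ (pow_nonneg h.hy0.le m)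
  exact pow_le_pow_of_le_one (by norm_num) (by norm_num) (by norm_num)

theorem NumC.ypow (h : NumC N y s w r u) {k m : ℕ} (hkm : k ≤ m) : y ^ m ≤ y ^ k :=
  pow_le_pow_of_le_one h.hy0.le h.hy1 hkm

theorem NumC.s_pos (h : NumC N y s w r u) : 0 < s := by
  rw [h.hs]; have := h.hy0; positivity

theorem NumC.w_pos (h : NumC N y s w r u) : 0 < w := by
  rw [h.hw]; have := h.hy0; positivity

theorem NumC.r_pos (h : NumC N y s w r u) : 0 < r := by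
  rw [h.hr]; have := h.hy0; positivity

theorem NumC.s_le (h : NumC N y s w r u) : s ≤ 1 := by
  rw [h.hs]
  have h1 : y ^ 5 ≤ 1 := pow_le_one₀ h.hy0.le h.hy1
  have h2 : (0 : ℝ) ≤ y ^ 5 := pow_nonneg h.hy0.le 5
  nlinarith [show ((2 : ℝ)⁻¹ ^ 17) ≤ 1 by norm_num]

theorem NumC.w_le (h : NumC N y s w r u) : w ≤ 1 / 10 := by
  rw [h.hw]
  have h1 : y ^ 3 ≤ 1 := pow_le_one₀ h.hy0.le h.hy1
  have h2 : (0 : ℝ) ≤ y ^ 3 := pow_nonneg h.hy0.le 3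
  nlinarith [show ((2 : ℝ)⁻¹ ^ 11) ≤ 1 / 10 by norm_num]

/-- (a) -/
theorem NumC.a (h : NumC N y s w r u) : 10 ^ 6 * N ^ 3 * u ≤ s / 2 := by
  have h1 := h.nu 3 5 (by norm_num)
  have h2 : (0 : ℝ) ≤ y ^ 5 := pow_nonneg h.hy0.le 5
  rw [h.hs]
  have h3 : (10 : ℝ) ^ 6 * (2 : ℝ)⁻¹ ^ 200 ≤ (2 : ℝ)⁻¹ ^ 18 := by norm_num
  nlinarith [mul_le_mul_of_nonneg_right h3 h2]

/-- (b) -/
theorem NumC.b (h : NumC N y s w r u) : 20 * N * u ≤ s / 2 := by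
  have h1 := h.nu 1 5 (by norm_num)
  rw [pow_one] at h1
  have h2 : (0 : ℝ) ≤ y ^ 5 := pow_nonneg h.hy0.le 5
  rw [h.hs]
  have h3 : (20 : ℝ) * (2 : ℝ)⁻¹ ^ 200 ≤ (2 : ℝ)⁻¹ ^ 18 := by norm_num
  nlinarith [mul_le_mul_of_nonneg_right h3 h2]

/-- (c) the size of the total error matrix -/
theorem NumC.c1 (h : NumC N y s w r u) : 2 * 10 ^ 5 * N ^ 3 * u ≤ s * w ^ 2 := by
  have h1 := h.nu 3 11 (by norm_num)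
  have h2 : (0 : ℝ) ≤ y ^ 11 := pow_nonneg h.hy0.le 11
  rw [h.hs, h.hw]
  have h3 : (2 * 10 ^ 5 : ℝ) * (2 : ℝ)⁻¹ ^ 200 ≤ (2 : ℝ)⁻¹ ^ 39 := by norm_num
  have h4 : ((2 : ℝ)⁻¹ ^ 17 * y ^ 5) * ((2 : ℝ)⁻¹ ^ 11 * y ^ 3) ^ 2 = (2 : ℝ)⁻¹ ^ 39 * y ^ 11 := by ring
  rw [h4]
  nlinarith [mul_le_mul_of_nonneg_right h3 h2]

theorem NumC.c2 (h : NumC N y s w r u) : 2 * 10 ^ 5 * N ^ 3 * u ≤ s := by
  have h1 := h.c1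
  have hs := h.s_pos
  have hw := h.w_pos
  have hw1 := h.w_le
  nlinarith [mul_pos hs hw, mul_le_mul hw1 hw1 hw.le (by norm_num : (0 : ℝ) ≤ 1 / 10)]

theorem NumC.c3 (h : NumC N y s w r u) : 2 * 10 ^ 5 * N ^ 3 * u ≤ r ^ 5 / 2 := by
  have h1 := h.nu8 3 125 (by norm_num)
  have h2 : (0 : ℝ) ≤ y ^ 125 := pow_nonneg h.hy0.le 125
  have h4 : r ^ 5 = (2 : ℝ)⁻¹ ^ 500 * y ^ 125 := by
    have e0 : ∀ (x : ℝ) (a b c : ℕ), a * b = c → x ^ c = (x ^ a) ^ b := by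
      intro x a b c habc
      rw [← pow_mul, habc]
    rw [h.hr, mul_pow, e0 _ 100 5 500 (by norm_num), e0 y 25 5 125 (by norm_num)]
  have h5 : (2 : ℝ)⁻¹ ^ 800 ≤ (2 : ℝ)⁻¹ ^ 500 * (2 : ℝ)⁻¹ ^ 100 := by
    have e3 : ∀ a b c : ℕ, a + b ≤ c → (2 : ℝ)⁻¹ ^ c ≤ (2 : ℝ)⁻¹ ^ a * (2 : ℝ)⁻¹ ^ b := by
      intro a b c habc
      rw [← pow_add]
      exact pow_le_pow_of_le_one (by norm_num) (by norm_num) habc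
    exact e3 500 100 800 (by norm_num)
  have h6 : (0 : ℝ) ≤ (2 : ℝ)⁻¹ ^ 500 * y ^ 125 := mul_nonneg (pow_nonneg (by norm_num) _) h2
  have h3 : (2 * 10 ^ 5 : ℝ) * (2 : ℝ)⁻¹ ^ 100 ≤ 1 / 2 := by norm_num
  rw [h4]
  calc 2 * 10 ^ 5 * N ^ 3 * u = 2 * 10 ^ 5 * (N ^ 3 * u) := by ring
    _ ≤ 2 * 10 ^ 5 * ((2 : ℝ)⁻¹ ^ 500 * (2 : ℝ)⁻¹ ^ 100 * y ^ 125) := by
        refine mul_le_mul_of_nonneg_left (h1.trans ?_) (by norm_num)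
        exact mul_le_mul_of_nonneg_right h5 h2
    _ = ((2 * 10 ^ 5 : ℝ) * (2 : ℝ)⁻¹ ^ 100) * ((2 : ℝ)⁻¹ ^ 500 * y ^ 125) := by
        generalize (2 : ℝ)⁻¹ ^ 500 = c
        generalize (2 : ℝ)⁻¹ ^ 100 = d
        ring
    _ ≤ 1 / 2 * ((2 : ℝ)⁻¹ ^ 500 * y ^ 125) := mul_le_mul_of_nonneg_right h3 h6
    _ = _ := by ring

theorem NumC.c4 (h : NumC N y s w r u) : 2 * 10 ^ 5 * N ^ 3 * u ≤ y / 16 := by
  have h1 := h.nu 3 1 (by norm_num)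
  rw [pow_one] at h1
  have h2 := h.hy0
  have h3 : (2 * 10 ^ 5 : ℝ) * (2 : ℝ)⁻¹ ^ 200 ≤ 1 / 16 := by norm_num
  nlinarith [mul_le_mul_of_nonneg_right h3 h2.le]

/-- (d) -/
theorem NumC.d (h : NumC N y s w r u) : 200 * r ≤ s * w := by
  rw [h.hs, h.hw, h.hr]
  have h1 := h.ypow (show 8 ≤ 25 by norm_num)
  have h2 : (0 : ℝ) ≤ y ^ 8 := pow_nonneg h.hy0.le 8
  have h4 : ((2 : ℝ)⁻¹ ^ 17 * y ^ 5) * ((2 : ℝ)⁻¹ ^ 11 * y ^ 3) = (2 : ℝ)⁻¹ ^ 28 * y ^ 8 := by ring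
  rw [h4]
  have h3 : (200 : ℝ) * (2 : ℝ)⁻¹ ^ 100 ≤ (2 : ℝ)⁻¹ ^ 28 := by norm_num
  nlinarith [mul_le_mul_of_nonneg_right h3 h2, mul_le_mul_of_nonneg_left h1
    (show (0 : ℝ) ≤ 200 * (2 : ℝ)⁻¹ ^ 100 by positivity)]

/-- (e) -/
theorem NumC.e (h : NumC N y s w r u) : 10 ^ 9 * N ^ 5 * u ≤ s * w ^ 2 * r := by
  have h1 := h.nu 5 36 (by norm_num)
  have h2 : (0 : ℝ) ≤ y ^ 36 := pow_nonneg h.hy0.le 36
  rw [h.hs, h.hw, h.hr]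
  have h3 : (10 ^ 9 : ℝ) * (2 : ℝ)⁻¹ ^ 200 ≤ (2 : ℝ)⁻¹ ^ 139 := by norm_num
  have h4 : ((2 : ℝ)⁻¹ ^ 17 * y ^ 5) * ((2 : ℝ)⁻¹ ^ 11 * y ^ 3) ^ 2 * ((2 : ℝ)⁻¹ ^ 100 * y ^ 25) =
      (2 : ℝ)⁻¹ ^ 139 * y ^ 36 := by ring
  rw [h4]
  nlinarith [mul_le_mul_of_nonneg_right h3 h2]

/-- `r ≤ s / 2` -/
theorem NumC.r_le (h : NumC N y s w r u) : r ≤ s / 2 := by
  have h1 := h.d
  have hs := h.s_pos
  have hw := h.w_pos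
  have hw1 := h.w_le
  have hr := h.r_pos
  nlinarith [mul_le_mul_of_nonneg_left hw1 hs.le]

/-- the error of one column -/
noncomputable def epsCol (N s w r u : ℝ) : ℝ :=
  2200 * N * r / (w ^ 2 * s ^ 2) + 20 * N ^ 2 * u + 2 * (10 ^ 5 * N ^ 3 * u)

theorem NumC.epsCol_nonneg (h : NumC N y s w r u) : 0 ≤ epsCol N s w r u := by
  have := h.hN; have := h.hu0; have := h.r_pos; have := h.s_pos; have := h.w_pos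
  unfold epsCol
  positivity

theorem NumC.epsCol_le (h : NumC N y s w r u) : N * epsCol N s w r u ≤ (2 : ℝ)⁻¹ ^ 30 * y ^ 7 := by
  have hN := h.hN
  have hy0 := h.hy0
  have h1 : N * (2200 * N * r / (w ^ 2 * s ^ 2)) ≤ 2200 * (2 : ℝ)⁻¹ ^ 44 * y ^ 7 := by
    have e1 : N * (2200 * N * r / (w ^ 2 * s ^ 2)) = 2200 * (2 : ℝ)⁻¹ ^ 44 * (N ^ 2 * y ^ 2) * y ^ 7 := by
      rw [h.hs, h.hw, h.hr]
      field_simp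
    rw [e1]
    have h2 := h.npow 2
    have : (0 : ℝ) ≤ 2200 * (2 : ℝ)⁻¹ ^ 44 * y ^ 7 := by positivity
    nlinarith
  have h3 := h.nu 3 7 (by norm_num)
  have h4 := h.nu 4 7 (by norm_num)
  have hy7 : (0 : ℝ) ≤ y ^ 7 := by positivity
  have e2 : N * epsCol N s w r u = N * (2200 * N * r / (w ^ 2 * s ^ 2)) + 20 * (N ^ 3 * u) +
      2 * 10 ^ 5 * (N ^ 4 * u) := by
    unfold epsCol; ring
  rw [e2]
  have h5 : 2200 * (2 : ℝ)⁻¹ ^ 44 + 20 * (2 : ℝ)⁻¹ ^ 200 + 2 * 10 ^ 5 * (2 : ℝ)⁻¹ ^ 200 ≤ (2 : ℝ)⁻¹ ^ 30 := by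
    norm_num
  nlinarith [mul_le_mul_of_nonneg_right h5 hy7]

/-- (f) the final estimate, with `K = N / w`, `ε = N epsCol`, `ε' = 4 r` -/
theorem NumC.f (h : NumC N y s w r u) :
    2 * (N * epsCol N s w r u * (N / w)) ≤ 1 ∧
    2 * (N / w) * (N * (4 * r) + 8 * (N * epsCol N s w r u)) ≤ y / 16 := by
  have hN := h.hN
  have hy0 := h.hy0
  have hw := h.w_pos
  have h1 : N * epsCol N s w r u * (N / w) ≤ (2 : ℝ)⁻¹ ^ 19 * y ^ 3 := by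
    have e1 := mul_le_mul_of_nonneg_right h.epsCol_le (show (0 : ℝ) ≤ N / w by positivity)
    refine e1.trans ?_
    have e2 : (2 : ℝ)⁻¹ ^ 30 * y ^ 7 * (N / w) = (2 : ℝ)⁻¹ ^ 19 * (N ^ 1 * y ^ 1) * y ^ 3 := by
      rw [h.hw]; field_simp
    rw [e2]
    have := h.npow 1
    have : (0 : ℝ) ≤ (2 : ℝ)⁻¹ ^ 19 * y ^ 3 := by positivity
    nlinarith
  have h2 : N / w * (N * (4 * r)) ≤ (2 : ℝ)⁻¹ ^ 80 * y := by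
    have e2 : N / w * (N * (4 * r)) = 4 * (2 : ℝ)⁻¹ ^ 89 * (N ^ 2 * y ^ 2) * y ^ 20 := by
      rw [h.hw, h.hr]; field_simp
    rw [e2]
    have h3 := h.npow 2
    have h4 : y ^ 20 ≤ y ^ 1 := h.ypow (by norm_num)
    have h5 : (0 : ℝ) ≤ N ^ 2 * y ^ 2 := by positivity
    have h6 : (N ^ 2 * y ^ 2) * y ^ 20 ≤ 1 * y ^ 1 := mul_le_mul h3 h4 (by positivity) (by norm_num)
    have h7 : (4 : ℝ) * (2 : ℝ)⁻¹ ^ 89 ≤ (2 : ℝ)⁻¹ ^ 80 := by norm_num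
    calc 4 * (2 : ℝ)⁻¹ ^ 89 * (N ^ 2 * y ^ 2) * y ^ 20 = 4 * (2 : ℝ)⁻¹ ^ 89 * ((N ^ 2 * y ^ 2) * y ^ 20) := by ring
      _ ≤ 4 * (2 : ℝ)⁻¹ ^ 89 * (1 * y ^ 1) := mul_le_mul_of_nonneg_left h6 (by positivity)
      _ = 4 * (2 : ℝ)⁻¹ ^ 89 * y := by ring
      _ ≤ _ := mul_le_mul_of_nonneg_right h7 hy0.le
  have hy3 : y ^ 3 ≤ y ^ 1 := h.ypow (by norm_num)
  have hy31 : y ^ 3 ≤ 1 := pow_le_one₀ hy0.le h.hy1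
  refine ⟨?_, ?_⟩
  · nlinarith [show (2 : ℝ)⁻¹ ^ 19 ≤ 1 / 4 by norm_num, pow_pos hy0 3]
  · have e3 : 2 * (N / w) * (N * (4 * r) + 8 * (N * epsCol N s w r u)) =
        2 * (N / w * (N * (4 * r))) + 16 * (N * epsCol N s w r u * (N / w)) := by ring
    rw [e3]
    have h8 : (2 : ℝ)⁻¹ ^ 19 * y ^ 3 ≤ (2 : ℝ)⁻¹ ^ 19 * y := by
      rw [pow_one] at hy3
      exact mul_le_mul_of_nonneg_left hy3 (by positivity)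
    have h9 : 2 * (2 : ℝ)⁻¹ ^ 80 + 16 * (2 : ℝ)⁻¹ ^ 19 ≤ 1 / 16 := by norm_num
    nlinarith [mul_le_mul_of_nonneg_right h9 hy0.le]

end H6LP
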