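import Pool.Agent.H6.LP.NB

/-!
# OPN: the link with the operator norm of Mathlib
-/

set_option autoImplicit false

open Complex Matrix

namespace H6LP

theorem opn_nv_eq {n : ℕ} (x : Fin n → ℂ) : nv x = ‖(WithLp.toLp 2 x : EuclideanSpace ℂ (Fin n))‖ := by
  rw [EuclideanSpace.norm_eq]
  rfl

open scoped Matrix.Norms.L2Operator in
theorem opLe_iff_norm_le {n : ℕ} (A : Matrix (Fin n) (Fin n) ℂ) {c : ℝ} (hc : 0 ≤ c) :
    OpLe A c ↔ ‖A‖ ≤ c := by
  constructor
  · intro h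
    rw [Matrix.l2_opNorm_def]
    refine ContinuousLinearMap.opNorm_le_bound _ hc ?_
    intro x
    have h1 := h x.ofLp
    rw [opn_nv_eq, opn_nv_eq] at h1
    exact h1
  · intro h x
    have h1 := Matrix.l2_opNorm_mulVec A (WithLp.toLp 2 x : EuclideanSpace ℂ (Fin n))
    rw [opn_nv_eq, opn_nv_eq]
    exact h1.trans (mul_le_mul_of_nonneg_right h (norm_nonneg _))

open scoped Matrix.Norms.L2Operator in
theorem norm_le_fro' {n : ℕ} (A : Matrix (Fin n) (Fin n) ℂ) : ‖A‖ ≤ fro A :=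
  (opLe_iff_norm_le A (fro_nonneg A)).1 (opLe_fro A)

end H6LP
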