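import Pool.Agent.H6.LP.Defs

/-!
# REPS: the representatives (pure)

Two listed discs near the same eigenvalue have sup distance `≤ 6` (in units of `r`); near different
eigenvalues `> 10` if the gap is `≥ 100 r`.  Every eigenvalue has a listed disc (round `λ/r`).  So the greedy
list contains exactly one disc for every eigenvalue.
-/

set_option autoImplicit false

open Complex Matrix

namespace H6LP

theorem REPS_grd_re (h : ℝ) (a b : ℤ) : (grd h a b).re = h * a := by
  unfold grd
  simp

theorem REPS_grd_im (h : ℝ) (a b : ℤ) : (grd h a b).im = h * b := by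
  unfold grd
  simp

/-- the two positions are far from each other -/
def REPSfar (p q : ℤ × ℤ) : Prop := 10 < |p.1 - q.1| ∨ 10 < |p.2 - q.2|

theorem REPS_far_symm {p q : ℤ × ℤ} (h : REPSfar p q) : REPSfar q p := by
  unfold REPSfar at *
  rw [abs_sub_comm q.1, abs_sub_comm q.2]
  exact h

theorem REPS_cons (p : ℤ × ℤ × ℕ) (S : DList) :
    reps (p :: S) = if (reps S).all
      (fun q => decide (10 < |p.1 - q.1|) || decide (10 < |p.2.1 - q.2|)) then
        (p.1, p.2.1) :: reps S else reps S := rfl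

theorem REPS_mem (S : DList) : ∀ q ∈ reps S, ∃ k, (q.1, q.2, k) ∈ S := by
  induction S with
  | nil => intro q hq; exact absurd hq (List.not_mem_nil)
  | cons p S ih =>
    intro q hq
    rw [REPS_cons] at hq
    split_ifs at hq with hc
    · rcases List.mem_cons.1 hq with rfl | hq
      · exact ⟨p.2.2, List.mem_cons_self⟩
      · obtain ⟨k, hk⟩ := ih q hq
        exact ⟨k, List.mem_cons_of_mem _ hk⟩
    · obtain ⟨k, hk⟩ := ih q hq
      exact ⟨k, List.mem_cons_of_mem _ hk⟩

theorem REPS_pairwise (S : DList) : (reps S).Pairwise REPSfar := by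
  induction S with
  | nil => exact List.Pairwise.nil
  | cons p S ih =>
    rw [REPS_cons]
    split_ifs with hc
    · rw [List.pairwise_cons]
      refine ⟨fun q hq => ?_, ih⟩
      rw [List.all_eq_true] at hc
      have := hc q hq
      rw [Bool.or_eq_true, decide_eq_true_iff, decide_eq_true_iff] at this
      exact this
    · exact ih

theorem REPS_cover (S : DList) : ∀ p ∈ S, ∃ q ∈ reps S, ¬ REPSfar (p.1, p.2.1) q := by
  have hself : ∀ q : ℤ × ℤ, ¬ REPSfar q q := by
    intro q; unfold REPSfar; simp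
  induction S with
  | nil => intro p hp; exact absurd hp (List.not_mem_nil)
  | cons p S ih =>
    intro p' hp'
    rw [REPS_cons]
    split_ifs with hc
    · rcases List.mem_cons.1 hp' with rfl | hp'
      · exact ⟨_, List.mem_cons_self, hself _⟩
      · obtain ⟨q, hq, hn⟩ := ih p' hp'
        exact ⟨q, List.mem_cons_of_mem _ hq, hn⟩
    · rcases List.mem_cons.1 hp' with rfl | hp'
      · rw [List.all_eq_true] at hc
        push Not at hc
        obtain ⟨q, hq, hn⟩ := hc
        refine ⟨q, hq, fun hf => hn ?_⟩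
        rw [Bool.or_eq_true, decide_eq_true_iff, decide_eq_true_iff]
        exact hf
      · exact ih p' hp'

theorem REPS_round (R x : ℝ) (hR : 0 < R) : |x - R * (round (x / R) : ℤ)| ≤ R / 2 := by
  have h1 := abs_sub_round (x / R)
  have h2 : x - R * (round (x / R) : ℤ) = R * (x / R - (round (x / R) : ℤ)) := by
    field_simp
  rw [h2, abs_mul, abs_of_pos hR]
  nlinarith

theorem REPS_int_near {r x : ℝ} {a b : ℤ} (hr : 0 < r) (h1 : |x - r * a| < 3 * r)
    (h2 : |x - r * b| < 3 * r) : |a - b| ≤ 10 := by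
  rw [abs_lt] at h1 h2
  rw [abs_le]
  constructor
  · by_contra hc
    push Not at hc
    have hc' : (a : ℝ) - b ≤ -10 := by
      have : a - b ≤ -10 := by omega
      exact_mod_cast this
    nlinarith
  · by_contra hc
    push Not at hc
    have hc' : (10 : ℝ) ≤ (a : ℝ) - b := by
      have : 10 ≤ a - b := by omega
      exact_mod_cast this
    nlinarith

/-- positions near the same point are not far -/
theorem REPS_not_far {r : ℝ} (hr : 0 < r) {z : ℂ} {p q : ℤ × ℤ} (hp : ‖z - grd r p.1 p.2‖ < 3 * r)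
    (hq : ‖z - grd r q.1 q.2‖ < 3 * r) : ¬ REPSfar p q := by
  unfold REPSfar
  push Not
  have h1 := (Complex.abs_re_le_norm (z - grd r p.1 p.2)).trans_lt hp
  have h2 := (Complex.abs_im_le_norm (z - grd r p.1 p.2)).trans_lt hp
  have h3 := (Complex.abs_re_le_norm (z - grd r q.1 q.2)).trans_lt hq
  have h4 := (Complex.abs_im_le_norm (z - grd r q.1 q.2)).trans_lt hq
  rw [Complex.sub_re, REPS_grd_re] at h1 h3
  rw [Complex.sub_im, REPS_grd_im] at h2 h4
  exact ⟨REPS_int_near hr h1 h3, REPS_int_near hr h2 h4⟩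

/-- not far positions have close grid points -/
theorem REPS_close {r : ℝ} (hr : 0 < r) {p q : ℤ × ℤ} (h : ¬ REPSfar p q) :
    ‖grd r p.1 p.2 - grd r q.1 q.2‖ ≤ 20 * r := by
  unfold REPSfar at h
  push Not at h
  have h0 := Complex.norm_le_abs_re_add_abs_im (grd r p.1 p.2 - grd r q.1 q.2)
  rw [Complex.sub_re, Complex.sub_im, REPS_grd_re, REPS_grd_re, REPS_grd_im, REPS_grd_im,
    ← mul_sub, ← mul_sub, abs_mul, abs_mul, abs_of_pos hr] at h0
  have h1 : |(p.1 : ℝ) - q.1| ≤ 10 := by exact_mod_cast h.1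
  have h2 : |(p.2 : ℝ) - q.2| ≤ 10 := by exact_mod_cast h.2
  nlinarith

theorem REPS_core {n : ℕ} {lam : Fin n → ℂ} {r : ℝ} (hr : 0 < r) (R : List (ℤ × ℤ))
    (hnear : ∀ q ∈ R, ∃ i, ‖lam i - grd r q.1 q.2‖ < 3 * r) (hpw : R.Pairwise REPSfar)
    (hcov : ∀ i, ∃ z : ℂ, ∃ q ∈ R, ‖lam i - z‖ ≤ 2 * r ∧ ‖z - grd r q.1 q.2‖ ≤ 20 * r)
    (hgap : ∀ i i', i ≠ i' → 100 * r ≤ ‖lam i - lam i'‖) :
    ∃ σ : Equiv.Perm (Fin n), ∀ i : Fin n,
      ‖lam (σ i) - grd r (R.getD i (0, 0)).1 (R.getD i (0, 0)).2‖ ≤ 3 * r := by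
  have hex : ∀ k : Fin R.length, ∃ i, ‖lam i - grd r (R.get k).1 (R.get k).2‖ < 3 * r :=
    fun k => hnear _ (List.get_mem _ _)
  choose F hF using hex
  have hinj : Function.Injective F := by
    intro k k' hk
    by_contra hne
    have h1 := hF k
    have h2 := hF k'
    rw [← hk] at h2
    have h3 := REPS_not_far hr h1 h2
    have h4 := List.pairwise_iff_get.1 hpw
    rcases lt_or_gt_of_ne hne with h5 | h5
    · exact h3 (h4 k k' h5)
    · exact h3 (REPS_far_symm (h4 k' k h5))
  have hsurj : Function.Surjective F := by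
    intro i
    obtain ⟨z, q, hq, h5, h8⟩ := hcov i
    obtain ⟨k, rfl⟩ := List.get_of_mem hq
    refine ⟨k, ?_⟩
    by_contra hne
    have h6 := hF k
    have h7 := hgap _ _ hne
    have h10 : ‖lam (F k) - lam i‖ ≤ ‖lam (F k) - grd r (R.get k).1 (R.get k).2‖ +
        ‖z - grd r (R.get k).1 (R.get k).2‖ + ‖lam i - z‖ := by
      have e : lam (F k) - lam i = (lam (F k) - grd r (R.get k).1 (R.get k).2)
          - (z - grd r (R.get k).1 (R.get k).2) - (lam i - z) := by ring
      rw [e]
      exact (norm_sub_le _ _).trans (add_le_add_left (norm_sub_le _ _) _)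
    linarith
  have hcard : R.length = n := by
    have := Fintype.card_of_bijective ⟨hinj, hsurj⟩
    simpa using this
  have hbij : Function.Bijective (fun i : Fin n => F (Fin.cast hcard.symm i)) :=
    Function.Bijective.comp (g := F) ⟨hinj, hsurj⟩ (finCongr hcard.symm).bijective
  refine ⟨Equiv.ofBijective _ hbij, fun i => ?_⟩
  have hi : (i : ℕ) < R.length := by rw [hcard]; exact i.2
  rw [List.getD_eq_getElem _ _ hi]
  exact (hF (Fin.cast hcard.symm i)).le

theorem reps_spec {n : ℕ} {lam : Fin n → ℂ} {j : ℕ} {S : DList} (h : TInv lam j S)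
    (h' : TNear lam j S) (hgap : ∀ i i', i ≠ i' → 100 * rad j ≤ ‖lam i - lam i'‖) :
    ∃ σ : Equiv.Perm (Fin n), ∀ i : Fin n,
      ‖lam (σ i) - grd (rad j) ((reps S).getD i (0, 0)).1 ((reps S).getD i (0, 0)).2‖ ≤ 3 * rad j := by
  have hr : 0 < rad j := by unfold rad; positivity
  refine REPS_core hr (reps S) (fun q hq => ?_) (REPS_pairwise S) (fun i => ?_) hgap
  · obtain ⟨m, hm⟩ := REPS_mem S q hq
    obtain ⟨i, hi⟩ := h' _ hm
    exact ⟨i, hi⟩
  · have h3 := REPS_round (rad j) (lam i).re hr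
    have h4 := REPS_round (rad j) (lam i).im hr
    set a := round ((lam i).re / rad j) with ha
    set b := round ((lam i).im / rad j) with hb
    have h5 : ‖lam i - grd (rad j) a b‖ ≤ 2 * rad j := by
      have := Complex.norm_le_abs_re_add_abs_im (lam i - grd (rad j) a b)
      rw [Complex.sub_re, Complex.sub_im, REPS_grd_re, REPS_grd_im] at this
      linarith
    obtain ⟨m, hm⟩ := h.list a b ⟨i, h5⟩
    obtain ⟨q, hq, hn⟩ := REPS_cover S _ hm
    have h6 := REPS_close (p := (a, b)) hr hn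
    exact ⟨grd (rad j) a b, q, hq, h5, h6⟩

end H6LP
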