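import Pool.Agent.H6.LP.TREE1

/-!
# TREE2: the invariant of the quadtree (pure)

`L` has the same positions as `children S`, in the same order, and its counts satisfy `m2 ≤ k ≤ 2 m3`.
Positions of children are distinct (`2a + da` determines `a` and `da ∈ {0,1}`).  A centre `(a', b')` within
`2 rad (j+1)` of a root has its parent `(a'/2, b'/2)` (floor) within `2 rad j` of the root.
Sum: `∑ k ≤ 2 ∑_c m3(c) = 2 ∑_λ #{c : |λ - c| < 3 r} ≤ 98 n` (at most 7 integers in an interval of length `< 6`…).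
-/

set_option autoImplicit false

open Complex Matrix

namespace H6LP

variable {n : ℕ}

/-- positions of the children of a position -/
def tree2Kids (q : ℤ × ℤ) : List (ℤ × ℤ) :=
  [(2 * q.1, 2 * q.2), (2 * q.1 + 1, 2 * q.2), (2 * q.1, 2 * q.2 + 1), (2 * q.1 + 1, 2 * q.2 + 1)]

theorem tree2_children_pos (S : DList) :
    (children S).map (fun p => (p.1, p.2.1)) =
      (S.map (fun p => (p.1, p.2.1))).flatMap tree2Kids := by
  unfold children
  rw [List.map_flatMap, List.flatMap_map]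
  rfl

theorem tree2_kids_nodup (q : ℤ × ℤ) : (tree2Kids q).Nodup := by
  unfold tree2Kids
  simp only [List.nodup_cons, List.mem_cons, Prod.mk.injEq, List.not_mem_nil, or_false,
    not_or, not_and, not_false_eq_true, List.nodup_nil, and_true]
  omega

theorem tree2_mem_kids {q x : ℤ × ℤ} : x ∈ tree2Kids q ↔ (x.1 / 2 = q.1 ∧ x.2 / 2 = q.2) := by
  unfold tree2Kids
  obtain ⟨x1, x2⟩ := x
  simp only [List.mem_cons, Prod.mk.injEq, List.not_mem_nil, or_false]
  omega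

theorem tree2_nodup {S : DList} (h : (S.map (fun p => (p.1, p.2.1))).Nodup) :
    ((children S).map (fun p => (p.1, p.2.1))).Nodup := by
  rw [tree2_children_pos, List.nodup_flatMap]
  refine ⟨fun q _ => tree2_kids_nodup q, ?_⟩
  refine List.Pairwise.imp ?_ h
  intro q q' hne
  intro x hx hx'
  rw [tree2_mem_kids] at hx hx'
  apply hne
  ext
  · exact hx.1.symm.trans hx'.1
  · exact hx.2.symm.trans hx'.2

theorem tree2_pos_eq {R : ℤ × ℤ × ℕ → ℤ × ℤ × ℕ → Prop}
    (hR : ∀ c p, R c p → p.1 = c.1 ∧ p.2.1 = c.2.1) {C L : DList} (h : List.Forall₂ R C L) :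
    L.map (fun p => (p.1, p.2.1)) = C.map (fun p => (p.1, p.2.1)) := by
  induction h with
  | nil => rfl
  | cons hcp _ ih =>
    obtain ⟨h1, h2⟩ := hR _ _ hcp
    simp only [List.map_cons, ih, h1, h2]

theorem tree2_left {R : ℤ × ℤ × ℕ → ℤ × ℤ × ℕ → Prop} {C L : DList} (h : List.Forall₂ R C L) :
    ∀ p ∈ L, ∃ c ∈ C, R c p := by
  induction h with
  | nil => intro p hp; simp at hp
  | cons hcp _ ih =>
    intro p hp
    rcases List.mem_cons.1 hp with rfl | hp
    · exact ⟨_, List.mem_cons_self, hcp⟩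
    · obtain ⟨c, hc, hr⟩ := ih p hp
      exact ⟨c, List.mem_cons_of_mem _ hc, hr⟩

theorem tree2_right {R : ℤ × ℤ × ℕ → ℤ × ℤ × ℕ → Prop} {C L : DList} (h : List.Forall₂ R C L) :
    ∀ c ∈ C, ∃ p ∈ L, R c p := by
  induction h with
  | nil => intro p hp; simp at hp
  | cons hcp _ ih =>
    intro c hc
    rcases List.mem_cons.1 hc with rfl | hc
    · exact ⟨_, List.mem_cons_self, hcp⟩
    · obtain ⟨p, hp, hr⟩ := ih c hc
      exact ⟨p, List.mem_cons_of_mem _ hp, hr⟩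

theorem tree2_mem_children {S : DList} {c : ℤ × ℤ × ℕ} (hc : c ∈ children S) :
    ∃ p ∈ S, c.1 / 2 = p.1 ∧ c.2.1 / 2 = p.2.1 := by
  unfold children at hc
  rw [List.mem_flatMap] at hc
  obtain ⟨p, hp, hc⟩ := hc
  refine ⟨p, hp, ?_⟩
  obtain ⟨c1, c2, c3⟩ := c
  simp only [List.mem_cons, Prod.mk.injEq, List.not_mem_nil, or_false] at hc
  show c1 / 2 = p.1 ∧ c2 / 2 = p.2.1
  rcases hc with hc | hc | hc | hc <;> obtain ⟨h1, h2, _⟩ := hc <;> omega

theorem tree2_child_mem {S : DList} {a b : ℤ} {k : ℕ} (h : (a / 2, b / 2, k) ∈ S) :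
    (a, b, khat S (a / 2) (b / 2)) ∈ children S := by
  unfold children
  rw [List.mem_flatMap]
  refine ⟨_, h, ?_⟩
  simp only [List.mem_cons, Prod.mk.injEq, List.not_mem_nil, or_false, and_true]
  omega

theorem tree2_rad_pos (j : ℕ) : 0 < rad j := by
  unfold rad; positivity

theorem tree2_rad_succ (j : ℕ) : rad j = 2 * rad (j + 1) := by
  unfold rad
  rw [pow_succ]
  field_simp

theorem tree2_grd_sub (r : ℝ) (hr : 0 ≤ r) (a b : ℤ) :
    ‖grd r a b - grd (2 * r) (a / 2) (b / 2)‖ ≤ 2 * r := by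
  have ha : (a : ℝ) - 2 * ((a / 2 : ℤ) : ℝ) = ((a % 2 : ℤ) : ℝ) := by
    have := Int.emod_add_mul_ediv a 2
    have h2 : ((a % 2 + 2 * (a / 2) : ℤ) : ℝ) = (a : ℝ) := by rw [this]
    push_cast at h2
    linarith
  have hb : (b : ℝ) - 2 * ((b / 2 : ℤ) : ℝ) = ((b % 2 : ℤ) : ℝ) := by
    have := Int.emod_add_mul_ediv b 2
    have h2 : ((b % 2 + 2 * (b / 2) : ℤ) : ℝ) = (b : ℝ) := by rw [this]
    push_cast at h2
    linarith
  have ha1 : |((a % 2 : ℤ) : ℝ)| ≤ 1 := by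
    have h0 : 0 ≤ a % 2 := by omega
    have h1 : a % 2 ≤ 1 := by omega
    rw [abs_of_nonneg (by exact_mod_cast h0)]
    exact_mod_cast h1
  have hb1 : |((b % 2 : ℤ) : ℝ)| ≤ 1 := by
    have h0 : 0 ≤ b % 2 := by omega
    have h1 : b % 2 ≤ 1 := by omega
    rw [abs_of_nonneg (by exact_mod_cast h0)]
    exact_mod_cast h1
  have e : grd r a b - grd (2 * r) (a / 2) (b / 2) =
      ((r * ((a % 2 : ℤ) : ℝ) : ℝ) : ℂ) + ((r * ((b % 2 : ℤ) : ℝ) : ℝ) : ℂ) * I := by
    rw [← ha, ← hb]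
    unfold grd
    push_cast
    ring
  rw [e]
  refine (norm_add_le _ _).trans ?_
  rw [norm_mul, Complex.norm_I, mul_one, Complex.norm_real, Complex.norm_real, Real.norm_eq_abs,
    Real.norm_eq_abs, abs_mul, abs_mul, abs_of_nonneg hr]
  nlinarith [mul_le_mul_of_nonneg_left ha1 hr, mul_le_mul_of_nonneg_left hb1 hr]

/-- at most 49 grid points are at distance `< 3 r` -/
theorem tree2_count (z : ℂ) {r : ℝ} (hr : 0 < r) (T : Finset (ℤ × ℤ))
    (hT : ∀ q ∈ T, ‖z - grd r q.1 q.2‖ < 3 * r) : T.card ≤ 49 := by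
  have hsub : T ⊆ Finset.Icc (⌊z.re / r⌋ - 3) (⌊z.re / r⌋ + 3) ×ˢ
      Finset.Icc (⌊z.im / r⌋ - 3) (⌊z.im / r⌋ + 3) := by
    intro q hq
    have h := hT q hq
    have h1 : |(z - grd r q.1 q.2).re| < 3 * r := (Complex.abs_re_le_norm _).trans_lt h
    have h2 : |(z - grd r q.1 q.2).im| < 3 * r := (Complex.abs_im_le_norm _).trans_lt h
    have e1 : (z - grd r q.1 q.2).re = z.re - r * q.1 := by
      unfold grd
      simp
    have e2 : (z - grd r q.1 q.2).im = z.im - r * q.2 := by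
      unfold grd
      simp
    rw [e1] at h1
    rw [e2] at h2
    have key : ∀ (x : ℝ) (m : ℤ), |x - r * m| < 3 * r → ⌊x / r⌋ - 3 ≤ m ∧ m ≤ ⌊x / r⌋ + 3 := by
      intro x m hx
      rw [abs_lt] at hx
      have hx1 : x / r < m + 3 := by
        rw [div_lt_iff₀ hr]; nlinarith [hx.2]
      have hx2 : (m : ℝ) - 3 < x / r := by
        rw [lt_div_iff₀ hr]; nlinarith [hx.1]
      have f1 : (⌊x / r⌋ : ℝ) ≤ x / r := Int.floor_le _
      have f2 : x / r < ⌊x / r⌋ + 1 := Int.lt_floor_add_one _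
      constructor
      · have : ((⌊x / r⌋ : ℤ) : ℝ) < ((m + 3 : ℤ) : ℝ) := by push_cast; linarith
        have := Int.cast_lt.1 this
        omega
      · have : ((m - 3 : ℤ) : ℝ) < ((⌊x / r⌋ + 1 : ℤ) : ℝ) := by push_cast; linarith
        have := Int.cast_lt.1 this
        omega
    rw [Finset.mem_product, Finset.mem_Icc, Finset.mem_Icc]
    exact ⟨key _ _ h1, key _ _ h2⟩
  refine (Finset.card_le_card hsub).trans ?_
  rw [Finset.card_product, Int.card_Icc, Int.card_Icc]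
  have h1 : (⌊z.re / r⌋ + 3 + 1 - (⌊z.re / r⌋ - 3)).toNat = 7 := by
    have : (⌊z.re / r⌋ + 3 + 1 - (⌊z.re / r⌋ - 3)) = 7 := by ring
    rw [this]; rfl
  have h2 : (⌊z.im / r⌋ + 3 + 1 - (⌊z.im / r⌋ - 3)).toNat = 7 := by
    have : (⌊z.im / r⌋ + 3 + 1 - (⌊z.im / r⌋ - 3)) = 7 := by ring
    rw [this]; rfl
  rw [h1, h2]

theorem tree2_m3_sum (lam : Fin n → ℂ) {r : ℝ} (hr : 0 < r) (T : Finset (ℤ × ℤ)) :
    ∑ q ∈ T, m3 lam (grd r q.1 q.2) r ≤ 49 * n := by
  classical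
  have e : ∀ q : ℤ × ℤ, m3 lam (grd r q.1 q.2) r =
      ∑ i : Fin n, if ‖lam i - grd r q.1 q.2‖ < 3 * r then 1 else 0 := by
    intro q
    unfold m3
    rw [Finset.card_filter]
  simp only [e]
  rw [Finset.sum_comm]
  refine (Finset.sum_le_card_nsmul Finset.univ _ 49 ?_).trans ?_
  · intro i _
    rw [← Finset.card_filter]
    exact tree2_count (lam i) hr _ (fun q hq => (Finset.mem_filter.1 hq).2)
  · simp [mul_comm]

theorem tree2_sum_map {g : ℤ × ℤ → ℕ} : ∀ {L : DList},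
    (L.map (fun p => (p.1, p.2.1))).Nodup → (∀ p ∈ L, p.2.2 ≤ g (p.1, p.2.1)) →
    ksum L ≤ ∑ q ∈ (L.map (fun p => (p.1, p.2.1))).toFinset, g q := by
  classical
  intro L
  induction L with
  | nil => intro _ _; simp [ksum]
  | cons p L ih =>
    intro hn hg
    rw [List.map_cons, List.nodup_cons] at hn
    rw [List.map_cons, List.toFinset_cons, Finset.sum_insert (by
      rw [List.mem_toFinset]; exact hn.1)]
    have h1 : ksum (p :: L) = p.2.2 + ksum L := by simp [ksum]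
    rw [h1]
    exact add_le_add (hg p List.mem_cons_self)
      (ih hn.2 (fun q hq => hg q (List.mem_cons_of_mem _ hq)))

theorem tinv_step {lam : Fin n → ℂ} {j : ℕ} {S L : DList} (h : TInv lam j S)
    (hL : List.Forall₂ (fun c p : ℤ × ℤ × ℕ => p.1 = c.1 ∧ p.2.1 = c.2.1 ∧
      m2 lam (grd (rad (j + 1)) c.1 c.2.1) (rad (j + 1)) ≤ p.2.2 ∧
      p.2.2 ≤ 2 * m3 lam (grd (rad (j + 1)) c.1 c.2.1) (rad (j + 1))) (children S) L) :
    TInv lam (j + 1) (L.filter (fun p => 0 < p.2.2)) ∧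
      TNear lam (j + 1) (L.filter (fun p => 0 < p.2.2)) := by
  classical
  have hr := tree2_rad_pos (j + 1)
  have hpos : L.map (fun p => (p.1, p.2.1)) = (children S).map (fun p => (p.1, p.2.1)) :=
    tree2_pos_eq (fun c p hcp => ⟨hcp.1, hcp.2.1⟩) hL
  have hnd : (L.map (fun p => (p.1, p.2.1))).Nodup := by
    rw [hpos]; exact tree2_nodup h.nodup
  have hsub : ((L.filter (fun p => 0 < p.2.2)).map (fun p => (p.1, p.2.1))).Sublist
      (L.map (fun p => (p.1, p.2.1))) := List.Sublist.map _ List.filter_sublist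
  have hnd' := hnd.sublist hsub
  have hmem : ∀ p ∈ L.filter (fun p => 0 < p.2.2), p ∈ L ∧ 0 < p.2.2 := by
    intro p hp
    rw [List.mem_filter] at hp
    exact ⟨hp.1, by simpa using hp.2⟩
  have hbd : ∀ p ∈ L, m2 lam (grd (rad (j + 1)) p.1 p.2.1) (rad (j + 1)) ≤ p.2.2 ∧
      p.2.2 ≤ 2 * m3 lam (grd (rad (j + 1)) p.1 p.2.1) (rad (j + 1)) := by
    intro p hp
    obtain ⟨c, _, h1, h2, h3, h4⟩ := tree2_left hL p hp
    rw [h1, h2]
    exact ⟨h3, h4⟩
  have hnear : TNear lam (j + 1) (L.filter (fun p => 0 < p.2.2)) := by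
    intro p hp
    obtain ⟨hpL, hp0⟩ := hmem p hp
    have h3 := (hbd p hpL).2
    have h4 : 0 < m3 lam (grd (rad (j + 1)) p.1 p.2.1) (rad (j + 1)) := by omega
    unfold m3 at h4
    rw [Finset.card_pos] at h4
    obtain ⟨i, hi⟩ := h4
    exact ⟨i, (Finset.mem_filter.1 hi).2⟩
  refine ⟨⟨hnd', ?_, ?_, ?_, ?_, ?_⟩, hnear⟩
  · intro p hp
    exact (hmem p hp).2
  · intro p hp
    exact (hbd p (hmem p hp).1).1
  · rintro a b ⟨i, hi⟩
    have hpar : ‖lam i - grd (rad j) (a / 2) (b / 2)‖ ≤ 2 * rad j := by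
      have e : lam i - grd (rad j) (a / 2) (b / 2) =
          (lam i - grd (rad (j + 1)) a b) + (grd (rad (j + 1)) a b - grd (rad j) (a / 2) (b / 2)) := by
        ring
      rw [e]
      refine (norm_add_le _ _).trans ?_
      have h2 : ‖grd (rad (j + 1)) a b - grd (rad j) (a / 2) (b / 2)‖ ≤ 2 * rad (j + 1) := by
        rw [tree2_rad_succ j]
        exact tree2_grd_sub _ hr.le a b
      have h3 := tree2_rad_succ j
      linarith
    obtain ⟨k, hk⟩ := h.list (a / 2) (b / 2) ⟨i, hpar⟩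
    have hc := tree2_child_mem hk
    obtain ⟨p, hp, h1, h2, h3, _⟩ := tree2_right hL _ hc
    simp only at h1 h2 h3
    have hm : 0 < m2 lam (grd (rad (j + 1)) a b) (rad (j + 1)) := by
      unfold m2
      rw [Finset.card_pos]
      exact ⟨i, Finset.mem_filter.2 ⟨Finset.mem_univ _, hi⟩⟩
    refine ⟨p.2.2, ?_⟩
    rw [List.mem_filter]
    have hp0 : 0 < p.2.2 := lt_of_lt_of_le hm h3
    refine ⟨?_, by simpa using hp0⟩
    have : p = (a, b, p.2.2) := by
      obtain ⟨p1, p2, p3⟩ := p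
      simp only at h1 h2
      simp [h1, h2]
    rw [← this]
    exact hp
  · have h1 : ksum (L.filter (fun p => 0 < p.2.2)) ≤
        ∑ q ∈ ((L.filter (fun p => 0 < p.2.2)).map (fun p => (p.1, p.2.1))).toFinset,
          2 * m3 lam (grd (rad (j + 1)) q.1 q.2) (rad (j + 1)) :=
      tree2_sum_map (g := fun q => 2 * m3 lam (grd (rad (j + 1)) q.1 q.2) (rad (j + 1))) hnd'
        (fun p hp => (hbd p (hmem p hp).1).2)
    rw [← Finset.mul_sum] at h1
    have h2 := tree2_m3_sum lam hr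
      ((L.filter (fun p => 0 < p.2.2)).map (fun p => (p.1, p.2.1))).toFinset
    omega
  · intro p hp
    obtain ⟨c, hc, h1, h2, _, _⟩ := tree2_left hL p (hmem p hp).1
    obtain ⟨q, hq, e1, e2⟩ := tree2_mem_children hc
    obtain ⟨b1, b2⟩ := h.box q hq
    rw [h1, h2]
    rw [← e1] at b1
    rw [← e2] at b2
    rw [abs_lt] at b1 b2 ⊢
    rw [abs_lt]
    rw [pow_succ]
    generalize (2 : ℤ) ^ j = X at *
    omega

end H6LP
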