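import Pool.Agent.H6.LP.TEST
import Pool.Agent.H6.LP.TREE2

/-!
# TREEP: the program `treeP` returns a list with the invariant
-/

set_option autoImplicit false

open Complex Matrix

namespace H6LP

/-- the loop over a list; `R` is a relation between inputs and results which does not depend on registers -/
theorem post_listM {α β : Type} {ad : Adv} (L : List α) (f : α → Prog β) (env : Env)
    (R : α → β → Prop) (h : ∀ a ∈ L, ∀ env', env <+: env' → Post ad (f a) env' (fun b _ => R a b)) :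
    Post ad (listM L f) env (fun bs _ => List.Forall₂ R L bs) := by
  induction L generalizing env with
  | nil => exact Post.pure List.Forall₂.nil
  | cons a L ih =>
    unfold listM
    refine Post.bind (h a (by simp) env (List.prefix_refl _)) ?_
    intro b env1 h1 hb
    refine Post.bind (ih env1 (fun a' ha' env' h' => h a' (by simp [ha']) env' (h1.trans h'))) ?_
    intro t env2 h2 ht
    exact Post.pure (List.Forall₂.cons hb ht)

theorem post_lvl {ad : Adv} {u : ℝ} (hu : ad.Le u) {n l : ℕ} {X : Matrix (Fin n) (Fin n) ℂ}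
    {lam : Fin n → ℂ} {φ Φ : ℂ} (hX : HCtx l X lam φ u) {env : Env} {x : RMat n n} {φr : ℕ}
    (hx : HasM env x X) (hφ : Has env φr Φ) (hΦ : ‖Φ - φ‖ ≤ 40 * u)
    {j : ℕ} (hj : j + 1 ≤ l + 2) {S : DList} (hS : TInv lam j S) :
    Post ad (lvlP l x φr (4 / 2 ^ (j + 1)) S) env (fun S' _ => TInv lam (j + 1) S' ∧
      TNear lam (j + 1) S') := by
  unfold lvlP
  rw [if_pos (tinv_cap hS)]
  refine Post.bind (post_listM (children S) _ env (fun c p : ℤ × ℤ × ℕ => p.1 = c.1 ∧ p.2.1 = c.2.1 ∧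
      m2 lam (grd (rad (j + 1)) c.1 c.2.1) (rad (j + 1)) ≤ p.2.2 ∧
      p.2.2 ≤ 2 * m3 lam (grd (rad (j + 1)) c.1 c.2.1) (rad (j + 1))) ?_) ?_
  · intro c hc env' h'
    obtain ⟨h4, hk, ha, hb⟩ := child_m4 hS hc
    refine Post.bind (post_test hu hX (hx.mono h') (hφ.mono h') hΦ (j := j + 1) (by omega) hj
      ha.le hb.le hk h4) ?_
    rintro k env1 _ ⟨h2, h3⟩
    exact Post.pure ⟨rfl, rfl, h2, h3⟩
  · intro L env1 _ hL
    exact Post.pure (tinv_step hS hL)

theorem post_tree {ad : Adv} {u : ℝ} (hu : ad.Le u) {n l : ℕ} {X : Matrix (Fin n) (Fin n) ℂ}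
    {lam : Fin n → ℂ} {φ Φ : ℂ} (hX : HCtx l X lam φ u) {env : Env} {x : RMat n n} {φr : ℕ}
    (hx : HasM env x X) (hφ : Has env φr Φ) (hΦ : ‖Φ - φ‖ ≤ 40 * u) :
    Post ad (treeP l x φr) env (fun S _ => TInv lam (l + 2) S ∧ TNear lam (l + 2) S) := by
  unfold treeP
  refine (post_iterP (l + 2) _ (tree0 n) env
    (fun j S _ => TInv lam j S ∧ (1 ≤ j → TNear lam j S)) ⟨tinv_zero hX.lamb hX.hn, by omega⟩ ?_).weaken ?_
  · rintro k hk S env' h' ⟨hS, _⟩
    refine (post_lvl hu hX (hx.mono h') (hφ.mono h') hΦ (j := k) (by omega) hS).weaken ?_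
    rintro S' env1 _ ⟨h1, h2⟩
    exact ⟨h1, fun _ => h2⟩
  · rintro S env' _ ⟨h1, h2⟩
    exact ⟨h1, h2 (by omega)⟩

end H6LP
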