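import Pool.Agent.H6.LP.PROB
import Pool.Agent.H6.LP.RMDET
import Pool.Agent.H6.LP.DIAG
import Pool.Agent.H6.LP.HESS
import Pool.Agent.H6.LP.TREEP
import Pool.Agent.H6.LP.REPS
import Pool.Agent.H6.LP.EIG
import Pool.Agent.H6.LP.FINA
import Pool.Agent.H6.LP.OPN
import Pool.Agent.H6.LP.COST2
import Pool.Agent.H6.LP.NUM

/-!
# MAIN: correctness of the main program
-/

set_option autoImplicit false

open Complex Matrix MeasureTheory

namespace H6LP

/-- the numerical context of the main theorem -/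
theorem main_numC {n b : ℕ} (hn : 1 ≤ n) {u : ℝ} (hu0 : 0 ≤ u)
    (hu1 : u ≤ (2 : ℝ)⁻¹ ^ (8 * parL n b)) :
    NumC n ((2 : ℝ)⁻¹ ^ parQ n b) (sS n b) (wS n b) ((2 : ℝ)⁻¹ ^ parL n b) u := by
  have h2 : (n : ℝ) ≤ 2 ^ parQ n b := by exact_mod_cast n_le_two_pow_parQ n b
  refine ⟨by exact_mod_cast hn, by positivity, pow_le_one₀ (by norm_num) (by norm_num), ?_, ?_, ?_, ?_, hu0, ?_⟩
  · rw [inv_pow]
    have : (0 : ℝ) < 2 ^ parQ n b := by positivity
    rw [← div_eq_mul_inv, div_le_one this]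
    exact h2
  · rw [sS, pow_add, mul_comm 5 (parQ n b), pow_mul]
  · rw [wS, pow_add, mul_comm 3 (parQ n b), pow_mul]
  · rw [parL, pow_add, mul_comm 25 (parQ n b), pow_mul]
  · rw [← pow_mul, mul_comm (parL n b) 8]
    exact hu1

theorem main_rad (l : ℕ) : rad (l + 2) = (2 : ℝ)⁻¹ ^ l := by
  unfold rad
  rw [pow_add, inv_pow]
  field_simp
  norm_num

theorem ColLB.mono {n : ℕ} {X : Matrix (Fin n) (Fin n) ℂ} {h t t' : ℝ} (hc : ColLB X h t) (ht : t' ≤ t) :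
    ColLB X h t' := fun a b ha hb => (hc a b ha hb).mono ht

theorem NodeOK.mono {n l : ℕ} {X : Matrix (Fin n) (Fin n) ℂ} {φ : ℂ} {t t' : ℝ} (h : NodeOK l X φ t)
    (ht : t' ≤ t) : NodeOK l X φ t' :=
  fun j hj a b ha hb e i he hi m hm => (h j hj a b ha hb e i he hi m hm).mono ht

/-- `U = Q V diag(t)` and its inverse -/
theorem main_U {n : ℕ} {H Q B : Matrix (Fin n) (Fin n) ℂ} {s w0 : ℝ} (hw : 0 < w0) {lam : Fin n → ℂ}
    {V W : Matrix (Fin n) (Fin n) ℂ} (hD : Diag H s w0 lam V W) (hQ : Uni Q) (hB : H = Qᴴ * B * Q)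
    {t : Fin n → ℂ} (ht : ∀ i, ‖t i‖ = 1) :
    B = (Q * V * Matrix.diagonal t) * Matrix.diagonal lam * (Matrix.diagonal (star t) * W * Qᴴ) ∧
    (Q * V * Matrix.diagonal t) * (Matrix.diagonal (star t) * W * Qᴴ) = 1 ∧
    fro (Matrix.diagonal (star t) * W * Qᴴ) ≤ Real.sqrt n * (1 / w0) ∧
    fro (Q * V * Matrix.diagonal t) ≤ Real.sqrt n ∧
    ∀ i, (fun a => (Q * V * Matrix.diagonal t) a i) = Q *ᵥ (t i • (fun a => V a i)) := by
  have htt : ∀ i, t i * (star t) i = 1 := by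
    intro i
    have h1 : t i * (starRingEnd ℂ) (t i) = ((‖t i‖ ^ 2 : ℝ) : ℂ) := by
      rw [Complex.mul_conj, Complex.normSq_eq_norm_sq]
    have h2 : (star t) i = (starRingEnd ℂ) (t i) := rfl
    rw [h2, h1, ht i]
    norm_num
  have hQ' : Q * Qᴴ = 1 := hQ.mul_conjTranspose
  have hdd : Matrix.diagonal t * Matrix.diagonal (star t) = (1 : Matrix (Fin n) (Fin n) ℂ) := by
    rw [Matrix.diagonal_mul_diagonal, ← Matrix.diagonal_one]
    congr 1
    funext i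
    exact htt i
  have hcol : ∀ i, (fun a => (Q * V * Matrix.diagonal t) a i) = Q *ᵥ (t i • (fun a => V a i)) := by
    intro i
    funext a
    rw [Matrix.mul_diagonal, Matrix.mulVec_smul]
    simp only [Pi.smul_apply, smul_eq_mul]
    rw [mul_comm]
    congr 1
  refine ⟨?_, ?_, ?_, ?_, hcol⟩
  · have h1 : Q * H * Qᴴ = B := by
      rw [hB]
      calc Q * (Qᴴ * B * Q) * Qᴴ = (Q * Qᴴ) * B * (Q * Qᴴ) := by simp only [Matrix.mul_assoc]
        _ = B := by rw [hQ', one_mul, mul_one]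
    rw [← h1, hD.eq]
    have h3 : Matrix.diagonal t * Matrix.diagonal lam * Matrix.diagonal (star t) = Matrix.diagonal lam := by
      rw [Matrix.diagonal_mul_diagonal, Matrix.diagonal_mul_diagonal]
      congr 1
      funext i
      calc t i * lam i * (star t) i = lam i * (t i * (star t) i) := by ring
        _ = lam i := by rw [htt i, mul_one]
    calc Q * (V * Matrix.diagonal lam * W) * Qᴴ
        = Q * (V * (Matrix.diagonal t * Matrix.diagonal lam * Matrix.diagonal (star t)) * W) * Qᴴ := by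
          rw [h3]
      _ = _ := by simp only [Matrix.mul_assoc]
  · calc (Q * V * Matrix.diagonal t) * (Matrix.diagonal (star t) * W * Qᴴ)
        = Q * (V * (Matrix.diagonal t * Matrix.diagonal (star t)) * W) * Qᴴ := by
          simp only [Matrix.mul_assoc]
      _ = 1 := by rw [hdd, mul_one, hD.vw, mul_one, hQ']
  · rw [hQ.conjTranspose.fro_mul']
    have h1 : fro (Matrix.diagonal (star t) * W) ≤ 1 * fro W := by
      refine fro_diagonal_mul_le (by norm_num) ?_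
      intro i
      have : (star t) i = star (t i) := rfl
      rw [this, norm_star, ht i]
    refine h1.trans ?_
    rw [one_mul]
    exact fro_le_sqrt_rows (by positivity) hD.row
  · have h1 := fro_le_sqrt_cols (A := Q * V * Matrix.diagonal t) (c := 1) (by norm_num) (by
      intro j
      rw [hcol j, hQ.nv_mulVec, nv_smul, ht j, one_mul, hD.col j])
    simpa using h1

theorem post_main {ad : Adv} {n b : ℕ} (hn : 1 ≤ n) {u : ℝ} (hu : ad.Le u)
    (hu1 : u ≤ (2 : ℝ)⁻¹ ^ (8 * parL n b)) {A : Matrix (Fin n) (Fin n) ℂ} (hA : OpLe A 1)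
    {g : Fin (2 * n ^ 2 + 1) → ℝ} (hg : ∀ i, g i ∈ Set.Icc (0 : ℝ) 1)
    (hrow : RowLB (Mof A (gam n b) (coo n) g) (2 * sS n b))
    (hcol : ColLB (Mof A (gam n b) (coo n) g) (sS n b * wS n b) (5 * sS n b * wS n b ^ 2))
    (hnode : NodeOK (parL n b) (Mof A (gam n b) (coo n) g) (dir (g (coo n).ct))
          ((2 : ℝ)⁻¹ ^ (5 * parL n b))) :
    Post ad (mainP n b) (env0 n A g ad) (fun VD env' =>
      ∃ (V : Matrix (Fin n) (Fin n) ℂ) (D : Fin n → ℂ), HasM env' VD.1 V ∧ HasV env' VD.2 D ∧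
        IsUnit V ∧ fro (A - V * Matrix.diagonal D * V⁻¹) ≤ (2 : ℝ)⁻¹ ^ b) := by
  have hu0 := hu.nonneg
  have hC := main_numC (b := b) hn hu0 hu1
  set y : ℝ := (2 : ℝ)⁻¹ ^ parQ n b with hy
  set s := sS n b with hs
  set w := wS n b with hw
  set l := parL n b with hl
  set r : ℝ := (2 : ℝ)⁻¹ ^ l with hr
  set M := Mof A (gam n b) (coo n) g with hM
  have hN : (1 : ℝ) ≤ n := hC.hN
  have hs0 := hC.s_pos
  have hw0 := hC.w_pos
  have hr0 := hC.r_pos
  have hs1 := hC.s_le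
  have hw1 := hC.w_le
  have hl100 : 100 ≤ l := by rw [hl, parL]; omega
  have hNa := hC.a
  have hNb := hC.b
  have hc1 := hC.c1
  have hc2 := hC.c2
  have hc3 := hC.c3
  have hc4 := hC.c4
  have hN3 : (n : ℝ) ≤ (n : ℝ) ^ 3 := by nlinarith [pow_pos (lt_of_lt_of_le one_pos hN) 3, pow_pos (lt_of_lt_of_le one_pos hN) 2]
  have hNu3 : (n : ℝ) * u ≤ (n : ℝ) ^ 3 * u := mul_le_mul_of_nonneg_right hN3 hu0
  have hu3 : u ≤ (n : ℝ) ^ 3 * u := by nlinarith
  have hu' : u ≤ 1 / 1000 := by nlinarith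
  -- the perturbed matrix
  unfold mainP
  refine Post.bind (post_pert hu hu' hn hA b hg) ?_
  rintro Mr env1 h01 ⟨E0, hMr, hE0⟩
  -- the direction
  have hgt := hg (coo n).ct
  refine Post.bind (post_phi hu hu' hgt (T := (g (coo n).ct : ℂ) * (1 + ad.e (3 * n ^ 2))) ?_
    ((env0_t n A g ad).mono h01)) ?_
  · have h1 : (g (coo n).ct : ℂ) * (1 + ad.e (3 * n ^ 2)) - (g (coo n).ct : ℂ) =
        ad.e (3 * n ^ 2) * (g (coo n).ct : ℂ) := by ring
    rw [h1, norm_mul, Complex.norm_real, Real.norm_of_nonneg hgt.1]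
    exact mul_le_mul_of_nonneg_right (hu _) hgt.1
  rintro φr env2 h12 ⟨Φ, hφr, hΦ⟩
  set φ := dir (g (coo n).ct) with hφ
  -- the Hessenberg matrix
  have hE0' : fro E0 ≤ s / 2 := hE0.trans hNb
  have hrow0 : RowLB (M + E0) (2 * (s / 2)) := (hrow.pert hE0').mono (by linarith)
  have hopM : OpLe M 2 := opLe_mof hA b hg
  have hop0 : OpLe (M + E0) 3 := (hopM.add_fro hE0').mono (by linarith)
  refine Post.bind (post_hess hu hn (hMr.mono h12) (s := s / 2) (by linarith) (by linarith) hrow0 hop0 hNa) ?_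
  rintro HQ env3 h23 ⟨Q, E1, H, Q', hQ, hQ0, hH, hE1, hHess, hHr, hQr, hQ', hsub⟩
  -- the total error
  obtain ⟨E, hEdef⟩ : ∃ E, E = E0 + E1 := ⟨_, rfl⟩
  have hE : fro E ≤ 2 * 10 ^ 5 * (n : ℝ) ^ 3 * u := by
    rw [hEdef]
    refine (fro_add_le _ _).trans ?_
    nlinarith
  have hH' : H = Qᴴ * (M + E) * Q := by rw [hH, hEdef, add_assoc]
  have hrowH : RowLB H s := by
    rw [hH']
    exact ((hrow.pert (hE.trans hc2)).mono (by linarith)).uni hQ hQ0
  have hcolH : ColLB H (s * w) (4 * s * w ^ 2) := by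
    rw [hH']
    exact ((hcol.pert (hE.trans hc1)).mono (by linarith)).uni hQ
  have hopB : OpLe (M + E) 3 := (hopM.add_fro (hE.trans hc2)).mono (by linarith)
  have hopH : OpLe H 3 := by
    rw [hH']
    exact hopB.uni hQ
  have hr5 : (2 : ℝ)⁻¹ ^ (5 * l) = r ^ 5 := by rw [hr, ← pow_mul, mul_comm]
  have hr5' : (2 : ℝ)⁻¹ ^ (5 * l + 1) = r ^ 5 / 2 := by rw [pow_succ, hr5]; ring
  have hnodeH : NodeOK l H φ ((2 : ℝ)⁻¹ ^ (5 * l + 1)) := by
    rw [hH']
    refine ((hnode.pert (hE.trans hc3)).mono ?_).uni hQ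
    rw [hr5, hr5']
    linarith
  have hfrH : fro H ≤ 4 * n := by
    have h1 := hopH.fro_le (by norm_num)
    have h2 : Real.sqrt n ≤ n := by
      rw [Real.sqrt_le_left (by linarith)]
      nlinarith
    linarith
  -- the diagonalization
  obtain ⟨lam, V0, W0, hD⟩ := rmdet hs0 hs1 hw0 hw1 hopH hrowH hcolH
  have hr_le := hC.r_le
  have hctx : HCtx l H lam φ u := by
    refine ⟨hn, hl100, ?_, hHess, ?_, hfrH, hD.det, hD.lam_le, dir_norm _, hnodeH, hu0, hu1⟩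
    · exact n_pow_le n b
    · intro k hk
      exact hr_le.trans (hsub k hk)
  -- the tree
  refine Post.bind (post_tree hu hctx hHr (hφr.mono h23) hΦ) ?_
  rintro S env4 h34 ⟨hTI, hTN⟩
  have hrad : rad (l + 2) = r := main_rad l
  have hdd := hC.d
  have hr100 : r ≤ 1 / 1000 := by
    have : s * w ≤ 1 * (1 / 10) := mul_le_mul hs1 hw1 hw0.le (by norm_num)
    linarith
  obtain ⟨σ, hσ⟩ := reps_spec hTI hTN (by
    intro i i' hii
    rw [hrad]
    have := hD.gap i i' hii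
    linarith)
  have hD' := hD.perm σ
  obtain ⟨lam', hlam'⟩ : ∃ lam' : Fin n → ℂ, lam' = fun i => lam (σ i) := ⟨_, rfl⟩
  obtain ⟨V', hV'⟩ : ∃ V' : Matrix (Fin n) (Fin n) ℂ, V' = fun i j => V0 i (σ j) := ⟨_, rfl⟩
  obtain ⟨W', hW'⟩ : ∃ W' : Matrix (Fin n) (Fin n) ℂ, W' = fun i j => W0 (σ i) j := ⟨_, rfl⟩
  rw [← hlam', ← hV', ← hW'] at hD'
  have hpos : ∀ i : Fin n, ‖lam' i - grd r ((reps S).getD i (0, 0)).1 ((reps S).getD i (0, 0)).2‖ ≤ 3 * r := by
    intro i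
    have := hσ i
    rw [hrad] at this
    rw [hlam']
    exact this
  have hQ'' : fro (Q' - Q) ≤ 10 ^ 5 * (n : ℝ) ^ 3 * u := hQ'
  have hεq : 10 ^ 5 * (n : ℝ) ^ 3 * u ≤ 1 := by nlinarith [hC.hy1]
  have hbne : ∀ k (hk : k + 1 < n), H ⟨k + 1, hk⟩ ⟨k, by omega⟩ ≠ 0 := by
    intro k hk h0
    have := hsub k hk
    rw [h0, norm_zero] at this
    linarith
  have hNe := hC.e
  -- the eigenvectors
  refine Post.bind (post_vecM n _ env4
    (fun (j : Fin n) (yv : RVec n) env' => ∃ (Y : Fin n → ℂ) (t : ℂ), HasV env' yv Y ∧ ‖t‖ = 1 ∧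
      nv (Y - Q *ᵥ (t • (fun a => V' a j))) ≤ epsCol n s w r u) ?_ ?_) ?_
  · rintro j yv e1' e2' h12' ⟨Y, t, hY, ht, hYt⟩
    exact ⟨Y, t, hY.mono h12', ht, hYt⟩
  · intro j env' h'
    have h5 := post_eig hu hn hs0 hs1 hw0 hw1 (hHr.mono (h34.trans h')) (hQr.mono (h34.trans h')) hQ hQ'' hεq hHess
      hbne hD' hfrH (i := j) (pos := (reps S).getD j (0, 0)) (l := l) (hpos j) (by linarith) hNe
    refine h5.weaken ?_
    rintro yv e1' _ ⟨Y, t, hY, ht, hYt⟩
    exact ⟨Y, t, hY, ht, hYt⟩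
  rintro Vr env5 h45 hVr
  -- the eigenvalues
  refine Post.bind (post_vecM n _ env5
    (fun (j : Fin n) (d : ℕ) env' => ∃ z : ℂ, Has env' d z ∧ ‖z - lam' j‖ ≤ 4 * r) ?_ ?_) ?_
  · rintro j d e1' e2' h12' ⟨z, hz, hz'⟩
    exact ⟨z, hz.mono h12', hz'⟩
  · intro j env' h'
    refine (post_cst hu env' _ _).weaken ?_
    rintro d e1' _ ⟨z, hz, hrel⟩
    refine ⟨z, hz, ?_⟩
    unfold Rel at hrel
    have hg1 : ((((((reps S).getD j (0, 0)).1 : ℚ) / 2 ^ l : ℚ) : ℂ)) +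
        (((((reps S).getD j (0, 0)).2 : ℚ) / 2 ^ l : ℚ) : ℂ) * I =
        grd r ((reps S).getD j (0, 0)).1 ((reps S).getD j (0, 0)).2 := by
      unfold grd
      rw [hr]
      push_cast
      rw [inv_pow]
      ring
    rw [hg1] at hrel
    have h6 := hpos j
    have h7 : ‖grd r ((reps S).getD j (0, 0)).1 ((reps S).getD j (0, 0)).2‖ ≤ 4 := by
      have h8 := norm_sub_norm_le (grd r ((reps S).getD j (0, 0)).1 ((reps S).getD j (0, 0)).2) (lam' j)
      rw [norm_sub_rev] at h8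
      have h9 := hD'.lam_le j
      have : 3 * r ≤ 1 := by linarith
      linarith
    have h10 : u * 4 ≤ r := by
      have h11 : u ≤ r ^ 8 := hC.hu
      have hr1 : r ≤ 1 / 100 := by linarith
      have h12 : r ^ 8 ≤ r ^ 2 := pow_le_pow_of_le_one hr0.le (by linarith) (by norm_num)
      nlinarith
    calc ‖z - lam' j‖ ≤ ‖z - grd r ((reps S).getD j (0, 0)).1 ((reps S).getD j (0, 0)).2‖ +
          ‖grd r ((reps S).getD j (0, 0)).1 ((reps S).getD j (0, 0)).2 - lam' j‖ := norm_sub_le_norm_sub_add_norm_sub _ _ _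
      _ ≤ u * 4 + 3 * r := by
          refine add_le_add (hrel.trans (mul_le_mul_of_nonneg_left h7 hu0)) ?_
          rw [norm_sub_rev]
          exact h6
      _ ≤ 4 * r := by linarith
  rintro Dr env6 h56 hDr
  refine Post.pure ?_
  -- collect
  choose Yc tc hYc htc hYtc using hVr
  choose Dc hDc hDc' using hDr
  obtain ⟨hB, hUU, hUf', hUf, hUcol⟩ := main_U hw0 hD' hQ hH' htc
  set U := Q * V' * Matrix.diagonal tc with hU
  set U' := Matrix.diagonal (star tc) * W' * Qᴴ with hU'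
  obtain ⟨Vh, hVh⟩ : ∃ Vh : Matrix (Fin n) (Fin n) ℂ, Vh = fun i j => Yc j i := ⟨_, rfl⟩
  have hsq1 : (1 : ℝ) ≤ Real.sqrt n := by
    rw [Real.one_le_sqrt]; exact hN
  have hsqn : Real.sqrt n ≤ n := by
    rw [Real.sqrt_le_left (by linarith)]
    nlinarith
  have hε0 := hC.epsCol_nonneg
  have hF : fro (Vh - U) ≤ n * epsCol n s w r u := by
    have h1 := fro_le_sqrt_cols (A := Vh - U) hε0 (by
      intro j
      have h2 : (fun i => (Vh - U) i j) = Yc j - Q *ᵥ (tc j • (fun a => V' a j)) := by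
        rw [← hUcol j]
        funext i
        simp only [Matrix.sub_apply, Pi.sub_apply, hVh]
      rw [h2]
      exact hYtc j)
    exact h1.trans (mul_le_mul_of_nonneg_right hsqn hε0)
  have hK : fro U' ≤ n / w := by
    refine hUf'.trans ?_
    rw [mul_one_div]
    exact div_le_div_of_nonneg_right hsqn hw0.le
  have hK1 : (1 : ℝ) ≤ n / w := by
    rw [le_div_iff₀ hw0]
    linarith
  obtain ⟨hf1, hf2⟩ := hC.f
  have hr4 : 4 * r ≤ 1 := by linarith
  obtain ⟨hunit, hfin⟩ := fina hB hUU (hopB.mono (by norm_num)) hD'.lam_le hK hUf hK1 hF hDc' hr4 hf1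
  refine ⟨Vh, Dc, ?_, fun i => hDc i, hunit, ?_⟩
  · intro i j
    rw [hVh]
    exact (hYc j i).mono h56
  · have h1 : A - Vh * Matrix.diagonal Dc * Vh⁻¹ =
        -(M - A) + (-E + (M + E - Vh * Matrix.diagonal Dc * Vh⁻¹)) := by abel
    rw [h1]
    refine (fro_add_le _ _).trans ?_
    have h2 := fro_add_le (-E) (M + E - Vh * Matrix.diagonal Dc * Vh⁻¹)
    rw [fro_neg] at h2 ⊢
    have h3 : fro (M - A) ≤ 2 * n * gam n b := fro_mof_sub_le A b hg
    -- n 2^-q ≤ 2^-b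
    have h4 : (n : ℝ) * y ≤ (2 : ℝ)⁻¹ ^ b := by
      rw [hy, parQ, pow_add]
      have h5 : (n : ℝ) ≤ 2 ^ Nat.clog 2 n := by
        exact_mod_cast Nat.le_pow_clog (by norm_num) n
      have h6 : (n : ℝ) * (2 : ℝ)⁻¹ ^ Nat.clog 2 n ≤ 1 := by
        rw [inv_pow, ← div_eq_mul_inv, div_le_one (by positivity)]
        exact h5
      have h7 : (0 : ℝ) < (2 : ℝ)⁻¹ ^ b := by positivity
      calc (n : ℝ) * ((2 : ℝ)⁻¹ ^ b * (2 : ℝ)⁻¹ ^ Nat.clog 2 n)
          = (2 : ℝ)⁻¹ ^ b * ((n : ℝ) * (2 : ℝ)⁻¹ ^ Nat.clog 2 n) := by ring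
        _ ≤ (2 : ℝ)⁻¹ ^ b * 1 := mul_le_mul_of_nonneg_left h6 h7.le
        _ = _ := mul_one _
    have h5 : gam n b = y / 8 := by
      rw [gam, hy, pow_add]
      norm_num
      ring
    have hy0 := hC.hy0
    have h6 : y ≤ (2 : ℝ)⁻¹ ^ b := by nlinarith
    have h7 : 2 * n * gam n b ≤ (2 : ℝ)⁻¹ ^ b / 4 := by
      rw [h5]
      nlinarith
    have h8 : Real.sqrt n * (4 * r) ≤ n * (4 * r) := mul_le_mul_of_nonneg_right hsqn (by linarith)
    have h9 : 2 * (n / w) * (Real.sqrt n * (4 * r) + 8 * (n * epsCol n s w r u)) ≤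
        2 * (n / w) * (n * (4 * r) + 8 * (n * epsCol n s w r u)) := by
      refine mul_le_mul_of_nonneg_left (by linarith) (by positivity)
    linarith

end H6LP
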