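import Pool.Agent.H6.LP.Defs

/-!
# NB: norm basics

Everything about the Euclidean norm `nv`, the Frobenius norm `fro`, the operator norm bound `OpLe` and
unitary matrices `Uni`.  Suggestion: `nv x = ‖WithLp.toLp 2 x‖` (`EuclideanSpace.norm_eq`), and
`fro A = ‖·‖` of the vector `(i,j) ↦ A i j` in `EuclideanSpace ℂ (Fin n × Fin m)`.
-/

set_option autoImplicit false

open Complex Matrix

namespace H6LP

variable {n m k : ℕ}

theorem NB_nv_eq (x : Fin n → ℂ) : nv x = ‖(WithLp.toLp 2 x : EuclideanSpace ℂ (Fin n))‖ := by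
  rw [EuclideanSpace.norm_eq]; rfl

theorem NB_fro_eq (A : Matrix (Fin n) (Fin m) ℂ) :
    fro A = ‖(WithLp.toLp 2 (fun p : Fin n × Fin m => A p.1 p.2) :
      EuclideanSpace ℂ (Fin n × Fin m))‖ := by
  rw [EuclideanSpace.norm_eq]
  unfold fro
  congr 1
  rw [Fintype.sum_prod_type]

theorem nv_nonneg (x : Fin n → ℂ) : 0 ≤ nv x := Real.sqrt_nonneg _

theorem nv_sq (x : Fin n → ℂ) : nv x ^ 2 = ∑ i, ‖x i‖ ^ 2 := by
  unfold nv
  exact Real.sq_sqrt (Finset.sum_nonneg fun i _ => by positivity)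

theorem nv_zero : nv (0 : Fin n → ℂ) = 0 := by
  simp [nv]

theorem nv_eq_zero {x : Fin n → ℂ} : nv x = 0 ↔ x = 0 := by
  rw [NB_nv_eq, norm_eq_zero]
  constructor
  · intro h
    have := congrArg (fun y : EuclideanSpace ℂ (Fin n) => y.ofLp) h
    simpa using this
  · intro h
    rw [h]; rfl

theorem nv_pos {x : Fin n → ℂ} (h : x ≠ 0) : 0 < nv x :=
  lt_of_le_of_ne (nv_nonneg x) (fun h0 => h (nv_eq_zero.1 h0.symm))

theorem nv_smul (c : ℂ) (x : Fin n → ℂ) : nv (c • x) = ‖c‖ * nv x := by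
  rw [NB_nv_eq, NB_nv_eq, WithLp.toLp_smul, norm_smul]

theorem nv_neg (x : Fin n → ℂ) : nv (-x) = nv x := by
  rw [NB_nv_eq, NB_nv_eq, WithLp.toLp_neg, norm_neg]

theorem nv_add_le (x y : Fin n → ℂ) : nv (x + y) ≤ nv x + nv y := by
  rw [NB_nv_eq, NB_nv_eq, NB_nv_eq, WithLp.toLp_add]
  exact norm_add_le _ _

theorem nv_sub_le (x y : Fin n → ℂ) : nv (x - y) ≤ nv x + nv y := by
  rw [NB_nv_eq, NB_nv_eq, NB_nv_eq, WithLp.toLp_sub]
  exact norm_sub_le _ _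

theorem nv_sub_rev (x y : Fin n → ℂ) : nv (x - y) = nv (y - x) := by
  rw [← nv_neg, neg_sub]

theorem nv_sub_ge (x y : Fin n → ℂ) : nv x - nv y ≤ nv (x - y) := by
  rw [NB_nv_eq, NB_nv_eq, NB_nv_eq, WithLp.toLp_sub]
  exact norm_sub_norm_le _ _

theorem abs_nv_sub_le (x y : Fin n → ℂ) : |nv x - nv y| ≤ nv (x - y) := by
  rw [NB_nv_eq, NB_nv_eq, NB_nv_eq, WithLp.toLp_sub]
  exact abs_norm_sub_norm_le _ _

theorem nv_sum_le {ι : Type} (s : Finset ι) (f : ι → Fin n → ℂ) :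
    nv (∑ a ∈ s, f a) ≤ ∑ a ∈ s, nv (f a) := by
  classical
  induction s using Finset.induction_on with
  | empty => simp [nv_zero]
  | insert a s ha ih =>
    rw [Finset.sum_insert ha, Finset.sum_insert ha]
    exact (nv_add_le _ _).trans (by linarith)

theorem norm_le_nv (x : Fin n → ℂ) (i : Fin n) : ‖x i‖ ≤ nv x := by
  unfold nv
  apply Real.le_sqrt_of_sq_le
  exact Finset.single_le_sum (f := fun i => ‖x i‖ ^ 2) (fun i _ => by positivity) (Finset.mem_univ i)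

theorem NB_sq_le {a b : ℝ} (hb : 0 ≤ b) (h : a ^ 2 ≤ b ^ 2) : a ≤ b :=
  abs_le_of_sq_le_sq' h hb |>.2

theorem nv_le_mul_of_le {x y : Fin n → ℂ} {c : ℝ} (hc : 0 ≤ c) (h : ∀ i, ‖x i‖ ≤ c * ‖y i‖) :
    nv x ≤ c * nv y := by
  apply NB_sq_le (mul_nonneg hc (nv_nonneg y))
  rw [mul_pow, nv_sq, nv_sq, Finset.mul_sum]
  apply Finset.sum_le_sum
  intro i _
  rw [← mul_pow]
  exact pow_le_pow_left₀ (norm_nonneg _) (h i) 2

theorem nv_mono {x y : Fin n → ℂ} (h : ∀ i, ‖x i‖ ≤ ‖y i‖) : nv x ≤ nv y := by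
  have := nv_le_mul_of_le (x := x) (y := y) (c := 1) zero_le_one (fun i => by simpa using h i)
  simpa using this

theorem sum_norm_mul_le (x y : Fin n → ℂ) : ∑ i, ‖x i‖ * ‖y i‖ ≤ nv x * nv y := by
  unfold nv
  exact Real.sum_mul_le_sqrt_mul_sqrt _ _ _

theorem norm_dot_le (x y : Fin n → ℂ) : ‖∑ i, x i * y i‖ ≤ nv x * nv y := by
  refine (norm_sum_le _ _).trans ?_
  simp only [norm_mul]
  exact sum_norm_mul_le x y

theorem norm_dotProduct_le (x y : Fin n → ℂ) : ‖x ⬝ᵥ y‖ ≤ nv x * nv y := norm_dot_le x y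

theorem nv_star (x : Fin n → ℂ) : nv (star x) = nv x := by
  simp [nv]

theorem star_dot_self (x : Fin n → ℂ) : star x ⬝ᵥ x = ((nv x ^ 2 : ℝ) : ℂ) := by
  rw [nv_sq]
  simp only [dotProduct, Pi.star_apply]
  rw [Complex.ofReal_sum]
  refine Finset.sum_congr rfl fun i _ => ?_
  rw [mul_comm]
  have := Complex.mul_conj (x i)
  rw [show star (x i) = (starRingEnd ℂ) (x i) from rfl, this, Complex.normSq_eq_norm_sq]

theorem nv_single (i : Fin n) (c : ℂ) : nv (Pi.single i c) = ‖c‖ := by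
  unfold nv
  rw [Finset.sum_eq_single i]
  · simp [Real.sqrt_sq (norm_nonneg c)]
  · intro j _ hj
    simp [Pi.single_eq_of_ne hj]
  · intro h; exact absurd (Finset.mem_univ i) h

theorem NB_e1_eq (hn : 1 ≤ n) : e1 n = Pi.single (⟨0, hn⟩ : Fin n) (1 : ℂ) := by
  funext i
  unfold e1
  by_cases h : (i : ℕ) = 0
  · have : i = ⟨0, hn⟩ := Fin.ext h
    rw [this]; simp
  · have : i ≠ ⟨0, hn⟩ := fun h' => h (by rw [h'])
    rw [if_neg h, Pi.single_eq_of_ne this]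

theorem nv_e1 (hn : 1 ≤ n) : nv (e1 n) = 1 := by
  rw [NB_e1_eq hn, nv_single]; simp

theorem exists_large_coord (hn : 1 ≤ n) (x : Fin n → ℂ) : ∃ i, nv x ≤ Real.sqrt n * ‖x i‖ := by
  have : Nonempty (Fin n) := ⟨⟨0, hn⟩⟩
  obtain ⟨i, hi⟩ := Finite.exists_max (fun i => ‖x i‖)
  refine ⟨i, ?_⟩
  apply NB_sq_le (by positivity)
  rw [nv_sq, mul_pow, Real.sq_sqrt (Nat.cast_nonneg n)]
  calc ∑ j, ‖x j‖ ^ 2 ≤ ∑ j : Fin n, ‖x i‖ ^ 2 :=
        Finset.sum_le_sum fun j _ => pow_le_pow_left₀ (norm_nonneg _) (hi j) 2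
    _ = n * ‖x i‖ ^ 2 := by simp

/-! ## Frobenius norm -/

theorem fro_nonneg (A : Matrix (Fin n) (Fin m) ℂ) : 0 ≤ fro A := Real.sqrt_nonneg _

theorem fro_sq (A : Matrix (Fin n) (Fin m) ℂ) : fro A ^ 2 = ∑ i, ∑ j, ‖A i j‖ ^ 2 := by
  unfold fro
  exact Real.sq_sqrt (Finset.sum_nonneg fun i _ => Finset.sum_nonneg fun j _ => by positivity)

theorem fro_sq_rows (A : Matrix (Fin n) (Fin m) ℂ) : fro A ^ 2 = ∑ i, nv (A i) ^ 2 := by
  rw [fro_sq]
  exact Finset.sum_congr rfl fun i _ => (nv_sq _).symm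

theorem fro_sq_cols (A : Matrix (Fin n) (Fin m) ℂ) : fro A ^ 2 = ∑ j, nv (fun i => A i j) ^ 2 := by
  rw [fro_sq, Finset.sum_comm]
  exact Finset.sum_congr rfl fun i _ => (nv_sq _).symm

theorem fro_zero : fro (0 : Matrix (Fin n) (Fin m) ℂ) = 0 := by
  simp [fro]

theorem fro_eq_zero {A : Matrix (Fin n) (Fin m) ℂ} : fro A = 0 ↔ A = 0 := by
  constructor
  · intro h
    have h2 : ∑ i, nv (A i) ^ 2 = 0 := by rw [← fro_sq_rows, h]; ring
    rw [Finset.sum_eq_zero_iff_of_nonneg (fun i _ => by positivity)] at h2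
    funext i
    have := h2 i (Finset.mem_univ i)
    exact nv_eq_zero.1 (pow_eq_zero_iff (two_ne_zero) |>.1 this)
  · rintro rfl
    exact fro_zero

theorem fro_smul (c : ℂ) (A : Matrix (Fin n) (Fin m) ℂ) : fro (c • A) = ‖c‖ * fro A := by
  rw [NB_fro_eq, NB_fro_eq, ← norm_smul, ← WithLp.toLp_smul]
  rfl

theorem fro_neg (A : Matrix (Fin n) (Fin m) ℂ) : fro (-A) = fro A := by
  simp [fro]

theorem fro_add_le (A B : Matrix (Fin n) (Fin m) ℂ) : fro (A + B) ≤ fro A + fro B := by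
  rw [NB_fro_eq, NB_fro_eq, NB_fro_eq]
  refine le_trans (le_of_eq ?_) (norm_add_le _ _)
  rw [← WithLp.toLp_add]
  rfl

theorem fro_sub_le (A B : Matrix (Fin n) (Fin m) ℂ) : fro (A - B) ≤ fro A + fro B := by
  have := fro_add_le A (-B)
  rwa [fro_neg, ← sub_eq_add_neg] at this

theorem fro_sub_rev (A B : Matrix (Fin n) (Fin m) ℂ) : fro (A - B) = fro (B - A) := by
  rw [← fro_neg, neg_sub]

theorem fro_transpose (A : Matrix (Fin n) (Fin m) ℂ) : fro Aᵀ = fro A := by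
  unfold fro
  rw [Finset.sum_comm]
  rfl

theorem fro_conjTranspose (A : Matrix (Fin n) (Fin m) ℂ) : fro Aᴴ = fro A := by
  unfold fro
  rw [Finset.sum_comm]
  simp [Matrix.conjTranspose_apply]

theorem fro_one : fro (1 : Matrix (Fin n) (Fin n) ℂ) = Real.sqrt n := by
  unfold fro
  congr 1
  calc ∑ i : Fin n, ∑ j : Fin n, ‖(1 : Matrix (Fin n) (Fin n) ℂ) i j‖ ^ 2 = ∑ i : Fin n, (1 : ℝ) := by
        refine Finset.sum_congr rfl fun i _ => ?_
        rw [Finset.sum_eq_single i]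
        · simp
        · intro j _ hj
          rw [Matrix.one_apply_ne hj.symm]; simp
        · intro h; exact absurd (Finset.mem_univ i) h
    _ = n := by simp

theorem fro_smul_one (c : ℂ) : fro (c • (1 : Matrix (Fin n) (Fin n) ℂ)) = ‖c‖ * Real.sqrt n := by
  rw [fro_smul, fro_one]

theorem nv_row_le_fro (A : Matrix (Fin n) (Fin m) ℂ) (i : Fin n) : nv (A i) ≤ fro A := by
  apply NB_sq_le (fro_nonneg A)
  rw [fro_sq_rows]
  exact Finset.single_le_sum (f := fun i => nv (A i) ^ 2) (fun i _ => by positivity) (Finset.mem_univ i)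

theorem nv_col_le_fro (A : Matrix (Fin n) (Fin m) ℂ) (j : Fin m) : nv (fun i => A i j) ≤ fro A := by
  apply NB_sq_le (fro_nonneg A)
  rw [fro_sq_cols]
  exact Finset.single_le_sum (f := fun j => nv (fun i => A i j) ^ 2) (fun i _ => by positivity)
    (Finset.mem_univ j)

theorem norm_le_fro (A : Matrix (Fin n) (Fin m) ℂ) (i : Fin n) (j : Fin m) : ‖A i j‖ ≤ fro A :=
  (norm_le_nv (A i) j).trans (nv_row_le_fro A i)

theorem fro_le_of_rows {A B : Matrix (Fin n) (Fin m) ℂ} {c : ℝ} (hc : 0 ≤ c)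
    (h : ∀ i, nv (A i) ≤ c * nv (B i)) : fro A ≤ c * fro B := by
  apply NB_sq_le (mul_nonneg hc (fro_nonneg B))
  rw [mul_pow, fro_sq_rows, fro_sq_rows, Finset.mul_sum]
  apply Finset.sum_le_sum
  intro i _
  rw [← mul_pow]
  exact pow_le_pow_left₀ (nv_nonneg _) (h i) 2

theorem fro_le_of_entries {A B : Matrix (Fin n) (Fin m) ℂ} {c : ℝ} (hc : 0 ≤ c)
    (h : ∀ i j, ‖A i j‖ ≤ c * ‖B i j‖) : fro A ≤ c * fro B :=
  fro_le_of_rows hc fun i => nv_le_mul_of_le hc (h i)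

theorem fro_le_of_cols {A B : Matrix (Fin n) (Fin m) ℂ} {c : ℝ} (hc : 0 ≤ c)
    (h : ∀ j, nv (fun i => A i j) ≤ c * nv (fun i => B i j)) : fro A ≤ c * fro B := by
  rw [← fro_transpose A, ← fro_transpose B]
  exact fro_le_of_rows hc h

theorem fro_le_sqrt_rows {A : Matrix (Fin n) (Fin m) ℂ} {c : ℝ} (hc : 0 ≤ c)
    (h : ∀ i, nv (A i) ≤ c) : fro A ≤ Real.sqrt n * c := by
  apply NB_sq_le (by positivity)
  rw [mul_pow, fro_sq_rows, Real.sq_sqrt (Nat.cast_nonneg n)]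
  calc ∑ i, nv (A i) ^ 2 ≤ ∑ _i : Fin n, c ^ 2 :=
        Finset.sum_le_sum fun i _ => pow_le_pow_left₀ (nv_nonneg _) (h i) 2
    _ = n * c ^ 2 := by simp

/-- all columns `≤ c` -/
theorem fro_le_sqrt_cols {A : Matrix (Fin n) (Fin m) ℂ} {c : ℝ} (hc : 0 ≤ c)
    (h : ∀ j, nv (fun i => A i j) ≤ c) : fro A ≤ Real.sqrt m * c := by
  rw [← fro_transpose A]
  exact fro_le_sqrt_rows hc h

theorem nv_mulVec_le (A : Matrix (Fin n) (Fin m) ℂ) (x : Fin m → ℂ) : nv (A *ᵥ x) ≤ fro A * nv x := by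
  apply NB_sq_le (mul_nonneg (fro_nonneg A) (nv_nonneg x))
  rw [mul_pow, nv_sq, fro_sq_rows, Finset.sum_mul]
  apply Finset.sum_le_sum
  intro i _
  rw [← mul_pow]
  exact pow_le_pow_left₀ (norm_nonneg _) (norm_dotProduct_le (A i) x) 2

theorem nv_vecMul_le (A : Matrix (Fin n) (Fin m) ℂ) (x : Fin n → ℂ) : nv (x ᵥ* A) ≤ fro A * nv x := by
  rw [← Matrix.mulVec_transpose, ← fro_transpose A]
  exact nv_mulVec_le _ _

theorem NB_mul_col (A : Matrix (Fin n) (Fin m) ℂ) (B : Matrix (Fin m) (Fin k) ℂ) (j : Fin k) :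
    (fun i => (A * B) i j) = A *ᵥ (fun i => B i j) := by
  funext i
  rfl

theorem NB_mul_row (A : Matrix (Fin n) (Fin m) ℂ) (B : Matrix (Fin m) (Fin k) ℂ) (i : Fin n) :
    (A * B) i = (A i) ᵥ* B := by
  funext j
  rfl

theorem NB_fro_le_of_cols {l : ℕ} {A : Matrix (Fin n) (Fin m) ℂ} {B : Matrix (Fin l) (Fin m) ℂ} {c : ℝ}
    (hc : 0 ≤ c) (h : ∀ j, nv (fun i => A i j) ≤ c * nv (fun i => B i j)) : fro A ≤ c * fro B := by
  apply NB_sq_le (mul_nonneg hc (fro_nonneg B))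
  rw [mul_pow, fro_sq_cols, fro_sq_cols, Finset.mul_sum]
  apply Finset.sum_le_sum
  intro i _
  rw [← mul_pow]
  exact pow_le_pow_left₀ (nv_nonneg _) (h i) 2

theorem NB_fro_le_of_rows {l : ℕ} {A : Matrix (Fin n) (Fin m) ℂ} {B : Matrix (Fin n) (Fin l) ℂ} {c : ℝ}
    (hc : 0 ≤ c) (h : ∀ i, nv (A i) ≤ c * nv (B i)) : fro A ≤ c * fro B := by
  apply NB_sq_le (mul_nonneg hc (fro_nonneg B))
  rw [mul_pow, fro_sq_rows, fro_sq_rows, Finset.mul_sum]
  apply Finset.sum_le_sum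
  intro i _
  rw [← mul_pow]
  exact pow_le_pow_left₀ (nv_nonneg _) (h i) 2

theorem fro_mul_le (A : Matrix (Fin n) (Fin m) ℂ) (B : Matrix (Fin m) (Fin k) ℂ) :
    fro (A * B) ≤ fro A * fro B := by
  apply NB_fro_le_of_cols (fro_nonneg A)
  intro j
  rw [NB_mul_col]
  exact nv_mulVec_le _ _

theorem fro_vecMulVec (x : Fin n → ℂ) (y : Fin m → ℂ) : fro (Matrix.vecMulVec x y) = nv x * nv y := by
  have h : fro (Matrix.vecMulVec x y) ^ 2 = (nv x * nv y) ^ 2 := by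
    rw [fro_sq, mul_pow, nv_sq, nv_sq, Finset.sum_mul_sum]
    refine Finset.sum_congr rfl fun i _ => Finset.sum_congr rfl fun j _ => ?_
    rw [Matrix.vecMulVec_apply, norm_mul, mul_pow]
  exact (sq_eq_sq₀ (fro_nonneg _) (mul_nonneg (nv_nonneg _) (nv_nonneg _))).1 h

theorem fro_mul_diagonal_le {A : Matrix (Fin n) (Fin m) ℂ} {d : Fin m → ℂ} {c : ℝ} (hc : 0 ≤ c)
    (h : ∀ i, ‖d i‖ ≤ c) : fro (A * Matrix.diagonal d) ≤ c * fro A := by
  apply fro_le_of_entries hc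
  intro i j
  rw [Matrix.mul_diagonal, norm_mul, mul_comm]
  exact mul_le_mul_of_nonneg_right (h j) (norm_nonneg _)

theorem fro_diagonal_mul_le {A : Matrix (Fin n) (Fin m) ℂ} {d : Fin n → ℂ} {c : ℝ} (hc : 0 ≤ c)
    (h : ∀ i, ‖d i‖ ≤ c) : fro (Matrix.diagonal d * A) ≤ c * fro A := by
  apply fro_le_of_entries hc
  intro i j
  rw [Matrix.diagonal_mul, norm_mul]
  exact mul_le_mul_of_nonneg_right (h i) (norm_nonneg _)

/-! ## operator norm bounds -/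

theorem opLe_fro (A : Matrix (Fin n) (Fin m) ℂ) : OpLe A (fro A) := fun x => nv_mulVec_le A x

theorem OpLe.mono {A : Matrix (Fin n) (Fin m) ℂ} {a b : ℝ} (h : OpLe A a) (hab : a ≤ b) : OpLe A b :=
  fun x => (h x).trans (mul_le_mul_of_nonneg_right hab (nv_nonneg x))

theorem OpLe.add {A B : Matrix (Fin n) (Fin m) ℂ} {a b : ℝ} (hA : OpLe A a) (hB : OpLe B b) :
    OpLe (A + B) (a + b) := by
  intro x
  rw [Matrix.add_mulVec, add_mul]
  exact (nv_add_le _ _).trans (add_le_add (hA x) (hB x))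

theorem OpLe.add_fro {A B : Matrix (Fin n) (Fin m) ℂ} {a b : ℝ} (hA : OpLe A a) (hB : fro B ≤ b) :
    OpLe (A + B) (a + b) :=
  hA.add ((opLe_fro B).mono hB)

theorem OpLe.mul {A : Matrix (Fin n) (Fin m) ℂ} {B : Matrix (Fin m) (Fin k) ℂ} {a b : ℝ} (ha : 0 ≤ a)
    (hA : OpLe A a) (hB : OpLe B b) : OpLe (A * B) (a * b) := by
  intro x
  rw [← Matrix.mulVec_mulVec, mul_assoc]
  exact (hA _).trans (mul_le_mul_of_nonneg_left (hB x) ha)

theorem OpLe.conjTranspose {A : Matrix (Fin n) (Fin m) ℂ} {a : ℝ} (ha : 0 ≤ a) (hA : OpLe A a) :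
    OpLe Aᴴ a := by
  intro x
  by_cases h0 : nv (Aᴴ *ᵥ x) = 0
  · rw [h0]; exact mul_nonneg ha (nv_nonneg x)
  have hpos : 0 < nv (Aᴴ *ᵥ x) := lt_of_le_of_ne (nv_nonneg _) (Ne.symm h0)
  have h1 : star (Aᴴ *ᵥ x) ⬝ᵥ (Aᴴ *ᵥ x) = star x ⬝ᵥ (A *ᵥ (Aᴴ *ᵥ x)) := by
    rw [Matrix.star_mulVec, Matrix.conjTranspose_conjTranspose, ← Matrix.dotProduct_mulVec]
  have h2 : nv (Aᴴ *ᵥ x) ^ 2 ≤ nv x * (a * nv (Aᴴ *ᵥ x)) := by
    have h3 : ‖star (Aᴴ *ᵥ x) ⬝ᵥ (Aᴴ *ᵥ x)‖ = nv (Aᴴ *ᵥ x) ^ 2 := by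
      rw [star_dot_self, Complex.norm_real, Real.norm_eq_abs, abs_of_nonneg (by positivity)]
    rw [← h3, h1]
    refine (norm_dotProduct_le _ _).trans ?_
    rw [nv_star]
    exact mul_le_mul_of_nonneg_left (hA _) (nv_nonneg x)
  nlinarith

theorem OpLe.vecMul {A : Matrix (Fin n) (Fin m) ℂ} {a : ℝ} (ha : 0 ≤ a) (hA : OpLe A a)
    (x : Fin n → ℂ) : nv (x ᵥ* A) ≤ a * nv x := by
  have h := hA.conjTranspose ha (star x)
  rw [nv_star] at h
  have h2 : star (x ᵥ* A) = Aᴴ *ᵥ star x := by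
    rw [Matrix.star_vecMul]
  rw [← nv_star, h2]
  exact h

theorem OpLe.fro_mul_le {A : Matrix (Fin n) (Fin m) ℂ} {a : ℝ} (ha : 0 ≤ a) (hA : OpLe A a)
    (B : Matrix (Fin m) (Fin k) ℂ) : fro (A * B) ≤ a * fro B := by
  apply NB_fro_le_of_cols ha
  intro j
  rw [NB_mul_col]
  exact hA _

theorem OpLe.fro_mul_le' {A : Matrix (Fin n) (Fin m) ℂ} {a : ℝ} (ha : 0 ≤ a) (hA : OpLe A a)
    (B : Matrix (Fin k) (Fin n) ℂ) : fro (B * A) ≤ a * fro B := by
  apply NB_fro_le_of_rows ha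
  intro i
  rw [NB_mul_row]
  exact hA.vecMul ha _

theorem OpLe.fro_le {A : Matrix (Fin n) (Fin m) ℂ} {a : ℝ} (ha : 0 ≤ a) (hA : OpLe A a) :
    fro A ≤ a * Real.sqrt m := by
  have := hA.fro_mul_le ha (1 : Matrix (Fin m) (Fin m) ℂ)
  rwa [Matrix.mul_one, fro_one] at this

/-- eigenvalues are bounded by the operator norm -/
theorem OpLe.eigenvalue_le {A : Matrix (Fin n) (Fin n) ℂ} {a : ℝ} (hA : OpLe A a) {x : Fin n → ℂ}
    {z : ℂ} (hx : x ≠ 0) (h : A *ᵥ x = z • x) : ‖z‖ ≤ a := by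
  have h1 := hA x
  rw [h, nv_smul] at h1
  exact le_of_mul_le_mul_right h1 (nv_pos hx)

/-! ## unitary matrices -/

theorem Uni.one : Uni (1 : Matrix (Fin n) (Fin n) ℂ) := by
  unfold Uni
  simp

theorem Uni.mul_conjTranspose {U : Matrix (Fin n) (Fin n) ℂ} (h : Uni U) : U * Uᴴ = 1 :=
  mul_eq_one_comm.1 h

theorem Uni.conjTranspose {U : Matrix (Fin n) (Fin n) ℂ} (h : Uni U) : Uni Uᴴ := by
  unfold Uni
  rw [Matrix.conjTranspose_conjTranspose]
  exact h.mul_conjTranspose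

theorem Uni.mul {U U' : Matrix (Fin n) (Fin n) ℂ} (h : Uni U) (h' : Uni U') : Uni (U * U') := by
  unfold Uni at *
  rw [Matrix.conjTranspose_mul, Matrix.mul_assoc, ← Matrix.mul_assoc Uᴴ, h, Matrix.one_mul, h']

theorem Uni.nv_mulVec {U : Matrix (Fin n) (Fin n) ℂ} (h : Uni U) (x : Fin n → ℂ) :
    nv (U *ᵥ x) = nv x := by
  have h1 : star (U *ᵥ x) ⬝ᵥ (U *ᵥ x) = star x ⬝ᵥ x := by
    rw [Matrix.star_mulVec, ← Matrix.dotProduct_mulVec, Matrix.mulVec_mulVec]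
    unfold Uni at h
    rw [h, Matrix.one_mulVec]
  rw [star_dot_self, star_dot_self] at h1
  have h2 : nv (U *ᵥ x) ^ 2 = nv x ^ 2 := by exact_mod_cast h1
  exact (sq_eq_sq₀ (nv_nonneg _) (nv_nonneg _)).1 h2

theorem Uni.nv_vecMul {U : Matrix (Fin n) (Fin n) ℂ} (h : Uni U) (x : Fin n → ℂ) :
    nv (x ᵥ* U) = nv x := by
  rw [← nv_star, Matrix.star_vecMul, h.conjTranspose.nv_mulVec, nv_star]

theorem Uni.opLe {U : Matrix (Fin n) (Fin n) ℂ} (h : Uni U) : OpLe U 1 := fun x => by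
  rw [h.nv_mulVec, one_mul]

theorem Uni.fro_mul {U : Matrix (Fin n) (Fin n) ℂ} (h : Uni U) (A : Matrix (Fin n) (Fin m) ℂ) :
    fro (U * A) = fro A := by
  apply le_antisymm
  · have := h.opLe.fro_mul_le zero_le_one A
    rwa [one_mul] at this
  · have := h.conjTranspose.opLe.fro_mul_le zero_le_one (U * A)
    unfold Uni at h
    rwa [one_mul, ← Matrix.mul_assoc, h, Matrix.one_mul] at this

theorem Uni.fro_mul' {U : Matrix (Fin n) (Fin n) ℂ} (h : Uni U) (A : Matrix (Fin m) (Fin n) ℂ) :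
    fro (A * U) = fro A := by
  apply le_antisymm
  · have := h.opLe.fro_mul_le' zero_le_one A
    rwa [one_mul] at this
  · have := h.conjTranspose.opLe.fro_mul_le' zero_le_one (A * U)
    rwa [one_mul, Matrix.mul_assoc, h.mul_conjTranspose, Matrix.mul_one] at this

theorem Uni.fro_eq {U : Matrix (Fin n) (Fin n) ℂ} (h : Uni U) : fro U = Real.sqrt n := by
  have := h.fro_mul (1 : Matrix (Fin n) (Fin n) ℂ)
  rwa [Matrix.mul_one, fro_one] at this

theorem Uni.norm_det {U : Matrix (Fin n) (Fin n) ℂ} (h : Uni U) : ‖U.det‖ = 1 := by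
  unfold Uni at h
  have h1 := congrArg Matrix.det h
  rw [Matrix.det_mul, Matrix.det_conjTranspose, Matrix.det_one] at h1
  have h2 : ‖star U.det * U.det‖ = 1 := by rw [h1]; simp
  rw [norm_mul, norm_star] at h2
  have h3 : 0 ≤ ‖U.det‖ := norm_nonneg _
  nlinarith

/-! ## `Fix0` -/

theorem Fix0.one : Fix0 (1 : Matrix (Fin n) (Fin n) ℂ) := by
  constructor
  · intro i j hj
    rw [Matrix.one_apply]
    by_cases hi : (i : ℕ) = 0
    · rw [if_pos hi, if_pos (Fin.ext (hi.trans hj.symm))]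
    · rw [if_neg hi, if_neg (fun h => hi (by rw [h, hj]))]
  · intro i j hi
    rw [Matrix.one_apply]
    by_cases hj : (j : ℕ) = 0
    · rw [if_pos hj, if_pos (Fin.ext (hi.trans hj.symm))]
    · rw [if_neg hj, if_neg (fun h => hj (by rw [← h, hi]))]

theorem Fix0.mul {P Q : Matrix (Fin n) (Fin n) ℂ} (hP : Fix0 P) (hQ : Fix0 Q) : Fix0 (P * Q) := by
  constructor
  · intro i j hj
    rw [Matrix.mul_apply, Finset.sum_eq_single j]
    · rw [hP.1 i j hj, hQ.1 j j hj, if_pos hj, mul_one]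
    · intro l _ hl
      rw [hQ.1 l j hj, if_neg (fun h => hl (Fin.ext (h.trans hj.symm))), mul_zero]
    · intro h; exact absurd (Finset.mem_univ j) h
  · intro i j hi
    rw [Matrix.mul_apply, Finset.sum_eq_single i]
    · rw [hP.2 i i hi, hQ.2 i j hi, if_pos hi, one_mul]
    · intro l _ hl
      rw [hP.2 i l hi, if_neg (fun h => hl (Fin.ext (h.trans hi.symm))), zero_mul]
    · intro h; exact absurd (Finset.mem_univ i) h

theorem Fix0.conjTranspose {P : Matrix (Fin n) (Fin n) ℂ} (hP : Fix0 P) : Fix0 Pᴴ := by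
  constructor
  · intro i j hj
    rw [Matrix.conjTranspose_apply, hP.2 j i hj]
    split_ifs <;> simp
  · intro i j hi
    rw [Matrix.conjTranspose_apply, hP.1 j i hi]
    split_ifs <;> simp

theorem Fix0.mulVec_e1 {P : Matrix (Fin n) (Fin n) ℂ} (hP : Fix0 P) : P *ᵥ e1 n = e1 n := by
  funext i
  have hn : 1 ≤ n := by have := i.2; omega
  rw [NB_e1_eq hn]
  simp only [Matrix.mulVec, dotProduct]
  rw [Finset.sum_eq_single (⟨0, hn⟩ : Fin n)]
  · rw [hP.1 i ⟨0, hn⟩ rfl, Pi.single_eq_same, mul_one, ← NB_e1_eq hn]; rfl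
  · intro l _ hl
    rw [Pi.single_eq_of_ne hl, mul_zero]
  · intro h; exact absurd (Finset.mem_univ _) h

/-- the first coordinate is not changed -/
theorem Fix0.vecMul_first {P : Matrix (Fin n) (Fin n) ℂ} (hP : Fix0 P) (x : Fin n → ℂ) (i : Fin n)
    (hi : (i : ℕ) = 0) : (x ᵥ* P) i = x i := by
  simp only [Matrix.vecMul, dotProduct]
  rw [Finset.sum_eq_single i]
  · rw [hP.1 i i hi, if_pos hi, mul_one]
  · intro l _ hl
    rw [hP.1 l i hi, if_neg (fun h => hl (Fin.ext (h.trans hi.symm))), mul_zero]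
  · intro h; exact absurd (Finset.mem_univ i) h

end H6LP
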