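import Pool.Agent.H6.LP.DOT

/-!
# PERT: the initial registers and the perturbed matrix
-/

set_option autoImplicit false

open Complex Matrix

namespace H6LP

/-- the initial registers: the input matrix (exact), then the samples (with relative errors) -/
noncomputable def env0 (n : ℕ) (A : Matrix (Fin n) (Fin n) ℂ) (g : Fin (2 * n ^ 2 + 1) → ℝ) (ad : Adv) : Env :=
  List.ofFn (fun k : Fin (n * n) => A k.divNat k.modNat) ++
    List.ofFn (fun k : Fin (2 * n ^ 2 + 1) => (g k : ℂ) * (1 + ad.e (n * n + k)))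

/-- the coordinates of the samples -/
def coo (n : ℕ) : Coo n (Fin (2 * n ^ 2 + 1)) where
  co i j b := ⟨2 * ((i : ℕ) * n + (j : ℕ)) + (if b then 1 else 0), by
    have hi := i.isLt
    have hj := j.isLt
    have h1 : (i : ℕ) * n + (j : ℕ) < n ^ 2 := by nlinarith
    split_ifs <;> omega⟩
  ct := ⟨2 * n ^ 2, by omega⟩
  inj := by
    intro i j b i' j' b' h
    have h1 := congrArg Fin.val h
    simp only at h1
    have hj := j.isLt
    have hj' := j'.isLt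
    have hb : b = b' := by
      cases b <;> cases b' <;> simp at h1 ⊢ <;> omega
    subst hb
    have h2 : (i : ℕ) * n + (j : ℕ) = (i' : ℕ) * n + (j' : ℕ) := by omega
    have h3 : (i : ℕ) = i' := by
      have e1 : ((i : ℕ) * n + (j : ℕ)) / n = i := by
        rw [Nat.add_comm, Nat.add_mul_div_right _ _ (by omega), Nat.div_eq_of_lt hj, Nat.zero_add]
      have e2 : ((i' : ℕ) * n + (j' : ℕ)) / n = i' := by
        rw [Nat.add_comm, Nat.add_mul_div_right _ _ (by omega), Nat.div_eq_of_lt hj', Nat.zero_add]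
      rw [← e1, ← e2, h2]
    refine ⟨Fin.ext h3, Fin.ext ?_, rfl⟩
    rw [h3] at h2
    omega
  ne := by
    intro i j b h
    have h1 := congrArg Fin.val h
    simp only at h1
    have hi := i.isLt
    have hj := j.isLt
    have h2 : (i : ℕ) * n + (j : ℕ) < n ^ 2 := by nlinarith
    split_ifs at h1 <;> omega

/-- the size of the perturbation -/
noncomputable def gam (n b : ℕ) : ℝ := (2 : ℝ)⁻¹ ^ (3 + parQ n b)

theorem PERT_has {env : Env} {r : ℕ} {x : ℂ} (h : env[r]? = some x) : Has env r x := by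
  obtain ⟨hlt, hx⟩ := List.getElem?_eq_some_iff.1 h
  refine ⟨hlt, ?_⟩
  unfold val
  rw [List.getD_eq_getElem?_getD, h]
  rfl

theorem env0_A (n : ℕ) (A : Matrix (Fin n) (Fin n) ℂ) (g : Fin (2 * n ^ 2 + 1) → ℝ) (ad : Adv)
    (i j : Fin n) : Has (env0 n A g ad) ((i : ℕ) * n + (j : ℕ)) (A i j) := by
  have hi := i.isLt
  have hj := j.isLt
  have hlt : (i : ℕ) * n + (j : ℕ) < n * n := by nlinarith
  apply PERT_has
  unfold env0
  rw [List.getElem?_append_left (by rw [List.length_ofFn]; exact hlt), List.getElem?_ofFn,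
    dif_pos hlt]
  have e1 : Fin.divNat (⟨(i : ℕ) * n + (j : ℕ), hlt⟩ : Fin (n * n)) = i := by
    apply Fin.ext
    simp only [Fin.coe_divNat]
    rw [Nat.add_comm, Nat.add_mul_div_right _ _ (by omega), Nat.div_eq_of_lt hj, Nat.zero_add]
  have e2 : Fin.modNat (⟨(i : ℕ) * n + (j : ℕ), hlt⟩ : Fin (n * n)) = j := by
    apply Fin.ext
    simp only [Fin.coe_modNat]
    rw [Nat.add_comm, Nat.add_mul_mod_self_right, Nat.mod_eq_of_lt hj]
  rw [e1, e2]

theorem PERT_second (n : ℕ) (A : Matrix (Fin n) (Fin n) ℂ) (g : Fin (2 * n ^ 2 + 1) → ℝ) (ad : Adv)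
    (k : Fin (2 * n ^ 2 + 1)) :
    Has (env0 n A g ad) (n ^ 2 + (k : ℕ)) ((g k : ℂ) * (1 + ad.e (n ^ 2 + (k : ℕ)))) := by
  apply PERT_has
  unfold env0
  rw [List.getElem?_append_right (by rw [List.length_ofFn, ← pow_two]; omega), List.length_ofFn,
    List.getElem?_ofFn]
  have e : n ^ 2 + (k : ℕ) - n * n = k := by rw [← pow_two]; omega
  rw [dif_pos (by rw [e]; exact k.isLt)]
  have e3 : (⟨n ^ 2 + (k : ℕ) - n * n, by rw [e]; exact k.isLt⟩ : Fin (2 * n ^ 2 + 1)) = k :=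
    Fin.ext e
  rw [e3, ← pow_two]

theorem env0_g (n : ℕ) (A : Matrix (Fin n) (Fin n) ℂ) (g : Fin (2 * n ^ 2 + 1) → ℝ) (ad : Adv)
    (i j : Fin n) (b : Bool) :
    Has (env0 n A g ad) (n ^ 2 + 2 * ((i : ℕ) * n + (j : ℕ)) + (if b then 1 else 0))
      ((g ((coo n).co i j b) : ℂ) * (1 + ad.e (n ^ 2 + 2 * ((i : ℕ) * n + (j : ℕ)) + (if b then 1 else 0)))) := by
  have h := PERT_second n A g ad ((coo n).co i j b)
  have e : n ^ 2 + (((coo n).co i j b : Fin (2 * n ^ 2 + 1)) : ℕ) =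
      n ^ 2 + 2 * ((i : ℕ) * n + (j : ℕ)) + (if b then 1 else 0) := by
    simp only [coo, Nat.add_assoc]
  rw [e] at h
  exact h

theorem env0_t (n : ℕ) (A : Matrix (Fin n) (Fin n) ℂ) (g : Fin (2 * n ^ 2 + 1) → ℝ) (ad : Adv) :
    Has (env0 n A g ad) (3 * n ^ 2) ((g (coo n).ct : ℂ) * (1 + ad.e (3 * n ^ 2))) := by
  have h := PERT_second n A g ad (coo n).ct
  have e : n ^ 2 + (((coo n).ct : Fin (2 * n ^ 2 + 1)) : ℕ) = 3 * n ^ 2 := by
    simp only [coo]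
    ring
  rw [e] at h
  exact h

theorem n_le_two_pow_parQ (n b : ℕ) : n ≤ 2 ^ parQ n b := by
  unfold parQ
  calc n ≤ 2 ^ Nat.clog 2 n := Nat.le_pow_clog (by norm_num) n
    _ ≤ 2 ^ (b + Nat.clog 2 n) := Nat.pow_le_pow_right (by norm_num) (by omega)

theorem PERT_gam_pos (n b : ℕ) : 0 < gam n b := by
  unfold gam
  positivity

theorem PERT_n_gam (n b : ℕ) : n * gam n b ≤ 1 / 8 := by
  have h1 : (n : ℝ) ≤ 2 ^ parQ n b := by exact_mod_cast n_le_two_pow_parQ n b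
  have h2 := PERT_gam_pos n b
  have h3 : (2 : ℝ) ^ parQ n b * gam n b = 1 / 8 := by
    unfold gam
    rw [pow_add, mul_left_comm, ← mul_pow]
    norm_num
  calc n * gam n b ≤ 2 ^ parQ n b * gam n b := mul_le_mul_of_nonneg_right h1 h2.le
    _ = 1 / 8 := h3

theorem PERT_gam_le (n b : ℕ) : gam n b ≤ 1 / 8 := by
  unfold gam
  rw [pow_add]
  have : ((2 : ℝ)⁻¹) ^ parQ n b ≤ 1 := pow_le_one₀ (by norm_num) (by norm_num)
  nlinarith

theorem PERT_fro_entries {n : ℕ} {E : Matrix (Fin n) (Fin n) ℂ} {c : ℝ} (hc : 0 ≤ c)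
    (h : ∀ i j, ‖E i j‖ ≤ c) : fro E ≤ n * c := by
  unfold fro
  have h1 : ∑ i, ∑ j, ‖E i j‖ ^ 2 ≤ (n * c) ^ 2 := by
    calc ∑ i : Fin n, ∑ j : Fin n, ‖E i j‖ ^ 2 ≤ ∑ _i : Fin n, ∑ _j : Fin n, c ^ 2 :=
          Finset.sum_le_sum fun i _ => Finset.sum_le_sum fun j _ =>
            pow_le_pow_left₀ (norm_nonneg _) (h i j) 2
      _ = (n * c) ^ 2 := by
          rw [Finset.sum_const, Finset.sum_const, Finset.card_univ, Fintype.card_fin, nsmul_eq_mul,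
            nsmul_eq_mul]
          ring
  calc Real.sqrt (∑ i, ∑ j, ‖E i j‖ ^ 2) ≤ Real.sqrt ((n * c) ^ 2) := Real.sqrt_le_sqrt h1
    _ = n * c := Real.sqrt_sq (by positivity)

/-- the perturbation is small -/
theorem fro_mof_sub_le {n : ℕ} (A : Matrix (Fin n) (Fin n) ℂ) (b : ℕ) {g : Fin (2 * n ^ 2 + 1) → ℝ}
    (hg : ∀ i, g i ∈ Set.Icc (0 : ℝ) 1) :
    fro (Mof A (gam n b) (coo n) g - A) ≤ 2 * n * gam n b := by
  have h0 := PERT_gam_pos n b
  have h1 : fro (Mof A (gam n b) (coo n) g - A) ≤ n * (2 * gam n b) := by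
    refine PERT_fro_entries (by positivity) ?_
    intro i j
    rw [Matrix.sub_apply]
    unfold Mof
    rw [add_sub_cancel_left, norm_mul, Complex.norm_real, Real.norm_eq_abs, abs_of_pos h0, mul_comm]
    refine mul_le_mul_of_nonneg_right ?_ h0.le
    refine le_trans (norm_add_le _ _) ?_
    rw [norm_mul, Complex.norm_I, mul_one, Complex.norm_real, Complex.norm_real, Real.norm_eq_abs,
      Real.norm_eq_abs, abs_of_nonneg (hg _).1, abs_of_nonneg (hg _).1]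
    have a1 := (hg ((coo n).co i j false)).2
    have a2 := (hg ((coo n).co i j true)).2
    linarith
  linarith

theorem opLe_mof {n : ℕ} {A : Matrix (Fin n) (Fin n) ℂ} (hA : OpLe A 1) (b : ℕ)
    {g : Fin (2 * n ^ 2 + 1) → ℝ} (hg : ∀ i, g i ∈ Set.Icc (0 : ℝ) 1) :
    OpLe (Mof A (gam n b) (coo n) g) 2 := by
  have h1 := fro_mof_sub_le A b hg
  have h2 := PERT_n_gam n b
  have h3 : OpLe (A + (Mof A (gam n b) (coo n) g - A)) (1 + 1) := hA.add_fro (by linarith)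
  rw [add_sub_cancel] at h3
  exact h3.mono (by norm_num)

theorem PERT_mul {u γ : ℝ} (hu : 0 ≤ u) (hu1 : u ≤ 1 / 1000) (hγ : 0 ≤ γ) {α a s g z : ℂ}
    (hα : ‖α‖ ≤ γ) (ha : ‖a - α‖ ≤ u * γ) (hg : ‖g‖ ≤ 1) (hs : ‖s - g‖ ≤ u)
    (hz : ‖z - a * s‖ ≤ u * ‖a * s‖) : ‖z - α * g‖ ≤ 4 * u * γ := by
  have h1 : ‖a‖ ≤ γ * (1 + u) := by
    have e : a = α + (a - α) := by ring
    calc ‖a‖ = ‖α + (a - α)‖ := by rw [← e]
      _ ≤ ‖α‖ + ‖a - α‖ := norm_add_le _ _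
      _ ≤ γ * (1 + u) := by linarith
  have h2 : ‖s‖ ≤ 1 + u := by
    have e : s = g + (s - g) := by ring
    calc ‖s‖ = ‖g + (s - g)‖ := by rw [← e]
      _ ≤ ‖g‖ + ‖s - g‖ := norm_add_le _ _
      _ ≤ 1 + u := by linarith
  have h3 : ‖a * s‖ ≤ γ * (1 + u) * (1 + u) := by
    rw [norm_mul]
    exact mul_le_mul h1 h2 (norm_nonneg _) (by positivity)
  have e2 : z - α * g = (z - a * s) + (a - α) * s + α * (s - g) := by ring
  have h4 : ‖(a - α) * s‖ ≤ u * γ * (1 + u) := by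
    rw [norm_mul]
    exact mul_le_mul ha h2 (norm_nonneg _) (by positivity)
  have h5 : ‖α * (s - g)‖ ≤ γ * u := by
    rw [norm_mul]
    exact mul_le_mul hα hs (norm_nonneg _) hγ
  have h6 : ‖z - α * g‖ ≤ ‖z - a * s‖ + ‖(a - α) * s‖ + ‖α * (s - g)‖ := by
    rw [e2]
    exact norm_add₃_le
  have h7 : u * ‖a * s‖ ≤ u * (γ * (1 + u) * (1 + u)) := mul_le_mul_of_nonneg_left h3 hu
  have h8 : ‖z - α * g‖ ≤ u * γ * ((1 + u) * (1 + u) + (1 + u) + 1) := by nlinarith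
  refine le_trans h8 ?_
  have h9 : 0 ≤ u * γ := by positivity
  have h10 : (1 + u) * (1 + u) + (1 + u) + 1 ≤ 4 := by nlinarith
  nlinarith

theorem PERT_entry {u γ : ℝ} (hu : 0 ≤ u) (hu1 : u ≤ 1 / 1000) (hγ0 : 0 ≤ γ) (hγ : γ ≤ 1 / 8)
    {m p q x y c z : ℂ} (hm : ‖m‖ ≤ 1) (hp : ‖p‖ ≤ γ) (hq : ‖q‖ ≤ γ)
    (hx : ‖x - p‖ ≤ 4 * u * γ) (hy : ‖y - q‖ ≤ 4 * u * γ)
    (hc : ‖c - (x + y)‖ ≤ u * ‖x + y‖) (hz : ‖z - (m + c)‖ ≤ u * ‖m + c‖) :
    ‖z - (m + (p + q))‖ ≤ 20 * u := by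
  have huγ : u * γ ≤ u * (1 / 8) := mul_le_mul_of_nonneg_left hγ hu
  have h1 : ‖x + y‖ ≤ 1 := by
    have e : x + y = (x - p) + (y - q) + (p + q) := by ring
    calc ‖x + y‖ = ‖(x - p) + (y - q) + (p + q)‖ := by rw [← e]
      _ ≤ ‖x - p‖ + ‖y - q‖ + ‖p + q‖ := norm_add₃_le
      _ ≤ ‖x - p‖ + ‖y - q‖ + (‖p‖ + ‖q‖) := by
          have := norm_add_le p q
          linarith
      _ ≤ 1 := by linarith
  have h2 : ‖c - (x + y)‖ ≤ u := le_trans hc (by nlinarith)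
  have h3 : ‖c‖ ≤ 2 := by
    have e : c = (c - (x + y)) + (x + y) := by ring
    calc ‖c‖ = ‖(c - (x + y)) + (x + y)‖ := by rw [← e]
      _ ≤ ‖c - (x + y)‖ + ‖x + y‖ := norm_add_le _ _
      _ ≤ 2 := by linarith
  have h4 : ‖z - (m + c)‖ ≤ 3 * u := by
    refine le_trans hz ?_
    have := norm_add_le m c
    nlinarith
  have e : z - (m + (p + q)) = (z - (m + c)) + (c - (x + y)) + ((x - p) + (y - q)) := by ring
  calc ‖z - (m + (p + q))‖ = ‖(z - (m + c)) + (c - (x + y)) + ((x - p) + (y - q))‖ := by rw [e]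
    _ ≤ ‖z - (m + c)‖ + ‖c - (x + y)‖ + ‖(x - p) + (y - q)‖ := norm_add₃_le
    _ ≤ ‖z - (m + c)‖ + ‖c - (x + y)‖ + (‖x - p‖ + ‖y - q‖) := by
        have := norm_add_le (x - p) (y - q)
        linarith
    _ ≤ 20 * u := by linarith

theorem PERT_opLe_entry {n : ℕ} {A : Matrix (Fin n) (Fin n) ℂ} (hA : OpLe A 1) (i j : Fin n) :
    ‖A i j‖ ≤ 1 := by
  have h1 := hA (Pi.single j 1)
  rw [nv_single, norm_one, Matrix.mulVec_single_one] at h1
  have h2 := norm_le_nv (A.col j) i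
  have e : A.col j i = A i j := rfl
  rw [e] at h2
  linarith

theorem PERT_sample {u : ℝ} {e : ℂ} (he : ‖e‖ ≤ u) {g : ℝ} (hg : g ∈ Set.Icc (0 : ℝ) 1) :
    ‖(g : ℂ)‖ ≤ 1 ∧ ‖(g : ℂ) * (1 + e) - (g : ℂ)‖ ≤ u := by
  have h1 : ‖(g : ℂ)‖ ≤ 1 := by
    rw [Complex.norm_real, Real.norm_eq_abs, abs_of_nonneg hg.1]
    exact hg.2
  refine ⟨h1, ?_⟩
  have h2 : (g : ℂ) * (1 + e) - (g : ℂ) = (g : ℂ) * e := by ring
  rw [h2, norm_mul]
  calc ‖(g : ℂ)‖ * ‖e‖ ≤ 1 * u := mul_le_mul h1 he (norm_nonneg _) (by norm_num)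
    _ = u := one_mul _

theorem post_pert {ad : Adv} {u : ℝ} (hu : ad.Le u) (hu1 : u ≤ 1 / 1000) {n : ℕ} (hn : 1 ≤ n)
    {A : Matrix (Fin n) (Fin n) ℂ} (hA : OpLe A 1) (b : ℕ) {g : Fin (2 * n ^ 2 + 1) → ℝ}
    (hg : ∀ i, g i ∈ Set.Icc (0 : ℝ) 1) :
    Post ad (pertP n b) (env0 n A g ad) (fun r env' => ∃ E : Matrix (Fin n) (Fin n) ℂ,
      HasM env' r (Mof A (gam n b) (coo n) g + E) ∧ fro E ≤ 20 * n * u) := by
  have hu0 := hu.nonneg
  have hγ0 := PERT_gam_pos n b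
  have hγ1 := PERT_gam_le n b
  have hγq : (((1 / 2 ^ (3 + parQ n b) : ℚ)) : ℂ) = (gam n b : ℂ) := by
    unfold gam
    push_cast
    rw [inv_pow, one_div]
  unfold pertP
  refine Post.bind (post_cst hu _ _ _) ?_
  rintro gR env1 h01 ⟨zR, hzR, hzR'⟩
  refine Post.bind (post_cst hu _ _ _) ?_
  rintro gI env2 h12 ⟨zI, hzI, hzI'⟩
  have hR : ‖zR - (gam n b : ℂ)‖ ≤ u * gam n b := by
    unfold Rel at hzR'
    rw [hγq] at hzR'
    simp only [Rat.cast_zero, zero_mul, add_zero] at hzR'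
    refine le_trans hzR' ?_
    rw [Complex.norm_real, Real.norm_eq_abs, abs_of_pos hγ0]
  have hI : ‖zI - (gam n b : ℂ) * I‖ ≤ u * gam n b := by
    unfold Rel at hzI'
    rw [hγq] at hzI'
    simp only [Rat.cast_zero, zero_add] at hzI'
    refine le_trans hzI' ?_
    rw [norm_mul, Complex.norm_I, mul_one, Complex.norm_real, Real.norm_eq_abs, abs_of_pos hγ0]
  refine Post.weaken (post_matM n n _ env2
    (fun i j r env' => ∃ z, Has env' r z ∧ ‖z - Mof A (gam n b) (coo n) g i j‖ ≤ 20 * u) ?_ ?_) ?_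
  · rintro i j r e1 e2 h ⟨z, hz, hzb⟩
    exact ⟨z, hz.mono h, hzb⟩
  · intro i j env3 h23
    have h03 : env0 n A g ad <+: env3 := (h01.trans h12).trans h23
    have hAij := (env0_A n A g ad i j).mono h03
    have hg0 := (env0_g n A g ad i j false).mono h03
    have hg1 := (env0_g n A g ad i j true).mono h03
    simp only [Bool.false_eq_true, if_false, add_zero, if_true] at hg0 hg1
    refine Post.bind (post_mul hu ((hzR.mono h12).mono h23) hg0) ?_
    rintro rx env4 h34 ⟨x, hx, hx'⟩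
    refine Post.bind (post_mul hu ((hzI.mono h23).mono h34) (hg1.mono h34)) ?_
    rintro ry env5 h45 ⟨y, hy, hy'⟩
    refine Post.bind (post_add hu (hx.mono h45) hy) ?_
    rintro rc env6 h56 ⟨c, hc, hc'⟩
    refine Post.weaken (post_add hu (((hAij.mono h34).mono h45).mono h56) hc) ?_
    rintro rz env7 h67 ⟨z, hz, hz'⟩
    refine ⟨z, hz, ?_⟩
    obtain ⟨s1, s2⟩ := PERT_sample (hu (n ^ 2 + 2 * ((i : ℕ) * n + (j : ℕ))))
      (hg ((coo n).co i j false))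
    obtain ⟨t1, t2⟩ := PERT_sample (hu (n ^ 2 + 2 * ((i : ℕ) * n + (j : ℕ)) + 1))
      (hg ((coo n).co i j true))
    have nγ : ‖(gam n b : ℂ)‖ ≤ gam n b := by
      rw [Complex.norm_real, Real.norm_eq_abs, abs_of_pos hγ0]
    have nγI : ‖(gam n b : ℂ) * I‖ ≤ gam n b := by
      rw [norm_mul, Complex.norm_I, mul_one]
      exact nγ
    have b1 := PERT_mul hu0 hu1 hγ0.le nγ hR s1 s2 hx'
    have b2 := PERT_mul hu0 hu1 hγ0.le nγI hI t1 t2 hy'
    have p1 : ‖(gam n b : ℂ) * (g ((coo n).co i j false) : ℂ)‖ ≤ gam n b := by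
      rw [norm_mul]
      calc _ ≤ gam n b * 1 := mul_le_mul nγ s1 (norm_nonneg _) hγ0.le
        _ = gam n b := mul_one _
    have p2 : ‖(gam n b : ℂ) * I * (g ((coo n).co i j true) : ℂ)‖ ≤ gam n b := by
      rw [norm_mul]
      calc _ ≤ gam n b * 1 := mul_le_mul nγI t1 (norm_nonneg _) hγ0.le
        _ = gam n b := mul_one _
    have key := PERT_entry hu0 hu1 hγ0.le hγ1 (PERT_opLe_entry hA i j) p1 p2 b1 b2 hc' hz'
    have e : Mof A (gam n b) (coo n) g i j = A i j +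
        ((gam n b : ℂ) * (g ((coo n).co i j false) : ℂ) +
          (gam n b : ℂ) * I * (g ((coo n).co i j true) : ℂ)) := by
      unfold Mof
      ring
    rw [e]
    exact key
  · intro r env3 h23 hr
    choose Z hZ hZb using hr
    refine ⟨(Matrix.of Z) - Mof A (gam n b) (coo n) g, ?_, ?_⟩
    · intro i j
      rw [add_sub_cancel]
      exact hZ i j
    · refine le_trans (PERT_fro_entries (c := 20 * u) (by positivity) ?_) ?_
      · intro i j
        exact hZb i j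
      · linarith

end H6LP
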