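import Pool.Agent.H6.LP.Defs

/-!
# PISEC: resampling a block of coordinates

The map `(g, h) ↦ (h on S, g outside S)` sends `PP ι × PP ι` to `PP ι` (e.g. by `Measure.pi_eq` on boxes, or
`measurePreserving_piEquivPiSubtypeProd`).  So `PP ι (A ∩ B) = ∫ PP ι {h | mix g h ∈ A ∩ B} dg ≤ c PP ι A`.
-/

set_option autoImplicit false

open MeasureTheory

namespace H6LP

variable {ι : Type} [Fintype ι] [DecidableEq ι]

instance pisecProb : IsProbabilityMeasure ((volume : Measure ℝ).restrict (Set.Icc 0 1)) :=
  ⟨by simp⟩

instance : IsProbabilityMeasure (PP ι) := by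
  unfold PP
  infer_instance

/-- coordinates in `S` from `h`, the others from `g` -/
def mix (S : Finset ι) (g h : ι → ℝ) : ι → ℝ := fun i => if i ∈ S then h i else g i

theorem pisec_measurable_mix (S : Finset ι) :
    Measurable (fun p : (ι → ℝ) × (ι → ℝ) => mix S p.1 p.2) := by
  rw [measurable_pi_iff]
  intro i
  by_cases hi : i ∈ S
  · simp only [mix, hi, if_true]
    exact (measurable_pi_apply i).comp measurable_snd
  · simp only [mix, hi, if_false]
    exact (measurable_pi_apply i).comp measurable_fst

theorem mix_preserving (S : Finset ι) :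
    MeasurePreserving (fun p : (ι → ℝ) × (ι → ℝ) => mix S p.1 p.2) ((PP ι).prod (PP ι)) (PP ι) := by
  refine ⟨pisec_measurable_mix S, ?_⟩
  symm
  refine Measure.pi_eq fun s hs => ?_
  rw [Measure.map_apply (pisec_measurable_mix S) (MeasurableSet.univ_pi hs)]
  have hpre : (fun p : (ι → ℝ) × (ι → ℝ) => mix S p.1 p.2) ⁻¹' (Set.univ.pi s) =
      (Set.univ.pi (fun i => if i ∈ S then Set.univ else s i)) ×ˢ
        (Set.univ.pi (fun i => if i ∈ S then s i else Set.univ)) := by
    ext ⟨g, h⟩
    simp only [Set.mem_preimage, Set.mem_pi, Set.mem_univ, true_imp_iff, Set.mem_prod, mix]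
    constructor
    · intro hm
      constructor
      · intro i
        have := hm i
        by_cases hi : i ∈ S
        · simp [hi]
        · simpa [hi] using this
      · intro i
        have := hm i
        by_cases hi : i ∈ S
        · simpa [hi] using this
        · simp [hi]
    · rintro ⟨h1, h2⟩ i
      have e1 := h1 i
      have e2 := h2 i
      by_cases hi : i ∈ S
      · simpa [hi] using e2
      · simpa [hi] using e1
  rw [hpre, Measure.prod_prod]
  unfold PP
  rw [Measure.pi_pi, Measure.pi_pi, ← Finset.prod_mul_distrib]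
  refine Finset.prod_congr rfl fun i _ => ?_
  by_cases hi : i ∈ S
  · simp only [hi, if_true, measure_univ, one_mul]
  · simp only [hi, if_false, measure_univ, mul_one]

theorem pisec (S : Finset ι) {A B : Set (ι → ℝ)} (hA : MeasurableSet A) (hB : MeasurableSet B)
    {c : ENNReal} (hinv : ∀ g h, mix S g h ∈ A ↔ g ∈ A)
    (hsec : ∀ g ∈ A, PP ι {h | mix S g h ∈ B} ≤ c) : PP ι (A ∩ B) ≤ c * PP ι A := by
  have hm := pisec_measurable_mix S
  rw [← (mix_preserving S).measure_preimage (hA.inter hB).nullMeasurableSet,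
    Measure.prod_apply (hm (hA.inter hB))]
  calc ∫⁻ g, PP ι (Prod.mk g ⁻¹' ((fun p : (ι → ℝ) × (ι → ℝ) => mix S p.1 p.2) ⁻¹' (A ∩ B))) ∂(PP ι)
      ≤ ∫⁻ g, A.indicator (fun _ => c) g ∂(PP ι) := by
        refine lintegral_mono fun g => ?_
        by_cases hg : g ∈ A
        · rw [Set.indicator_of_mem hg]
          refine le_trans (measure_mono ?_) (hsec g hg)
          intro h hh
          exact hh.2
        · rw [Set.indicator_of_notMem hg]
          have : Prod.mk g ⁻¹' ((fun p : (ι → ℝ) × (ι → ℝ) => mix S p.1 p.2) ⁻¹' (A ∩ B)) = ∅ := by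
            ext h
            simp only [Set.mem_preimage, Set.mem_inter_iff, Set.mem_empty_iff_false, iff_false,
              not_and]
            intro h1
            exact absurd ((hinv g h).mp h1) hg
          rw [this, measure_empty]
    _ = c * PP ι A := by
        rw [lintegral_indicator hA, lintegral_const, Measure.restrict_apply_univ]

/-- the same without `A`; it is enough to bound the section by any set -/
theorem pisec' (S : Finset ι) {B : Set (ι → ℝ)} (hB : MeasurableSet B)
    {c : ENNReal} (hsec : ∀ g, PP ι {h | mix S g h ∈ B} ≤ c) : PP ι B ≤ c := by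
  have h := pisec S MeasurableSet.univ hB (c := c) (fun g h => by simp) (fun g _ => hsec g)
  rwa [Set.univ_inter, measure_univ, mul_one] at h

/-- one real coordinate -/
theorem pp_coord (i : ι) {s : Set ℝ} (hs : MeasurableSet s) :
    PP ι {h | h i ∈ s} = volume (s ∩ Set.Icc 0 1) := by
  have h1 := (measurePreserving_eval (fun _ : ι => (volume : Measure ℝ).restrict (Set.Icc 0 1)) i)
  have h2 := h1.measure_preimage hs.nullMeasurableSet
  rw [Measure.restrict_apply hs] at h2
  exact h2

/-- almost surely all coordinates are in `[0,1]` -/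
theorem pp_cube : PP ι {h | ∀ i, h i ∈ Set.Icc (0 : ℝ) 1} = 1 := by
  have : {h : ι → ℝ | ∀ i, h i ∈ Set.Icc (0 : ℝ) 1} = Set.univ.pi (fun _ => Set.Icc (0 : ℝ) 1) := by
    ext h; simp only [Set.mem_ofPred_eq, Set.mem_pi, Set.mem_univ, true_imp_iff]
  rw [this]
  unfold PP
  rw [Measure.pi_pi]
  simp

/-- the measure of subsets of the cube is the Lebesgue measure -/
theorem pp_eq_volume {S : Set (ι → ℝ)} (hS : MeasurableSet S)
    (h : ∀ g ∈ S, ∀ i, g i ∈ Set.Icc (0 : ℝ) 1) : PP ι S = volume S := by
  unfold PP
  rw [← Measure.restrict_pi_pi, Measure.restrict_apply hS]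
  have : S ∩ Set.univ.pi (fun _ : ι => Set.Icc (0 : ℝ) 1) = S := by
    refine Set.inter_eq_left.mpr fun g hg => ?_
    intro i _
    exact h g hg i
  rw [this]
  rfl

end H6LP
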