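import Pool.Agent.H6.LP.EVPHI
import Pool.Agent.H6.LP.PERT

/-!
# PROB: the good event has probability `≥ 1 - 2^-q`

`s = 2^-(17+5q)`, `w0 = 2^-(11+3q)`, `t = 2^-(5l)`, `l = 100 + 25 q`, `γ = 2^-(3+q)`, `n ≤ 2^q`:
`ev_row ≤ 0.0374 · 2^-q` (`121 · 1296 · n^5 s²/γ^4`), `ev_col ≤ 0.124 · 2^-q` (`8100 n³ w0²/γ²`),
`ev_dir ≤ 2^(11+3q-l)`.
-/

set_option autoImplicit false

open Complex Matrix MeasureTheory

namespace H6LP

noncomputable def sS (n b : ℕ) : ℝ := (2 : ℝ)⁻¹ ^ (17 + 5 * parQ n b)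
noncomputable def wS (n b : ℕ) : ℝ := (2 : ℝ)⁻¹ ^ (11 + 3 * parQ n b)

/-- `n^25 ≤ 2^(l-100)` -/
theorem n_pow_le (n b : ℕ) : (n : ℝ) ^ 25 ≤ 2 ^ (parL n b - 100) := by
  have h1 : parL n b - 100 = parQ n b * 25 := by unfold parL; omega
  rw [h1, pow_mul]
  refine pow_le_pow_left₀ (by positivity) ?_ 25
  exact_mod_cast n_le_two_pow_parQ n b

theorem good_event (n b : ℕ) (hn : 1 ≤ n) {A : Matrix (Fin n) (Fin n) ℂ} (hA : OpLe A 1) :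
    ∃ S : Set (Fin (2 * n ^ 2 + 1) → ℝ), MeasurableSet S ∧
      ENNReal.ofReal (1 - (2 : ℝ)⁻¹ ^ parQ n b) ≤ PP (Fin (2 * n ^ 2 + 1)) S ∧
      ∀ g ∈ S, (∀ i, g i ∈ Set.Icc (0 : ℝ) 1) ∧
        RowLB (Mof A (gam n b) (coo n) g) (2 * sS n b) ∧
        ColLB (Mof A (gam n b) (coo n) g) (sS n b * wS n b) (5 * sS n b * wS n b ^ 2) ∧
        NodeOK (parL n b) (Mof A (gam n b) (coo n) g) (dir (g (coo n).ct))
          ((2 : ℝ)⁻¹ ^ (5 * parL n b)) := by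
  set y : ℝ := (2 : ℝ)⁻¹ ^ parQ n b with hy
  have hy0 : 0 < y := by rw [hy]; positivity
  have hy1 : y ≤ 1 := pow_le_one₀ (by norm_num) (by norm_num)
  have hN : (1 : ℝ) ≤ n := by exact_mod_cast hn
  have hNy : (n : ℝ) * y ≤ 1 := by
    rw [hy, inv_pow, ← div_eq_mul_inv, div_le_one (by positivity)]
    exact_mod_cast n_le_two_pow_parQ n b
  have hs : sS n b = (2 : ℝ)⁻¹ ^ 17 * y ^ 5 := by rw [sS, pow_add, mul_comm 5 (parQ n b), pow_mul]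
  have hw : wS n b = (2 : ℝ)⁻¹ ^ 11 * y ^ 3 := by rw [wS, pow_add, mul_comm 3 (parQ n b), pow_mul]
  have hg : gam n b = (2 : ℝ)⁻¹ ^ 3 * y := by rw [gam, pow_add]
  have hr : (2 : ℝ)⁻¹ ^ parL n b = (2 : ℝ)⁻¹ ^ 100 * y ^ 25 := by
    rw [parL, pow_add, mul_comm 25 (parQ n b), pow_mul]
  set s := sS n b with hsdef
  set w := wS n b with hwdef
  set γ := gam n b with hγdef
  have hs0 : 0 < s := by rw [hs]; positivity
  have hw0 : 0 < w := by rw [hw]; positivity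
  have hγ0 : 0 < γ := by rw [hg]; positivity
  have hy5 : y ^ 5 ≤ 1 := pow_le_one₀ hy0.le hy1
  have hy3 : y ^ 3 ≤ 1 := pow_le_one₀ hy0.le hy1
  have hs1 : s ≤ 1 := by
    rw [hs]
    have : (0 : ℝ) ≤ y ^ 5 := by positivity
    nlinarith [show ((2 : ℝ)⁻¹ ^ 17) ≤ 1 by norm_num]
  have hw1 : w ≤ 1 / 10 := by
    rw [hw]
    have : (0 : ℝ) ≤ y ^ 3 := by positivity
    nlinarith [show ((2 : ℝ)⁻¹ ^ 11) ≤ 1 / 10 by norm_num]
  have hsw1 : s * w ≤ 1 := by nlinarith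
  have hl : 100 ≤ parL n b := by unfold parL; omega
  set t : ℝ := (2 : ℝ)⁻¹ ^ (5 * parL n b) with ht
  have ht0 : 0 < t := by rw [ht]; positivity
  set ι := Fin (2 * n ^ 2 + 1) with hι
  set M : (ι → ℝ) → Matrix (Fin n) (Fin n) ℂ := fun g => Mof A γ (coo n) g with hM
  set Sc : Set (ι → ℝ) := {g | ∀ i, g i ∈ Set.Icc (0 : ℝ) 1} with hSc
  set Sr : Set (ι → ℝ) := {g | RowLB (M g) (2 * s)} with hSr
  set Sl : Set (ι → ℝ) := {g | ColLB (M g) (s * w) (5 * s * w ^ 2)} with hSl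
  set Sn : Set (ι → ℝ) := {g | NodeOK (parL n b) (M g) (dir (g (coo n).ct)) t} with hSn
  have mc : MeasurableSet Sc := by
    have : Sc = Set.pi Set.univ (fun _ : ι => Set.Icc (0 : ℝ) 1) := by
      ext g
      rw [Set.mem_pi]
      exact ⟨fun h i _ => h i, fun h i => h i (Set.mem_univ i)⟩
    rw [this]
    exact MeasurableSet.univ_pi (fun _ => measurableSet_Icc)
  have mr : MeasurableSet Sr := measurableSet_rowLB A (coo n) γ (2 * s)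
  have ml : MeasurableSet Sl := measurableSet_colLB A (coo n) γ _ _
  have mn : MeasurableSet Sn := measurableSet_nodeOK A (coo n) γ t _
  have er : PP ι Srᶜ ≤ ENNReal.ofReal (y / 20) := by
    refine (ev_row hn A (coo n) hγ0 hs0 hs1).trans (ENNReal.ofReal_le_ofReal ?_)
    have e1 : (11 / s) ^ 2 * (n * (2 * (3 * s) * n / γ) ^ 4) =
        156816 * 4096 * (2 : ℝ)⁻¹ ^ 34 * ((n * y) ^ 5 * y) := by
      rw [hg, hs]
      field_simp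
      norm_num
    rw [e1]
    have e2 : ((n : ℝ) * y) ^ 5 ≤ 1 := pow_le_one₀ (by positivity) hNy
    have e3 : ((n : ℝ) * y) ^ 5 * y ≤ 1 * y := mul_le_mul_of_nonneg_right e2 hy0.le
    have e4 : (156816 * 4096 * (2 : ℝ)⁻¹ ^ 34) ≤ 1 / 20 := by norm_num
    calc 156816 * 4096 * (2 : ℝ)⁻¹ ^ 34 * ((n * y) ^ 5 * y) ≤ 156816 * 4096 * (2 : ℝ)⁻¹ ^ 34 * (1 * y) :=
          mul_le_mul_of_nonneg_left e3 (by positivity)
      _ ≤ 1 / 20 * (1 * y) := mul_le_mul_of_nonneg_right e4 (by positivity)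
      _ = y / 20 := by ring
  have el : PP ι Slᶜ ≤ ENNReal.ofReal (y / 5) := by
    refine (ev_col hn A (coo n) hγ0 (mul_pos hs0 hw0) hsw1 (by positivity)).trans
      (ENNReal.ofReal_le_ofReal ?_)
    have e1 : (9 / (s * w)) ^ 2 * (n * (2 * (5 * s * w ^ 2) * n / γ) ^ 2) =
        8100 * 64 * (2 : ℝ)⁻¹ ^ 22 * ((n * y) ^ 3 * y) := by
      rw [hg, hs, hw]
      field_simp
      norm_num
    rw [e1]
    have e2 : ((n : ℝ) * y) ^ 3 ≤ 1 := pow_le_one₀ (by positivity) hNy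
    have e3 : ((n : ℝ) * y) ^ 3 * y ≤ 1 * y := mul_le_mul_of_nonneg_right e2 hy0.le
    have e4 : (8100 * 64 * (2 : ℝ)⁻¹ ^ 22) ≤ 1 / 5 := by norm_num
    calc 8100 * 64 * (2 : ℝ)⁻¹ ^ 22 * ((n * y) ^ 3 * y) ≤ 8100 * 64 * (2 : ℝ)⁻¹ ^ 22 * (1 * y) :=
          mul_le_mul_of_nonneg_left e3 (by positivity)
      _ ≤ 1 / 5 * (1 * y) := mul_le_mul_of_nonneg_right e4 (by positivity)
      _ = y / 5 := by ring
  have hop : ∀ g : ι → ℝ, (∀ i, g i ∈ Set.Icc (0 : ℝ) 1) → OpLe (Mof A γ (coo n) g) 3 :=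
    fun g hg' => (opLe_mof hA b hg').mono (by norm_num)
  have en : PP ι (Sc ∩ Sr ∩ Sl ∩ Snᶜ) ≤ ENNReal.ofReal (y / 20) := by
    have e0 := ev_dir hn hl (n_pow_le n b) A (coo n) (γ := γ) hs0 hs1 hw0 hw1 ht0 hop
    have e1 : Sc ∩ Sr ∩ Sl ∩ Snᶜ ⊆ {g | (∀ i, g i ∈ Set.Icc (0 : ℝ) 1) ∧ RowLB (Mof A γ (coo n) g) (2 * s) ∧
      ColLB (Mof A γ (coo n) g) (s * w) (5 * s * w ^ 2) ∧
      ¬ NodeOK (parL n b) (Mof A γ (coo n) g) (dir (g (coo n).ct)) t} := by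
      rintro g ⟨⟨⟨h1, h2⟩, h3⟩, h4⟩
      exact ⟨h1, h2, h3, h4⟩
    refine (measure_mono e1).trans (e0.trans (ENNReal.ofReal_le_ofReal ?_))
    have e2 : (2 : ℝ) ^ (4 * parL n b) * t = (2 : ℝ)⁻¹ ^ parL n b := by
      rw [ht, inv_pow, inv_pow, show 5 * parL n b = 4 * parL n b + parL n b by ring, pow_add]
      field_simp
    rw [e2, hr, hw]
    have e3 : (2 : ℝ)⁻¹ ^ 100 * y ^ 25 / ((2 : ℝ)⁻¹ ^ 11 * y ^ 3) = (2 : ℝ)⁻¹ ^ 89 * y ^ 22 := by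
      field_simp
    rw [e3]
    have e4 : y ^ 22 ≤ y ^ 1 := pow_le_pow_of_le_one hy0.le hy1 (by norm_num)
    rw [pow_one] at e4
    have e5 : (2 : ℝ)⁻¹ ^ 89 ≤ 1 / 20 := by norm_num
    have e6 : (0 : ℝ) ≤ y ^ 22 := by positivity
    calc (2 : ℝ)⁻¹ ^ 89 * y ^ 22 ≤ 1 / 20 * y := mul_le_mul e5 e4 e6 (by norm_num)
      _ = y / 20 := by ring
  have ec : PP ι Scᶜ = 0 := by
    rw [prob_compl_eq_zero_iff mc]
    exact pp_cube
  refine ⟨Sc ∩ Sr ∩ Sl ∩ Sn, ((mc.inter mr).inter ml).inter mn, ?_, ?_⟩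
  · have hmS : MeasurableSet (Sc ∩ Sr ∩ Sl ∩ Sn) := ((mc.inter mr).inter ml).inter mn
    have hcomp : PP ι (Sc ∩ Sr ∩ Sl ∩ Sn)ᶜ ≤ ENNReal.ofReal y := by
      have hsub : (Sc ∩ Sr ∩ Sl ∩ Sn)ᶜ ⊆ Scᶜ ∪ (Srᶜ ∪ (Slᶜ ∪ (Sc ∩ Sr ∩ Sl ∩ Snᶜ))) := by
        intro g hg'
        by_cases h1 : g ∈ Sc
        · by_cases h2 : g ∈ Sr
          · by_cases h3 : g ∈ Sl
            · right; right; right
              refine ⟨⟨⟨h1, h2⟩, h3⟩, ?_⟩
              intro h4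
              exact hg' ⟨⟨⟨h1, h2⟩, h3⟩, h4⟩
            · right; right; left; exact h3
          · right; left; exact h2
        · left; exact h1
      calc PP ι (Sc ∩ Sr ∩ Sl ∩ Sn)ᶜ ≤ PP ι (Scᶜ ∪ (Srᶜ ∪ (Slᶜ ∪ (Sc ∩ Sr ∩ Sl ∩ Snᶜ)))) :=
            measure_mono hsub
        _ ≤ PP ι Scᶜ + (PP ι Srᶜ + (PP ι Slᶜ + PP ι (Sc ∩ Sr ∩ Sl ∩ Snᶜ))) := by
            refine (measure_union_le _ _).trans (add_le_add le_rfl ?_)
            refine (measure_union_le _ _).trans (add_le_add le_rfl ?_)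
            exact measure_union_le _ _
        _ ≤ 0 + (ENNReal.ofReal (y / 20) + (ENNReal.ofReal (y / 5) + ENNReal.ofReal (y / 20))) := by
            refine add_le_add (le_of_eq ec) (add_le_add er (add_le_add el en))
        _ = ENNReal.ofReal (y / 20 + (y / 5 + y / 20)) := by
            rw [zero_add, ← ENNReal.ofReal_add (by positivity) (by positivity),
              ← ENNReal.ofReal_add (by positivity) (by positivity)]
        _ ≤ ENNReal.ofReal y := ENNReal.ofReal_le_ofReal (by linarith)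
    have h1 := prob_compl_eq_one_sub (μ := PP ι) hmS.compl
    rw [compl_compl] at h1
    rw [h1, ENNReal.ofReal_sub _ hy0.le, ENNReal.ofReal_one]
    exact tsub_le_tsub_left hcomp 1
  · rintro g ⟨⟨⟨h1, h2⟩, h3⟩, h4⟩
    exact ⟨h1, h2, h3, h4⟩

end H6LP
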