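import Pool.Agent.H6.LP.Core

/-!
# The programs (MP_63a4b3_lc)

All programs of the diagonalization algorithm.  Registers are natural numbers; `RVec n` and `RMat n m` are
vectors and matrices of registers.
-/

set_option autoImplicit false

open Complex

namespace H6LP

abbrev RVec (n : ℕ) := Fin n → ℕ
abbrev RMat (n m : ℕ) := Fin n → Fin m → ℕ

/-! ## vectors -/

/-- `∑ i, x i * y i` -/
def dotP {n : ℕ} (x y : RVec n) : Prog ℕ := do
  let z ← cst 0 0
  iterF n (fun i acc => do
    let p ← mulP (x i) (y i)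
    addP acc p) z

/-- `∑ i, |x i|²` (an exactly real number) -/
def sqP {n : ℕ} (x : RVec n) : Prog ℕ := do
  let z ← cst 0 0
  iterF n (fun i acc => do
    let c ← conjP (x i)
    let p ← mulP (x i) c
    let s ← addP acc p
    reP s) z

/-- the Euclidean norm (an exactly real number) -/
def normP {n : ℕ} (x : RVec n) : Prog ℕ := do
  let s ← sqP x
  let r ← sqrtP s
  reP r

/-- product of two real numbers (an exactly real number) -/
def fmulP (i j : ℕ) : Prog ℕ := do
  let m ← mulP i j
  reP m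

/-! ## Householder reduction to Hessenberg form -/

/-- the Householder vector `v`, the factor `τ` and the number `β‖x‖` for the vector `x` and the pivot `p` -/
def hvecP {n : ℕ} (x : RVec n) (p : Fin n) : Prog (RVec n × ℕ × ℕ) := do
  let z ← cst 0 0
  let nr ← normP x
  let y ← vecM n (fun i => divP (x i) nr)
  let b ← leP (x p) z
  let be ← cst (if b then 1 else -1) 0
  let vp ← subP (y p) be
  let m ← subP z be
  let t ← divP m vp
  let a ← mulP be nr
  pure (Function.update y p vp, t, a)

/-- `X ↦ (1 - τ v vᴴ) X` -/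
def lmulP {n m : ℕ} (v : RVec n) (t : ℕ) (X : RMat n m) : Prog (RMat n m) := do
  let vc ← vecM n (fun i => conjP (v i))
  let tv ← vecM n (fun i => mulP t (v i))
  let w ← vecM m (fun j => dotP vc (fun i => X i j))
  matM n m (fun i j => do
    let g ← mulP (tv i) (w j)
    subP (X i j) g)

/-- `X ↦ X (1 - τ v vᴴ)ᴴ` -/
def rmulP {m n : ℕ} (v : RVec n) (t : ℕ) (X : RMat m n) : Prog (RMat m n) := do
  let vc ← vecM n (fun i => conjP (v i))
  let tc ← conjP t
  let w ← vecM m (fun i => dotP (X i) v)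
  let tw ← vecM m (fun i => mulP tc (w i))
  matM m n (fun i j => do
    let g ← mulP (tw i) (vc j)
    subP (X i j) g)

/-- one step of the reduction: `(H, Q) ↦ (P H Pᴴ, Q Pᴴ)` -/
def hstepP {n : ℕ} (k : ℕ) (hk : k + 1 < n) (S : RMat n n × RMat n n) :
    Prog (RMat n n × RMat n n) := do
  let z ← cst 0 0
  let h ← hvecP (fun i : Fin n => if (i : ℕ) ≤ k then z else S.1 i ⟨k, by omega⟩) ⟨k + 1, hk⟩
  let X ← lmulP h.1 h.2.1 S.1
  let X2 : RMat n n := fun i j =>
    if (j : ℕ) < k then S.1 i j
    else if (j : ℕ) = k then (if (i : ℕ) ≤ k then S.1 i j else if (i : ℕ) = k + 1 then h.2.2 else z)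
    else X i j
  let Y ← rmulP h.1 h.2.1 X2
  let Q ← rmulP h.1 h.2.1 S.2
  pure ((fun i j => if (j : ℕ) ≤ k then X2 i j else Y i j), Q)

/-- the reduction to Hessenberg form: returns `(H, Q)` with `H ≈ Qᴴ X Q` -/
def hessP {n : ℕ} (X : RMat n n) : Prog (RMat n n × RMat n n) := do
  let z ← cst 0 0
  let one ← cst 1 0
  iterP (n - 1) (fun k S => if hk : k + 1 < n then hstepP k hk S else pure S)
    (X, fun i j => if i = j then one else z)

/-! ## QR factorization of a Hessenberg matrix, determinants, linear systems -/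

/-- `a x + b y` -/
def combP (a x b y : ℕ) : Prog ℕ := do
  let p ← mulP a x
  let q ← mulP b y
  addP p q

/-- `a x - b y` -/
def combsP (a x b y : ℕ) : Prog ℕ := do
  let p ← mulP a x
  let q ← mulP b y
  subP p q

/-- one Givens rotation of the rows `k` and `k + 1` (of the matrix and of the right hand side) -/
def givP {n : ℕ} (k : ℕ) (hk : k + 1 < n) (S : RMat n n × RVec n) : Prog (RMat n n × RVec n) := do
  let k0 : Fin n := ⟨k, by omega⟩
  let k1 : Fin n := ⟨k + 1, hk⟩
  let z ← cst 0 0
  let rho ← normP ![S.1 k0 k0, S.1 k1 k0]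
  let al ← divP (S.1 k0 k0) rho
  let be ← divP (S.1 k1 k0) rho
  let alc ← conjP al
  let bec ← conjP be
  let r0 ← vecM n (fun j => combP alc (S.1 k0 j) bec (S.1 k1 j))
  let r1 ← vecM n (fun j => combsP al (S.1 k1 j) be (S.1 k0 j))
  let y0 ← combP alc (S.2 k0) bec (S.2 k1)
  let y1 ← combsP al (S.2 k1) be (S.2 k0)
  pure ((fun i j =>
      if (i : ℕ) = k then (if (j : ℕ) < k then S.1 i j else if (j : ℕ) = k then rho else r0 j)
      else if (i : ℕ) = k + 1 then (if (j : ℕ) ≤ k then z else r1 j)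
      else S.1 i j),
    (fun i => if (i : ℕ) = k then y0 else if (i : ℕ) = k + 1 then y1 else S.2 i))

/-- QR factorization -/
def qrP {n : ℕ} (S : RMat n n × RVec n) : Prog (RMat n n × RVec n) :=
  iterP (n - 1) (fun k S => if hk : k + 1 < n then givP k hk S else pure S) S

/-- `H - z` -/
def shiftP {n : ℕ} (H : RMat n n) (z : ℕ) : Prog (RMat n n) := do
  let d ← vecM n (fun i => subP (H i i) z)
  pure (fun i j => if i = j then d i else H i j)

/-- `|det (z - H)|` for a Hessenberg matrix `H` -/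
def detP {n : ℕ} (H : RMat n n) (z : ℕ) : Prog ℕ := do
  let T ← shiftP H z
  let zz ← cst 0 0
  let S ← qrP (T, fun _ => zz)
  let o ← cst 1 0
  let one ← reP o
  iterF n (fun i acc => do
    let a ← normP ![S.1 i i]
    fmulP acc a) one

/-- back substitution -/
def backP {n : ℕ} (R : RMat n n) (y : RVec n) : Prog (RVec n) := do
  let z ← cst 0 0
  iterF n (fun i x => do
    let d ← dotP (R (Fin.rev i)) x
    let e ← subP (y (Fin.rev i)) d
    let q ← divP e (R (Fin.rev i) (Fin.rev i))
    pure (Function.update x (Fin.rev i) q)) (fun _ => z)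

/-- the normalized solution of `(H - z) x = e₁` -/
def solveP {n : ℕ} (H : RMat n n) (z : ℕ) : Prog (RVec n) := do
  let T ← shiftP H z
  let zz ← cst 0 0
  let one ← cst 1 0
  let S ← qrP (T, fun i => if (i : ℕ) = 0 then one else zz)
  let x ← backP S.1 S.2
  let nr ← normP x
  vecM n (fun i => divP (x i) nr)

/-! ## counting the eigenvalues in a disc -/

/-- `exp (2πi / 2^e)` for `e ≥ 2` -/
def omegaP (e : ℕ) : Prog ℕ := do
  let i ← cst 0 1
  iterP (e - 2) (fun _ w => sqrtP w) i

/-- `(1 + it)/(1 - it)` -/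
def phiP (t : ℕ) : Prog ℕ := do
  let i ← cst 0 1
  let one ← cst 1 0
  let it ← mulP i t
  let a ← addP one it
  let b ← subP one it
  divP a b

/-- the product of `|det (z - H)|` over the `2^e` nodes `z = c + ρ φ w^j` -/
def circP {n : ℕ} (H : RMat n n) (c : ℕ) (rho : ℚ) (φ w : ℕ) (e : ℕ) : Prog ℕ := do
  let rr ← cst rho 0
  let p ← mulP rr φ
  let o ← cst 1 0
  let one ← reP o
  let S ← iterP (2 ^ e) (fun _ (S : ℕ × ℕ) => do
    let z ← addP c S.1
    let d ← detP H z
    let acc ← fmulP S.2 d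
    let p' ← mulP S.1 w
    pure (p', acc)) (p, one)
  pure S.2

/-- the smallest `k = 2^j k₀` with `P₂ < P₁ T^(2^j)` -/
def searchP (P1 P2 : ℕ) : ℕ → ℕ → ℕ → Prog ℕ
  | 0, _, k => pure k
  | m + 1, T, k => do
    let x ← fmulP P1 T
    let b ← leP x P2
    if b then do
      let T' ← fmulP T T
      searchP P1 P2 m T' (2 * k)
    else pure k

/-- the exponent of the number of nodes -/
def nodeE (l kh : ℕ) : ℕ := Nat.clog 2 (1000 * (kh + 1) * l)

/-- the soft count for the disc with centre `(a + bi) r` and radius `2r … 3r`; `kh` is an upper bound for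
the number of eigenvalues at distance `< 4r` -/
def testP {n : ℕ} (l : ℕ) (H : RMat n n) (φ : ℕ) (r : ℚ) (a b : ℤ) (kh : ℕ) : Prog ℕ := do
  let c ← cst (a * r) (b * r)
  let w ← omegaP (nodeE l kh)
  let P1 ← circP H c (2 * r) φ w (nodeE l kh)
  let P2 ← circP H c (3 * r) φ w (nodeE l kh)
  let base ← cst (3 / 2) 0
  let rbase ← reP base
  let T ← iterP (nodeE l kh - 1) (fun _ t => fmulP t t) rbase
  let x ← fmulP P1 T
  let b0 ← leP x P2
  if b0 then do
    let T0 ← fmulP T T
    searchP P1 P2 (Nat.clog 2 n + 2) T0 1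
  else pure 0

/-! ## the quadtree -/

/-- run `f` on the elements of a list -/
def listM {α β : Type} : List α → (α → Prog β) → Prog (List β)
  | [], _ => pure []
  | a :: l, f => do
    let b ← f a
    let t ← listM l f
    pure (b :: t)

/-- a list of discs: the disc `(a, b, k)` has the centre `(a + bi) r` and the count `k` -/
abbrev DList := List (ℤ × ℤ × ℕ)

/-- the sum of all counts -/
def ksum (S : DList) : ℕ := (S.map (fun p => p.2.2)).sum

/-- the sum of the counts in a window -/
def khat (S : DList) (a b : ℤ) : ℕ := ksum (S.filter (fun p => |p.1 - a| ≤ 3 ∧ |p.2.1 - b| ≤ 3))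

/-- the children of the discs of the list, with their upper bounds -/
def children (S : DList) : DList :=
  S.flatMap (fun p => [(2 * p.1, 2 * p.2.1, khat S p.1 p.2.1), (2 * p.1 + 1, 2 * p.2.1, khat S p.1 p.2.1),
    (2 * p.1, 2 * p.2.1 + 1, khat S p.1 p.2.1), (2 * p.1 + 1, 2 * p.2.1 + 1, khat S p.1 p.2.1)])

/-- the caps which bound the work -/
def capOK (n : ℕ) (S : DList) : Bool :=
  decide (ksum S ≤ 98 * n) && decide (S.length ≤ 98 * n) &&
    decide ((S.map (fun p => khat S p.1 p.2.1 + 1)).sum ≤ 4900 * n)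

/-- one level; `r` is the radius of the children -/
def lvlP {n : ℕ} (l : ℕ) (H : RMat n n) (φ : ℕ) (r : ℚ) (S : DList) : Prog DList :=
  if capOK n S then do
    let L ← listM (children S) (fun c => do
      let k ← testP l H φ r c.1 c.2.1 c.2.2
      pure (c.1, c.2.1, k))
    pure (L.filter (fun p => 0 < p.2.2))
  else pure []

/-- the initial list -/
def tree0 (n : ℕ) : DList :=
  (([-2, -1, 0, 1, 2] : List ℤ) ×ˢ ([-2, -1, 0, 1, 2] : List ℤ)).map (fun p => (p.1, p.2, n))

/-- the list of the level `l + 2` -/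
def treeP {n : ℕ} (l : ℕ) (H : RMat n n) (φ : ℕ) : Prog DList :=
  iterP (l + 2) (fun j S => lvlP l H φ (4 / 2 ^ (j + 1)) S) (tree0 n)

/-- greedy choice of representatives -/
def reps : DList → List (ℤ × ℤ)
  | [] => []
  | p :: S =>
    let R := reps S
    if R.all (fun q => decide (10 < |p.1 - q.1|) || decide (10 < |p.2.1 - q.2|)) then (p.1, p.2.1) :: R
    else R

/-! ## the main program -/

/-- the eigenvector for the eigenvalue near `pos / 2^l` -/
def eigP {n : ℕ} (l : ℕ) (H Q : RMat n n) (pos : ℤ × ℤ) : Prog (RVec n) := do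
  let z ← cst ((pos.1 + 5) / 2 ^ l) (pos.2 / 2 ^ l)
  let x ← solveP H z
  vecM n (fun i => dotP (Q i) x)

/-- the parameters -/
def parQ (n b : ℕ) : ℕ := b + Nat.clog 2 n
def parL (n b : ℕ) : ℕ := 100 + 25 * parQ n b

/-- the perturbed matrix; the registers of the input are `A i j` in `i n + j`, the samples are in
`n² + 2 (i n + j)` and `n² + 2 (i n + j) + 1` -/
def pertP (n b : ℕ) : Prog (RMat n n) := do
  let gR ← cst (1 / 2 ^ (3 + parQ n b)) 0
  let gI ← cst 0 (1 / 2 ^ (3 + parQ n b))
  matM n n (fun i j => do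
    let x ← mulP gR (n ^ 2 + 2 * ((i : ℕ) * n + (j : ℕ)))
    let y ← mulP gI (n ^ 2 + 2 * ((i : ℕ) * n + (j : ℕ)) + 1)
    let c ← addP x y
    addP ((i : ℕ) * n + (j : ℕ)) c)

/-- **The diagonalization algorithm.**  Output: the registers of `V` and of the diagonal of `D`. -/
def mainP (n b : ℕ) : Prog (RMat n n × RVec n) := do
  let M ← pertP n b
  let φ ← phiP (3 * n ^ 2)
  let HQ ← hessP M
  let S ← treeP (parL n b) HQ.1 φ
  let V ← vecM n (fun j : Fin n => eigP (parL n b) HQ.1 HQ.2 ((reps S).getD j (0, 0)))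
  let D ← vecM n (fun j : Fin n =>
    cst (((reps S).getD j (0, 0)).1 / 2 ^ parL n b) (((reps S).getD j (0, 0)).2 / 2 ^ parL n b))
  pure ((fun i j => V j i), D)

end H6LP
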