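import Pool.Agent.H6.LP.GIV

/-!
# QR: the QR factorization of a Hessenberg matrix

`post_iterP` with the invariant (after `k` steps): `R_k = 𝒬 (T + E)`, `y_k = 𝒬 (Y + f)`, `Uni 𝒬`,
`fro E ≤ ((1+100u)^k - 1) fro T`, `nv f ≤ ((1+100u)^k - 1) nv Y`, the first `k` columns are upper triangular,
everything is Hessenberg, the rows `> k` are those of `T` (so the subdiagonal entry `(k+1, k)` is that of `T`),
and the diagonal entries `i < k` are real and positive (here only: `≠ 0`).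
-/

set_option autoImplicit false

open Complex Matrix

namespace H6LP

/-- the invariant of the factorization -/
structure QrInv {n : ℕ} (u : ℝ) (X : Matrix (Fin n) (Fin n) ℂ) (Y : Fin n → ℂ) (k : ℕ)
    (R : Matrix (Fin n) (Fin n) ℂ) (Y' : Fin n → ℂ) : Prop where
  ex : ∃ (Q E : Matrix (Fin n) (Fin n) ℂ) (f : Fin n → ℂ), Uni Q ∧ R = Q * (X + E) ∧
    Y' = Q *ᵥ (Y + f) ∧ fro E ≤ ((1 + 100 * u) ^ k - 1) * fro X ∧
    nv f ≤ ((1 + 100 * u) ^ k - 1) * nv Y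
  tri : ∀ i j : Fin n, (j : ℕ) < k → (j : ℕ) < i → R i j = 0
  hess : ∀ i j : Fin n, (j : ℕ) + 1 < i → R i j = 0
  row : ∀ i j : Fin n, k < (i : ℕ) → R i j = X i j
  dia : ∀ l (hl : l + 1 < n), l < k → R ⟨l, by omega⟩ ⟨l, by omega⟩ ≠ 0

theorem qr_growth {A v F e d : ℝ} (hv : 0 ≤ v) (he : e ≤ (A - 1) * F)
    (hd : d ≤ v * (F + e)) : e + d ≤ (A * (1 + v) - 1) * F := by
  nlinarith [mul_le_mul_of_nonneg_left he hv]

theorem qr_step {n : ℕ} {u : ℝ} (hu : 0 ≤ u) {X : Matrix (Fin n) (Fin n) ℂ} {Y : Fin n → ℂ} {k : ℕ}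
    {R : Matrix (Fin n) (Fin n) ℂ} {Y' : Fin n → ℂ} (h : QrInv u X Y k R Y')
    {G R' : Matrix (Fin n) (Fin n) ℂ} {Y'' : Fin n → ℂ} (hG : Uni G)
    (h1 : fro (R' - G * R) ≤ 100 * u * fro R) (h2 : nv (Y'' - G *ᵥ Y') ≤ 100 * u * nv Y') :
    ∃ (Q E : Matrix (Fin n) (Fin n) ℂ) (f : Fin n → ℂ), Uni Q ∧ R' = Q * (X + E) ∧
    Y'' = Q *ᵥ (Y + f) ∧ fro E ≤ ((1 + 100 * u) ^ (k + 1) - 1) * fro X ∧
    nv f ≤ ((1 + 100 * u) ^ (k + 1) - 1) * nv Y := by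
  obtain ⟨Q, E, f, hQ, hR, hY, hE, hf⟩ := h.ex
  have hGQ : Uni (G * Q) := hG.mul hQ
  have hinv : (G * Q) * (G * Q)ᴴ = 1 := hGQ.mul_conjTranspose
  refine ⟨G * Q, E + (G * Q)ᴴ * (R' - G * R), f + (G * Q)ᴴ *ᵥ (Y'' - G *ᵥ Y'), hGQ, ?_, ?_, ?_, ?_⟩
  · rw [← add_assoc, Matrix.mul_add, ← Matrix.mul_assoc (G * Q) ((G * Q)ᴴ), hinv, Matrix.one_mul,
      Matrix.mul_assoc G Q, ← hR]
    abel
  · rw [← add_assoc, Matrix.mulVec_add, Matrix.mulVec_mulVec, hinv, Matrix.one_mulVec,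
      ← Matrix.mulVec_mulVec, ← hY]
    abel
  · have e1 : fro ((G * Q)ᴴ * (R' - G * R)) ≤ 100 * u * (fro X + fro E) := by
      rw [hGQ.conjTranspose.fro_mul]
      refine h1.trans ?_
      rw [hR, hQ.fro_mul]
      gcongr
      exact fro_add_le _ _
    have e2 := qr_growth (v := 100 * u) (by positivity) hE e1
    rw [pow_succ]
    exact (fro_add_le _ _).trans e2
  · have e1 : nv ((G * Q)ᴴ *ᵥ (Y'' - G *ᵥ Y')) ≤ 100 * u * (nv Y + nv f) := by
      rw [hGQ.conjTranspose.nv_mulVec]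
      refine h2.trans ?_
      rw [hY, hQ.nv_mulVec]
      gcongr
      exact nv_add_le _ _
    have e2 := qr_growth (v := 100 * u) (by positivity) hf e1
    rw [pow_succ]
    exact (nv_add_le _ _).trans e2

theorem post_qr {ad : Adv} {u : ℝ} (hu : ad.Le u) {n : ℕ} (hn : 1 ≤ n) (hnu : n * u ≤ 1 / 10000)
    {env : Env} {x : RMat n n} {y : RVec n} {X : Matrix (Fin n) (Fin n) ℂ} {Y : Fin n → ℂ}
    (hx : HasM env x X) (hy : HasV env y Y) (hh : Hess X)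
    (hb : ∀ k (hk : k + 1 < n), X ⟨k + 1, hk⟩ ⟨k, by omega⟩ ≠ 0) :
    Post ad (qrP (x, y)) env (fun S env' => ∃ (Q E R : Matrix (Fin n) (Fin n) ℂ) (f Y' : Fin n → ℂ),
      Uni Q ∧ HasM env' S.1 R ∧ HasV env' S.2 Y' ∧ R = Q * (X + E) ∧ Y' = Q *ᵥ (Y + f) ∧
      fro E ≤ 200 * n * u * fro X ∧ nv f ≤ 200 * n * u * nv Y ∧ UT R ∧
      (∀ k (hk : k + 1 < n), R ⟨k, by omega⟩ ⟨k, by omega⟩ ≠ 0)) := by
  have hu0 : 0 ≤ u := hu.nonneg
  have hn1 : (1 : ℝ) ≤ n := by exact_mod_cast hn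
  have hu1 : u ≤ 1 / 10000 := by
    refine le_trans ?_ hnu
    nlinarith
  unfold qrP
  refine (post_iterP (n - 1) _ (x, y) env (fun k S env' => ∃ R Y', HasM env' S.1 R ∧
    HasV env' S.2 Y' ∧ QrInv u X Y k R Y') ?_ ?_).weaken ?_
  · refine ⟨X, Y, hx, hy, ⟨⟨1, 0, 0, Uni.one, ?_, ?_, ?_, ?_⟩, ?_, hh, ?_, ?_⟩⟩
    · rw [add_zero, Matrix.one_mul]
    · rw [add_zero, Matrix.one_mulVec]
    · rw [fro_zero]
      simp
    · rw [nv_zero]
      simp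
    · intro i j hj
      omega
    · intro i j _
      rfl
    · intro l _ hl
      omega
  · rintro k hk ⟨s1, s2⟩ env1 h1 ⟨R, Y', hR, hY', hinv⟩
    have hk' : k + 1 < n := by omega
    rw [dif_pos hk']
    have hsub : R ⟨k + 1, hk'⟩ ⟨k, by omega⟩ ≠ 0 := by
      rw [hinv.row _ _ (by show k < k + 1; omega)]
      exact hb k hk'
    refine (post_giv hu hn hu1 hR hY' k hk' hinv.tri hinv.hess hsub).weaken ?_
    rintro ⟨t1, t2⟩ env2 h2 ⟨G, R', Y'', rho, hG, hR', hY'', hfro, hnv, htri, hhess, hrow, hrow', hrho, hle⟩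
    refine ⟨R', Y'', hR', hY'', ⟨qr_step hu0 hinv hG hfro hnv, htri, hhess, ?_, ?_⟩⟩
    · intro i j hi
      rw [hrow i j hi, hinv.row i j (by omega)]
    · intro l hl hlk
      rcases Nat.lt_or_ge l k with hlt | hge
      · rw [hrow' _ _ hlt]
        exact hinv.dia l hl hlt
      · have : l = k := by omega
        subst this
        rw [hrho]
        have hpos := norm_pos_iff.mpr hsub
        have : 0 < rho := by linarith
        exact_mod_cast this.ne'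
  · rintro ⟨t1, t2⟩ env2 h2 ⟨R, Y', hR, hY', hinv⟩
    obtain ⟨Q, E, f, hQ, hRQ, hYQ, hE, hf⟩ := hinv.ex
    have hgr : (1 + 100 * u) ^ (n - 1) - 1 ≤ 200 * n * u := by
      have h3 : ((n - 1 : ℕ) : ℝ) ≤ n := by exact_mod_cast Nat.sub_le _ _
      have h4 : ((n - 1 : ℕ) : ℝ) * (100 * u) ≤ n * (100 * u) := by gcongr
      have h5 := one_add_pow_sub_one_le (u := 100 * u) (by positivity) (k := n - 1) (by linarith)
      refine h5.trans ?_
      linarith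
    refine ⟨Q, E, R, f, Y', hQ, hR, hY', hRQ, hYQ, ?_, ?_, ?_, ?_⟩
    · exact hE.trans (mul_le_mul_of_nonneg_right hgr (fro_nonneg _))
    · exact hf.trans (mul_le_mul_of_nonneg_right hgr (nv_nonneg _))
    · intro i j hji
      exact hinv.tri i j (by omega) hji
    · intro k hk
      exact hinv.dia k hk (by omega)

end H6LP
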