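import Pool.Agent.H6.LP.NODEP

/-!
# RATIO: the soft count (pure)

`F_ρ(i) = ∏_j ‖z_j - λ_i‖ = ‖(ρφ)^N - (λ_i - c)^N‖` (`prod_nodes`), `N = 2^e = 16 K`, `t = ‖λ_i - c‖`.
Near (`t < 4r`, at most `kh` of them): `κ/2 max(ρ,t)^N ≤ F_ρ ≤ 2 max(ρ,t)^N` (`node_kappa`), so
`F_{2r} (3/2)^{N [t ≤ 2r]} ≤ (4/κ) F_{3r}` and `F_{3r} ≤ (4/κ) F_{2r} (3/2)^{N [t < 3r]}`.
Far (`t ≥ 4r`): `t^N (1 - (3/4)^N) ≤ F_ρ ≤ t^N (1 + (3/4)^N)`, so `F_{2r} ≤ (1 + 4 (3/4)^N) F_{3r}` and vice versa;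
the product of these factors is at most `exp (4 n (3/4)^N) ≤ 4`.
-/

set_option autoImplicit false

open Complex Matrix

namespace H6LP

/-- the product of the distances of the nodes to the eigenvalues -/
noncomputable def PiN {n : ℕ} (lam : Fin n → ℂ) (c : ℂ) (rho : ℝ) (φ : ℂ) (e : ℕ) : ℝ :=
  ∏ j ∈ Finset.range (2 ^ e), ∏ i, ‖nodeZ c rho φ e j - lam i‖

theorem ratio_F {n : ℕ} (lam : Fin n → ℂ) (c φ : ℂ) (rho : ℝ) (e : ℕ) (i : Fin n) :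
    ∏ j ∈ Finset.range (2 ^ e), ‖nodeZ c rho φ e j - lam i‖ =
      ‖(rho * φ) ^ (2 ^ e) - (lam i - c) ^ (2 ^ e)‖ := by
  rw [← prod_nodes]
  refine Finset.prod_congr rfl fun j _ => ?_
  congr 1
  unfold nodeZ
  ring

theorem ratio_PiN {n : ℕ} (lam : Fin n → ℂ) (c φ : ℂ) (rho : ℝ) (e : ℕ) :
    PiN lam c rho φ e = ∏ i, ‖(rho * φ) ^ (2 ^ e) - (lam i - c) ^ (2 ^ e)‖ := by
  unfold PiN
  rw [Finset.prod_comm]
  exact Finset.prod_congr rfl fun i _ => ratio_F lam c φ rho e i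

theorem ratio_norm {φ : ℂ} (hφ : ‖φ‖ = 1) {rho : ℝ} (h : 0 ≤ rho) : ‖(rho : ℂ) * φ‖ = rho := by
  rw [norm_mul, hφ, mul_one, Complex.norm_real, Real.norm_of_nonneg h]

theorem ratio_upper {φ : ℂ} (hφ : ‖φ‖ = 1) {rho t : ℝ} (h : 0 ≤ rho) (y : ℂ) (ht : ‖y‖ = t) (N : ℕ) :
    ‖((rho : ℂ) * φ) ^ N - y ^ N‖ ≤ rho ^ N + t ^ N := by
  refine (norm_sub_le _ _).trans ?_
  rw [norm_pow, norm_pow, ratio_norm hφ h, ht]

theorem ratio_lower {φ : ℂ} (hφ : ‖φ‖ = 1) {rho t : ℝ} (h : 0 ≤ rho) (y : ℂ) (ht : ‖y‖ = t) (N : ℕ) :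
    t ^ N - rho ^ N ≤ ‖((rho : ℂ) * φ) ^ N - y ^ N‖ := by
  have h1 := norm_sub_norm_le (y ^ N) (((rho : ℂ) * φ) ^ N)
  rw [norm_pow, norm_pow, ratio_norm hφ h, ht, norm_sub_rev] at h1
  exact h1

theorem ratio_kappa {n : ℕ} (lam : Fin n → ℂ) (c : ℂ) {φ : ℂ} (hφ : ‖φ‖ = 1) {r rho κ : ℝ}
    (hr : 0 < r) (hκ : 0 < κ) (hκ1 : κ ≤ 1) {e : ℕ} (h0 : 0 ≤ rho) (h4 : rho ≤ 4 * r) (i : Fin n)
    (hn : ∀ j < 2 ^ e, κ * (4 * r) ≤ ‖nodeZ c rho φ e j - lam i‖) (ht : ‖lam i - c‖ < 4 * r) :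
    κ / 2 * (max rho ‖lam i - c‖) ^ (2 ^ e) ≤ ‖(rho * φ) ^ (2 ^ e) - (lam i - c) ^ (2 ^ e)‖ := by
  have h := node_kappa e ((rho : ℂ) * φ) (lam i - c) hκ hκ1 (fun j hj => by
    rw [ratio_norm hφ h0]
    have h1 : κ * max rho ‖lam i - c‖ ≤ κ * (4 * r) :=
      mul_le_mul_of_nonneg_left (max_le h4 ht.le) hκ.le
    refine h1.trans ((hn j hj).trans (le_of_eq ?_))
    congr 1
    unfold nodeZ
    ring)
  rwa [ratio_norm hφ h0] at h

theorem ratio_far {A B t δ : ℝ} {N : ℕ} (hδ0 : 0 ≤ δ) (hδ : δ ≤ 1 / 16) (ht : 0 ≤ t)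
    (hA : A ≤ t ^ N * (1 + δ)) (hB : t ^ N * (1 - δ) ≤ B) : A ≤ (1 + 4 * δ) * B := by
  have h1 : t ^ N * (1 + δ) ≤ (1 + 4 * δ) * (t ^ N * (1 - δ)) := by
    have h2 : 0 ≤ t ^ N := pow_nonneg ht N
    have h3 : 1 + δ ≤ (1 + 4 * δ) * (1 - δ) := by nlinarith
    calc t ^ N * (1 + δ) ≤ t ^ N * ((1 + 4 * δ) * (1 - δ)) := mul_le_mul_of_nonneg_left h3 h2
      _ = _ := by ring
  refine hA.trans (h1.trans ?_)
  exact mul_le_mul_of_nonneg_left hB (by linarith)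

theorem ratio_pow_le {x t : ℝ} (hx : 0 ≤ x) (ht : 0 ≤ t) (h : x ≤ 3 / 4 * t) (N : ℕ) :
    x ^ N ≤ t ^ N * (3 / 4 : ℝ) ^ N := by
  rw [← mul_pow]
  exact pow_le_pow_left₀ hx (by linarith) N

/-- the factors -/
theorem ratio_g {n : ℕ} (lam : Fin n → ℂ) (c : ℂ) {r κ : ℝ} (hκ : 0 < κ)
    (hκ1 : κ ≤ 1) {K kh N : ℕ} (h4 : m4 lam c r ≤ kh)
    (hkap : (4 / κ) ^ kh * 4 ≤ (3 / 2 : ℝ) ^ K) (hfar : n * (3 / 4 : ℝ) ^ N ≤ 1 / 16) :
    ∏ i : Fin n, (if ‖lam i - c‖ < 4 * r then 4 / κ else 1 + 4 * (3 / 4 : ℝ) ^ N) ≤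
      (3 / 2 : ℝ) ^ K := by
  classical
  have hδ : (0 : ℝ) ≤ (3 / 4 : ℝ) ^ N := by positivity
  have h1 : (1 : ℝ) ≤ 4 / κ := by
    rw [le_div_iff₀ hκ]
    linarith
  have h2 : ∏ i : Fin n, (if ‖lam i - c‖ < 4 * r then 4 / κ else 1 + 4 * (3 / 4 : ℝ) ^ N) ≤
      ∏ i : Fin n, ((if ‖lam i - c‖ < 4 * r then 4 / κ else 1) * (1 + 4 * (3 / 4 : ℝ) ^ N)) := by
    refine Finset.prod_le_prod (fun i _ => ?_) (fun i _ => ?_)
    · split_ifs <;> positivity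
    · split_ifs
      · refine le_mul_of_one_le_right (by positivity) ?_
        linarith
      · rw [one_mul]
  refine h2.trans ?_
  rw [Finset.prod_mul_distrib, Finset.prod_const, Finset.card_univ, Fintype.card_fin]
  have h3 : ∏ i : Fin n, (if ‖lam i - c‖ < 4 * r then 4 / κ else 1) = (4 / κ) ^ m4 lam c r := by
    rw [Finset.prod_ite, Finset.prod_const, Finset.prod_const_one, mul_one]
    congr 1
  rw [h3]
  have h5 : (1 + 4 * (3 / 4 : ℝ) ^ N) ^ n ≤ 4 := by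
    have h6 : 1 + 4 * (3 / 4 : ℝ) ^ N ≤ Real.exp (4 * (3 / 4 : ℝ) ^ N) := by
      have := Real.add_one_le_exp (4 * (3 / 4 : ℝ) ^ N)
      linarith
    calc (1 + 4 * (3 / 4 : ℝ) ^ N) ^ n ≤ (Real.exp (4 * (3 / 4 : ℝ) ^ N)) ^ n :=
          pow_le_pow_left₀ (by positivity) h6 n
      _ = Real.exp (n * (4 * (3 / 4 : ℝ) ^ N)) := by rw [← Real.exp_nat_mul]
      _ ≤ Real.exp 1 := Real.exp_le_exp.2 (by linarith)
      _ ≤ 4 := by
          have := Real.exp_one_lt_d9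
          linarith
  calc (4 / κ) ^ m4 lam c r * (1 + 4 * (3 / 4 : ℝ) ^ N) ^ n ≤ (4 / κ) ^ kh * 4 :=
        mul_le_mul (pow_le_pow_right₀ h1 h4) h5 (by positivity) (by positivity)
    _ ≤ _ := hkap

theorem ratio_delta {n N : ℕ} (i : Fin n) (hfar : n * (3 / 4 : ℝ) ^ N ≤ 1 / 16) :
    (3 / 4 : ℝ) ^ N ≤ 1 / 16 := by
  have h1 : (1 : ℝ) ≤ n := by
    have := i.pos
    exact_mod_cast this
  have h2 : (0 : ℝ) ≤ (3 / 4 : ℝ) ^ N := by positivity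
  nlinarith

theorem ratio {n : ℕ} (lam : Fin n → ℂ) (c φ : ℂ) (hφ : ‖φ‖ = 1) {r κ : ℝ} (hr : 0 < r) (hκ : 0 < κ)
    (hκ1 : κ ≤ 1) {e K kh : ℕ} (hK : 2 ^ e = 16 * K) (h4 : m4 lam c r ≤ kh)
    (hn2 : ∀ i, ∀ j < 2 ^ e, κ * (4 * r) ≤ ‖nodeZ c (2 * r) φ e j - lam i‖)
    (hn3 : ∀ i, ∀ j < 2 ^ e, κ * (4 * r) ≤ ‖nodeZ c (3 * r) φ e j - lam i‖)
    (hkap : (4 / κ) ^ kh * 4 ≤ (3 / 2 : ℝ) ^ K)
    (hfar : n * (3 / 4 : ℝ) ^ (2 ^ e) ≤ 1 / 16) :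
    PiN lam c (2 * r) φ e * (3 / 2 : ℝ) ^ (16 * K * m2 lam c r) ≤
        PiN lam c (3 * r) φ e * (3 / 2 : ℝ) ^ K ∧
      PiN lam c (3 * r) φ e ≤
        PiN lam c (2 * r) φ e * (3 / 2 : ℝ) ^ (16 * K * m3 lam c r + K) := by
  classical
  have hg := ratio_g lam c hκ hκ1 h4 hkap hfar
  have hδ0 : (0 : ℝ) ≤ (3 / 4 : ℝ) ^ (2 ^ e) := by positivity
  have hg0 : ∀ i : Fin n, 0 ≤ (if ‖lam i - c‖ < 4 * r then 4 / κ
      else 1 + 4 * (3 / 4 : ℝ) ^ (2 ^ e)) := by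
    intro i
    split_ifs <;> positivity
  have hA0 : ∀ (rho : ℝ) (i : Fin n), 0 ≤ ‖(rho * φ) ^ (2 ^ e) - (lam i - c) ^ (2 ^ e)‖ :=
    fun _ _ => norm_nonneg _
  have e32 : (2 * r) ^ (2 ^ e) * (3 / 2 : ℝ) ^ (2 ^ e) = (3 * r) ^ (2 ^ e) := by
    rw [← mul_pow]
    congr 1
    ring
  constructor
  · -- first inequality
    have hm : (3 / 2 : ℝ) ^ (16 * K * m2 lam c r) =
        ∏ i : Fin n, (if ‖lam i - c‖ ≤ 2 * r then (3 / 2 : ℝ) ^ (2 ^ e) else 1) := by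
      rw [Finset.prod_ite, Finset.prod_const, Finset.prod_const_one, mul_one, ← pow_mul, hK]
      congr 2
    rw [ratio_PiN, ratio_PiN, hm, ← Finset.prod_mul_distrib]
    have hstep : ∀ i : Fin n,
        ‖(((2 * r : ℝ) : ℂ) * φ) ^ (2 ^ e) - (lam i - c) ^ (2 ^ e)‖ *
          (if ‖lam i - c‖ ≤ 2 * r then (3 / 2 : ℝ) ^ (2 ^ e) else 1) ≤
        ‖(((3 * r : ℝ) : ℂ) * φ) ^ (2 ^ e) - (lam i - c) ^ (2 ^ e)‖ *
          (if ‖lam i - c‖ < 4 * r then 4 / κ else 1 + 4 * (3 / 4 : ℝ) ^ (2 ^ e)) := by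
      intro i
      have ht0 : 0 ≤ ‖lam i - c‖ := norm_nonneg _
      by_cases ht : ‖lam i - c‖ < 4 * r
      · rw [if_pos ht]
        have hB := ratio_kappa lam c hφ hr hκ hκ1 (by linarith : (0 : ℝ) ≤ 3 * r)
          (by linarith) i (hn3 i) ht
        have hA := ratio_upper hφ (by linarith : (0 : ℝ) ≤ 2 * r) (lam i - c) rfl (2 ^ e)
        have hmax : ((3 * r : ℝ) ^ (2 ^ e)) ≤ (max (3 * r) ‖lam i - c‖) ^ (2 ^ e) :=
          pow_le_pow_left₀ (by linarith) (le_max_left _ _) _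
        have hmax2 : (‖lam i - c‖ ^ (2 ^ e)) ≤ (max (3 * r) ‖lam i - c‖) ^ (2 ^ e) :=
          pow_le_pow_left₀ ht0 (le_max_right _ _) _
        have key : ‖(((2 * r : ℝ) : ℂ) * φ) ^ (2 ^ e) - (lam i - c) ^ (2 ^ e)‖ *
            (if ‖lam i - c‖ ≤ 2 * r then (3 / 2 : ℝ) ^ (2 ^ e) else 1) ≤
            2 * (max (3 * r) ‖lam i - c‖) ^ (2 ^ e) := by
          split_ifs with h2
          · have h3 : ‖lam i - c‖ ^ (2 ^ e) ≤ (2 * r) ^ (2 ^ e) := pow_le_pow_left₀ ht0 h2 _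
            calc _ ≤ (2 * (2 * r) ^ (2 ^ e)) * (3 / 2 : ℝ) ^ (2 ^ e) :=
                  mul_le_mul_of_nonneg_right (by linarith) (by positivity)
              _ = 2 * (3 * r) ^ (2 ^ e) := by rw [mul_assoc, e32]
              _ ≤ _ := by linarith
          · have h3 : (2 * r) ^ (2 ^ e) ≤ ‖lam i - c‖ ^ (2 ^ e) :=
              pow_le_pow_left₀ (by linarith) (not_le.1 h2).le _
            rw [mul_one]
            linarith
        refine key.trans ?_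
        have h5 : 2 * (max (3 * r) ‖lam i - c‖) ^ (2 ^ e) =
            (κ / 2 * (max (3 * r) ‖lam i - c‖) ^ (2 ^ e)) * (4 / κ) := by
          field_simp
          ring
        rw [h5]
        exact mul_le_mul_of_nonneg_right hB (by positivity)
      · rw [if_neg ht]
        have ht' := not_lt.1 ht
        have h2 : ¬ ‖lam i - c‖ ≤ 2 * r := by
          intro h
          linarith
        rw [if_neg h2, mul_one,
          mul_comm ‖(((3 * r : ℝ) : ℂ) * φ) ^ (2 ^ e) - (lam i - c) ^ (2 ^ e)‖]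
        have hA := ratio_upper hφ (by linarith : (0 : ℝ) ≤ 2 * r) (lam i - c) rfl (2 ^ e)
        have hB := ratio_lower hφ (by linarith : (0 : ℝ) ≤ 3 * r) (lam i - c) rfl (2 ^ e)
        have e1 := ratio_pow_le (by linarith : (0 : ℝ) ≤ 2 * r) ht0 (by linarith) (2 ^ e)
        have e2 := ratio_pow_le (by linarith : (0 : ℝ) ≤ 3 * r) ht0 (by linarith) (2 ^ e)
        refine ratio_far hδ0 (ratio_delta i hfar) ht0 (N := 2 ^ e) ?_ ?_
        · rw [mul_add, mul_one]; linarith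
        · rw [mul_sub, mul_one]; linarith
    refine (Finset.prod_le_prod (fun i _ => ?_) fun i _ => hstep i).trans ?_
    · split_ifs <;> positivity
    · rw [Finset.prod_mul_distrib]
      exact mul_le_mul_of_nonneg_left hg (Finset.prod_nonneg fun i _ => norm_nonneg _)
  · -- second inequality
    have hm : (3 / 2 : ℝ) ^ (16 * K * m3 lam c r) =
        ∏ i : Fin n, (if ‖lam i - c‖ < 3 * r then (3 / 2 : ℝ) ^ (2 ^ e) else 1) := by
      rw [Finset.prod_ite, Finset.prod_const, Finset.prod_const_one, mul_one, ← pow_mul, hK]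
      congr 2
    rw [ratio_PiN, ratio_PiN, pow_add, hm, ← mul_assoc, ← Finset.prod_mul_distrib]
    have hstep : ∀ i : Fin n,
        ‖(((3 * r : ℝ) : ℂ) * φ) ^ (2 ^ e) - (lam i - c) ^ (2 ^ e)‖ ≤
        ‖(((2 * r : ℝ) : ℂ) * φ) ^ (2 ^ e) - (lam i - c) ^ (2 ^ e)‖ *
          (if ‖lam i - c‖ < 3 * r then (3 / 2 : ℝ) ^ (2 ^ e) else 1) *
          (if ‖lam i - c‖ < 4 * r then 4 / κ else 1 + 4 * (3 / 4 : ℝ) ^ (2 ^ e)) := by
      intro i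
      have ht0 : 0 ≤ ‖lam i - c‖ := norm_nonneg _
      by_cases ht : ‖lam i - c‖ < 4 * r
      · rw [if_pos ht]
        have hB := ratio_kappa lam c hφ hr hκ hκ1 (by linarith : (0 : ℝ) ≤ 2 * r)
          (by linarith) i (hn2 i) ht
        have hA := ratio_upper hφ (by linarith : (0 : ℝ) ≤ 3 * r) (lam i - c) rfl (2 ^ e)
        have hmax : ((2 * r : ℝ) ^ (2 ^ e)) ≤ (max (2 * r) ‖lam i - c‖) ^ (2 ^ e) :=
          pow_le_pow_left₀ (by linarith) (le_max_left _ _) _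
        have hmax2 : (‖lam i - c‖ ^ (2 ^ e)) ≤ (max (2 * r) ‖lam i - c‖) ^ (2 ^ e) :=
          pow_le_pow_left₀ ht0 (le_max_right _ _) _
        have key : ‖(((3 * r : ℝ) : ℂ) * φ) ^ (2 ^ e) - (lam i - c) ^ (2 ^ e)‖ ≤
            2 * (max (2 * r) ‖lam i - c‖) ^ (2 ^ e) *
            (if ‖lam i - c‖ < 3 * r then (3 / 2 : ℝ) ^ (2 ^ e) else 1) := by
          split_ifs with h2
          · have h3 : ‖lam i - c‖ ^ (2 ^ e) ≤ (3 * r) ^ (2 ^ e) := pow_le_pow_left₀ ht0 h2.le _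
            have h6 : (3 * r) ^ (2 ^ e) ≤ (max (2 * r) ‖lam i - c‖) ^ (2 ^ e) *
                (3 / 2 : ℝ) ^ (2 ^ e) := by
              rw [← e32]
              exact mul_le_mul_of_nonneg_right hmax (by positivity)
            linarith
          · have h3 : (3 * r) ^ (2 ^ e) ≤ ‖lam i - c‖ ^ (2 ^ e) :=
              pow_le_pow_left₀ (by linarith) (not_lt.1 h2) _
            rw [mul_one]
            linarith
        refine key.trans ?_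
        have h5 : 2 * (max (2 * r) ‖lam i - c‖) ^ (2 ^ e) =
            (κ / 2 * (max (2 * r) ‖lam i - c‖) ^ (2 ^ e)) * (4 / κ) := by
          field_simp
          ring
        rw [h5]
        have h7 : 0 ≤ (if ‖lam i - c‖ < 3 * r then (3 / 2 : ℝ) ^ (2 ^ e) else 1) := by
          split_ifs <;> positivity
        have h8 := mul_le_mul_of_nonneg_right hB
          (mul_nonneg (by positivity : (0 : ℝ) ≤ 4 / κ) h7)
        calc _ = κ / 2 * max (2 * r) ‖lam i - c‖ ^ 2 ^ e * (4 / κ *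
              (if ‖lam i - c‖ < 3 * r then (3 / 2 : ℝ) ^ (2 ^ e) else 1)) := by ring
          _ ≤ _ := h8
          _ = _ := by ring
      · rw [if_neg ht]
        have ht' := not_lt.1 ht
        have h2 : ¬ ‖lam i - c‖ < 3 * r := by
          intro h
          linarith
        rw [if_neg h2, mul_one,
          mul_comm ‖(((2 * r : ℝ) : ℂ) * φ) ^ (2 ^ e) - (lam i - c) ^ (2 ^ e)‖]
        have hA := ratio_upper hφ (by linarith : (0 : ℝ) ≤ 3 * r) (lam i - c) rfl (2 ^ e)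
        have hB := ratio_lower hφ (by linarith : (0 : ℝ) ≤ 2 * r) (lam i - c) rfl (2 ^ e)
        have e1 := ratio_pow_le (by linarith : (0 : ℝ) ≤ 2 * r) ht0 (by linarith) (2 ^ e)
        have e2 := ratio_pow_le (by linarith : (0 : ℝ) ≤ 3 * r) ht0 (by linarith) (2 ^ e)
        refine ratio_far hδ0 (ratio_delta i hfar) ht0 (N := 2 ^ e) ?_ ?_
        · rw [mul_add, mul_one]; linarith
        · rw [mul_sub, mul_one]; linarith
    refine (Finset.prod_le_prod (fun i _ => norm_nonneg _) fun i _ => hstep i).trans ?_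
    rw [Finset.prod_mul_distrib]
    refine mul_le_mul_of_nonneg_left hg (Finset.prod_nonneg fun i _ => ?_)
    split_ifs <;> positivity

end H6LP
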