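import Pool.Agent.H6.LP.PISEC
import Pool.Agent.H6.LP.NB

/-!
# SB: small ball estimates for fixed vectors

`B = z - Mof A γ C g`.  In `sb2` only the two real coordinates `(k, p, re)`, `(k, p, im)` are resampled:
the number is `c + γ (x + i y) w_p`; dividing by `w_p`: `x` and `y` are in intervals of length `2a/(γ |w_p|)`
(`x` in an interval independent of `y` and vice versa; measure of the product, or `pisec` twice).
`sb4`: the second number does not depend on the coordinates `(k, p)` because `w2 p = 0`.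
-/

set_option autoImplicit false

open Complex Matrix MeasureTheory

namespace H6LP

variable {ι : Type} [Fintype ι] [DecidableEq ι] {n : ℕ}

/-- `G i j` as a function of the sample -/
noncomputable def Gc (C : Coo n ι) (g : ι → ℝ) (i j : Fin n) : ℂ :=
  (g (C.co i j false) : ℂ) + (g (C.co i j true) : ℂ) * I

theorem SB_ne (C : Coo n ι) (i j : Fin n) : C.co i j false ≠ C.co i j true := by
  intro h
  have := (C.inj _ _ _ _ _ _ h).2.2
  exact absurd this (by decide)

omit [Fintype ι] [DecidableEq ι] in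
theorem SB_meas_Gc (C : Coo n ι) (i j : Fin n) : Measurable fun g : ι → ℝ => Gc C g i j := by
  unfold Gc
  fun_prop

theorem SB_coord_le (i : ι) (x ρ : ℝ) :
    PP ι {h | h i ∈ Set.Icc (x - ρ) (x + ρ)} ≤ ENNReal.ofReal (2 * ρ) := by
  rw [pp_coord i measurableSet_Icc]
  refine (measure_mono Set.inter_subset_left).trans ?_
  rw [Real.volume_Icc]
  apply le_of_eq
  congr 1
  ring

/-- the section of the event -/
theorem SB_sec (C : Coo n ι) {γ a β : ℝ} (hγ : 0 < γ) (ha : 0 ≤ a) (hβ : 0 < β) (i j : Fin n)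
    (c0 w : ℂ) (hw : β ≤ ‖w‖) :
    PP ι {h | ‖c0 + γ * Gc C h i j * w‖ ≤ a} ≤ ENNReal.ofReal ((2 * a / (γ * β)) ^ 2) := by
  set ρ : ℝ := a / (γ * β) with hρ
  have hρ0 : 0 ≤ ρ := by positivity
  have hwpos : 0 < ‖w‖ := hβ.trans_le hw
  have hw0 : w ≠ 0 := norm_pos_iff.mp hwpos
  have hγ0 : (γ : ℂ) ≠ 0 := by exact_mod_cast hγ.ne'
  set c' : ℂ := c0 / (γ * w) with hc'
  have hsub : {h : ι → ℝ | ‖c0 + γ * Gc C h i j * w‖ ≤ a} ⊆
      {h | h (C.co i j true) ∈ Set.Icc (-c'.im - ρ) (-c'.im + ρ)} ∩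
        {h | h (C.co i j false) ∈ Set.Icc (-c'.re - ρ) (-c'.re + ρ)} := by
    intro h hh
    have h1 : c0 + γ * Gc C h i j * w = (γ * w) * (c' + Gc C h i j) := by
      rw [hc']
      field_simp
    have h2 : ‖c' + Gc C h i j‖ ≤ ρ := by
      have h3 : ‖(γ : ℂ) * w‖ * ‖c' + Gc C h i j‖ ≤ a := by
        rw [← norm_mul, ← h1]
        exact hh
      rw [norm_mul, Complex.norm_real, Real.norm_eq_abs, abs_of_pos hγ] at h3
      rw [hρ, le_div_iff₀ (by positivity)]
      refine le_trans ?_ h3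
      rw [mul_comm]
      exact mul_le_mul_of_nonneg_right (mul_le_mul_of_nonneg_left hw hγ.le) (norm_nonneg _)
    have h4 := (Complex.abs_re_le_norm (c' + Gc C h i j)).trans h2
    have h5 := (Complex.abs_im_le_norm (c' + Gc C h i j)).trans h2
    have h6 : (Gc C h i j).re = h (C.co i j false) := by simp [Gc]
    have h7 : (Gc C h i j).im = h (C.co i j true) := by simp [Gc]
    rw [Complex.add_re, h6, abs_le] at h4
    rw [Complex.add_im, h7, abs_le] at h5
    refine ⟨⟨?_, ?_⟩, ⟨?_, ?_⟩⟩ <;> linarith [h4.1, h4.2, h5.1, h5.2]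
  have hmeas : ∀ (k : ι) (s : Set ℝ), MeasurableSet s → MeasurableSet {h : ι → ℝ | h k ∈ s} :=
    fun k s hs => (measurable_pi_apply k) hs
  refine (measure_mono hsub).trans ?_
  refine (pisec {C.co i j false} (hmeas _ _ measurableSet_Icc) (hmeas _ _ measurableSet_Icc)
    (c := ENNReal.ofReal (2 * ρ)) ?_ ?_).trans ?_
  · intro g h
    have : mix {C.co i j false} g h (C.co i j true) = g (C.co i j true) := by
      unfold mix
      rw [if_neg]
      rw [Finset.mem_singleton]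
      exact (SB_ne C i j).symm
    simp only [Set.mem_ofPred_eq, this]
  · intro g _
    have : {h : ι → ℝ | mix {C.co i j false} g h ∈
        {h : ι → ℝ | h (C.co i j false) ∈ Set.Icc (-c'.re - ρ) (-c'.re + ρ)}} =
        {h | h (C.co i j false) ∈ Set.Icc (-c'.re - ρ) (-c'.re + ρ)} := by
      ext h
      have : mix {C.co i j false} g h (C.co i j false) = h (C.co i j false) := by
        unfold mix
        rw [if_pos (Finset.mem_singleton_self _)]
      simp only [Set.mem_ofPred_eq, this]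
    rw [this]
    exact SB_coord_le _ _ _
  · refine (mul_le_mul_right (SB_coord_le _ _ _) _).trans ?_
    rw [← ENNReal.ofReal_mul (by positivity)]
    apply le_of_eq
    congr 1
    rw [hρ]
    ring

/-- the general version -/
theorem SB_main (C : Coo n ι) {γ a β : ℝ} (hγ : 0 < γ) (ha : 0 ≤ a) (hβ : 0 < β) (i j : Fin n)
    {A : Set (ι → ℝ)} (hA : MeasurableSet A)
    (hAi : ∀ g h : ι → ℝ, (∀ x, x ≠ C.co i j false → x ≠ C.co i j true → g x = h x) →
      g ∈ A → h ∈ A)
    (f : (ι → ℝ) → ℂ) (w : ℂ) (hw : β ≤ ‖w‖)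
    (hf : ∀ g h, (∀ x, x ≠ C.co i j false → x ≠ C.co i j true → g x = h x) → f g = f h)
    (hfm : Measurable f) :
    PP ι (A ∩ {g | ‖f g + γ * Gc C g i j * w‖ ≤ a}) ≤
      ENNReal.ofReal ((2 * a / (γ * β)) ^ 2) * PP ι A := by
  have hmem : ∀ x, x ≠ C.co i j false → x ≠ C.co i j true →
      x ∉ ({C.co i j false, C.co i j true} : Finset ι) := by
    intro x h1 h2 h3
    rw [Finset.mem_insert, Finset.mem_singleton] at h3
    rcases h3 with h3 | h3
    · exact h1 h3
    · exact h2 h3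
  have hmix : ∀ g h : ι → ℝ, ∀ x, x ≠ C.co i j false → x ≠ C.co i j true →
      mix {C.co i j false, C.co i j true} g h x = g x := by
    intro g h x h1 h2
    unfold mix
    rw [if_neg (hmem x h1 h2)]
  have hB : MeasurableSet {g : ι → ℝ | ‖f g + γ * Gc C g i j * w‖ ≤ a} := by
    apply measurableSet_le _ measurable_const
    have h1 := SB_meas_Gc C i j
    exact (hfm.add ((measurable_const.mul h1).mul measurable_const)).norm
  refine pisec {C.co i j false, C.co i j true} hA hB ?_ ?_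
  · intro g h
    constructor
    · exact hAi _ _ (hmix g h)
    · exact hAi _ _ (fun x h1 h2 => (hmix g h x h1 h2).symm)
  · intro g _
    refine le_trans (measure_mono ?_) (SB_sec C hγ ha hβ i j (f g) w hw)
    intro h hh
    simp only [Set.mem_ofPred_eq] at hh ⊢
    have h1 : f (mix {C.co i j false, C.co i j true} g h) = f g := hf _ _ (hmix g h)
    have h2 : Gc C (mix {C.co i j false, C.co i j true} g h) i j = Gc C h i j := by
      unfold Gc mix
      rw [if_pos (by simp), if_pos (by simp)]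
    rwa [h1, h2] at hh

/-- two real coordinates -/
theorem sb2 (C : Coo n ι) {γ a β : ℝ} (hγ : 0 < γ) (ha : 0 ≤ a) (hβ : 0 < β) (i j : Fin n)
    {S : Set (ι → ℝ)} (f : (ι → ℝ) → ℂ) (w : ℂ) (hw : β ≤ ‖w‖)
    (hf : ∀ g h, (∀ x, x ≠ C.co i j false → x ≠ C.co i j true → g x = h x) → f g = f h)
    (hfm : Measurable f)
    (hS : ∀ g ∈ S, ‖f g + γ * Gc C g i j * w‖ ≤ a) :
    PP ι S ≤ ENNReal.ofReal ((2 * a / (γ * β)) ^ 2) := by
  have h := SB_main C hγ ha hβ i j (A := Set.univ) MeasurableSet.univ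
    (fun _ _ _ _ => Set.mem_univ _) f w hw hf hfm
  rw [measure_univ, mul_one, Set.univ_inter] at h
  exact (measure_mono hS).trans h

/-- entries at other places do not depend on the coordinates `(i, j)` -/
theorem SB_Gc_other (C : Coo n ι) {i j i' j' : Fin n} (hne : i' ≠ i ∨ j' ≠ j) {g h : ι → ℝ}
    (hgh : ∀ x, x ≠ C.co i j false → x ≠ C.co i j true → g x = h x) :
    Gc C g i' j' = Gc C h i' j' := by
  have h1 : ∀ b b', C.co i' j' b ≠ C.co i j b' := by
    intro b b' hb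
    obtain ⟨e1, e2, -⟩ := C.inj _ _ _ _ _ _ hb
    rcases hne with h | h
    · exact h e1
    · exact h e2
  unfold Gc
  rw [hgh _ (h1 _ _) (h1 _ _), hgh _ (h1 _ _) (h1 _ _)]

/-- rows: fixed `w1`, `w2`, the row `k` random -/
theorem sb_row (C : Coo n ι) {γ a β : ℝ} (hγ : 0 < γ) (ha : 0 ≤ a) (hβ : 0 < β) (k p q : Fin n)
    (hpq : p ≠ q) (c1 c2 : ℂ) (w1 w2 : Fin n → ℂ) (h1 : β ≤ ‖w1 p‖) (h2 : β ≤ ‖w2 q‖) (h20 : w2 p = 0)
    {S : Set (ι → ℝ)}
    (hS1 : ∀ g ∈ S, ‖c1 + γ * ∑ j, Gc C g k j * w1 j‖ ≤ a)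
    (hS2 : ∀ g ∈ S, ‖c2 + γ * ∑ j, Gc C g k j * w2 j‖ ≤ a) :
    PP ι S ≤ ENNReal.ofReal ((2 * a / (γ * β)) ^ 4) := by
  have hsum : ∀ (c : ℂ) (w : Fin n → ℂ) (r : Fin n) (g : ι → ℝ),
      c + γ * ∑ j, Gc C g k j * w j =
        (c + γ * ∑ j ∈ Finset.univ.erase r, Gc C g k j * w j) + γ * Gc C g k r * w r := by
    intro c w r g
    rw [← Finset.add_sum_erase _ _ (Finset.mem_univ r)]
    ring
  have hmeas : ∀ (c : ℂ) (w : Fin n → ℂ) (s : Finset (Fin n)),
      Measurable fun g : ι → ℝ => c + γ * ∑ j ∈ s, Gc C g k j * w j := by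
    intro c w s
    refine measurable_const.add (measurable_const.mul ?_)
    exact Finset.measurable_sum _ (fun j _ => (SB_meas_Gc C k j).mul measurable_const)
  have hinv : ∀ (c : ℂ) (w : Fin n → ℂ) (r : Fin n) (g h : ι → ℝ),
      (∀ x, x ≠ C.co k r false → x ≠ C.co k r true → g x = h x) →
      c + γ * ∑ j ∈ Finset.univ.erase r, Gc C g k j * w j =
        c + γ * ∑ j ∈ Finset.univ.erase r, Gc C h k j * w j := by
    intro c w r g h hgh
    congr 2
    refine Finset.sum_congr rfl (fun j hj => ?_)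
    rw [SB_Gc_other C (Or.inr (Finset.ne_of_mem_erase hj)) hgh]
  -- the second event
  have hA : MeasurableSet {g : ι → ℝ | ‖c2 + γ * ∑ j, Gc C g k j * w2 j‖ ≤ a} :=
    measurableSet_le (hmeas c2 w2 Finset.univ).norm measurable_const
  have hPA : PP ι {g : ι → ℝ | ‖c2 + γ * ∑ j, Gc C g k j * w2 j‖ ≤ a} ≤
      ENNReal.ofReal ((2 * a / (γ * β)) ^ 2) := by
    refine sb2 C hγ ha hβ k q (fun g => c2 + γ * ∑ j ∈ Finset.univ.erase q, Gc C g k j * w2 j)
      (w2 q) h2 (hinv c2 w2 q) (hmeas c2 w2 _) ?_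
    intro g hg
    rw [← hsum]
    exact hg
  have hAi : ∀ g h : ι → ℝ, (∀ x, x ≠ C.co k p false → x ≠ C.co k p true → g x = h x) →
      g ∈ {g : ι → ℝ | ‖c2 + γ * ∑ j, Gc C g k j * w2 j‖ ≤ a} →
      h ∈ {g : ι → ℝ | ‖c2 + γ * ∑ j, Gc C g k j * w2 j‖ ≤ a} := by
    intro g h hgh hg
    simp only [Set.mem_ofPred_eq] at hg ⊢
    rw [hsum c2 w2 p, h20, mul_zero, add_zero] at hg ⊢
    rwa [← hinv c2 w2 p g h hgh]
  have hmain := SB_main C hγ ha hβ k p hA hAi
    (fun g => c1 + γ * ∑ j ∈ Finset.univ.erase p, Gc C g k j * w1 j) (w1 p) h1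
    (hinv c1 w1 p) (hmeas c1 w1 _)
  refine (measure_mono ?_).trans (hmain.trans ?_)
  · intro g hg
    refine ⟨hS2 g hg, ?_⟩
    simp only [Set.mem_ofPred_eq]
    rw [← hsum]
    exact hS1 g hg
  · refine (mul_le_mul_right hPA _).trans ?_
    rw [← ENNReal.ofReal_mul (by positivity)]
    apply le_of_eq
    congr 1
    ring

/-- columns: fixed `w`, the column `k` random -/
theorem sb_col (C : Coo n ι) {γ a β : ℝ} (hγ : 0 < γ) (ha : 0 ≤ a) (hβ : 0 < β) (k p : Fin n)
    (c : ℂ) (w : Fin n → ℂ) (h1 : β ≤ ‖w p‖) {S : Set (ι → ℝ)}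
    (hS : ∀ g ∈ S, ‖c + γ * ∑ i, Gc C g i k * w i‖ ≤ a) :
    PP ι S ≤ ENNReal.ofReal ((2 * a / (γ * β)) ^ 2) := by
  refine sb2 C hγ ha hβ p k (fun g => c + γ * ∑ i ∈ Finset.univ.erase p, Gc C g i k * w i)
    (w p) h1 ?_ ?_ ?_
  · intro g h hgh
    congr 2
    refine Finset.sum_congr rfl (fun i hi => ?_)
    rw [SB_Gc_other C (Or.inl (Finset.ne_of_mem_erase hi)) hgh]
  · refine measurable_const.add (measurable_const.mul ?_)
    exact Finset.measurable_sum _ (fun i _ => (SB_meas_Gc C i k).mul measurable_const)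
  · intro g hg
    have h2 : c + γ * ∑ i, Gc C g i k * w i =
        (c + γ * ∑ i ∈ Finset.univ.erase p, Gc C g i k * w i) + γ * Gc C g p k * w p := by
      rw [← Finset.add_sum_erase _ _ (Finset.mem_univ p)]
      ring
    rw [← h2]
    exact hS g hg

end H6LP
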