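import Pool.Agent.H6.LP.SB

/-!
# SBROW: the row event at one point `z`

Union over `k` of the closed sets `B_k = {g | ∃ x, nv x = 1, x 0 = 0, nv x ≤ √n ‖x k‖, nv (x ᵥ* (z - M g)) ≤ a}`
(closed: projection of a closed set along the compact unit sphere).  For `B_k` resample the row `k`
(`pisec'` with the block of all coordinates `(k, j, b)`): the other rows of `T = z - M` are fixed; the at most
`n - 2` rows other than `0, k` have an orthogonal complement `{w | row_i ⬝ᵥ w = 0}` of dimension `≥ 2`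
(`k ≠ 0` because `x 0 = 0`), so there are unit vectors `w1`, `w2` in it, `‖w1 p‖ ≥ 1/√n`, `w2 p = 0`,
`‖w2 q‖ ≥ 1/√n`, `q ≠ p`; `(x ᵥ* T) ⬝ᵥ w = x_k (row_k ⬝ᵥ w)`, so `‖row_k ⬝ᵥ w‖ ≤ a √n`; `sb_row` with `a √n`,
`β = 1/√n`: `(2 a n/γ)^4`.
-/

set_option autoImplicit false

open Complex Matrix MeasureTheory

namespace H6LP

variable {ι : Type} [Fintype ι] [DecidableEq ι] {n : ℕ}

theorem sbrow_continuous_nv : Continuous (nv : (Fin n → ℂ) → ℝ) := by
  unfold nv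
  fun_prop

omit [Fintype ι] [DecidableEq ι] in
theorem sbrow_continuous_Mof (A : Matrix (Fin n) (Fin n) ℂ) (C : Coo n ι) (γ : ℝ) (i j : Fin n) :
    Continuous fun g : ι → ℝ => Mof A γ C g i j := by
  unfold Mof
  fun_prop

/-- `∃ x ∈ K, f (g, x) ≤ a` is a closed condition on `g` for compact `K` and continuous `f` -/
theorem sbrow_isClosed_exists_le {E F : Type*} [TopologicalSpace E] [TopologicalSpace F] {K : Set F}
    (hK : IsCompact K) {f : E × F → ℝ} (hf : Continuous f) (a : ℝ) :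
    IsClosed {g | ∃ x ∈ K, f (g, x) ≤ a} := by
  have : CompactSpace K := isCompact_iff_compactSpace.mp hK
  have h1 : IsClosed {p : E × K | f (p.1, (p.2 : F)) ≤ a} :=
    isClosed_le (hf.comp (continuous_fst.prodMk (continuous_subtype_val.comp continuous_snd)))
      continuous_const
  have h2 := isClosedMap_fst_of_compactSpace (X := E) (Y := K) _ h1
  convert h2 using 1
  ext g
  constructor
  · rintro ⟨x, hx, hgx⟩
    exact ⟨(g, ⟨x, hx⟩), hgx, rfl⟩
  · rintro ⟨⟨g', x⟩, hgx, rfl⟩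
    exact ⟨x, x.2, hgx⟩

/-- the compact set of the normalized vectors with large coordinate `k` -/
def sbrowK (n : ℕ) (k : Fin n) : Set (Fin n → ℂ) :=
  {x | nv x = 1 ∧ (∀ i : Fin n, (i : ℕ) = 0 → x i = 0) ∧ 1 ≤ Real.sqrt n * ‖x k‖}

theorem sbrow_isCompact_of_nv_eq_one {K : Set (Fin n → ℂ)} (hc : IsClosed K) (h : ∀ x ∈ K, nv x = 1) :
    IsCompact K := by
  refine Metric.isCompact_of_isClosed_isBounded hc ?_
  refine (Metric.isBounded_closedBall (x := (0 : Fin n → ℂ)) (r := 1)).subset ?_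
  intro x hx
  rw [mem_closedBall_zero_iff, pi_norm_le_iff_of_nonneg zero_le_one]
  intro i
  rw [← h x hx]
  exact norm_le_nv x i

theorem sbrow_isCompact_sbK (k : Fin n) : IsCompact (sbrowK n k) := by
  refine sbrow_isCompact_of_nv_eq_one ?_ (fun x hx => hx.1)
  have h2 : IsClosed {x : Fin n → ℂ | ∀ i : Fin n, (i : ℕ) = 0 → x i = 0} := by
    have : {x : Fin n → ℂ | ∀ i : Fin n, (i : ℕ) = 0 → x i = 0} =
        ⋂ (i : Fin n) (_ : (i : ℕ) = 0), {x | x i = 0} := by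
      ext x
      simp
    rw [this]
    exact isClosed_iInter fun i => isClosed_iInter fun _ =>
      isClosed_eq (continuous_apply i) continuous_const
  have h3 : IsClosed {x : Fin n → ℂ | 1 ≤ Real.sqrt n * ‖x k‖} :=
    isClosed_le continuous_const (continuous_const.mul (continuous_apply k).norm)
  exact (isClosed_eq sbrow_continuous_nv continuous_const).inter (h2.inter h3)

/-- the block of the coordinates of the row `k` -/
def sbrowBlock (C : Coo n ι) (k : Fin n) : Finset ι :=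
  Finset.univ.image (fun p : Fin n × Bool => C.co k p.1 p.2)

omit [Fintype ι] in
theorem sbrow_Mof_mix_row_ne (A : Matrix (Fin n) (Fin n) ℂ) (C : Coo n ι) (γ : ℝ) (g h : ι → ℝ)
    {k i : Fin n} (hik : i ≠ k) (j : Fin n) :
    Mof A γ C (mix (sbrowBlock C k) g h) i j = Mof A γ C g i j := by
  have hm : ∀ b, mix (sbrowBlock C k) g h (C.co i j b) = g (C.co i j b) := by
    intro b
    unfold mix
    rw [if_neg]
    intro hmem
    unfold sbrowBlock at hmem
    rw [Finset.mem_image] at hmem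
    obtain ⟨p, -, hp⟩ := hmem
    exact hik ((C.inj _ _ _ _ _ _ hp).1).symm
  unfold Mof
  rw [hm, hm]

omit [Fintype ι] in
theorem sbrow_Mof_mix_row_eq (A : Matrix (Fin n) (Fin n) ℂ) (C : Coo n ι) (γ : ℝ) (g h : ι → ℝ)
    (k j : Fin n) :
    Mof A γ C (mix (sbrowBlock C k) g h) k j = A k j + γ * Gc C h k j := by
  have hm : ∀ b, mix (sbrowBlock C k) g h (C.co k j b) = h (C.co k j b) := by
    intro b
    unfold mix
    rw [if_pos]
    unfold sbrowBlock
    rw [Finset.mem_image]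
    exact ⟨(j, b), Finset.mem_univ _, rfl⟩
  unfold Mof Gc
  rw [hm, hm]

/-- normalization -/
theorem sbrow_exists_normalized (hn : 1 ≤ n) {w : Fin n → ℂ} (hw : w ≠ 0) :
    ∃ c : ℂ, nv (c • w) = 1 ∧ ∃ p, 1 / Real.sqrt n ≤ ‖(c • w) p‖ := by
  have hpos := nv_pos hw
  have h1 : nv ((((nv w)⁻¹ : ℝ) : ℂ) • w) = 1 := by
    rw [nv_smul, Complex.norm_real, Real.norm_eq_abs, abs_of_pos (inv_pos.mpr hpos),
      inv_mul_cancel₀ hpos.ne']
  refine ⟨(((nv w)⁻¹ : ℝ) : ℂ), h1, ?_⟩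
  obtain ⟨p, hp⟩ := exists_large_coord hn ((((nv w)⁻¹ : ℝ) : ℂ) • w)
  rw [h1] at hp
  refine ⟨p, ?_⟩
  have hs : 0 < Real.sqrt n := Real.sqrt_pos.mpr (by exact_mod_cast hn)
  rw [div_le_iff₀ hs]
  linarith

theorem sbrow_aux (hn : 1 ≤ n) (A : Matrix (Fin n) (Fin n) ℂ) (C : Coo n ι) {γ a : ℝ} (hγ : 0 < γ)
    (ha : 0 ≤ a) (z : ℂ) (k : Fin n) (hk : (k : ℕ) ≠ 0) (g : ι → ℝ) :
    PP ι {h | ∃ x ∈ sbrowK n k, nv (x ᵥ* (z • (1 : Matrix (Fin n) (Fin n) ℂ) -
      Mof A γ C (mix (sbrowBlock C k) g h))) ≤ a} ≤ ENNReal.ofReal ((2 * a * n / γ) ^ 4) := by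
  set z0 : Fin n := ⟨0, by omega⟩ with hz0
  have hk0 : k ≠ z0 := by
    intro h
    rw [h] at hk
    exact hk rfl
  set T : Matrix (Fin n) (Fin n) ℂ := z • (1 : Matrix (Fin n) (Fin n) ℂ) - Mof A γ C g with hT
  have hs : 0 < Real.sqrt n := Real.sqrt_pos.mpr (by exact_mod_cast hn)
  -- kernel vectors
  have ker : ∀ c : Fin n → ℂ, ∃ w : Fin n → ℂ, w ≠ 0 ∧ c ⬝ᵥ w = 0 ∧
      ∀ i, i ≠ k → i ≠ z0 → T i ⬝ᵥ w = 0 := by
    intro c
    set N : Matrix (Fin n) (Fin n) ℂ := fun i => if i = k then 0 else if i = z0 then c else T i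
      with hN
    have hdet : N.det = 0 := Matrix.det_eq_zero_of_row_eq_zero k (fun j => by
      rw [hN]
      simp)
    obtain ⟨w, hw0, hw⟩ := Matrix.exists_mulVec_eq_zero_iff.mpr hdet
    refine ⟨w, hw0, ?_, ?_⟩
    · have h1 : N z0 ⬝ᵥ w = 0 := congrFun hw z0
      have h2 : N z0 = c := by
        rw [hN]
        simp [Ne.symm hk0]
      rwa [h2] at h1
    · intro i hik hi0
      have h1 : N i ⬝ᵥ w = 0 := congrFun hw i
      have h2 : N i = T i := by
        rw [hN]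
        simp [hik, hi0]
      rwa [h2] at h1
  obtain ⟨w1, hw10, -, hw1⟩ := ker 0
  obtain ⟨c1, hc1, p, hp⟩ := sbrow_exists_normalized hn hw10
  obtain ⟨w2, hw20, hw2p, hw2⟩ := ker (Pi.single p 1)
  obtain ⟨c2, hc2, q, hq⟩ := sbrow_exists_normalized hn hw20
  have hw2p' : (c2 • w2) p = 0 := by
    rw [single_dotProduct, one_mul] at hw2p
    rw [Pi.smul_apply, hw2p, smul_zero]
  have hpq : p ≠ q := by
    intro h
    rw [← h, hw2p', norm_zero] at hq
    have : 0 < 1 / Real.sqrt n := by positivity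
    linarith
  -- the main estimate
  have main : ∀ w : Fin n → ℂ, nv w = 1 → (∀ i, i ≠ k → i ≠ z0 → T i ⬝ᵥ w = 0) →
      ∀ h ∈ {h | ∃ x ∈ sbrowK n k, nv (x ᵥ* (z • (1 : Matrix (Fin n) (Fin n) ℂ) -
        Mof A γ C (mix (sbrowBlock C k) g h))) ≤ a},
      ‖-(z * w k - ∑ j, A k j * w j) + γ * ∑ j, Gc C h k j * w j‖ ≤ a * Real.sqrt n := by
    rintro w hw hker h ⟨x, ⟨hx1, hx0, hxk⟩, hxa⟩
    set T' : Matrix (Fin n) (Fin n) ℂ := z • (1 : Matrix (Fin n) (Fin n) ℂ) -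
        Mof A γ C (mix (sbrowBlock C k) g h) with hT'
    have hrow : ∀ i, i ≠ k → T' i = T i := by
      intro i hik
      funext j
      rw [hT', hT, Matrix.sub_apply, Matrix.sub_apply, sbrow_Mof_mix_row_ne A C γ g h hik]
    have e1 : (x ᵥ* T') ⬝ᵥ w = x k * (T' k ⬝ᵥ w) := by
      rw [← Matrix.dotProduct_mulVec]
      show ∑ i, x i * (T' *ᵥ w) i = _
      rw [Finset.sum_eq_single k]
      · rfl
      · intro i _ hik
        by_cases hi0 : i = z0
        · rw [hx0 i (by rw [hi0]), zero_mul]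
        · have : (T' *ᵥ w) i = 0 := by
            show T' i ⬝ᵥ w = 0
            rw [hrow i hik]
            exact hker i hik hi0
          rw [this, mul_zero]
      · intro h'
        exact absurd (Finset.mem_univ _) h'
    have e2 : ‖x k‖ * ‖T' k ⬝ᵥ w‖ ≤ a := by
      rw [← norm_mul, ← e1]
      refine (norm_dotProduct_le _ _).trans ?_
      rw [hw, mul_one]
      exact hxa
    have e3 : ‖T' k ⬝ᵥ w‖ ≤ a * Real.sqrt n := by
      have h1 : ‖T' k ⬝ᵥ w‖ ≤ (Real.sqrt n * ‖x k‖) * ‖T' k ⬝ᵥ w‖ := by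
        have := norm_nonneg (T' k ⬝ᵥ w)
        nlinarith
      have h2 : Real.sqrt n * (‖x k‖ * ‖T' k ⬝ᵥ w‖) ≤ Real.sqrt n * a := by gcongr
      nlinarith
    have e4 : -(z * w k - ∑ j, A k j * w j) + γ * ∑ j, Gc C h k j * w j = -(T' k ⬝ᵥ w) := by
      have e5 : T' k ⬝ᵥ w = ∑ j, ((z • (1 : Matrix (Fin n) (Fin n) ℂ)) k j * w j -
          (A k j * w j + γ * (Gc C h k j * w j))) := by
        show ∑ j, T' k j * w j = _
        refine Finset.sum_congr rfl (fun j _ => ?_)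
        rw [hT', Matrix.sub_apply, sbrow_Mof_mix_row_eq]
        ring
      rw [e5, Finset.sum_sub_distrib, Finset.sum_add_distrib, ← Finset.mul_sum]
      have e6 : ∑ j, (z • (1 : Matrix (Fin n) (Fin n) ℂ)) k j * w j = z * w k := by
        rw [Finset.sum_eq_single k]
        · simp
        · intro j _ hjk
          simp [Ne.symm hjk]
        · intro h'
          exact absurd (Finset.mem_univ _) h'
      rw [e6]
      ring
    rw [e4, norm_neg]
    exact e3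
  have hk1 : ∀ (c : ℂ) (w : Fin n → ℂ), (∀ i, i ≠ k → i ≠ z0 → T i ⬝ᵥ w = 0) →
      ∀ i, i ≠ k → i ≠ z0 → T i ⬝ᵥ (c • w) = 0 := by
    intro c w hw i h1 h2
    rw [dotProduct_smul, hw i h1 h2, smul_zero]
  have hfin := sb_row C hγ (mul_nonneg ha hs.le) (one_div_pos.mpr hs) k p q hpq _ _ (c1 • w1)
    (c2 • w2) hp hq hw2p' (main (c1 • w1) hc1 (hk1 c1 w1 hw1)) (main (c2 • w2) hc2 (hk1 c2 w2 hw2))
  refine hfin.trans (le_of_eq ?_)
  congr 2
  have hsq : Real.sqrt n * Real.sqrt n = n := Real.mul_self_sqrt (by positivity)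
  have hg := hγ.ne'
  have hs' := hs.ne'
  field_simp
  nlinarith [hsq]

theorem sbrow (hn : 1 ≤ n) (A : Matrix (Fin n) (Fin n) ℂ) (C : Coo n ι) {γ a : ℝ} (hγ : 0 < γ) (ha : 0 ≤ a)
    (z : ℂ) :
    PP ι {g | ∃ x : Fin n → ℂ, nv x = 1 ∧ (∀ i : Fin n, (i : ℕ) = 0 → x i = 0) ∧
      nv (x ᵥ* (z • (1 : Matrix (Fin n) (Fin n) ℂ) - Mof A γ C g)) ≤ a} ≤
    ENNReal.ofReal (n * (2 * a * n / γ) ^ 4) := by
  have hs : 0 < Real.sqrt n := Real.sqrt_pos.mpr (by exact_mod_cast hn)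
  have hcont : Continuous fun p : (ι → ℝ) × (Fin n → ℂ) =>
      nv (p.2 ᵥ* (z • (1 : Matrix (Fin n) (Fin n) ℂ) - Mof A γ C p.1)) := by
    refine sbrow_continuous_nv.comp (continuous_pi fun j => ?_)
    show Continuous fun p : (ι → ℝ) × (Fin n → ℂ) =>
      ∑ i, p.2 i * ((z • (1 : Matrix (Fin n) (Fin n) ℂ)) i j - Mof A γ C p.1 i j)
    refine continuous_finsetSum _ fun i _ => ?_
    refine Continuous.mul (by fun_prop) (Continuous.sub continuous_const ?_)
    exact (sbrow_continuous_Mof A C γ i j).comp continuous_fst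
  set Bk : Fin n → Set (ι → ℝ) := fun k =>
    {g | ∃ x ∈ sbrowK n k, nv (x ᵥ* (z • (1 : Matrix (Fin n) (Fin n) ℂ) - Mof A γ C g)) ≤ a} with hBk
  have hclosed : ∀ k, IsClosed (Bk k) := fun k =>
    sbrow_isClosed_exists_le (sbrow_isCompact_sbK k) hcont a
  have hbound : ∀ k, PP ι (Bk k) ≤ ENNReal.ofReal ((2 * a * n / γ) ^ 4) := by
    intro k
    by_cases hk : (k : ℕ) = 0
    · have : Bk k = ∅ := by
        rw [Set.eq_empty_iff_forall_notMem]
        rintro g ⟨x, ⟨-, h0, h1⟩, -⟩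
        rw [h0 k hk, norm_zero, mul_zero] at h1
        linarith
      rw [this, measure_empty]
      exact zero_le
    · exact pisec' (sbrowBlock C k) (hclosed k).measurableSet
        (fun g => sbrow_aux hn A C hγ ha z k hk g)
  have hsub : {g | ∃ x : Fin n → ℂ, nv x = 1 ∧ (∀ i : Fin n, (i : ℕ) = 0 → x i = 0) ∧
      nv (x ᵥ* (z • (1 : Matrix (Fin n) (Fin n) ℂ) - Mof A γ C g)) ≤ a} ⊆ ⋃ k, Bk k := by
    rintro g ⟨x, hx1, hx0, hxa⟩
    obtain ⟨k, hk⟩ := exists_large_coord hn x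
    rw [Set.mem_iUnion]
    exact ⟨k, x, ⟨hx1, hx0, by rw [← hx1]; exact hk⟩, hxa⟩
  calc _ ≤ PP ι (⋃ k, Bk k) := measure_mono hsub
    _ ≤ ∑ k, PP ι (Bk k) := measure_iUnion_fintype_le _ _
    _ ≤ ∑ _k : Fin n, ENNReal.ofReal ((2 * a * n / γ) ^ 4) := Finset.sum_le_sum fun k _ => hbound k
    _ = ENNReal.ofReal (n * (2 * a * n / γ) ^ 4) := by
      rw [Finset.sum_const, Finset.card_univ, Fintype.card_fin, nsmul_eq_mul,
        ENNReal.ofReal_mul (Nat.cast_nonneg _), ENNReal.ofReal_natCast]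

end H6LP
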