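import Pool.Agent.H6.LP.NB

/-!
# SOLV: consequences of `RowLB` at an eigenvalue, part 1 (pure)

`T = λ - X`.  `solv`: `u` a left null vector of `T` (`u ᵥ* T = 0`, `u ≠ 0`), `u ⬝ᵥ r = 0`; then `T y = r` has a
solution with `nv y ≤ nv r / s`: the map `(rows 2..n of T)ᴴ` is injective with lower bound `s` (`RowLB`), so the
least squares solution of the equations `2..n` (`y = Nᴴ (N Nᴴ)⁻¹ r'`, `N` = rows with index `≠ 0`;
`‖y‖² = ⟨N y, (N Nᴴ)⁻¹ r'⟩ ≤ ‖r'‖ ‖(NNᴴ)⁻¹ r'‖`, `s ‖w‖ ≤ ‖Nᴴ w‖ = ‖y‖`) satisfies them; the first equation follows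
from `u ⬝ᵥ (T y - r) = 0` and `u 0 ≠ 0` (`left_first`).
(Alternative without matrices: `T` restricted …, any proof is fine.)
`left_first`: `x = u` with first coordinate removed: `s nv x ≤ nv (x ᵥ* T) = ‖u 0‖ nv (row 0 of T) ≤ 6 ‖u 0‖`.
-/

set_option autoImplicit false

open Complex Matrix

namespace H6LP

variable {n : ℕ}

theorem left_first {X : Matrix (Fin n) (Fin n) ℂ} {s : ℝ} (hs : 0 < s) (hs1 : s ≤ 1) (hop : OpLe X 3)
    (hr : RowLB X s) {z : ℂ} (hz : ‖z‖ ≤ 3) {u : Fin n → ℂ} (hu : nv u = 1)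
    (hl : u ᵥ* (z • (1 : Matrix (Fin n) (Fin n) ℂ) - X) = 0) (i : Fin n) (hi : (i : ℕ) = 0) :
    s / 7 ≤ ‖u i‖ := by
  set T := z • (1 : Matrix (Fin n) (Fin n) ℂ) - X with hT
  -- the first coordinate is removed
  let x : Fin n → ℂ := fun j => if (j : ℕ) = 0 then 0 else u j
  have hx : x = u - Pi.single i (u i) := by
    funext j
    by_cases hj : (j : ℕ) = 0
    · have : j = i := Fin.ext (by omega)
      subst this
      simp [x, hj]
    · have : j ≠ i := fun h => hj (by rw [h]; exact hi)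
      simp [x, hj, Pi.single_eq_of_ne this]
  have h1 := hr z (by linarith) x (fun j hj => by simp [x, hj])
  have h2 : x ᵥ* T = - (Pi.single i (u i) ᵥ* T) := by
    rw [hx, Matrix.sub_vecMul, hl, zero_sub]
  have h3 : nv (Pi.single i (u i) ᵥ* T) ≤ 6 * ‖u i‖ := by
    rw [hT, Matrix.vecMul_sub, Matrix.vecMul_smul, Matrix.vecMul_one]
    refine (nv_sub_le _ _).trans ?_
    rw [nv_smul]
    have h4 := hop.vecMul (by norm_num) (Pi.single i (u i))
    rw [nv_single] at h4 ⊢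
    nlinarith [norm_nonneg (u i)]
  rw [h2, nv_neg] at h1
  have h5 : nv u ≤ nv x + ‖u i‖ := by
    have h6 : x + Pi.single i (u i) = u := by rw [hx, sub_add_cancel]
    have h8 := nv_add_le x (Pi.single i (u i))
    rw [h6, nv_single] at h8
    exact h8
  rw [hu] at h5
  have h7 : s * nv x ≤ 6 * ‖u i‖ := h1.trans h3
  nlinarith [norm_nonneg (u i), nv_nonneg x]

theorem SOLV_surj (T : Matrix (Fin n) (Fin n) ℂ)
    (hT : ∀ w : Fin n → ℂ, (∀ i : Fin n, (i : ℕ) = 0 → w i = 0) → Tᴴ *ᵥ w = 0 → w = 0)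
    (r : Fin n → ℂ) : ∃ w : Fin n → ℂ, (∀ i : Fin n, (i : ℕ) = 0 → w i = 0) ∧
      ∀ i : Fin n, (i : ℕ) ≠ 0 → (T *ᵥ (Tᴴ *ᵥ w)) i = r i := by
  let P : (Fin n → ℂ) →ₗ[ℂ] (Fin n → ℂ) :=
    { toFun := fun w j => if (j : ℕ) = 0 then 0 else w j
      map_add' := fun v w => by
        funext j
        by_cases hj : (j : ℕ) = 0 <;> simp [hj]
      map_smul' := fun c w => by
        funext j
        by_cases hj : (j : ℕ) = 0 <;> simp [hj] }
  let L : (Fin n → ℂ) →ₗ[ℂ] (Fin n → ℂ) := T.mulVecLin ∘ₗ Tᴴ.mulVecLin ∘ₗ P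
  let F : (Fin n → ℂ) →ₗ[ℂ] (Fin n → ℂ) :=
    { toFun := fun w j => if (j : ℕ) = 0 then w j else L w j
      map_add' := fun v w => by
        funext j
        by_cases hj : (j : ℕ) = 0 <;> simp [hj]
      map_smul' := fun c w => by
        funext j
        by_cases hj : (j : ℕ) = 0 <;> simp [hj] }
  have hP : ∀ w : Fin n → ℂ, (∀ i : Fin n, (i : ℕ) = 0 → w i = 0) → P w = w := by
    intro w hw
    funext j
    change (if (j : ℕ) = 0 then 0 else w j) = w j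
    split_ifs with h
    · exact (hw j h).symm
    · rfl
  have hinj : Function.Injective F := by
    rw [injective_iff_map_eq_zero]
    intro w hw
    have h1 : ∀ j : Fin n, (if (j : ℕ) = 0 then w j else L w j) = 0 := fun j => congrFun hw j
    have h0 : ∀ i : Fin n, (i : ℕ) = 0 → w i = 0 := by
      intro i hi
      simpa [hi] using h1 i
    have h2 : ∀ i : Fin n, (i : ℕ) ≠ 0 → (T *ᵥ (Tᴴ *ᵥ w)) i = 0 := by
      intro i hi
      have := h1 i
      rw [if_neg hi] at this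
      have h3 : L w = T *ᵥ (Tᴴ *ᵥ (P w)) := rfl
      rw [h3, hP w h0] at this
      exact this
    apply hT w h0
    apply nv_eq_zero.1
    have h4 : star (Tᴴ *ᵥ w) ⬝ᵥ (Tᴴ *ᵥ w) = 0 := by
      rw [Matrix.star_mulVec, Matrix.conjTranspose_conjTranspose, ← Matrix.dotProduct_mulVec]
      unfold dotProduct
      refine Finset.sum_eq_zero fun i _ => ?_
      by_cases hi : (i : ℕ) = 0
      · rw [Pi.star_apply, h0 i hi, star_zero, zero_mul]
      · rw [h2 i hi, mul_zero]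
    rw [star_dot_self] at h4
    have h5 : nv (Tᴴ *ᵥ w) ^ 2 = 0 := by exact_mod_cast h4
    exact pow_eq_zero_iff two_ne_zero |>.1 h5
  have hsurj : Function.Surjective F := LinearMap.injective_iff_surjective.1 hinj
  obtain ⟨w, hw⟩ := hsurj (fun j => if (j : ℕ) = 0 then 0 else r j)
  have h1 : ∀ j : Fin n, (if (j : ℕ) = 0 then w j else L w j) = if (j : ℕ) = 0 then 0 else r j :=
    fun j => congrFun hw j
  have h0 : ∀ i : Fin n, (i : ℕ) = 0 → w i = 0 := by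
    intro i hi
    simpa [hi] using h1 i
  refine ⟨w, h0, fun i hi => ?_⟩
  have := h1 i
  rw [if_neg hi, if_neg hi] at this
  have h3 : L w = T *ᵥ (Tᴴ *ᵥ (P w)) := rfl
  rw [h3, hP w h0] at this
  exact this

theorem solv {X : Matrix (Fin n) (Fin n) ℂ} {s : ℝ} (hs : 0 < s) (hs1 : s ≤ 1) (hop : OpLe X 3)
    (hr : RowLB X s) {z : ℂ} (hz : ‖z‖ ≤ 3) {u : Fin n → ℂ} (hu : u ≠ 0)
    (hl : u ᵥ* (z • (1 : Matrix (Fin n) (Fin n) ℂ) - X) = 0) {r : Fin n → ℂ} (hur : u ⬝ᵥ r = 0) :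
    ∃ y : Fin n → ℂ, (z • (1 : Matrix (Fin n) (Fin n) ℂ) - X) *ᵥ y = r ∧ nv y ≤ nv r / s := by
  set T := z • (1 : Matrix (Fin n) (Fin n) ℂ) - X with hT
  have hrow : ∀ x : Fin n → ℂ, (∀ i : Fin n, (i : ℕ) = 0 → x i = 0) → s * nv x ≤ nv (x ᵥ* T) :=
    hr z (by linarith)
  have hcol : ∀ w : Fin n → ℂ, (∀ i : Fin n, (i : ℕ) = 0 → w i = 0) →
      s * nv w ≤ nv (Tᴴ *ᵥ w) := by
    intro w hw
    have h1 := hrow (star w) (fun i hi => by rw [Pi.star_apply, hw i hi, star_zero])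
    have h2 : star w ᵥ* T = star (Tᴴ *ᵥ w) := by
      rw [Matrix.star_mulVec, Matrix.conjTranspose_conjTranspose]
    rw [h2, nv_star, nv_star] at h1
    exact h1
  obtain ⟨w, hw0, hw⟩ := SOLV_surj T (fun w hw h => by
    have h1 := hcol w hw
    rw [h, nv_zero] at h1
    have h2 : nv w = 0 := by nlinarith [nv_nonneg w]
    exact nv_eq_zero.1 h2) r
  have hTy : T *ᵥ (Tᴴ *ᵥ w) = r := by
    funext i
    by_cases hi : (i : ℕ) = 0
    · have hui : u i ≠ 0 := by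
        intro h0
        have h1 := hrow u (fun j hj => by
          have : j = i := Fin.ext (by omega)
          rw [this]; exact h0)
        rw [hl, nv_zero] at h1
        have h2 : nv u = 0 := by nlinarith [nv_nonneg u]
        exact hu (nv_eq_zero.1 h2)
      have h1 : u ⬝ᵥ (T *ᵥ (Tᴴ *ᵥ w) - r) = 0 := by
        rw [dotProduct_sub, Matrix.dotProduct_mulVec, hl, zero_dotProduct, hur, sub_zero]
      have h2 : u ⬝ᵥ (T *ᵥ (Tᴴ *ᵥ w) - r) = u i * ((T *ᵥ (Tᴴ *ᵥ w)) i - r i) := by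
        unfold dotProduct
        rw [Finset.sum_eq_single i]
        · rfl
        · intro j _ hj
          have : (j : ℕ) ≠ 0 := fun h => hj (Fin.ext (by omega))
          rw [Pi.sub_apply, hw j this, sub_self, mul_zero]
        · intro h
          exact absurd (Finset.mem_univ i) h
      rw [h2] at h1
      exact sub_eq_zero.1 ((mul_eq_zero.1 h1).resolve_left hui)
    · exact hw i hi
  refine ⟨Tᴴ *ᵥ w, hTy, ?_⟩
  have h1 : star (Tᴴ *ᵥ w) ⬝ᵥ (Tᴴ *ᵥ w) = star w ⬝ᵥ r := by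
    rw [Matrix.star_mulVec, Matrix.conjTranspose_conjTranspose, ← Matrix.dotProduct_mulVec, hTy]
  rw [star_dot_self] at h1
  have h2 : nv (Tᴴ *ᵥ w) ^ 2 ≤ nv w * nv r := by
    have h3 := norm_dotProduct_le (star w) r
    rw [← h1, nv_star, Complex.norm_real, Real.norm_eq_abs, abs_of_nonneg (by positivity)] at h3
    exact h3
  have h4 := hcol w hw0
  rw [le_div_iff₀ hs]
  by_cases h5 : nv (Tᴴ *ᵥ w) = 0
  · rw [h5, zero_mul]; exact nv_nonneg r
  · have h6 : 0 < nv (Tᴴ *ᵥ w) := lt_of_le_of_ne (nv_nonneg _) (Ne.symm h5)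
    have h7 : nv (Tᴴ *ᵥ w) * (nv (Tᴴ *ᵥ w) * s) ≤ nv (Tᴴ *ᵥ w) * nv r := by
      have h8 : s * (nv w * nv r) ≤ nv (Tᴴ *ᵥ w) * nv r := by
        rw [← mul_assoc]
        exact mul_le_mul_of_nonneg_right h4 (nv_nonneg r)
      nlinarith
    exact le_of_mul_le_mul_left h7 h6

end H6LP
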