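import Pool.Agent.H6.LP.DET
import Pool.Agent.H6.LP.BACK

/-!
# SOLVE: the normalized solution of `(H - Z) x = e₁`

`post_shift`, `post_qr` (right hand side `e₁ (1+e)`), `R` has nonzero diagonal entries since
`‖R x‖ = ‖(X - Z + E) x‖ ≥ (t/2) ‖x‖`; `post_back`; `post_norm`; `x ≠ 0` because `nv (e1 + f) > 0`.
-/

set_option autoImplicit false

open Complex Matrix

namespace H6LP

/-- the error of the quotient `a / ρ̃` -/
theorem solve_quot_err {u δ : ℝ} (hu0 : 0 ≤ u) (hu1 : u ≤ 1 / 100) (hδ0 : 0 ≤ δ) (hδ1 : δ ≤ 1 / 100)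
    {rho t : ℝ} (hr : 0 < rho) (ht : |t - rho| ≤ δ * rho) {a z : ℂ} (hz : Rel u (a / (t : ℂ)) z) :
    ‖z - a / (rho : ℂ)‖ ≤ (1.02 * δ + 1.1 * u) * ‖a / (rho : ℂ)‖ := by
  have ht1 : (1 - δ) * rho ≤ t := by
    have := (abs_le.mp ht).1
    linarith
  have ht0 : 0 < t := by
    have : 0 < (1 - δ) * rho := by
      apply mul_pos _ hr
      linarith
    linarith
  have htc : (t : ℂ) ≠ 0 := by exact_mod_cast ht0.ne'
  have hrc : (rho : ℂ) ≠ 0 := by exact_mod_cast hr.ne'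
  have e1 : a / (t : ℂ) - a / (rho : ℂ) = (a / (rho : ℂ)) * (((rho - t) / t : ℝ) : ℂ) := by
    push_cast
    field_simp
  have hq : |(rho - t) / t| ≤ 1.02 * δ := by
    rw [abs_div, abs_of_pos ht0, div_le_iff₀ ht0, abs_sub_comm]
    refine ht.trans ?_
    have h1 : 1.02 * δ * ((1 - δ) * rho) ≤ 1.02 * δ * t := by gcongr
    have h2 : δ * rho ≤ 1.02 * δ * ((1 - δ) * rho) := by
      have h3 : 1 ≤ 1.02 * (1 - δ) := by linarith
      have h4 : 0 ≤ δ * rho := by positivity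
      nlinarith
    linarith
  have n1 : ‖a / (t : ℂ) - a / (rho : ℂ)‖ ≤ 1.02 * δ * ‖a / (rho : ℂ)‖ := by
    rw [e1, norm_mul, Complex.norm_real, Real.norm_eq_abs, mul_comm]
    gcongr
  have n2 : ‖a / (t : ℂ)‖ ≤ (1 + 1.02 * δ) * ‖a / (rho : ℂ)‖ := by
    have : ‖a / (t : ℂ)‖ ≤ ‖a / (t : ℂ) - a / (rho : ℂ)‖ + ‖a / (rho : ℂ)‖ := by
      simpa using norm_add_le (a / (t : ℂ) - a / (rho : ℂ)) (a / (rho : ℂ))
    linarith
  unfold Rel at hz
  have e2 : z - a / (rho : ℂ) = (z - a / (t : ℂ)) + (a / (t : ℂ) - a / (rho : ℂ)) := by ring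
  rw [e2]
  refine (norm_add_le _ _).trans ?_
  have n3 : u * ‖a / (t : ℂ)‖ ≤ u * ((1 + 1.02 * δ) * ‖a / (rho : ℂ)‖) := by gcongr
  have n4 : u * ((1 + 1.02 * δ) * ‖a / (rho : ℂ)‖) ≤ 1.1 * u * ‖a / (rho : ℂ)‖ := by
    have h3 : (1 + 1.02 * δ) ≤ 1.1 := by linarith
    have h4 : 0 ≤ u * ‖a / (rho : ℂ)‖ := by positivity
    nlinarith
  linarith

/-- an injective upper triangular matrix has nonzero diagonal entries -/
theorem solve_diag_ne {n : ℕ} {R : Matrix (Fin n) (Fin n) ℂ} (hR : UT R)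
    (hinj : ∀ x : Fin n → ℂ, R *ᵥ x = 0 → x = 0) (i : Fin n) : R i i ≠ 0 := by
  have hdet : R.det ≠ 0 := by
    intro h0
    obtain ⟨v, hv, hv0⟩ := Matrix.exists_mulVec_eq_zero_iff.mpr h0
    exact hv (hinj v hv0)
  have htri : R.BlockTriangular id := fun i j hij => hR i j hij
  rw [Matrix.det_of_isUpperTriangular htri] at hdet
  exact (Finset.prod_ne_zero_iff.mp hdet) i (Finset.mem_univ _)

theorem post_solve {ad : Adv} {u : ℝ} (hu : ad.Le u) {n : ℕ} (hn : 1 ≤ n)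
    {env : Env} {x : RMat n n} {z : ℕ} {X : Matrix (Fin n) (Fin n) ℂ} {Z : ℂ} {t : ℝ}
    (hx : HasM env x X) (hz : Has env z Z) (hh : Hess X)
    (hb : ∀ k (hk : k + 1 < n), X ⟨k + 1, hk⟩ ⟨k, by omega⟩ ≠ 0)
    (ht : 0 < t) (ht1 : t ≤ 1) (hcol : ColAt X Z t)
    (hnu : 10 ^ 6 * n ^ 3 * u * (fro X + ‖Z‖ + 1) ≤ t) :
    Post ad (solveP x z) env (fun y env' => ∃ (Y w f : Fin n → ℂ), HasV env' y Y ∧ w ≠ 0 ∧
      (X - Z • (1 : Matrix (Fin n) (Fin n) ℂ)) *ᵥ w = e1 n + f ∧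
      nv f ≤ 1000 * n ^ 2 * u * (1 + (fro X + ‖Z‖) * nv w) ∧
      nv (Y - ((nv w)⁻¹ : ℂ) • w) ≤ 10 * n * u) := by
  have hu0 : 0 ≤ u := hu.nonneg
  have hn1 : (1 : ℝ) ≤ n := by exact_mod_cast hn
  set M := fro X + ‖Z‖ with hM
  have hM0 : 0 ≤ M := add_nonneg (fro_nonneg _) (norm_nonneg _)
  set K := (n : ℝ) ^ 3 * u * (M + 1) with hK
  have hK0 : 0 ≤ K := by positivity
  have hKt : 10 ^ 6 * K ≤ t := by
    rw [hK]
    linarith
  have hn2 : (1 : ℝ) ≤ (n : ℝ) ^ 2 := one_le_pow₀ hn1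
  have h2uM : (n : ℝ) ^ 2 * u * M ≤ K := by
    have h1 : (n : ℝ) ^ 2 * u * M ≤ (n : ℝ) ^ 3 * u * (M + 1) := by
      gcongr
      · norm_num
      · linarith
    exact h1
  have h2u : (n : ℝ) ^ 2 * u ≤ K := by
    have h1 : (n : ℝ) ^ 2 * u * 1 ≤ (n : ℝ) ^ 3 * u * (M + 1) := by
      gcongr
      · norm_num
      · linarith
    linarith
  have h1u : (n : ℝ) * u ≤ K := by
    have h1 : (n : ℝ) * u ≤ (n : ℝ) ^ 2 * u := by
      gcongr
      nlinarith
    linarith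
  have hnu1 : (n : ℝ) * u ≤ 1 / 1000000 := by linarith
  have huu : u ≤ (n : ℝ) * u := by nlinarith
  set F := fro (X - Z • (1 : Matrix (Fin n) (Fin n) ℂ)) with hF
  have hF0 : 0 ≤ F := fro_nonneg _
  have hFM : F ≤ n * M := by
    have h1 : F ≤ fro X + ‖Z‖ * Real.sqrt n := by
      rw [hF, ← fro_smul_one]
      exact fro_sub_le _ _
    have h2 : Real.sqrt n ≤ n := by
      rw [Real.sqrt_le_left (by positivity)]
      nlinarith
    have h3 : ‖Z‖ * Real.sqrt n ≤ ‖Z‖ * n := by gcongr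
    have h4 : fro X ≤ n * fro X := by
      have := fro_nonneg X
      nlinarith
    rw [hM]
    linarith
  have hnuF : (n : ℝ) * u * F ≤ K := by
    have : (n : ℝ) * u * F ≤ n * u * (n * M) := by gcongr
    have h1 : (n : ℝ) * u * (n * M) = (n : ℝ) ^ 2 * u * M := by ring
    linarith
  have huF : u * F ≤ n * u * F := by
    gcongr
  unfold solveP
  refine Post.bind (post_shift hu hx hz) ?_
  rintro tr env1 h1 ⟨T, hT, hTF, hToff⟩
  refine Post.bind (post_cst hu env1 0 0) ?_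
  rintro zz env2 h2 ⟨Z0, hZ0, hZ0'⟩
  have hZ00 : Z0 = 0 := by
    unfold Rel at hZ0'
    simpa using hZ0'
  subst hZ00
  refine Post.bind (post_cst hu env2 1 0) ?_
  rintro one env3 h3 ⟨o, ho, ho'⟩
  have ho2 : ‖o - 1‖ ≤ u := by
    unfold Rel at ho'
    simpa using ho'
  -- the right hand side
  have hyV : HasV env3 (fun i : Fin n => if (i : ℕ) = 0 then one else zz) (o • e1 n) := by
    intro i
    unfold e1
    rw [Pi.smul_apply]
    dsimp only
    split_ifs with c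
    · simpa using ho
    · simpa using hZ0.mono h3
  have hTh : Hess T := by
    intro i j hij
    rw [hToff i j (by intro h; rw [h] at hij; omega)]
    exact hh i j hij
  have hTb : ∀ k (hk : k + 1 < n), T ⟨k + 1, hk⟩ ⟨k, by omega⟩ ≠ 0 := by
    intro k hk
    rw [hToff _ _ (by intro h; rw [Fin.mk.injEq] at h; omega)]
    exact hb k hk
  refine Post.bind (post_qr hu hn (by linarith) (hT.mono (h2.trans h3)) hyV hTh hTb) ?_
  rintro S env4 h4 ⟨Q, E, R, f, Y', hQ, hS1, hS2, hR, hY', hE, hf, hUT, -⟩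
  -- norms
  have hTF2 : fro T ≤ (1 + u) * F := by
    have : fro T ≤ fro (T - (X - Z • (1 : Matrix (Fin n) (Fin n) ℂ))) + F := by
      have := fro_add_le (T - (X - Z • (1 : Matrix (Fin n) (Fin n) ℂ)))
        (X - Z • (1 : Matrix (Fin n) (Fin n) ℂ))
      rwa [sub_add_cancel] at this
    linarith
  have hTF3 : fro T ≤ 1.01 * F := by
    have : (1 + u) * F ≤ 1.01 * F := by
      gcongr
      linarith
    linarith
  have hE2 : fro E ≤ 202 * (n * u * F) := by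
    have : 200 * n * u * fro T ≤ 200 * n * u * (1.01 * F) := by gcongr
    linarith
  have hRF : fro R ≤ 1.1 * F := by
    rw [hR, hQ.fro_mul]
    refine (fro_add_le _ _).trans ?_
    have : 202 * (n * u * F) ≤ 0.01 * F := by
      have : 202 * (n * u) ≤ 0.01 := by linarith
      nlinarith
    linarith
  have hy0 : nv (o • e1 n) ≤ 1.01 := by
    rw [nv_smul, nv_e1 hn, mul_one]
    have : ‖o‖ ≤ ‖o - 1‖ + 1 := by
      simpa using norm_add_le (o - 1) 1
    linarith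
  have hf2 : nv f ≤ 202 * (n * u) := by
    have : 200 * n * u * nv (o • e1 n) ≤ 200 * n * u * 1.01 := by gcongr
    linarith
  -- injectivity
  have hlow : ∀ v : Fin n → ℂ, t * nv v ≤ nv ((X - Z • (1 : Matrix (Fin n) (Fin n) ℂ)) *ᵥ v) := by
    intro v
    have e : (X - Z • (1 : Matrix (Fin n) (Fin n) ℂ)) *ᵥ v =
        -((Z • (1 : Matrix (Fin n) (Fin n) ℂ) - X) *ᵥ v) := by
      rw [← Matrix.neg_mulVec, neg_sub]
    rw [e, nv_neg]
    exact hcol v
  have hinj : ∀ v : Fin n → ℂ, R *ᵥ v = 0 → v = 0 := by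
    intro v hv
    by_contra hne
    have hpos := nv_pos hne
    have e1 : (X - Z • (1 : Matrix (Fin n) (Fin n) ℂ)) *ᵥ v = (T + E) *ᵥ v -
        ((T - (X - Z • (1 : Matrix (Fin n) (Fin n) ℂ))) *ᵥ v + E *ᵥ v) := by
      rw [← Matrix.add_mulVec, ← Matrix.sub_mulVec]
      congr 1
      abel
    have e2 : (T + E) *ᵥ v = 0 := by
      have h5 : nv ((T + E) *ᵥ v) = 0 := by
        rw [← hQ.nv_mulVec, Matrix.mulVec_mulVec, ← hR, hv, nv_zero]
      exact nv_eq_zero.mp h5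
    have e3 := hlow v
    rw [e1, e2, zero_sub, nv_neg] at e3
    have e4 := (nv_add_le ((T - (X - Z • (1 : Matrix (Fin n) (Fin n) ℂ))) *ᵥ v) (E *ᵥ v))
    have e5 := nv_mulVec_le (T - (X - Z • (1 : Matrix (Fin n) (Fin n) ℂ))) v
    have e6 := nv_mulVec_le E v
    have e7 : fro (T - (X - Z • (1 : Matrix (Fin n) (Fin n) ℂ))) * nv v ≤ K * nv v := by
      gcongr
      linarith
    have e8 : fro E * nv v ≤ 202 * K * nv v := by
      gcongr
      linarith
    have e9 : 203 * K * nv v < t * nv v := by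
      apply mul_lt_mul_of_pos_right _ hpos
      linarith
    linarith
  refine Post.bind (post_back hu hn (by linarith) hS1 hS2 hUT (solve_diag_ne hUT hinj)) ?_
  rintro xr env5 h5 ⟨w, hw, hwd⟩
  -- the residual
  set d := R *ᵥ w - Y' with hd
  have hres : (X - Z • (1 : Matrix (Fin n) (Fin n) ℂ)) *ᵥ w = e1 n +
      ((o - 1) • e1 n + f + Qᴴ *ᵥ d - ((T - (X - Z • (1 : Matrix (Fin n) (Fin n) ℂ))) *ᵥ w + E *ᵥ w)) := by
    have g1 : Qᴴ *ᵥ d = (T + E) *ᵥ w - (o • e1 n + f) := by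
      rw [hd, Matrix.mulVec_sub, hR, hY', Matrix.mulVec_mulVec, Matrix.mulVec_mulVec,
        ← Matrix.mul_assoc]
      have : Qᴴ * Q = 1 := hQ
      rw [this, Matrix.one_mul, Matrix.one_mulVec]
    rw [g1, ← Matrix.add_mulVec, sub_smul, one_smul]
    have g2 : (T - (X - Z • (1 : Matrix (Fin n) (Fin n) ℂ)) + E) *ᵥ w =
        (T + E) *ᵥ w - (X - Z • (1 : Matrix (Fin n) (Fin n) ℂ)) *ᵥ w := by
      rw [← Matrix.sub_mulVec]
      congr 1
      abel
    rw [g2]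
    abel
  set f' := ((o - 1) • e1 n + f + Qᴴ *ᵥ d -
    ((T - (X - Z • (1 : Matrix (Fin n) (Fin n) ℂ))) *ᵥ w + E *ᵥ w)) with hf'
  have hw0 := nv_nonneg w
  have hf'b : nv f' ≤ 1000 * n ^ 2 * u * (1 + M * nv w) := by
    have b1 : nv ((o - 1) • e1 n) ≤ u := by
      rw [nv_smul, nv_e1 hn, mul_one]
      exact ho2
    have b2 : nv (Qᴴ *ᵥ d) ≤ 11 * (n * u * F) * nv w := by
      rw [hQ.conjTranspose.nv_mulVec]
      refine hwd.trans ?_
      have : 10 * n * u * fro R ≤ 10 * n * u * (1.1 * F) := by gcongr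
      have h6 : 10 * n * u * fro R * nv w ≤ 10 * n * u * (1.1 * F) * nv w := by gcongr
      linarith
    have b3 : nv ((T - (X - Z • (1 : Matrix (Fin n) (Fin n) ℂ))) *ᵥ w) ≤ (n * u * F) * nv w := by
      refine (nv_mulVec_le _ _).trans ?_
      gcongr
      linarith
    have b4 : nv (E *ᵥ w) ≤ 202 * (n * u * F) * nv w := by
      refine (nv_mulVec_le _ _).trans ?_
      gcongr
    have b5 : nv f' ≤ nv ((o - 1) • e1 n) + nv f + nv (Qᴴ *ᵥ d) +
        (nv ((T - (X - Z • (1 : Matrix (Fin n) (Fin n) ℂ))) *ᵥ w) + nv (E *ᵥ w)) := by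
      rw [hf']
      refine (nv_sub_le _ _).trans ?_
      have c1 := nv_add_le ((o - 1) • e1 n + f) (Qᴴ *ᵥ d)
      have c2 := nv_add_le ((o - 1) • e1 n) f
      have c3 := nv_add_le ((T - (X - Z • (1 : Matrix (Fin n) (Fin n) ℂ))) *ᵥ w) (E *ᵥ w)
      linarith
    have b6 : (n * u * F) * nv w ≤ (n ^ 2 * u * M) * nv w := by
      refine mul_le_mul_of_nonneg_right ?_ hw0
      have h7 : (n : ℝ) * u * F ≤ n * u * (n * M) := by gcongr
      have h8 : (n : ℝ) * u * (n * M) = n ^ 2 * u * M := by ring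
      linarith
    have b7 : (n : ℝ) * u ≤ (n : ℝ) ^ 2 * u := by
      gcongr
      nlinarith
    have b8 : 0 ≤ (n : ℝ) ^ 2 * u := by positivity
    have b9 : 0 ≤ (n ^ 2 * u * M) * nv w := by positivity
    calc nv f' ≤ u + 202 * (n * u) + 11 * (n * u * F) * nv w + ((n * u * F) * nv w +
          202 * (n * u * F) * nv w) := by linarith
      _ ≤ 1000 * (n ^ 2 * u) + 1000 * ((n ^ 2 * u * M) * nv w) := by nlinarith
      _ = 1000 * n ^ 2 * u * (1 + M * nv w) := by ring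
  have hwne : w ≠ 0 := by
    intro h0
    have g1 : nv f' < 1 := by
      have : nv w = 0 := by rw [h0]; exact nv_zero
      rw [this] at hf'b
      linarith
    have g2 : e1 n + f' = 0 := by
      rw [← hres, h0, Matrix.mulVec_zero]
    have g3 : nv (e1 n) = nv f' := by
      have : e1 n = -f' := eq_neg_of_add_eq_zero_left g2
      rw [this, nv_neg]
    rw [nv_e1 hn] at g3
    linarith
  have hwpos := nv_pos hwne
  -- normalization
  refine Post.bind (post_norm hu hn (by linarith) hw) ?_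
  rintro nr env6 h6 ⟨s, hs, hs'⟩
  have hs0 : 0 < s := by
    have g1 := (abs_le.mp hs').1
    have g2 : 4 * n * u * nv w ≤ 1 / 2 * nv w := by
      gcongr
      linarith
    linarith
  have hsc : (s : ℂ) ≠ 0 := by exact_mod_cast hs0.ne'
  refine (post_vecM n _ env6 (fun i b env' => ∃ y, Has env' b y ∧ Rel u (w i / (s : ℂ)) y) ?_ ?_).weaken ?_
  · rintro i b e1 e2 h12 ⟨y, hy1, hy2⟩
    exact ⟨y, hy1.mono h12, hy2⟩
  · intro i env' h'
    exact post_div hu ((hw i).mono (h6.trans h')) (hs.mono h') hsc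
  rintro yr env7 h7 hyr
  choose Y hY1 hY2 using hyr
  refine ⟨Y, w, f', hY1, hwne, hres, hf'b, ?_⟩
  have hfin : nv (Y - ((nv w)⁻¹ : ℂ) • w) ≤ (1.02 * (4 * n * u) + 1.1 * u) * nv (((nv w)⁻¹ : ℂ) • w) := by
    refine nv_le_mul_of_le (by positivity) (fun i => ?_)
    have g1 := solve_quot_err hu0 (by linarith) (by positivity) (by linarith) hwpos hs' (hY2 i)
    have g2 : (((nv w)⁻¹ : ℂ) • w) i = w i / ((nv w : ℝ) : ℂ) := by
      rw [Pi.smul_apply, smul_eq_mul, div_eq_mul_inv, mul_comm]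
    rw [Pi.sub_apply, g2]
    exact g1
  have hone : nv (((nv w)⁻¹ : ℂ) • w) = 1 := by
    rw [nv_smul, norm_inv, Complex.norm_real, Real.norm_eq_abs, abs_of_pos hwpos,
      inv_mul_cancel₀ hwpos.ne']
  rw [hone, mul_one] at hfin
  linarith

end H6LP
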