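import Pool.Agent.H6.LP.DOT

/-!
# SRCH: the powers of 3/2 and the search for the power of two

Each squaring: `t = y (1+θ)`, `|θ| ≤ ε` gives `t' = y² (1+θ')`, `|θ'| ≤ 2ε + ε² + u (1+ε)²`, so
`|θ'| + u ≤ 3 (ε + u)` for small `ε`, `u`.
-/

set_option autoImplicit false

open Complex Matrix

namespace H6LP

/-- one squaring -/
theorem SRCH_sq {u ε y t t' : ℝ} (hu0 : 0 ≤ u) (hε0 : 0 ≤ ε) (hy : 0 < y) (hs : ε + u ≤ 1 / 10)
    (ht : |t - y| ≤ ε * y) (ht' : |t' - t * t| ≤ u * |t * t|) :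
    |t' - y * y| ≤ (3 * ε + 2 * u) * (y * y) ∧ 0 < t := by
  have h1 := abs_le.1 ht
  have ht0 : 0 < t := by nlinarith
  have hyy : 0 < y * y := mul_pos hy hy
  have htu : t ≤ (1 + ε) * y := by nlinarith
  have h2 : t * t ≤ (1 + ε) ^ 2 * (y * y) := by
    calc t * t ≤ ((1 + ε) * y) * ((1 + ε) * y) := by gcongr
      _ = (1 + ε) ^ 2 * (y * y) := by ring
  have h3 : |t * t - y * y| ≤ (ε * y) * ((2 + ε) * y) := by
    have h4 : t * t - y * y = (t - y) * (t + y) := by ring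
    rw [h4, abs_mul]
    have h5 : |t + y| ≤ (2 + ε) * y := by
      rw [abs_of_pos (by linarith)]
      nlinarith
    gcongr
  have h6 : |t' - y * y| ≤ |t' - t * t| + |t * t - y * y| := abs_sub_le _ _ _
  rw [abs_of_pos (mul_pos ht0 ht0)] at ht'
  have h7 : (1 + ε) ^ 2 ≤ 2 := by nlinarith
  have h8 : u * (t * t) ≤ u * (2 * (y * y)) :=
    mul_le_mul_of_nonneg_left (h2.trans (mul_le_mul_of_nonneg_right h7 hyy.le)) hu0
  refine ⟨?_, ht0⟩
  have h9 : (ε * y) * ((2 + ε) * y) ≤ 3 * ε * (y * y) := by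
    have : (ε * y) * ((2 + ε) * y) = (2 + ε) * ε * (y * y) := by ring
    rw [this]
    gcongr
    linarith
  nlinarith

/-- repeated squaring -/
theorem post_sqrs {ad : Adv} {u : ℝ} (hu : ad.Le u) {env : Env} {r : ℕ} {x t0 : ℝ} (hx : 0 < x)
    (hr : Has env r (t0 : ℂ)) (h0 : |t0 - x| ≤ u * x) (m : ℕ) (hm : 4 ^ (m + 1) * u ≤ 1 / 100) :
    Post ad (iterP m (fun _ t => fmulP t t) r) env (fun r' env' => ∃ t : ℝ, Has env' r' (t : ℂ) ∧
      |t - x ^ (2 ^ m)| ≤ 4 ^ (m + 1) * u * x ^ (2 ^ m)) := by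
  have hu0 : 0 ≤ u := hu.nonneg
  -- stronger invariant: `ε_k = (4^k·3 - 2)…`; we use `4^(k+1) u - 3 u ≥ ε_k`
  refine (post_iterP m (fun _ t => fmulP t t) r env (fun k r' env' => ∃ t : ℝ, Has env' r' (t : ℂ) ∧
      |t - x ^ (2 ^ k)| ≤ (4 ^ (k + 1) - 3) * u * x ^ (2 ^ k)) ⟨t0, hr, ?_⟩ ?_).weaken ?_
  · norm_num
    exact h0
  · rintro k hk r' env' henv ⟨t, ht, htb⟩
    refine (post_fmul hu ht ht).weaken ?_
    rintro r2 env2 h2 ⟨t2, ht2, ht2b⟩
    refine ⟨t2, ht2, ?_⟩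
    have hk4 : (4 : ℝ) ^ (k + 1) ≤ 4 ^ (m + 1) := pow_le_pow_right₀ (by norm_num) (by omega)
    have h41 : (4 : ℝ) ≤ 4 ^ (k + 1) := by
      calc (4 : ℝ) = 4 ^ 1 := by norm_num
        _ ≤ 4 ^ (k + 1) := pow_le_pow_right₀ (by norm_num) (by omega)
    have h3 : (4 : ℝ) ^ (k + 1) * u ≤ 1 / 100 := (mul_le_mul_of_nonneg_right hk4 hu0).trans hm
    have hy : 0 < x ^ (2 ^ k) := by positivity
    obtain ⟨h5, -⟩ := SRCH_sq hu0 (ε := (4 ^ (k + 1) - 3) * u) (mul_nonneg (by linarith) hu0) hy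
      (by nlinarith) htb ht2b
    have h6 : x ^ (2 ^ (k + 1)) = x ^ (2 ^ k) * x ^ (2 ^ k) := by
      rw [← pow_add]; congr 1; rw [pow_succ]; ring
    rw [h6]
    refine h5.trans ?_
    gcongr
    rw [pow_succ (4 : ℝ) (k + 1)]
    nlinarith
  · rintro r' env' henv ⟨t, ht, htb⟩
    refine ⟨t, ht, htb.trans ?_⟩
    gcongr
    linarith

/-- the search: the result is `k 2^j` where `j` is the first index with `P₂ < P₁ τ^(k 2^j)` (up to the factors
`0.8`, `1.25`), or `j = m` -/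
theorem post_search {ad : Adv} {u : ℝ} (hu : ad.Le u) {P1 P2 τ : ℝ} (h1 : 0 < P1) (hτ : 1 ≤ τ)
    {p1 p2 : ℕ} (m : ℕ) : ∀ (k : ℕ) (env : Env) (r : ℕ) (t ε : ℝ), 1 ≤ k → 0 ≤ ε →
    Has env p1 (P1 : ℂ) → Has env p2 (P2 : ℂ) → Has env r (t : ℂ) → |t - τ ^ k| ≤ ε * τ ^ k →
    4 ^ (m + 1) * (ε + u) ≤ 1 / 10 →
    Post ad (searchP p1 p2 m r k) env (fun k' _ => ∃ j ≤ m, k' = k * 2 ^ j ∧
      (j < m → P2 < 1.25 * (P1 * τ ^ k')) ∧
      (∀ j', j = j' + 1 → 0.8 * (P1 * τ ^ (k * 2 ^ j')) ≤ P2)) := by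
  have hu0 : 0 ≤ u := hu.nonneg
  induction m with
  | zero =>
    intro k env r t ε hk hε hp1 hp2 hr ht hsm
    refine Post.pure ⟨0, le_rfl, by simp, by simp, ?_⟩
    intro j' hj'
    omega
  | succ m ih =>
    intro k env r t ε hk hε hp1 hp2 hr ht hsm
    have h4 : (4 : ℝ) ^ (m + 1 + 1) = 4 * 4 ^ (m + 1) := by rw [pow_succ]; ring
    have h41 : (1 : ℝ) ≤ 4 ^ (m + 1) := one_le_pow₀ (by norm_num)
    have hεu : ε + u ≤ 1 / 40 := by
      rw [h4] at hsm
      have h5 : 0 ≤ ε + u := by linarith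
      nlinarith
    have hy : 0 < τ ^ k := by positivity
    have hPy : 0 < P1 * τ ^ k := mul_pos h1 hy
    have ht' := abs_le.1 ht
    have ht0 : 0 < t := by nlinarith
    unfold searchP
    refine Post.bind (post_fmul hu hp1 hr) ?_
    rintro xr env1 he1 ⟨x, hx, hxb⟩
    refine Post.bind (post_le hx (hp2.mono he1)) ?_
    rintro b env2 he2 ⟨rfl, hb⟩
    rw [Complex.ofReal_re, Complex.ofReal_re] at hb
    rw [abs_of_pos (mul_pos h1 ht0)] at hxb
    have hxb' := abs_le.1 hxb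
    have hPt1 : P1 * t ≤ (1 + ε) * (P1 * τ ^ k) := by nlinarith
    have hPt2 : (1 - ε) * (P1 * τ ^ k) ≤ P1 * t := by nlinarith
    have hPt0 : 0 < P1 * t := mul_pos h1 ht0
    have hε' : ε ≤ 1 / 40 := by linarith
    have hu' : u ≤ 1 / 40 := by linarith
    have hu2 : u * (P1 * t) ≤ 1 / 40 * (P1 * t) := by gcongr
    have he2' : ε * (P1 * τ ^ k) ≤ 1 / 40 * (P1 * τ ^ k) := by gcongr
    have hxu : x < 1.25 * (P1 * τ ^ k) := by nlinarith
    have hxl : 0.8 * (P1 * τ ^ k) ≤ x := by nlinarith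
    by_cases hbb : b = true
    · have hle := hb.1 hbb
      rw [if_pos hbb]
      refine Post.bind (post_fmul hu (hr.mono he1) (hr.mono he1)) ?_
      rintro r3 env3 he3 ⟨t3, ht3, ht3b⟩
      obtain ⟨h5, -⟩ := SRCH_sq hu0 hε hy (by linarith) ht ht3b
      have h6 : τ ^ (2 * k) = τ ^ k * τ ^ k := by rw [← pow_add]; congr 1; ring
      rw [← h6] at h5
      refine (ih (2 * k) env3 r3 t3 (3 * ε + 2 * u) (by omega) (by positivity)
        (hp1.mono (he1.trans he3)) (hp2.mono (he1.trans he3)) ht3 h5 ?_).weaken ?_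
      · refine le_trans ?_ hsm
        rw [h4]
        have h7 : 0 ≤ ε + u := by linarith
        calc 4 ^ (m + 1) * (3 * ε + 2 * u + u) = 4 ^ (m + 1) * (3 * (ε + u)) := by ring
          _ ≤ 4 ^ (m + 1) * (4 * (ε + u)) := by gcongr; linarith
          _ = 4 * 4 ^ (m + 1) * (ε + u) := by ring
      · rintro k' env' henv' ⟨j, hj, hk', hs1, hs2⟩
        refine ⟨j + 1, by omega, by rw [hk', pow_succ]; ring, fun hjm => hs1 (by omega), ?_⟩
        intro j' hj'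
        have hjj : j' = j := by omega
        subst hjj
        rcases Nat.eq_zero_or_pos j' with h0 | h0
        · subst h0
          simp only [pow_zero, mul_one]
          linarith
        · obtain ⟨i, rfl⟩ : ∃ i, j' = i + 1 := ⟨j' - 1, by omega⟩
          have := hs2 i rfl
          have h8 : 2 * k * 2 ^ i = k * 2 ^ (i + 1) := by rw [pow_succ]; ring
          rw [h8] at this
          exact this
    · rw [if_neg hbb]
      have hlt : P2 < x := by
        by_contra hge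
        push Not at hge
        exact hbb (hb.2 hge)
      refine Post.pure ⟨0, Nat.zero_le _, by simp, fun _ => by linarith, ?_⟩
      intro j' hj'
      omega

end H6LP
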