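import Pool.Agent.H6.LP.CIRC
import Pool.Agent.H6.LP.SRCH
import Pool.Agent.H6.LP.RATIO
import Pool.Agent.H6.LP.INV

/-!
# TEST: the soft count of one disc

`e = nodeE l kh`, `N = 2^e ≥ 1000 (kh+1) l`, `N ≤ 2000 (kh+1) l ≤ 200000 n l`, `K = N/16`.  The nodes are good
(`HCtx.node`), so `post_circ` applies (`t = 2^-(5l+1)`), `∏ |det| = PiN`; `κ = 2^-(5l+5)` in `ratio`
(`ColAt.dist_root`: the distances are `≥ 2^-(5l+1) ≥ κ 4 r`).  With the factors `0.99^N`, `1.01^N`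
(`(1.01/0.99)^16 ≤ 3/2`): `P₁ (3/2)^(16 K m2) ≤ P₂ (3/2)^(2K)` and `P₂ ≤ P₁ (3/2)^(16 K m3 + 2K)`.
The first comparison: threshold `(3/2)^(8K)`; the search: `τ = (3/2)^(16K)`.
-/

set_option autoImplicit false

open Complex Matrix

namespace H6LP

/-- numerical facts about the parameters -/
theorem nodeE_bounds {n l kh : ℕ} (hn : 1 ≤ n) (hl : 100 ≤ l) (hkh : kh ≤ 98 * n) :
    1000 * (kh + 1) * l ≤ 2 ^ nodeE l kh ∧ 2 ^ nodeE l kh ≤ 200000 * n * l ∧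
    4 ≤ nodeE l kh ∧ 2 ^ nodeE l kh = 16 * (2 ^ (nodeE l kh - 4)) := by
  have h1 : 1000 * (kh + 1) * l ≤ 2 ^ nodeE l kh := Nat.le_pow_clog (by norm_num) _
  have hbig : 100000 ≤ 1000 * (kh + 1) * l := by
    calc 100000 = 1000 * 1 * 100 := by norm_num
      _ ≤ 1000 * (kh + 1) * l := by gcongr; omega
  have h4 : 4 ≤ nodeE l kh := by
    by_contra hlt
    push Not at hlt
    have h5 : 2 ^ nodeE l kh ≤ 2 ^ 3 := Nat.pow_le_pow_right (by norm_num) (by omega)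
    omega
  have h2 : 2 ^ (nodeE l kh - 1) < 1000 * (kh + 1) * l := by
    have := Nat.pow_pred_clog_lt_self (b := 2) (by norm_num) (x := 1000 * (kh + 1) * l) (by omega)
    simpa [nodeE, Nat.pred_eq_sub_one] using this
  have h3 : 2 ^ nodeE l kh = 2 * 2 ^ (nodeE l kh - 1) := by
    rw [← pow_succ']
    congr 1
    omega
  refine ⟨h1, ?_, h4, ?_⟩
  · have h6 : 1000 * (kh + 1) * l ≤ 1000 * (98 * n + 1) * l := by gcongr
    have h7 : 1000 * (98 * n + 1) * l ≤ 1000 * (100 * n) * l := by gcongr; omega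
    have h8 : 1000 * (100 * n) * l = 100000 * n * l := by ring
    have h9 : 200000 * n * l = 2 * (100000 * n * l) := by ring
    omega
  · have : (16 : ℕ) = 2 ^ 4 := by norm_num
    rw [this, ← pow_add]
    congr 1
    omega

theorem TEST_l_lt (l : ℕ) : (l : ℝ) ≤ 2 ^ l := by
  exact_mod_cast (Nat.lt_two_pow_self (n := l)).le

/-- `n^25 ≤ 2^(l-100)` in a usable form -/
theorem TEST_n25 {n l : ℕ} (hl : 100 ≤ l) (hnl : (n : ℝ) ^ 25 ≤ 2 ^ (l - 100)) :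
    (2 : ℝ) ^ 100 * (n : ℝ) ^ 25 ≤ 2 ^ l := by
  calc (2 : ℝ) ^ 100 * (n : ℝ) ^ 25 ≤ 2 ^ 100 * 2 ^ (l - 100) := by gcongr
    _ = 2 ^ l := by rw [← pow_add]; congr 1; omega

theorem TEST_u {l : ℕ} {u : ℝ} (hu : u ≤ (2 : ℝ)⁻¹ ^ (8 * l)) : u * (2 ^ l) ^ 8 ≤ 1 := by
  calc u * ((2 : ℝ) ^ l) ^ 8 ≤ (2 : ℝ)⁻¹ ^ (8 * l) * (2 ^ l) ^ 8 := by gcongr
    _ = 1 := by
      rw [← pow_mul, mul_comm l 8, ← mul_pow]
      norm_num

/-- the master inequality -/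
theorem TEST_master {n l kh : ℕ} {u : ℝ} (hn : 1 ≤ n) (hl : 100 ≤ l) (hkh : kh ≤ 98 * n)
    (hnl : (n : ℝ) ^ 25 ≤ 2 ^ (l - 100)) (hu0 : 0 ≤ u) (hu : u ≤ (2 : ℝ)⁻¹ ^ (8 * l)) :
    (2 : ℝ) ^ 64 * (n : ℝ) ^ 4 * ((2 : ℝ) ^ nodeE l kh) ^ 2 * (2 ^ l) ^ 5 * u ≤ 1 := by
  have hn1 : (1 : ℝ) ≤ n := by exact_mod_cast hn
  have hN : (2 : ℝ) ^ nodeE l kh ≤ 200000 * n * l := by
    exact_mod_cast (nodeE_bounds hn hl hkh).2.1
  have hN0 : (0 : ℝ) ≤ (2 : ℝ) ^ nodeE l kh := by positivity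
  have hL := TEST_l_lt l
  have h25 := TEST_n25 hl hnl
  have hl0 : (0 : ℝ) ≤ l := by positivity
  set L : ℝ := (2 : ℝ) ^ l with hLdef
  have hL0 : 0 ≤ L := by positivity
  have h1 : ((2 : ℝ) ^ nodeE l kh) ^ 2 ≤ (200000 * n * L) ^ 2 := by
    apply pow_le_pow_left₀ hN0
    calc (2 : ℝ) ^ nodeE l kh ≤ 200000 * n * l := hN
      _ ≤ 200000 * n * L := by gcongr
  have h2 : (2 : ℝ) ^ 64 * (n : ℝ) ^ 4 * ((2 : ℝ) ^ nodeE l kh) ^ 2 ≤ L ^ 3 := by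
    calc (2 : ℝ) ^ 64 * (n : ℝ) ^ 4 * ((2 : ℝ) ^ nodeE l kh) ^ 2
        ≤ (2 : ℝ) ^ 64 * (n : ℝ) ^ 4 * (200000 * n * L) ^ 2 := by gcongr
      _ = (2 ^ 64 * 200000 ^ 2 * (n : ℝ) ^ 6) * L ^ 2 := by ring
      _ ≤ (2 ^ 100 * (n : ℝ) ^ 25) * L ^ 2 := by
          gcongr
          · norm_num
          · norm_num
      _ ≤ L * L ^ 2 := by gcongr
      _ = L ^ 3 := by ring
  calc (2 : ℝ) ^ 64 * (n : ℝ) ^ 4 * ((2 : ℝ) ^ nodeE l kh) ^ 2 * L ^ 5 * u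
      ≤ L ^ 3 * L ^ 5 * u := by gcongr
    _ = u * L ^ 8 := by ring
    _ ≤ 1 := TEST_u hu

theorem TEST_norm_grd {j : ℕ} {a b : ℤ} (ha : |a| ≤ 3 * 2 ^ j) (hb : |b| ≤ 3 * 2 ^ j) :
    ‖grd (rad j) a b‖ ≤ 24 := by
  have hr : rad j * 2 ^ j = 4 := by unfold rad; field_simp
  have hr0 : 0 ≤ rad j := by unfold rad; positivity
  have ha' : |(a : ℝ)| ≤ 3 * 2 ^ j := by exact_mod_cast ha
  have hb' : |(b : ℝ)| ≤ 3 * 2 ^ j := by exact_mod_cast hb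
  unfold grd
  refine (norm_add_le _ _).trans ?_
  rw [norm_mul, Complex.norm_I, mul_one, Complex.norm_real, Complex.norm_real, Real.norm_eq_abs,
    Real.norm_eq_abs, abs_mul, abs_mul, abs_of_nonneg hr0]
  nlinarith

/-- the far roots -/
theorem TEST_far {n l kh : ℕ} (hn : 1 ≤ n) (hl : 100 ≤ l) (hkh : kh ≤ 98 * n)
    (hnl : (n : ℝ) ^ 25 ≤ 2 ^ (l - 100)) :
    n * (3 / 4 : ℝ) ^ (2 ^ nodeE l kh) ≤ 1 / 16 := by
  have hn1 : (1 : ℝ) ≤ n := by exact_mod_cast hn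
  have h1 : 1000 * l ≤ 2 ^ nodeE l kh := by
    have := (nodeE_bounds hn hl hkh).1
    nlinarith
  have h25 := TEST_n25 hl hnl
  have h2 : (3 / 4 : ℝ) ^ (2 ^ nodeE l kh) ≤ (3 / 4 : ℝ) ^ (3 * l) :=
    pow_le_pow_of_le_one (by norm_num) (by norm_num) (by omega)
  have h3 : (3 / 4 : ℝ) ^ (3 * l) ≤ (1 / 2 : ℝ) ^ l := by
    rw [pow_mul]
    apply pow_le_pow_left₀ (by norm_num)
    norm_num
  have h4 : (1 / 2 : ℝ) ^ l * 2 ^ l = 1 := by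
    rw [← mul_pow]; norm_num
  have h5 : (n : ℝ) ≤ (n : ℝ) ^ 25 := by
    calc (n : ℝ) = (n : ℝ) ^ 1 := by ring
      _ ≤ (n : ℝ) ^ 25 := by gcongr; norm_num
  have h6 : (n : ℝ) * 16 ≤ 2 ^ l := by
    nlinarith
  have h7 : 0 ≤ (1 / 2 : ℝ) ^ l := by positivity
  calc n * (3 / 4 : ℝ) ^ (2 ^ nodeE l kh) ≤ n * (1 / 2 : ℝ) ^ l := by
        gcongr; exact h2.trans h3
    _ = (n * 16) * (1 / 2 : ℝ) ^ l / 16 := by ring
    _ ≤ 2 ^ l * (1 / 2 : ℝ) ^ l / 16 := by gcongr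
    _ = 1 / 16 := by rw [mul_comm, h4]

/-- the near roots -/
theorem TEST_kap {n l kh : ℕ} (hn : 1 ≤ n) (hl : 100 ≤ l) (hkh : kh ≤ 98 * n) :
    (4 / (2 : ℝ)⁻¹ ^ (5 * l + 5)) ^ kh * 4 ≤ (3 / 2 : ℝ) ^ (2 ^ (nodeE l kh - 4)) := by
  have hb := nodeE_bounds hn hl hkh
  set K := 2 ^ (nodeE l kh - 4) with hK
  have h1 : 62 * (kh + 1) * l ≤ K := by
    have := hb.1
    rw [hb.2.2.2] at this
    have h3 : 62 * (kh + 1) * l * 16 ≤ 1000 * (kh + 1) * l := by nlinarith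
    omega
  have h2 : (4 / (2 : ℝ)⁻¹ ^ (5 * l + 5)) = 2 ^ (5 * l + 7) := by
    rw [inv_pow, div_inv_eq_mul]
    have : (4 : ℝ) = 2 ^ 2 := by norm_num
    rw [this, ← pow_add]
    congr 1
    omega
  rw [h2, ← pow_mul]
  have h3 : (2 : ℝ) ^ ((5 * l + 7) * kh) * 4 = 2 ^ ((5 * l + 7) * kh + 2) := by
    rw [pow_add]; norm_num
  rw [h3]
  have h4 : (5 * l + 7) * kh + 2 ≤ K / 2 := by
    have h5 : 2 * ((5 * l + 7) * kh + 2) ≤ 62 * (kh + 1) * l := by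
      nlinarith [Nat.zero_le (kh * l), Nat.zero_le kh, Nat.mul_le_mul_left kh hl]
    omega
  calc (2 : ℝ) ^ ((5 * l + 7) * kh + 2) ≤ 2 ^ (K / 2) := by gcongr; norm_num
    _ ≤ ((3 / 2 : ℝ) ^ 2) ^ (K / 2) := by gcongr; norm_num
    _ = (3 / 2 : ℝ) ^ (2 * (K / 2)) := by rw [← pow_mul]
    _ ≤ (3 / 2 : ℝ) ^ K := by gcongr; · norm_num
                              · omega

/-- the comparison of the computed products -/
theorem TEST_cmp {N K m2' m3' : ℕ} (hNK : N = 16 * K) {D1 D2 P1 P2 : ℝ} (h1 : 0 < D1) (h2 : 0 < D2)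
    (hP1l : (0.99 : ℝ) ^ N * D1 ≤ P1) (hP1u : P1 ≤ (1.01 : ℝ) ^ N * D1)
    (hP2l : (0.99 : ℝ) ^ N * D2 ≤ P2) (hP2u : P2 ≤ (1.01 : ℝ) ^ N * D2)
    (hA : D1 * (3 / 2 : ℝ) ^ (16 * K * m2') ≤ D2 * (3 / 2 : ℝ) ^ K)
    (hB : D2 ≤ D1 * (3 / 2 : ℝ) ^ (16 * K * m3' + K)) :
    P1 * (3 / 2 : ℝ) ^ (16 * K * m2') ≤ P2 * (3 / 2 : ℝ) ^ (2 * K) ∧
      P2 ≤ P1 * (3 / 2 : ℝ) ^ (16 * K * m3' + 2 * K) := by
  have hk : (1.01 : ℝ) ^ N ≤ (0.99 : ℝ) ^ N * (3 / 2 : ℝ) ^ K := by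
    rw [hNK, pow_mul, pow_mul, ← mul_pow]
    gcongr
    norm_num
  constructor
  · calc P1 * (3 / 2 : ℝ) ^ (16 * K * m2') ≤ ((1.01 : ℝ) ^ N * D1) * (3 / 2 : ℝ) ^ (16 * K * m2') := by
          gcongr
      _ = (1.01 : ℝ) ^ N * (D1 * (3 / 2 : ℝ) ^ (16 * K * m2')) := by ring
      _ ≤ ((0.99 : ℝ) ^ N * (3 / 2 : ℝ) ^ K) * (D2 * (3 / 2 : ℝ) ^ K) := by gcongr
      _ = ((0.99 : ℝ) ^ N * D2) * (3 / 2 : ℝ) ^ (2 * K) := by rw [two_mul, pow_add]; ring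
      _ ≤ P2 * (3 / 2 : ℝ) ^ (2 * K) := by gcongr
  · calc P2 ≤ (1.01 : ℝ) ^ N * D2 := hP2u
      _ ≤ ((0.99 : ℝ) ^ N * (3 / 2 : ℝ) ^ K) * (D1 * (3 / 2 : ℝ) ^ (16 * K * m3' + K)) := by gcongr
      _ = ((0.99 : ℝ) ^ N * D1) * (3 / 2 : ℝ) ^ (16 * K * m3' + 2 * K) := by
          rw [show 16 * K * m3' + 2 * K = K + (16 * K * m3' + K) by ring, pow_add (3 / 2 : ℝ) K]
          ring
      _ ≤ P1 * (3 / 2 : ℝ) ^ (16 * K * m3' + 2 * K) := by gcongr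

/-- comparison of exponents -/
theorem TEST_exp {P c : ℝ} (hP : 0 < P) {a b : ℕ} (h : c * (P * (3 / 2 : ℝ) ^ a) ≤ P * (3 / 2 : ℝ) ^ b)
    (hc : (1 / 2 : ℝ) < c) : a ≤ b + 1 := by
  by_contra hlt
  push Not at hlt
  have h1 : (3 / 2 : ℝ) ^ (b + 2) ≤ (3 / 2 : ℝ) ^ a := by
    gcongr
    · norm_num
    · omega
  have h3 : c * (P * (3 / 2 : ℝ) ^ (b + 2)) ≤ P * (3 / 2 : ℝ) ^ b :=
    le_trans (by gcongr) h
  have h4 : 0 < P * (3 / 2 : ℝ) ^ b := by positivity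
  have h5 : c * (P * (3 / 2 : ℝ) ^ (b + 2)) = (c * (9 / 4)) * (P * (3 / 2 : ℝ) ^ b) := by
    rw [pow_add]; ring
  rw [h5] at h3
  nlinarith

/-- bounds for the first comparison -/
theorem TEST_arith {P1 y Nu T u x8 : ℝ} (hP1 : 0 < P1) (hy0 : 0 < y) (hu0 : 0 ≤ u) (huN : u ≤ Nu)
    (hNu : Nu ≤ 1 / 1000000) (hTb : |T - y| ≤ Nu * y) (hx8b : |x8 - P1 * T| ≤ u * |P1 * T|) :
    x8 ≤ 1.1 * (P1 * y) ∧ 0.9 * (P1 * y) ≤ x8 ∧ 0 < T := by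
  have hTb' := abs_le.1 hTb
  have hT0 : 0 < T := by nlinarith
  rw [abs_of_pos (mul_pos hP1 hT0)] at hx8b
  have hx8b' := abs_le.1 hx8b
  have hPy : 0 < P1 * y := mul_pos hP1 hy0
  have hPT1 : P1 * T ≤ (1 + Nu) * (P1 * y) := by nlinarith
  have hPT2 : (1 - Nu) * (P1 * y) ≤ P1 * T := by nlinarith
  have hPT0 : 0 < P1 * T := mul_pos hP1 hT0
  have hNu0 : 0 ≤ Nu := hu0.trans huN
  have h1 : P1 * T ≤ 1.01 * (P1 * y) := by nlinarith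
  have h2 : 0.99 * (P1 * y) ≤ P1 * T := by nlinarith
  have h3 : u * (P1 * T) ≤ 0.01 * (P1 * T) := by nlinarith
  refine ⟨by nlinarith, by nlinarith, hT0⟩

/-- the error of the square -/
theorem TEST_arith2 {y Nu T u t : ℝ} (hy0 : 0 < y) (hu0 : 0 ≤ u) (huN : u ≤ Nu)
    (hNu : Nu ≤ 1 / 1000000) (hTb : |T - y| ≤ Nu * y) (ht : |t - T * T| ≤ u * |T * T|) :
    |t - y * y| ≤ 4 * Nu * (y * y) := by
  have hTb' := abs_le.1 hTb
  have hNu0 : 0 ≤ Nu := hu0.trans huN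
  have hT0 : 0 < T := by nlinarith
  have hyy : 0 < y * y := mul_pos hy0 hy0
  have hT1 : T ≤ (1 + Nu) * y := by nlinarith
  have hTT : T * T ≤ 1.01 * (y * y) := by
    calc T * T ≤ ((1 + Nu) * y) * ((1 + Nu) * y) := by gcongr
      _ = (1 + Nu) ^ 2 * (y * y) := by ring
      _ ≤ 1.01 * (y * y) := by
        gcongr
        nlinarith
  have h1 : |T * T - y * y| ≤ Nu * y * (2.1 * y) := by
    have : T * T - y * y = (T - y) * (T + y) := by ring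
    rw [this, abs_mul]
    have h2 : |T + y| ≤ 2.1 * y := by
      rw [abs_of_pos (by linarith)]
      nlinarith
    gcongr
  have h3 : |t - y * y| ≤ |t - T * T| + |T * T - y * y| := abs_sub_le _ _ _
  rw [abs_of_pos (mul_pos hT0 hT0)] at ht
  have h4 : u * (T * T) ≤ Nu * (1.01 * (y * y)) := by gcongr
  have h5 : 0 ≤ Nu * (y * y) := by positivity
  nlinarith

/-- the last part of the program -/
theorem TEST_tail {ad : Adv} {u : ℝ} (hu : ad.Le u) {P1 P2 Nu T : ℝ} {K m2' m3' M : ℕ} (hu0 : 0 ≤ u)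
    (hP1 : 0 < P1) (hP2 : 0 < P2) (hK1 : 1 ≤ K) (huN : u ≤ Nu) (hNu : Nu ≤ 1 / 1000000)
    (hTb : |T - (3 / 2 : ℝ) ^ (8 * K)| ≤ Nu * (3 / 2 : ℝ) ^ (8 * K))
    (h4M : 4 ^ (M + 1) * (4 * Nu + u) ≤ 1 / 10) (hm2M : m2' ≤ 2 ^ M)
    (hA : P1 * (3 / 2 : ℝ) ^ (16 * K * m2') ≤ P2 * (3 / 2 : ℝ) ^ (2 * K))
    (hB : P2 ≤ P1 * (3 / 2 : ℝ) ^ (16 * K * m3' + 2 * K))
    {env : Env} {p1 p2 tr : ℕ} (hp1 : Has env p1 (P1 : ℂ)) (hp2 : Has env p2 (P2 : ℂ))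
    (hT : Has env tr (T : ℂ)) :
    Post ad (do
      let x ← fmulP p1 tr
      let b0 ← leP x p2
      if b0 = true then do
          let T0 ← fmulP tr tr
          searchP p1 p2 M T0 1
        else pure 0) env (fun k _ => m2' ≤ k ∧ k ≤ 2 * m3') := by
  set y : ℝ := (3 / 2 : ℝ) ^ (8 * K) with hy
  have hy0 : 0 < y := by positivity
  have hyy : y * y = (3 / 2 : ℝ) ^ (16 * K) := by rw [hy, ← pow_add]; congr 1; ring
  refine Post.bind (post_fmul hu hp1 hT) ?_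
  rintro xr env8 h8 ⟨x8, hx8, hx8b⟩
  obtain ⟨hxu, hxl, hT0⟩ := TEST_arith hP1 hy0 hu0 huN hNu hTb hx8b
  refine Post.bind (post_le hx8 (hp2.mono h8)) ?_
  rintro b0 env9 h9 ⟨rfl, hb0⟩
  rw [Complex.ofReal_re, Complex.ofReal_re] at hb0
  by_cases hbb : b0 = true
  · have hle := hb0.1 hbb
    rw [if_pos hbb]
    -- `m3 ≥ 1`
    have hm3pos : 1 ≤ m3' := by
      by_contra hlt
      have hm0 : m3' = 0 := by omega
      have h10 : 0.9 * (P1 * (3 / 2 : ℝ) ^ (8 * K)) ≤ P1 * (3 / 2 : ℝ) ^ (16 * K * m3' + 2 * K) :=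
        (hxl.trans hle).trans hB
      have := TEST_exp hP1 h10 (by norm_num)
      rw [hm0] at this
      omega
    refine Post.bind (post_fmul hu (hT.mono h8) (hT.mono h8)) ?_
    rintro r0 env10 h10 ⟨t0, ht0, ht0b⟩
    have ht0c := TEST_arith2 hy0 hu0 huN hNu hTb ht0b
    rw [hyy] at ht0c
    refine (post_search hu (P1 := P1) (P2 := P2) (τ := (3 / 2 : ℝ) ^ (16 * K)) hP1
      (one_le_pow₀ (by norm_num)) M 1 env10 r0 t0 (4 * Nu) le_rfl (by linarith [hu0.trans huN])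
      (hp1.mono (h8.trans h10)) (hp2.mono (h8.trans h10)) ht0 (by rw [pow_one]; exact ht0c) h4M).weaken ?_
    rintro k' env11 h11 ⟨j, hj, hk', hs1, hs2⟩
    rw [one_mul] at hk'
    constructor
    · by_contra hlt
      push Not at hlt
      have hjM : j < M := by
        rcases Nat.lt_or_ge j M with h | h
        · exact h
        · exfalso
          have : 2 ^ M ≤ 2 ^ j := Nat.pow_le_pow_right (by norm_num) h
          omega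
      have h12 := (hs1 hjM).le
      rw [← pow_mul] at h12
      have h13 : P1 * (3 / 2 : ℝ) ^ (16 * K * m2') ≤ 1.25 * (P1 * (3 / 2 : ℝ) ^ (16 * K * k' + 2 * K)) := by
        refine hA.trans ?_
        calc P2 * (3 / 2 : ℝ) ^ (2 * K) ≤ 1.25 * (P1 * (3 / 2 : ℝ) ^ (16 * K * k')) * (3 / 2 : ℝ) ^ (2 * K) := by
              gcongr
          _ = 1.25 * (P1 * (3 / 2 : ℝ) ^ (16 * K * k' + 2 * K)) := by rw [pow_add]; ring
      have h14 : 0.8 * (P1 * (3 / 2 : ℝ) ^ (16 * K * m2')) ≤ P1 * (3 / 2 : ℝ) ^ (16 * K * k' + 2 * K) := by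
        linarith
      have := TEST_exp hP1 h14 (by norm_num)
      have h15 : 16 * K * (k' + 1) ≤ 16 * K * m2' := Nat.mul_le_mul_left _ hlt
      have h16 : 16 * K * (k' + 1) = 16 * K * k' + 16 * K := by ring
      omega
    · rcases Nat.eq_zero_or_pos j with h0 | h0
      · subst h0
        simp only [pow_zero] at hk'
        omega
      · obtain ⟨j', rfl⟩ : ∃ j', j = j' + 1 := ⟨j - 1, by omega⟩
        have h12 := hs2 j' rfl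
        rw [one_mul, ← pow_mul] at h12
        have h13 := TEST_exp hP1 (h12.trans hB) (by norm_num)
        have h14 : 2 ^ j' ≤ m3' := by
          by_contra hlt
          push Not at hlt
          have h15 : 16 * K * (m3' + 1) ≤ 16 * K * 2 ^ j' := Nat.mul_le_mul_left _ hlt
          have h16 : 16 * K * (m3' + 1) = 16 * K * m3' + 16 * K := by ring
          omega
        rw [hk', pow_succ]
        omega
  · rw [if_neg hbb]
    refine Post.pure ⟨?_, Nat.zero_le _⟩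
    have hlt : P2 < x8 := by
      by_contra hge
      push Not at hge
      exact hbb (hb0.2 hge)
    by_contra hm
    push Not at hm
    have h10 : 0.9 * (P1 * (3 / 2 : ℝ) ^ (16 * K * m2')) ≤ P1 * (3 / 2 : ℝ) ^ (10 * K) := by
      have h11 : P2 * (3 / 2 : ℝ) ^ (2 * K) ≤ 1.1 * (P1 * y) * (3 / 2 : ℝ) ^ (2 * K) := by
        gcongr
        linarith
      have h12 : 1.1 * (P1 * y) * (3 / 2 : ℝ) ^ (2 * K) = 1.1 * (P1 * (3 / 2 : ℝ) ^ (10 * K)) := by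
        rw [hy, show 10 * K = 8 * K + 2 * K by ring, pow_add]; ring
      have h13 := hA.trans h11
      rw [h12] at h13
      have h14 : 0 < P1 * (3 / 2 : ℝ) ^ (10 * K) := by positivity
      linarith
    have := TEST_exp hP1 h10 (by norm_num)
    have h15 : 16 * K * 1 ≤ 16 * K * m2' := Nat.mul_le_mul_left _ hm
    omega

theorem post_test {ad : Adv} {u : ℝ} (hu : ad.Le u) {n l : ℕ} {X : Matrix (Fin n) (Fin n) ℂ}
    {lam : Fin n → ℂ} {φ Φ : ℂ} (hX : HCtx l X lam φ u) {env : Env} {x : RMat n n} {φr : ℕ}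
    (hx : HasM env x X) (hφ : Has env φr Φ) (hΦ : ‖Φ - φ‖ ≤ 40 * u)
    {j : ℕ} (hj1 : 1 ≤ j) (hj : j ≤ l + 2) {a b : ℤ} (ha : |a| ≤ 3 * 2 ^ j) (hb : |b| ≤ 3 * 2 ^ j)
    {kh : ℕ} (hkh : kh ≤ 98 * n) (h4 : m4 lam (grd (rad j) a b) (rad j) ≤ kh) :
    Post ad (testP l x φr (4 / 2 ^ j) a b kh) env (fun k _ =>
      m2 lam (grd (rad j) a b) (rad j) ≤ k ∧ k ≤ 2 * m3 lam (grd (rad j) a b) (rad j)) := by
  obtain ⟨hn, hl, hnl, hess, hsub, hfrob, hdet, hlamb, hφ1, hnode, hu0, hul⟩ := hX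
  have hn1 : (1 : ℝ) ≤ n := by exact_mod_cast hn
  have hEb := nodeE_bounds hn hl hkh
  have hmaster := TEST_master hn hl hkh hnl hu0 hul
  have hfar := TEST_far hn hl hkh hnl
  have hkap := TEST_kap hn hl hkh
  set e := nodeE l kh with he
  set K := 2 ^ (e - 4) with hK
  set c := grd (rad j) a b with hc
  have hNR : ((2 : ℝ) ^ e) = (2 ^ e : ℕ) := by push_cast; rfl
  have hN1 : (1 : ℝ) ≤ (2 : ℝ) ^ e := one_le_pow₀ (by norm_num)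
  have hL1 : (1 : ℝ) ≤ (2 : ℝ) ^ l := one_le_pow₀ (by norm_num)
  have hK1 : 1 ≤ K := Nat.one_le_two_pow
  -- consequences of the master inequality
  have hm1 : (2 : ℝ) ^ 64 * (n : ℝ) ^ 4 * ((2 : ℝ) ^ e) ^ 2 * u ≤ 1 := by
    calc (2 : ℝ) ^ 64 * (n : ℝ) ^ 4 * ((2 : ℝ) ^ e) ^ 2 * u
        ≤ (2 : ℝ) ^ 64 * (n : ℝ) ^ 4 * ((2 : ℝ) ^ e) ^ 2 * (2 ^ l) ^ 5 * u := by
          apply mul_le_mul_of_nonneg_right _ hu0
          exact le_mul_of_one_le_right (by positivity) (one_le_pow₀ hL1)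
      _ ≤ 1 := hmaster
  have hm2 : (2 : ℝ) ^ 64 * ((n : ℝ) ^ 2 * (((2 : ℝ) ^ e) ^ 2 * u)) ≤ 1 := by
    refine le_trans ?_ hm1
    calc (2 : ℝ) ^ 64 * ((n : ℝ) ^ 2 * (((2 : ℝ) ^ e) ^ 2 * u))
        = (2 : ℝ) ^ 64 * (n : ℝ) ^ 2 * ((2 : ℝ) ^ e) ^ 2 * u := by ring
      _ ≤ (2 : ℝ) ^ 64 * (n : ℝ) ^ 4 * ((2 : ℝ) ^ e) ^ 2 * u := by
          gcongr
          norm_num
  have hm3 : (2 : ℝ) ^ 64 * (((2 : ℝ) ^ e) ^ 2 * u) ≤ 1 := by
    refine le_trans ?_ hm2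
    apply mul_le_mul_of_nonneg_left _ (by positivity)
    exact le_mul_of_one_le_left (by positivity) (one_le_pow₀ hn1)
  set Nu : ℝ := ((2 : ℝ) ^ e) ^ 2 * u with hNu
  have hNu0 : 0 ≤ Nu := by positivity
  have hm5 : (18446744073709551616 : ℝ) * Nu ≤ 1 := by
    have : (2 : ℝ) ^ 64 = 18446744073709551616 := by norm_num
    rw [← this]; exact hm3
  have hm6 : (18446744073709551616 : ℝ) * ((n : ℝ) ^ 2 * Nu) ≤ 1 := by
    have : (2 : ℝ) ^ 64 = 18446744073709551616 := by norm_num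
    rw [← this]; exact hm2
  have hm2M : m2 lam c (rad j) ≤ 2 ^ (Nat.clog 2 n + 2) := by
    have h1 : m2 lam c (rad j) ≤ n := by
      unfold m2
      exact (Finset.card_filter_le _ _).trans (by simp)
    have h2 : n ≤ 2 ^ Nat.clog 2 n := Nat.le_pow_clog (by norm_num) n
    have h3 : 2 ^ Nat.clog 2 n ≤ 2 ^ (Nat.clog 2 n + 2) := Nat.pow_le_pow_right (by norm_num) (by omega)
    omega
  have hclog : (2 : ℝ) ^ Nat.clog 2 n ≤ 2 * n := by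
    rcases Nat.eq_or_lt_of_le hn with h | h
    · rw [← h]; norm_num
    · have h1 := Nat.pow_pred_clog_lt_self (b := 2) (by norm_num) (x := n) h
      have h2 : 0 < Nat.clog 2 n := Nat.clog_pos (by norm_num) h
      have h3 : 2 ^ Nat.clog 2 n = 2 * 2 ^ (Nat.clog 2 n - 1) := by
        rw [← pow_succ']
        congr 1
        omega
      have h4 : 2 ^ Nat.clog 2 n ≤ 2 * n := by
        rw [h3]
        rw [Nat.pred_eq_sub_one] at h1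
        omega
      exact_mod_cast h4
  have hue : u ≤ Nu := le_mul_of_one_le_left hu0 (one_le_pow₀ hN1)
  have h4M : 4 ^ (Nat.clog 2 n + 2 + 1) * (4 * Nu + u) ≤ 1 / 10 := by
    have h1 : (4 : ℝ) ^ (Nat.clog 2 n + 2 + 1) = 64 * ((2 : ℝ) ^ Nat.clog 2 n) ^ 2 := by
      rw [pow_add, pow_add, ← pow_mul, mul_comm (Nat.clog 2 n) 2, pow_mul]
      norm_num
      ring
    have h2 : ((2 : ℝ) ^ Nat.clog 2 n) ^ 2 ≤ (2 * n) ^ 2 := by gcongr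
    calc 4 ^ (Nat.clog 2 n + 2 + 1) * (4 * Nu + u) ≤ (64 * (2 * n) ^ 2) * (5 * Nu) := by
          rw [h1]
          gcongr
          linarith
      _ = 1280 * ((n : ℝ) ^ 2 * Nu) := by ring
      _ ≤ 1 / 10 := by linarith
  -- the radius
  have hr0 : 0 < rad j := by unfold rad; positivity
  have hr2 : rad j ≤ 2 := by
    unfold rad
    rw [div_le_iff₀ (by positivity)]
    have : (2 : ℝ) ^ 1 ≤ 2 ^ j := pow_le_pow_right₀ (by norm_num) hj1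
    linarith
  have hcn : ‖c‖ ≤ 24 := TEST_norm_grd ha hb
  -- nodes
  have hcond : 2 ^ e ≤ 200000 * n * l := hEb.2.1
  have hrq2 : ((2 * (4 / 2 ^ j) : ℚ) : ℝ) = 2 * rad j := by unfold rad; push_cast; ring
  have hrq3 : ((3 * (4 / 2 ^ j) : ℚ) : ℝ) = 3 * rad j := by unfold rad; push_cast; ring
  have hnode2 : ∀ i < 2 ^ e, ColAt X (nodeZ c (2 * rad j) φ e i) ((2 : ℝ)⁻¹ ^ (5 * l + 1)) := by
    intro i hi
    have := hnode j hj a b ha hb e i hcond hi 2 (Or.inl rfl)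
    simpa using this
  have hnode3 : ∀ i < 2 ^ e, ColAt X (nodeZ c (3 * rad j) φ e i) ((2 : ℝ)⁻¹ ^ (5 * l + 1)) := by
    intro i hi
    have := hnode j hj a b ha hb e i hcond hi 3 (Or.inr rfl)
    simpa using this
  have ht0 : (0 : ℝ) < (2 : ℝ)⁻¹ ^ (5 * l + 1) := by positivity
  have ht1 : (2 : ℝ)⁻¹ ^ (5 * l + 1) ≤ 1 := pow_le_one₀ (by norm_num) (by norm_num)
  have htval : (2 : ℝ)⁻¹ ^ (5 * l + 1) * (2 * (2 ^ l) ^ 5) = 1 := by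
    rw [← pow_mul, mul_comm l 5, inv_pow, pow_succ]
    field_simp
  have hprod : ∀ rho : ℝ, ∏ i ∈ Finset.range (2 ^ e),
      ‖(nodeZ c rho φ e i • (1 : Matrix (Fin n) (Fin n) ℂ) - X).det‖ = PiN lam c rho φ e := by
    intro rho
    unfold PiN
    refine Finset.prod_congr rfl (fun i _ => ?_)
    rw [hdet, norm_prod]
  have hbnz : ∀ k (hk : k + 1 < n), X ⟨k + 1, hk⟩ ⟨k, by omega⟩ ≠ 0 := by
    intro k hk h0
    have := hsub k hk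
    rw [h0, norm_zero] at this
    have h5 : (0 : ℝ) < (2 : ℝ)⁻¹ ^ l := by positivity
    linarith
  have hnum : ∀ rho : ℝ, 0 < rho → rho ≤ 6 →
      10 ^ 8 * n ^ 3 * (2 ^ e) ^ 2 * u * (fro X + ‖c‖ + rho + 1) ≤ (2 : ℝ)⁻¹ ^ (5 * l + 1) := by
    intro rho hrho0 hrho
    have h1 : fro X + ‖c‖ + rho + 1 ≤ 35 * n := by linarith
    have h2 : 10 ^ 8 * (n : ℝ) ^ 3 * (2 ^ e) ^ 2 * u * (fro X + ‖c‖ + rho + 1) ≤
        10 ^ 8 * (n : ℝ) ^ 3 * (2 ^ e) ^ 2 * u * (35 * n) := by gcongr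
    refine h2.trans ?_
    have hA : (0 : ℝ) < 2 * (2 ^ l) ^ 5 := by positivity
    rw [← mul_le_mul_iff_left₀ hA, htval]
    calc 10 ^ 8 * (n : ℝ) ^ 3 * (2 ^ e) ^ 2 * u * (35 * n) * (2 * (2 ^ l) ^ 5)
        = 7000000000 * ((n : ℝ) ^ 4 * ((2 : ℝ) ^ e) ^ 2 * (2 ^ l) ^ 5 * u) := by ring
      _ ≤ 2 ^ 64 * ((n : ℝ) ^ 4 * ((2 : ℝ) ^ e) ^ 2 * (2 ^ l) ^ 5 * u) := by gcongr; norm_num
      _ = (2 : ℝ) ^ 64 * (n : ℝ) ^ 4 * ((2 : ℝ) ^ e) ^ 2 * (2 ^ l) ^ 5 * u := by ring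
      _ ≤ 1 := hmaster
  -- the ratio
  have hdist : ∀ rho : ℝ, (∀ i < 2 ^ e, ColAt X (nodeZ c rho φ e i) ((2 : ℝ)⁻¹ ^ (5 * l + 1))) →
      ∀ i, ∀ k < 2 ^ e, (2 : ℝ)⁻¹ ^ (5 * l + 5) * (4 * rad j) ≤ ‖nodeZ c rho φ e k - lam i‖ := by
    intro rho hcol i k hk
    refine le_trans ?_ ((hcol k hk).dist_root hdet i)
    calc (2 : ℝ)⁻¹ ^ (5 * l + 5) * (4 * rad j) ≤ (2 : ℝ)⁻¹ ^ (5 * l + 5) * (4 * 2) := by gcongr
      _ = (2 : ℝ)⁻¹ ^ (5 * l + 1) * (1 / 2) := by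
          rw [show 5 * l + 5 = (5 * l + 1) + 4 by ring, pow_add _ (5 * l + 1) 4]
          ring
      _ ≤ (2 : ℝ)⁻¹ ^ (5 * l + 1) := by linarith
  have hrat := ratio lam c φ hφ1 (r := rad j) (κ := (2 : ℝ)⁻¹ ^ (5 * l + 5)) hr0 (by positivity)
    (pow_le_one₀ (by norm_num) (by norm_num)) (e := e) (K := K) (kh := kh) hEb.2.2.2 h4
    (hdist _ hnode2) (hdist _ hnode3) hkap hfar
  -- the program
  unfold testP
  refine Post.bind (post_cst hu env _ _) ?_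
  rintro cr env1 h1 ⟨C, hC, hCrel⟩
  have hCc : ‖C - c‖ ≤ u * ‖c‖ := by
    have h5 : (((a * (4 / 2 ^ j) : ℚ) : ℂ) + ((b * (4 / 2 ^ j) : ℚ) : ℂ) * I) = c := by
      rw [hc]; unfold grd rad; push_cast; ring
    unfold Rel at hCrel
    rw [h5] at hCrel
    exact hCrel
  refine Post.bind (post_omega hu e (by omega) ?_) ?_
  · have h5 : (e : ℝ) ≤ (2 : ℝ) ^ e := TEST_l_lt e
    have h6 : (e : ℝ) * u ≤ Nu := by
      rw [hNu]
      gcongr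
      calc (e : ℝ) ≤ (2 : ℝ) ^ e := h5
        _ ≤ ((2 : ℝ) ^ e) ^ 2 := by nlinarith
    linarith
  rintro wr env2 h2 ⟨W, hW, hWo⟩
  refine Post.bind (post_circ hu hn (rho := 2 * (4 / 2 ^ j)) (e := e) (by omega)
    (hx.mono (h1.trans h2)) (hC.mono h2) (hφ.mono (h1.trans h2)) hW hess hbnz (by positivity) hCc hφ1 hΦ hWo
    ht0 ht1 (by rw [hrq2]; exact hnode2) (by rw [hrq2]; exact hnum _ (by linarith) (by linarith))) ?_
  rintro p1 env3 h3 ⟨P1, hp1, hP1l, hP1u, hD1⟩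
  rw [hrq2, hprod] at hP1l hP1u hD1
  refine Post.bind (post_circ hu hn (rho := 3 * (4 / 2 ^ j)) (e := e) (by omega)
    (hx.mono ((h1.trans h2).trans h3)) (hC.mono (h2.trans h3)) (hφ.mono ((h1.trans h2).trans h3))
    (hW.mono h3) hess hbnz (by positivity) hCc hφ1 hΦ hWo
    ht0 ht1 (by rw [hrq3]; exact hnode3) (by rw [hrq3]; exact hnum _ (by linarith) (by linarith))) ?_
  rintro p2 env4 h4' ⟨P2, hp2, hP2l, hP2u, hD2⟩
  rw [hrq3, hprod] at hP2l hP2u hD2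
  have hcmp := TEST_cmp hEb.2.2.2 hD1 hD2 hP1l hP1u hP2l hP2u hrat.1 hrat.2
  have hP1 : 0 < P1 := lt_of_lt_of_le (by positivity) hP1l
  have hP2 : 0 < P2 := lt_of_lt_of_le (by positivity) hP2l
  refine Post.bind (post_cst hu env4 _ _) ?_
  rintro br env5 h5 ⟨B, hB, hBrel⟩
  refine Post.bind (post_re hB) ?_
  rintro rb env6 h6 hB6
  have hB0 : |B.re - 3 / 2| ≤ u * (3 / 2) := by
    unfold Rel at hBrel
    have h7 := Complex.abs_re_le_norm (B - ((((3 / 2 : ℚ) : ℂ)) + ((0 : ℚ) : ℂ) * I))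
    have h8 : (B - ((((3 / 2 : ℚ) : ℂ)) + ((0 : ℚ) : ℂ) * I)).re = B.re - 3 / 2 := by
      push_cast
      norm_num
    have h9 : ‖((((3 / 2 : ℚ) : ℂ)) + ((0 : ℚ) : ℂ) * I)‖ = 3 / 2 := by
      push_cast
      norm_num
    rw [h8] at h7
    rw [h9] at hBrel
    linarith
  have h4e : (4 : ℝ) ^ e = ((2 : ℝ) ^ e) ^ 2 := by
    rw [← pow_mul, mul_comm, pow_mul]; norm_num
  have hee : e - 1 + 1 = e := by omega
  refine Post.bind (post_sqrs hu (x := 3 / 2) (by norm_num) hB6 hB0 (e - 1) ?_) ?_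
  · rw [hee, h4e, ← hNu]
    linarith
  rintro tr env7 h7 ⟨T, hT, hTb⟩
  rw [hee, h4e, ← hNu] at hTb
  have h8K : 2 ^ (e - 1) = 8 * K := by
    rw [hK, show (8 : ℕ) = 2 ^ 3 by norm_num, ← pow_add]
    congr 1
    omega
  rw [h8K] at hTb
  exact TEST_tail hu hu0 hP1 hP2 hK1 hue (by linarith) hTb h4M hm2M hcmp.1 hcmp.2
    (hp1.mono (((h4'.trans h5).trans h6).trans h7)) (hp2.mono ((h5.trans h6).trans h7)) hT

end H6LP
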