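import Pool.Agent.H6.LP.Defs

/-!
# TREE1: combinatorics of the quadtree (pure): windows and caps

`khat_sum`: double counting: `∑_p khat p = ∑_{p'} k_{p'} #{p : near p'} ≤ 49 ∑ k` (the positions are distinct).
`child_m4`: a root with `|λ - c| < 4r` (`r = rad (j+1)`, child `c` of `p`) is within `√2 r ≤ 2 rad j` of the grid
point of level `j` obtained by rounding, which is listed (`TInv.list`) and in the window of `p`; group the
roots by these listed points `p'` and use `m2(p') ≤ k_{p'}`.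
-/

set_option autoImplicit false

open Complex Matrix

namespace H6LP

variable {n : ℕ}

theorem TREE1_grd_re (h : ℝ) (a b : ℤ) : (grd h a b).re = h * a := by
  unfold grd
  simp

theorem TREE1_grd_im (h : ℝ) (a b : ℤ) : (grd h a b).im = h * b := by
  unfold grd
  simp

theorem tinv_zero {lam : Fin n → ℂ} (hlam : ∀ i, ‖lam i‖ ≤ 3) (hn : 1 ≤ n) :
    TInv lam 0 (tree0 n) := by
  have hr : rad 0 = 4 := by unfold rad; norm_num
  have hmem : ∀ p ∈ tree0 n, (p.1 ∈ ([-2, -1, 0, 1, 2] : List ℤ) ∧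
      p.2.1 ∈ ([-2, -1, 0, 1, 2] : List ℤ)) ∧ p.2.2 = n := by
    intro p hp
    unfold tree0 at hp
    rw [List.mem_map] at hp
    obtain ⟨q, hq, rfl⟩ := hp
    exact ⟨List.mem_product.1 hq, rfl⟩
  constructor
  · unfold tree0
    rw [List.map_map]
    have : (fun p : ℤ × ℤ × ℕ => (p.1, p.2.1)) ∘ (fun p : ℤ × ℤ => (p.1, p.2, n)) = id := by
      funext p; rfl
    rw [this, List.map_id]
    decide
  · intro p hp
    rw [(hmem p hp).2]; exact hn
  · intro p hp
    rw [(hmem p hp).2]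
    unfold m2
    exact (Finset.card_le_univ _).trans (by simp)
  · intro a b ⟨i, hi⟩
    rw [hr] at hi
    have h1 := Complex.abs_re_le_norm (lam i - grd 4 a b)
    have h2 := Complex.abs_im_le_norm (lam i - grd 4 a b)
    have h3 := Complex.abs_re_le_norm (lam i)
    have h4 := Complex.abs_im_le_norm (lam i)
    have h5 := hlam i
    rw [Complex.sub_re, TREE1_grd_re] at h1
    rw [Complex.sub_im, TREE1_grd_im] at h2
    rw [abs_le] at h1 h2 h3 h4
    have ha : -3 < a ∧ a < 3 := by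
      constructor
      · have : (-3 : ℝ) < a := by linarith
        exact_mod_cast this
      · have : (a : ℝ) < 3 := by linarith
        exact_mod_cast this
    have hb : -3 < b ∧ b < 3 := by
      constructor
      · have : (-3 : ℝ) < b := by linarith
        exact_mod_cast this
      · have : (b : ℝ) < 3 := by linarith
        exact_mod_cast this
    refine ⟨n, ?_⟩
    unfold tree0
    rw [List.mem_map]
    refine ⟨(a, b), List.mem_product.2 ⟨?_, ?_⟩, rfl⟩
    · obtain ⟨h6, h7⟩ := ha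
      interval_cases a <;> simp
    · obtain ⟨h6, h7⟩ := hb
      interval_cases b <;> simp
  · unfold ksum tree0
    rw [List.map_map]
    have : (fun p : ℤ × ℤ × ℕ => p.2.2) ∘ (fun p : ℤ × ℤ => (p.1, p.2, n)) = fun _ => n := by
      funext p; rfl
    rw [this, List.map_const', List.sum_replicate, List.length_product]
    simp
    omega
  · intro p hp
    obtain ⟨⟨h1, h2⟩, -⟩ := hmem p hp
    have key : ∀ x ∈ ([-2, -1, 0, 1, 2] : List ℤ), |x| < 3 * 2 ^ 0 := by decide
    exact ⟨key _ h1, key _ h2⟩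

theorem khat_le_ksum (S : DList) (a b : ℤ) : khat S a b ≤ ksum S := by
  unfold khat ksum
  exact List.Sublist.sum_le_sum (List.filter_sublist.map _) (fun _ _ => Nat.zero_le _)

/-- the list of positions has no duplicates, hence the list has none -/
theorem TREE1_nodup {S : DList} (h : (S.map (fun p => (p.1, p.2.1))).Nodup) : S.Nodup :=
  List.Nodup.of_map _ h

theorem TREE1_ksum {S : DList} (h : S.Nodup) : ksum S = ∑ p ∈ S.toFinset, p.2.2 := by
  unfold ksum
  rw [List.sum_toFinset _ h]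

theorem TREE1_khat {S : DList} (h : S.Nodup) (a b : ℤ) :
    khat S a b = ∑ p ∈ S.toFinset with (|p.1 - a| ≤ 3 ∧ |p.2.1 - b| ≤ 3), p.2.2 := by
  unfold khat
  rw [TREE1_ksum (h.filter _)]
  congr 1
  ext p
  simp

theorem TREE1_window {S : DList} (h : (S.map (fun p => (p.1, p.2.1))).Nodup) (a b : ℤ) :
    (S.toFinset.filter (fun p => |a - p.1| ≤ 3 ∧ |b - p.2.1| ≤ 3)).card ≤ 49 := by
  have hinj : Set.InjOn (fun p : ℤ × ℤ × ℕ => (p.1, p.2.1))
      ((S.toFinset.filter (fun p => |a - p.1| ≤ 3 ∧ |b - p.2.1| ≤ 3) : Finset _) :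
        Set (ℤ × ℤ × ℕ)) := by
    intro p hp q hq hpq
    simp only [Finset.coe_filter, List.mem_toFinset, Set.mem_ofPred_eq] at hp hq
    exact List.inj_on_of_nodup_map h hp.1 hq.1 hpq
  have hsub : (S.toFinset.filter (fun p => |a - p.1| ≤ 3 ∧ |b - p.2.1| ≤ 3)).image
      (fun p : ℤ × ℤ × ℕ => (p.1, p.2.1)) ⊆
      (Finset.Icc (a - 3) (a + 3)) ×ˢ (Finset.Icc (b - 3) (b + 3)) := by
    intro q hq
    rw [Finset.mem_image] at hq
    obtain ⟨p, hp, rfl⟩ := hq
    rw [Finset.mem_filter, abs_le, abs_le] at hp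
    rw [Finset.mem_product, Finset.mem_Icc, Finset.mem_Icc]
    refine ⟨⟨?_, ?_⟩, ⟨?_, ?_⟩⟩ <;> simp only <;> omega
  have h1 := Finset.card_le_card hsub
  rw [Finset.card_image_of_injOn hinj, Finset.card_product, Int.card_Icc, Int.card_Icc] at h1
  have h2 : (a + 3 + 1 - (a - 3)).toNat = 7 := by
    have : a + 3 + 1 - (a - 3) = 7 := by ring
    rw [this]; rfl
  have h3 : (b + 3 + 1 - (b - 3)).toNat = 7 := by
    have : b + 3 + 1 - (b - 3) = 7 := by ring
    rw [this]; rfl
  rw [h2, h3] at h1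
  exact h1

theorem TREE1_khat_sum {S : DList} (h : (S.map (fun p => (p.1, p.2.1))).Nodup) :
    ∑ p ∈ S.toFinset, khat S p.1 p.2.1 ≤ 49 * ksum S := by
  have hS := TREE1_nodup h
  calc ∑ p ∈ S.toFinset, khat S p.1 p.2.1
      = ∑ p ∈ S.toFinset, ∑ q ∈ S.toFinset,
          if (|q.1 - p.1| ≤ 3 ∧ |q.2.1 - p.2.1| ≤ 3) then q.2.2 else 0 := by
        refine Finset.sum_congr rfl (fun p _ => ?_)
        rw [TREE1_khat hS, Finset.sum_filter]
    _ = ∑ q ∈ S.toFinset, ∑ p ∈ S.toFinset,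
          if (|q.1 - p.1| ≤ 3 ∧ |q.2.1 - p.2.1| ≤ 3) then q.2.2 else 0 := Finset.sum_comm
    _ ≤ ∑ q ∈ S.toFinset, 49 * q.2.2 := by
        refine Finset.sum_le_sum (fun q _ => ?_)
        rw [← Finset.sum_filter, Finset.sum_const, smul_eq_mul]
        exact Nat.mul_le_mul_right _ (TREE1_window h _ _)
    _ = 49 * ksum S := by rw [← Finset.mul_sum, TREE1_ksum hS]

theorem TREE1_length {S : DList} (hp : ∀ p ∈ S, 1 ≤ p.2.2) : S.length ≤ ksum S := by
  unfold ksum
  have := List.length_le_sum_of_one_le (S.map (fun p => p.2.2)) (by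
    intro i hi
    rw [List.mem_map] at hi
    obtain ⟨p, hpS, rfl⟩ := hi
    exact hp p hpS)
  rwa [List.length_map] at this

theorem tinv_cap {lam : Fin n → ℂ} {j : ℕ} {S : DList} (h : TInv lam j S) : capOK n S = true := by
  have h1 := h.sum
  have h2 : S.length ≤ 98 * n := (TREE1_length h.pos).trans h1
  have h3 : (S.map (fun p => khat S p.1 p.2.1 + 1)).sum ≤ 4900 * n := by
    have hS := TREE1_nodup h.nodup
    rw [← List.sum_toFinset _ hS, Finset.sum_add_distrib, Finset.sum_const, smul_eq_mul, mul_one,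
      List.toFinset_card_of_nodup hS]
    have := TREE1_khat_sum h.nodup
    omega
  unfold capOK
  rw [Bool.and_eq_true, Bool.and_eq_true]
  exact ⟨⟨decide_eq_true h1, decide_eq_true h2⟩, decide_eq_true h3⟩

theorem TREE1_round (R x : ℝ) (hR : 0 < R) : |x - R * (round (x / R) : ℤ)| ≤ R / 2 := by
  have h1 := abs_sub_round (x / R)
  have h2 : x - R * (round (x / R) : ℤ) = R * (x / R - (round (x / R) : ℤ)) := by
    field_simp
  rw [h2, abs_mul, abs_of_pos hR]
  nlinarith

theorem TREE1_near {R x : ℝ} {p d a : ℤ} (hR : 0 < R) (hd : 0 ≤ d ∧ d ≤ 1)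
    (hx : |x - R / 2 * ((2 * p + d : ℤ) : ℝ)| < 2 * R) (ha : |x - R * a| ≤ R / 2) :
    |a - p| ≤ 3 := by
  push_cast at hx
  rw [abs_lt] at hx
  rw [abs_le] at ha ⊢
  have hd0 : (0 : ℝ) ≤ d := by exact_mod_cast hd.1
  have hd1 : (d : ℝ) ≤ 1 := by exact_mod_cast hd.2
  constructor
  · by_contra hc
    push Not at hc
    have hc' : (a : ℝ) - p ≤ -4 := by
      have : a - p ≤ -4 := by omega
      exact_mod_cast this
    nlinarith
  · by_contra hc
    push Not at hc
    have hc' : (4 : ℝ) ≤ (a : ℝ) - p := by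
      have : 4 ≤ a - p := by omega
      exact_mod_cast this
    nlinarith

theorem TREE1_m4 {lam : Fin n → ℂ} {j : ℕ} {S : DList} (h : TInv lam j S) {p : ℤ × ℤ × ℕ}
    {d e : ℤ} (hd : 0 ≤ d ∧ d ≤ 1) (he : 0 ≤ e ∧ e ≤ 1) :
    m4 lam (grd (rad (j + 1)) (2 * p.1 + d) (2 * p.2.1 + e)) (rad (j + 1)) ≤ khat S p.1 p.2.1 := by
  classical
  have hR : 0 < rad j := by unfold rad; positivity
  have hr : rad (j + 1) = rad j / 2 := by
    unfold rad; rw [pow_succ]; field_simp
  rw [TREE1_khat (TREE1_nodup h.nodup), hr]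
  unfold m4
  have hsub : (Finset.univ.filter (fun i =>
      ‖lam i - grd (rad j / 2) (2 * p.1 + d) (2 * p.2.1 + e)‖ < 4 * (rad j / 2))) ⊆
      (S.toFinset.filter (fun q => |q.1 - p.1| ≤ 3 ∧ |q.2.1 - p.2.1| ≤ 3)).biUnion
        (fun q => Finset.univ.filter (fun i => ‖lam i - grd (rad j) q.1 q.2.1‖ ≤ 2 * rad j)) := by
    intro i hi
    rw [Finset.mem_filter] at hi
    have hi := hi.2
    have h1 := Complex.abs_re_le_norm (lam i - grd (rad j / 2) (2 * p.1 + d) (2 * p.2.1 + e))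
    have h2 := Complex.abs_im_le_norm (lam i - grd (rad j / 2) (2 * p.1 + d) (2 * p.2.1 + e))
    rw [Complex.sub_re, TREE1_grd_re] at h1
    rw [Complex.sub_im, TREE1_grd_im] at h2
    have h3 := TREE1_round (rad j) (lam i).re hR
    have h4 := TREE1_round (rad j) (lam i).im hR
    set a := round ((lam i).re / rad j) with ha
    set b := round ((lam i).im / rad j) with hb
    have h5 : ‖lam i - grd (rad j) a b‖ ≤ 2 * rad j := by
      have := Complex.norm_le_abs_re_add_abs_im (lam i - grd (rad j) a b)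
      rw [Complex.sub_re, Complex.sub_im, TREE1_grd_re, TREE1_grd_im] at this
      linarith
    obtain ⟨k, hk⟩ := h.list a b ⟨i, h5⟩
    rw [Finset.mem_biUnion]
    refine ⟨(a, b, k), ?_, ?_⟩
    · rw [Finset.mem_filter, List.mem_toFinset]
      refine ⟨hk, ?_, ?_⟩
      · exact TREE1_near hR hd (lt_of_le_of_lt h1 (by linarith)) h3
      · exact TREE1_near hR he (lt_of_le_of_lt h2 (by linarith)) h4
    · rw [Finset.mem_filter]
      exact ⟨Finset.mem_univ _, h5⟩
  refine ((Finset.card_le_card hsub).trans Finset.card_biUnion_le).trans ?_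
  refine Finset.sum_le_sum (fun q hq => ?_)
  rw [Finset.mem_filter, List.mem_toFinset] at hq
  have := h.low q hq.1
  unfold m2 at this
  convert this

/-- the bound `khat` of a child -/
theorem child_m4 {lam : Fin n → ℂ} {j : ℕ} {S : DList} (h : TInv lam j S) {c : ℤ × ℤ × ℕ}
    (hc : c ∈ children S) :
    m4 lam (grd (rad (j + 1)) c.1 c.2.1) (rad (j + 1)) ≤ c.2.2 ∧ c.2.2 ≤ 98 * n ∧
      |c.1| < 3 * 2 ^ (j + 1) ∧ |c.2.1| < 3 * 2 ^ (j + 1) := by
  unfold children at hc
  rw [List.mem_flatMap] at hc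
  obtain ⟨p, hp, hc⟩ := hc
  obtain ⟨d, e, hd, he, rfl⟩ : ∃ d e : ℤ, (0 ≤ d ∧ d ≤ 1) ∧ (0 ≤ e ∧ e ≤ 1) ∧
      c = (2 * p.1 + d, 2 * p.2.1 + e, khat S p.1 p.2.1) := by
    simp only [List.mem_cons, List.not_mem_nil, or_false] at hc
    rcases hc with rfl | rfl | rfl | rfl
    · exact ⟨0, 0, by norm_num, by norm_num, by simp⟩
    · exact ⟨1, 0, by norm_num, by norm_num, by simp⟩
    · exact ⟨0, 1, by norm_num, by norm_num, by simp⟩
    · exact ⟨1, 1, by norm_num, by norm_num, by simp⟩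
  refine ⟨TREE1_m4 h hd he, (khat_le_ksum _ _ _).trans h.sum, ?_, ?_⟩
  · have h1 := (h.box p hp).1
    rw [abs_lt] at h1
    rw [abs_lt, pow_succ]
    simp only
    constructor <;> omega
  · have h1 := (h.box p hp).2
    rw [abs_lt] at h1
    rw [abs_lt, pow_succ]
    simp only
    constructor <;> omega

end H6LP
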